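import Pool.Agent.H81.Coef

namespace Pool.Agent.H81

open Set

/-- a pattern invariant function takes the same value on two patterns which agree at all the
crossings at which the function is sensitive -/
lemma pat_agree {p : Circ → ℂ} (hp : IsRegular p) {F : (Circ → ℝ) → ℝ} (hF : PI p F)
    (Ins : Circ × Circ → Prop)
    (hins : ∀ x, IsCr p x → Ins x → ∀ y, Valid p y → ∀ e : ℝ, (e = 1 ∨ e = -1) →
      F (up y x e) = F y) {y' : Circ → ℝ} (hy' : Valid p y') :
    ∀ y, Valid p y → (∀ s t, IsDbl p s t → Ins (s, t) ∨ 0 < (y s - y t) * (y' s - y' t)) →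
      F y = F y' := by
  classical
  have key : ∀ T : Finset Circ, ∀ y, Valid p y →
      (∀ s t, IsDbl p s t → Ins (s, t) ∨ 0 < (y s - y t) * (y' s - y' t)) →
      (∀ s t, IsDbl p s t → s ∉ T → t ∉ T → 0 < (y s - y t) * (y' s - y' t)) → F y = F y' := by
    intro T
    induction T using Finset.induction_on with
    | empty =>
      intro y _ _ h
      exact hF _ _ fun s t hst => h s t hst (by simp) (by simp)
    | insert d T hd ih =>
      intro y hy hI h
      by_cases hf : d ∈ feet p
      · obtain ⟨t, htd, ht⟩ := hf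
        have hx : IsCr p (d, t) := ⟨htd.symm, ht.symm⟩
        by_cases hpos : 0 < (y d - y t) * (y' d - y' t)
        · refine ih y hy hI ?_
          intro s s' hss hs hs'
          by_cases h1 : s = d
          · subst h1
            have : t = s' := hp.uniq hx hss
            subst this
            exact hpos
          · by_cases h2 : s' = d
            · subst h2
              have : t = s := hp.uniq hx hss.symm
              subst this
              linarith
            · exact h s s' hss (by simp [h1, hs]) (by simp [h2, hs'])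
        · have hInsd : Ins (d, t) := (hI d t hx).resolve_right hpos
          have hne : y' d - y' t ≠ 0 := sub_ne_zero.2 (hy' _ _ hx)
          obtain ⟨e, he, he'⟩ : ∃ e : ℝ, (e = 1 ∨ e = -1) ∧ 0 < e * (y' d - y' t) := by
            rcases lt_or_gt_of_ne hne with h3 | h3
            · exact ⟨-1, Or.inr rfl, by linarith⟩
            · exact ⟨1, Or.inl rfl, by linarith⟩
          have he0 : e ≠ 0 := by rcases he with rfl | rfl <;> norm_num
          have hfix1 : 0 < (up y (d, t) e d - up y (d, t) e t) * (y' d - y' t) := by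
            rw [up_fst (x := (d, t)), up_ne _ _ _ htd]
            simp only [add_sub_cancel_left]
            exact he'
          rw [← hins (d, t) hx hInsd y hy e he]
          refine ih _ (hy.up hp hx he0) ?_ ?_
          · intro s s' hss
            by_cases h1 : s = d
            · subst h1
              have : t = s' := hp.uniq hx hss
              subst this
              exact Or.inr hfix1
            · by_cases h2 : s' = d
              · subst h2
                have : t = s := hp.uniq hx hss.symm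
                subst this
                right; linarith
              · rw [up_ne _ _ _ h1, up_ne _ _ _ h2]
                exact hI s s' hss
          · intro s s' hss hs hs'
            by_cases h1 : s = d
            · subst h1
              have : t = s' := hp.uniq hx hss
              subst this
              exact hfix1
            · by_cases h2 : s' = d
              · subst h2
                have : t = s := hp.uniq hx hss.symm
                subst this
                linarith
              · rw [up_ne _ _ _ h1, up_ne _ _ _ h2]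
                exact h s s' hss (by simp [h1, hs]) (by simp [h2, hs'])
      · refine ih y hy hI ?_
        intro s t hst hs ht
        refine h s t hst ?_ ?_
        · simp only [Finset.mem_insert, not_or]
          exact ⟨fun h1 => hf (h1 ▸ hst.left_mem), hs⟩
        · simp only [Finset.mem_insert, not_or]
          exact ⟨fun h1 => hf (h1 ▸ hst.right_mem), ht⟩
  intro y hy hI
  refine key hp.fin.toFinset y hy hI fun s t hst hs _ => ?_
  exact absurd (hp.fin.mem_toFinset.2 hst.left_mem) hs

variable {v : (Circ → ℂ × ℝ) → ℝ}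

/-- second difference -/
noncomputable def H2 (v : (Circ → ℂ × ℝ) → ℝ) (p : Circ → ℂ) (x x' : Circ × Circ) :
    (Circ → ℝ) → ℝ := D (D (V v p) x) x'

lemma H2_PI (hv : IsInv v) {p : Circ → ℂ} (hp : IsRegular p) {x x' : Circ × Circ}
    (h1 : IsCr p x) (h2 : IsCr p x') : PI p (H2 v p x x') :=
  ((V_PI hv hp).D hp h1).D hp h2

lemma H2_insens (hv : IsInv v) {p : Circ → ℂ} (hp : IsRegular p) {x x' : Circ × Circ}
    (h1 : IsCr p x) (h2 : IsCr p x') (hs : Sep x x') :
    ∀ d, IsCr p d → ¬ (Sep d x ∧ Sep d x') → ∀ y, Valid p y → ∀ e : ℝ, (e = 1 ∨ e = -1) →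
      H2 v p x x' (up y d e) = H2 v p x x' y := by
  have hPI := H2_PI hv hp h1 h2
  have i2 : ∀ y, Valid p y → ∀ e : ℝ, (e = 1 ∨ e = -1) →
      H2 v p x x' (up y x' e) = H2 v p x x' y := fun y _ e _ =>
    D_up_self _ h2.1.symm _ _
  have i1 : ∀ y, Valid p y → ∀ e : ℝ, (e = 1 ∨ e = -1) →
      H2 v p x x' (up y x e) = H2 v p x x' y := fun y _ e _ => by
    have : H2 v p x x' = H2 v p x' x := D_comm' _ hs
    rw [this]
    exact D_up_self _ h1.1.symm _ _
  intro d hd hnot y hy e he
  rcases sep_or hp hd h1 with k1 | rfl | rfl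
  · rcases sep_or hp hd h2 with k2 | rfl | rfl
    · exact absurd ⟨k1, k2⟩ hnot
    · exact i2 y hy e he
    · exact insens_swap hp hPI h2 i2 y hy e he
  · exact i1 y hy e he
  · exact insens_swap hp hPI h1 i1 y hy e he

/-- descending pattern flipped at the first feet in `T` -/
noncomputable def flp (p : Circ → ℂ) (a : ℝ) (T : Finset Circ) : Circ → ℝ :=
  open Classical in fun r => if r ∈ T then desc a (ptn p r) - 1 else desc a r

lemma flp_mem {p : Circ → ℂ} {a : ℝ} {T : Finset Circ} {r : Circ} (h : r ∈ T) :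
    flp p a T r = desc a (ptn p r) - 1 := by unfold flp; rw [if_pos h]

lemma flp_not_mem {p : Circ → ℂ} {a : ℝ} {T : Finset Circ} {r : Circ} (h : r ∉ T) :
    flp p a T r = desc a r := by unfold flp; rw [if_neg h]

lemma not_FF_ptn {p : Circ → ℂ} (hp : IsRegular p) {a : ℝ} {s t : Circ} (h : IsDbl p s t)
    (hs : s ∈ FF p a) : t ∉ FF p a := by
  intro ht
  rw [mem_FF hp] at hs ht
  rw [ptn_eq hp h] at hs
  rw [ptn_eq hp h.symm] at ht
  linarith [hs.2, ht.2]

lemma flp_diff {p : Circ → ℂ} (hp : IsRegular p) {a : ℝ} {T : Finset Circ} (hT : T ⊆ FF p a)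
    {s t : Circ} (h : IsDbl p s t) (hs : s ∈ T) : flp p a T s - flp p a T t = -1 := by
  rw [flp_mem hs, flp_not_mem (fun ht => not_FF_ptn hp h (hT hs) (hT ht)), ptn_eq hp h]
  ring

lemma flp_valid {p : Circ → ℂ} (hp : IsRegular p) {a : ℝ} {T : Finset Circ} (hT : T ⊆ FF p a) :
    Valid p (flp p a T) := by
  intro s t h heq
  by_cases hs : s ∈ T
  · have := flp_diff hp hT h hs
    linarith
  · by_cases ht : t ∈ T
    · have := flp_diff hp hT h.symm ht
      linarith
    · rw [flp_not_mem hs, flp_not_mem ht] at heq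
      exact valid_desc p a s t h heq

lemma tele (hv : IsInv v) {p : Circ → ℂ} (hp : IsRegular p) {x x' : Circ × Circ}
    (h1 : IsCr p x) (h2 : IsCr p x') (hs : Sep x x') (a : ℝ) (T : Finset Circ) (hT : T ⊆ FF p a)
    (hsep : ∀ d ∈ T, Sep x (cr p d) ∧ Sep x' (cr p d)) :
    H2 v p x x' (desc a) - H2 v p x x' (flp p a T) = 8 * ∑ d ∈ T, cc v p x x' (cr p d) := by
  classical
  induction T using Finset.induction_on with
  | empty =>
    have : flp p a ∅ = desc a := by funext r; exact flp_not_mem (by simp)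
    rw [this]; simp
  | insert d T hd ih =>
    have hTF : T ⊆ FF p a := fun r hr => hT (Finset.mem_insert_of_mem hr)
    have hdF : d ∈ FF p a := hT (Finset.mem_insert_self _ _)
    have hdf : d ∈ feet p := ((mem_FF hp).1 hdF).1
    have hlt := ((mem_FF hp).1 hdF).2
    have hcr : IsCr p (cr p d) := cr_isCr hdf
    have ih' := ih hTF (fun r hr => hsep r (Finset.mem_insert_of_mem hr))
    have hptn : ptn p d ∉ T := fun h => not_FF_ptn hp hcr hdF (hTF h)
    have hptn2 : ptn p d ∉ insert d T := fun h => not_FF_ptn hp hcr hdF (hT h)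
    have e1 : flp p a (insert d T) = up (flp p a T) (cr p d) (-1) := by
      funext r
      by_cases hr : r = d
      · subst hr
        have : up (flp p a T) (cr p r) (-1) r = flp p a T (ptn p r) + -1 := up_fst _ (cr p r) _
        rw [this, flp_mem (Finset.mem_insert_self _ _), flp_not_mem hptn]
        ring
      · have : up (flp p a T) (cr p d) (-1) r = flp p a T r := up_ne _ (cr p d) _ hr
        rw [this]
        by_cases hrT : r ∈ T
        · rw [flp_mem hrT, flp_mem (Finset.mem_insert_of_mem hrT)]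
        · rw [flp_not_mem hrT, flp_not_mem (by simp [hr, hrT])]
    have e2 : SamePat p (flp p a T) (up (flp p a T) (cr p d) 1) := by
      refine samePat_up_self hp hcr (flp_valid hp hTF) ?_
      show 0 < (flp p a T d - flp p a T (ptn p d)) * 1
      rw [flp_not_mem hd, flp_not_mem hptn]
      unfold desc
      linarith
    have e3 : H2 v p x x' (flp p a T) = H2 v p x x' (up (flp p a T) (cr p d) 1) :=
      H2_PI hv hp h1 h2 _ _ e2
    have tri : Tri p x x' (cr p d) :=
      ⟨h1, h2, hcr, hs, (hsep d (Finset.mem_insert_self _ _)).1,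
        (hsep d (Finset.mem_insert_self _ _)).2⟩
    have e4 : H2 v p x x' (up (flp p a T) (cr p d) 1) - H2 v p x x' (up (flp p a T) (cr p d) (-1)) =
        8 * cc v p x x' (cr p d) := D3_eq hv hp tri (flp_valid hp hTF)
    rw [Finset.sum_insert hd, e1]
    linarith

/-- the second difference of a descending diagram in terms of the cubic coefficients -/
lemma H2_desc (hv : IsInv v) {p : Circ → ℂ} (hp : IsRegular p) {x x' : Circ × Circ}
    (h1 : IsCr p x) (h2 : IsCr p x') (hs : Sep x x') (a : ℝ) :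
    H2 v p x x' (desc a) = 4 * ∑ d ∈ (open Classical in
      (FF p a).filter (fun d => Sep x (cr p d) ∧ Sep x' (cr p d))), cc v p x x' (cr p d) := by
  classical
  set T := (FF p a).filter (fun d => Sep x (cr p d) ∧ Sep x' (cr p d)) with hT
  have hTF : T ⊆ FF p a := Finset.filter_subset _ _
  have key := tele hv hp h1 h2 hs a T hTF (fun d hd => (Finset.mem_filter.1 hd).2)
  have hneg : H2 v p x x' (flp p a T) = H2 v p x x' (fun t => - desc a t) := by
    have hvneg : Valid p (fun t => - desc a t) := fun s t h h' =>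
      valid_desc p a s t h (neg_injective h')
    refine pat_agree hp (H2_PI hv hp h1 h2) (fun d => ¬ (Sep d x ∧ Sep d x'))
      (fun d hd hn => H2_insens hv hp h1 h2 hs d hd hn) hvneg _ (flp_valid hp hTF) ?_
    intro s t hst
    by_cases hn : Sep (s, t) x ∧ Sep (s, t) x'
    · right
      have main : ∀ s t, IsDbl p s t → Sep (s, t) x → Sep (s, t) x' → lift a s < lift a t →
          0 < (flp p a T s - flp p a T t) * (-desc a s - -desc a t) := by
        intro s t hst k1 k2 hlt
        have hcr : cr p s = (s, t) := by unfold cr; rw [ptn_eq hp hst]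
        have hsT : s ∈ T := by
          rw [hT, Finset.mem_filter, mem_FF hp, hcr]
          exact ⟨⟨hst.left_mem, by rw [ptn_eq hp hst]; exact hlt⟩, k1.symm, k2.symm⟩
        rw [flp_diff hp hTF hst hsT]
        unfold desc
        linarith
      rcases lt_trichotomy (lift a s) (lift a t) with h | h | h
      · exact main s t hst hn.1 hn.2 h
      · exact absurd h (lift_ne hst.1)
      · have := main t s hst.symm hn.1.swap_left hn.2.swap_left h
        linarith
    · left; exact hn
  have hodd : H2 v p x x' (fun t => - desc a t) = - H2 v p x x' (desc a) :=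
    D2_V_neg hv hp h1 h2 (valid_desc p a)
  rw [hneg, hodd] at key
  linarith

/-- a crossing outside the arc `(a,b)` -/
structure Out (p : Circ → ℂ) (a b : ℝ) (x : Circ × Circ) : Prop where
  cr : IsCr p x
  o1 : b < lift a x.1
  o2 : b < lift a x.2

lemma Agree.eq_of_lt {p₀ p₁ : Circ → ℂ} {a b : ℝ} (A : Agree p₀ p₁ a b) {s : Circ}
    (h : b < lift a s) : p₀ s = p₁ s := by
  have := A.agree (lift a s) h.le (lift_lt a s).le
  rwa [coe_lift] at this

lemma Out.tr {p₀ p₁ : Circ → ℂ} {a b : ℝ} (A : Agree p₀ p₁ a b) {x : Circ × Circ}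
    (h : Out p₀ a b x) : Out p₁ a b x :=
  ⟨⟨h.cr.1, by rw [← A.eq_of_lt h.o1, ← A.eq_of_lt h.o2]; exact h.cr.2⟩, h.o1, h.o2⟩

lemma Out.swap {p : Circ → ℂ} {a b : ℝ} {x : Circ × Circ} (h : Out p a b x) :
    Out p a b x.swap := ⟨h.cr.swap, h.o2, h.o1⟩

/-- patterns obtained from the descending one by changes outside of the arc -/
structure OutPat (p : Circ → ℂ) (a b : ℝ) (y : Circ → ℝ) : Prop where
  val : Valid p y
  arc : ∀ s t, IsDbl p s t → lift a s < b → lift a s < lift a t → y t < y s

lemma outPat_desc (p : Circ → ℂ) (a b : ℝ) : OutPat p a b (desc a) :=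
  ⟨valid_desc p a, fun s t _ _ h => by unfold desc; linarith⟩

lemma OutPat.up {p : Circ → ℂ} {a b : ℝ} {y : Circ → ℝ} (h : OutPat p a b y)
    (hp : IsRegular p) {x : Circ × Circ} (hx : Out p a b x) {e : ℝ} (he : e ≠ 0) :
    OutPat p a b (up y x e) := by
  refine ⟨h.val.up hp hx.cr he, fun s t hst h1 h2 => ?_⟩
  have hs1 : s ≠ x.1 := fun h' => by rw [h'] at h1; linarith [hx.o1]
  have hs2 : s ≠ x.2 := fun h' => by rw [h'] at h1; linarith [hx.o2]
  have hsep := hp.sep (x := (s, t)) (x' := x) hst hx.cr hs1 hs2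
  rw [up_ne _ _ _ hs1, up_ne _ _ _ hsep.h21]
  exact h.arc s t hst h1 h2

lemma V_agree (hv : IsInv v) {p₀ p₁ : Circ → ℂ} {a b : ℝ} (A : Agree p₀ p₁ a b) {y : Circ → ℝ}
    (h0 : OutPat p₀ a b y) (h1 : OutPat p₁ a b y) : V v p₀ y = V v p₁ y :=
  overpass hv A h0.arc h1.arc fun s t hst _ _ => h0.val.samePat s t hst

/-- coefficients of crossings outside the arc agree -/
theorem cc_agree (hv : IsInv v) {p₀ p₁ : Circ → ℂ} {a b : ℝ} (A : Agree p₀ p₁ a b)
    {x₁ x₂ x₃ : Circ × Circ} (h : Tri p₀ x₁ x₂ x₃) (h1 : Out p₀ a b x₁) (h2 : Out p₀ a b x₂)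
    (h3 : Out p₀ a b x₃) : cc v p₀ x₁ x₂ x₃ = cc v p₁ x₁ x₂ x₃ ∧ Tri p₁ x₁ x₂ x₃ := by
  have t1 : Tri p₁ x₁ x₂ x₃ := ⟨(h1.tr A).cr, (h2.tr A).cr, (h3.tr A).cr, h.s12, h.s13, h.s23⟩
  refine ⟨?_, t1⟩
  have e0 := D3_eq hv A.r0 h (valid_desc p₀ a)
  have e1 := D3_eq hv A.r1 t1 (valid_desc p₁ a)
  have key : D3 v p₀ x₁ x₂ x₃ (desc a) = D3 v p₁ x₁ x₂ x₃ (desc a) := by
    have hV : ∀ e₁ e₂ e₃ : ℝ, e₁ ≠ 0 → e₂ ≠ 0 → e₃ ≠ 0 →
        V v p₀ (up (up (up (desc a) x₃ e₃) x₂ e₂) x₁ e₁) =
        V v p₁ (up (up (up (desc a) x₃ e₃) x₂ e₂) x₁ e₁) := fun e₁ e₂ e₃ k1 k2 k3 =>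
      V_agree hv A ((((outPat_desc p₀ a b).up A.r0 h3 k3).up A.r0 h2 k2).up A.r0 h1 k1)
        ((((outPat_desc p₁ a b).up A.r1 (h3.tr A) k3).up A.r1 (h2.tr A) k2).up A.r1 (h1.tr A) k1)
    simp only [D3, D]
    rw [hV _ _ _ (by norm_num) (by norm_num) (by norm_num),
      hV _ _ _ (by norm_num) (by norm_num) (by norm_num),
      hV _ _ _ (by norm_num) (by norm_num) (by norm_num),
      hV _ _ _ (by norm_num) (by norm_num) (by norm_num),
      hV _ _ _ (by norm_num) (by norm_num) (by norm_num),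
      hV _ _ _ (by norm_num) (by norm_num) (by norm_num),
      hV _ _ _ (by norm_num) (by norm_num) (by norm_num),
      hV _ _ _ (by norm_num) (by norm_num) (by norm_num)]
  linarith

/-- first feet in the arc `(a,b)` -/
noncomputable def AF (p : Circ → ℂ) (a b : ℝ) : Finset Circ :=
  open Classical in (FF p a).filter (fun s => lift a s < b)

lemma mem_AF {p : Circ → ℂ} (hp : IsRegular p) {a b : ℝ} {s : Circ} :
    s ∈ AF p a b ↔ s ∈ feet p ∧ lift a s < b ∧ lift a s < lift a (ptn p s) := by
  unfold AF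
  rw [Finset.mem_filter, mem_FF hp]
  tauto

/-- **Arc identity**. -/
theorem arc_identity (hv : IsInv v) {p₀ p₁ : Circ → ℂ} {a b : ℝ} (A : Agree p₀ p₁ a b)
    {x x' : Circ × Circ} (hs : Sep x x') (h1 : Out p₀ a b x) (h2 : Out p₀ a b x') :
    ∑ d ∈ AF p₀ a b, cc v p₀ x x' (cr p₀ d) = ∑ d ∈ AF p₁ a b, cc v p₁ x x' (cr p₁ d) := by
  classical
  have g1 := h1.tr A
  have g2 := h2.tr A
  have e0 := H2_desc hv A.r0 h1.cr h2.cr hs a
  have e1 := H2_desc hv A.r1 g1.cr g2.cr hs a
  have key : H2 v p₀ x x' (desc a) = H2 v p₁ x x' (desc a) := by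
    have hV : ∀ e₁ e₂ : ℝ, e₁ ≠ 0 → e₂ ≠ 0 →
        V v p₀ (up (up (desc a) x' e₂) x e₁) = V v p₁ (up (up (desc a) x' e₂) x e₁) :=
      fun e₁ e₂ k1 k2 =>
      V_agree hv A (((outPat_desc p₀ a b).up A.r0 h2 k2).up A.r0 h1 k1)
        (((outPat_desc p₁ a b).up A.r1 g2 k2).up A.r1 g1 k1)
    simp only [H2, D]
    rw [hV _ _ (by norm_num) (by norm_num), hV _ _ (by norm_num) (by norm_num),
      hV _ _ (by norm_num) (by norm_num), hV _ _ (by norm_num) (by norm_num)]
  rw [e0, e1] at key
  have key2 := mul_left_cancel₀ (by norm_num : (4:ℝ) ≠ 0) key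
  -- split the sums
  have split : ∀ (p : Circ → ℂ), IsRegular p → (b : Circ) ∉ feet p → Out p a b x → Out p a b x' →
      ∑ d ∈ (FF p a).filter (fun d => Sep x (cr p d) ∧ Sep x' (cr p d)), cc v p x x' (cr p d) =
      ∑ d ∈ AF p a b, cc v p x x' (cr p d) +
      ∑ d ∈ (FF p a).filter (fun d => (Sep x (cr p d) ∧ Sep x' (cr p d)) ∧ b < lift a d),
        cc v p x x' (cr p d) := by
    intro p hp hb k1 k2
    rw [← Finset.sum_filter_add_sum_filter_not
      ((FF p a).filter (fun d => Sep x (cr p d) ∧ Sep x' (cr p d))) (fun d => lift a d < b)]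
    congr 1
    · apply Finset.sum_congr _ fun _ _ => rfl
      ext d
      unfold AF
      simp only [Finset.mem_filter]
      constructor
      · rintro ⟨⟨k3, _⟩, k4⟩
        exact ⟨k3, k4⟩
      · rintro ⟨k3, k4⟩
        refine ⟨⟨k3, ?_, ?_⟩, k4⟩
        · refine (hp.sep (cr_isCr ((mem_FF hp).1 k3).1) k1.cr ?_ ?_).symm
          · intro h; have := k1.o1; rw [← h] at this; exact lt_asymm this k4
          · intro h; have := k1.o2; rw [← h] at this; exact lt_asymm this k4
        · refine (hp.sep (cr_isCr ((mem_FF hp).1 k3).1) k2.cr ?_ ?_).symm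
          · intro h; have := k2.o1; rw [← h] at this; exact lt_asymm this k4
          · intro h; have := k2.o2; rw [← h] at this; exact lt_asymm this k4
    · apply Finset.sum_congr _ fun _ _ => rfl
      ext d
      simp only [Finset.mem_filter]
      constructor
      · rintro ⟨⟨k3, k5⟩, k4⟩
        refine ⟨k3, k5, lt_of_le_of_ne (not_lt.1 k4) ?_⟩
        exact (lift_ne_of_not_feet hb ((mem_FF hp).1 k3).1).symm
      · rintro ⟨k3, k5, k4⟩
        exact ⟨⟨k3, k5⟩, not_lt.2 k4.le⟩
  rw [split p₀ A.r0 A.b0 h1 h2, split p₁ A.r1 A.b1 g1 g2] at key2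
  have hout : ∑ d ∈ (FF p₀ a).filter (fun d => (Sep x (cr p₀ d) ∧ Sep x' (cr p₀ d)) ∧ b < lift a d),
        cc v p₀ x x' (cr p₀ d) =
      ∑ d ∈ (FF p₁ a).filter (fun d => (Sep x (cr p₁ d) ∧ Sep x' (cr p₁ d)) ∧ b < lift a d),
        cc v p₁ x x' (cr p₁ d) := by
    have tr : ∀ (p q : Circ → ℂ), Agree p q a b → ∀ d, d ∈ FF p a → b < lift a d →
        d ∈ FF q a ∧ cr q d = cr p d ∧ Out p a b (cr p d) := by
      intro p q B d k1 k2
      rw [mem_FF B.r0] at k1
      have o : Out p a b (cr p d) := ⟨cr_isCr k1.1, k2, k2.trans k1.2⟩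
      have o' := o.tr B
      have hd : IsDbl q d (ptn p d) := o'.cr
      have e : ptn q d = ptn p d := ptn_eq B.r1 hd
      refine ⟨(mem_FF B.r1).2 ⟨hd.left_mem, by rw [e]; exact k1.2⟩, ?_, o⟩
      unfold cr; rw [e]
    apply Finset.sum_congr
    · ext d
      simp only [Finset.mem_filter]
      constructor
      · rintro ⟨k1, k2, k3⟩
        obtain ⟨m1, m2, _⟩ := tr p₀ p₁ A d k1 k3
        rw [m2]
        exact ⟨m1, k2, k3⟩
      · rintro ⟨k1, k2, k3⟩
        obtain ⟨m1, m2, _⟩ := tr p₁ p₀ A.symm d k1 k3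
        rw [m2]
        exact ⟨m1, k2, k3⟩
    · intro d hd
      simp only [Finset.mem_filter] at hd
      obtain ⟨k1, k2, k3⟩ := hd
      obtain ⟨m1, m2, m3⟩ := tr p₁ p₀ A.symm d k1 k3
      rw [← m2] at k2 m3 ⊢
      have m4 := m3.tr A.symm
      exact (cc_agree hv A ⟨h1.cr, h2.cr, m4.cr, hs, k2.1, k2.2⟩ h1 h2 m4).1
  linarith

end Pool.Agent.H81
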