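import Pool.Agent.H81.Comb2

namespace Pool.Agent.H81

open Finset

namespace Comb

variable {ι : Type*} [Fintype ι] [DecidableEq ι] {A η : ι → ι → ℤ}

/-! ### the bound -/

omit [Fintype ι] in
lemma pair_cases (hzo : ∀ i j, A i j = 0 ∨ A i j = 1) (hirr : ∀ i, A i i = 0) (i j : ι) :
    (A i j = 1 ∧ N A i j = 0 ∧ (if i = j then (1:ℤ) else 0) = 0) ∨
    (A i j = 0 ∧ N A i j = 1 ∧ (if i = j then (1:ℤ) else 0) = 0) ∨
    (A i j = 0 ∧ N A i j = 0 ∧ (if i = j then (1:ℤ) else 0) = 1) := by
  by_cases hij : i = j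
  · subst hij
    right; right
    exact ⟨hirr i, N_self hirr i, by simp⟩
  · rcases hzo i j with h | h
    · right; left
      refine ⟨h, ?_, by simp [hij]⟩
      unfold N; rw [h, if_neg hij]; norm_num
    · left
      refine ⟨h, ?_, by simp [hij]⟩
      unfold N; rw [h, if_neg hij]; norm_num

omit [Fintype ι] [DecidableEq ι] in
lemma A_nonneg (hzo : ∀ i j, A i j = 0 ∨ A i j = 1) (i j : ι) : 0 ≤ A i j := by
  rcases hzo i j with h | h <;> rw [h] <;> norm_num

omit [Fintype ι] in
lemma N_nonneg (hzo : ∀ i j, A i j = 0 ∨ A i j = 1) (hirr : ∀ i, A i i = 0) (i j : ι) :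
    0 ≤ N A i j := by
  rcases pair_cases hzo hirr i j with ⟨_, h, _⟩ | ⟨_, h, _⟩ | ⟨_, h, _⟩ <;> rw [h] <;> norm_num

omit [Fintype ι] in
lemma triple_le (hzo : ∀ i j, A i j = 0 ∨ A i j = 1) (hirr : ∀ i, A i i = 0) (i j k : ι) :
    A i j * A j k * A i k +
      (N A i j * A i k * A j k + N A i k * A i j * A j k + N A j k * A i j * A i k) ≤
    (1 - (if i = j then 1 else 0)) * (1 - (if j = k then 1 else 0)) *
      (1 - (if i = k then 1 else 0)) := by
  rcases pair_cases hzo hirr i j with ⟨h1, h2, h3⟩ | ⟨h1, h2, h3⟩ | ⟨h1, h2, h3⟩ <;>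
  rcases pair_cases hzo hirr j k with ⟨k1, k2, k3⟩ | ⟨k1, k2, k3⟩ | ⟨k1, k2, k3⟩ <;>
  rcases pair_cases hzo hirr i k with ⟨l1, l2, l3⟩ | ⟨l1, l2, l3⟩ | ⟨l1, l2, l3⟩ <;>
  rw [h1, h2, h3, k1, k2, k3, l1, l2, l3] <;> norm_num

lemma sum_dist : ∑ i : ι, ∑ j : ι, ∑ k : ι, ((1 - (if i = j then (1:ℤ) else 0)) *
    (1 - (if j = k then 1 else 0)) * (1 - (if i = k then 1 else 0))) =
    (Fintype.card ι : ℤ) * (Fintype.card ι - 1) * (Fintype.card ι - 2) := by
  have h1 : ∀ i j : ι, ∑ k : ι, ((1 - (if i = j then (1:ℤ) else 0)) *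
    (1 - (if j = k then 1 else 0)) * (1 - (if i = k then 1 else 0))) =
    (1 - (if i = j then (1:ℤ) else 0)) * ((Fintype.card ι : ℤ) - 2) := by
    intro i j
    have e : ∀ k : ι, ((1 - (if i = j then (1:ℤ) else 0)) *
      (1 - (if j = k then 1 else 0)) * (1 - (if i = k then 1 else 0))) =
      (1 - (if i = j then (1:ℤ) else 0)) * (1 - (if j = k then 1 else 0) -
        (if i = k then 1 else 0) + (if j = k then (if i = j then 1 else 0) else 0)) := by
      intro k
      by_cases hjk : j = k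
      · subst hjk
        by_cases hij : i = j <;> simp [hij]
      · simp only [hjk, if_false]
        ring
    simp only [e]
    rw [← Finset.mul_sum]
    simp only [Finset.sum_add_distrib, Finset.sum_sub_distrib, Finset.sum_ite_eq,
      Finset.mem_univ, if_true, Finset.sum_const, Finset.card_univ, nsmul_eq_mul, mul_one]
    by_cases hij : i = j
    · simp [hij]
    · simp [hij]; ring
  simp only [h1]
  have h2 : ∀ i : ι, ∑ j : ι, (1 - (if i = j then (1:ℤ) else 0)) * ((Fintype.card ι : ℤ) - 2) =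
      ((Fintype.card ι : ℤ) - 1) * ((Fintype.card ι : ℤ) - 2) := by
    intro i
    rw [← Finset.sum_mul]
    simp [Finset.sum_sub_distrib]
  simp only [h2]
  rw [Finset.sum_const, Finset.card_univ, nsmul_eq_mul]
  ring

/-- the three sums -/
def X0 (A : ι → ι → ℤ) : ℤ := ∑ i, ∑ j, ∑ k, A i j * A j k * A i k
def X3' (A : ι → ι → ℤ) : ℤ := ∑ i, ∑ j, ∑ k, N A j k * A i j * A i k

lemma X1_eq (hs : ∀ i j, A i j = A j i) :
    ∑ i, ∑ j, ∑ k, N A i j * A i k * A j k = X3' A := by
  have e : X3' A = ∑ i, ∑ j, ∑ k, N A j k * A j i * A k i := by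
    unfold X3'
    refine Finset.sum_congr rfl fun i _ => Finset.sum_congr rfl fun j _ =>
      Finset.sum_congr rfl fun k _ => ?_
    rw [hs i j, hs i k]
  have e2 : ∑ i, ∑ j, ∑ k, N A i j * A i k * A j k = ∑ i, ∑ k, ∑ j, N A i j * A i k * A j k :=
    Finset.sum_congr rfl fun i _ => Finset.sum_comm
  rw [e, e2, Finset.sum_comm]

lemma X2_eq (hs : ∀ i j, A i j = A j i) :
    ∑ i, ∑ j, ∑ k, N A i k * A i j * A j k = X3' A := by
  have e : X3' A = ∑ i, ∑ j, ∑ k, N A j k * A j i * A i k := by
    unfold X3'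
    refine Finset.sum_congr rfl fun i _ => Finset.sum_congr rfl fun j _ =>
      Finset.sum_congr rfl fun k _ => ?_
    rw [hs i j]
  rw [e, Finset.sum_comm]

lemma X_le (H : Hyp A η) : X0 A + 3 * X3' A ≤
    (Fintype.card ι : ℤ) * (Fintype.card ι - 1) * (Fintype.card ι - 2) := by
  rw [← sum_dist]
  have h1 := X1_eq H.symm
  have h2 := X2_eq H.symm
  have h3 : X0 A + 3 * X3' A = ∑ i, ∑ j, ∑ k, (A i j * A j k * A i k +
      (N A i j * A i k * A j k + N A i k * A i j * A j k + N A j k * A i j * A i k)) := by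
    simp only [Finset.sum_add_distrib]
    rw [h1, h2]
    unfold X0 X3'
    ring
  rw [h3]
  refine Finset.sum_le_sum fun i _ => Finset.sum_le_sum fun j _ => Finset.sum_le_sum fun k _ => ?_
  exact triple_le H.zo H.irr i j k

lemma c8_sum (H : Hyp A η) : ∑ i, ∑ j, ∑ k, c8 A i j k = 2 * X0 A + 3 * X3' A := by
  have h1 := X1_eq H.symm
  have h2 := X2_eq H.symm
  unfold c8
  simp only [Finset.sum_add_distrib, ← Finset.mul_sum]
  rw [h1, h2]
  unfold X0 X3'
  ring

lemma c8_nonneg (H : Hyp A η) (i j k : ι) : 0 ≤ c8 A i j k := by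
  have a := A_nonneg H.zo
  have n := N_nonneg H.zo H.irr
  unfold c8
  have := mul_nonneg (mul_nonneg (a i j) (a j k)) (a i k)
  have := mul_nonneg (mul_nonneg (n i j) (a i k)) (a j k)
  have := mul_nonneg (mul_nonneg (n i k) (a i j)) (a j k)
  have := mul_nonneg (mul_nonneg (n j k) (a i j)) (a i k)
  linarith

omit [Fintype ι] [DecidableEq ι] in
lemma abs_sg {x : ℤ} (h : x = 1 ∨ x = -1) : |x| = 1 := by
  rcases h with h | h <;> rw [h] <;> norm_num

lemma sumA_le (H : Hyp A η) : ∑ i, ∑ j, A i j ≤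
    (Fintype.card ι : ℤ) * (Fintype.card ι - 1) := by
  have h1 : ∀ i, ∑ j, A i j ≤ (Fintype.card ι : ℤ) - 1 := by
    intro i
    have : ∑ j, A i j ≤ ∑ j : ι, (1 - if i = j then (1:ℤ) else 0) := by
      apply Finset.sum_le_sum
      intro j _
      by_cases hij : i = j
      · subst hij; rw [H.irr]; simp
      · rw [if_neg hij]
        rcases H.zo i j with h | h <;> rw [h] <;> norm_num
    refine this.trans ?_
    simp [Finset.sum_sub_distrib]
  calc ∑ i, ∑ j, A i j ≤ ∑ _i : ι, ((Fintype.card ι : ℤ) - 1) := Finset.sum_le_sum fun i _ => h1 i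
    _ = _ := by rw [Finset.sum_const, Finset.card_univ, nsmul_eq_mul]

theorem Z_bound (H : Hyp A η) {ε : ι → ℤ} (hε : IsS ε) : |Z A η ε| ≤
    2 * ((Fintype.card ι : ℤ) * ((Fintype.card ι : ℤ)^2 - 1)) := by
  have a := A_nonneg H.zo
  have n := N_nonneg H.zo H.irr
  have hZ : Z A η ε = ∑ a, ∑ k, ∑ l, c8 A a k l * ε l * ε k * ε a +
      3 * ∑ a, ∑ k, ∑ l, N A k l * A a k * A a l * η a l * η a k * ε a +
      6 * ∑ a, ∑ k, A a k * ε a := by
    unfold Z
    have e1 : ∑ i, Q A i (η i) * ε i = -2 * ∑ a, ∑ k, A a k * ε a -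
        ∑ a, ∑ k, ∑ l, N A k l * A a k * A a l * η a l * η a k * ε a := by
      rw [Finset.mul_sum, ← Finset.sum_sub_distrib]
      apply Finset.sum_congr rfl
      intro i _
      rw [Q_eta H, sub_mul, Finset.sum_mul, mul_assoc, Finset.sum_mul]
      congr 1
      apply Finset.sum_congr rfl
      intro k _
      rw [Finset.sum_mul]
    rw [e1]; ring
  have b1 : |∑ a, ∑ k, ∑ l, c8 A a k l * ε l * ε k * ε a| ≤ 2 * X0 A + 3 * X3' A := by
    rw [← c8_sum H]
    refine (Finset.abs_sum_le_sum_abs _ _).trans (Finset.sum_le_sum fun i _ => ?_)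
    refine (Finset.abs_sum_le_sum_abs _ _).trans (Finset.sum_le_sum fun j _ => ?_)
    refine (Finset.abs_sum_le_sum_abs _ _).trans (Finset.sum_le_sum fun k _ => ?_)
    rw [abs_mul, abs_mul, abs_mul, abs_sg (hε k), abs_sg (hε j), abs_sg (hε i),
      abs_of_nonneg (c8_nonneg H i j k)]
    simp
  have b2 : |∑ a, ∑ k, ∑ l, N A k l * A a k * A a l * η a l * η a k * ε a| ≤ X3' A := by
    unfold X3'
    refine (Finset.abs_sum_le_sum_abs _ _).trans (Finset.sum_le_sum fun i _ => ?_)
    refine (Finset.abs_sum_le_sum_abs _ _).trans (Finset.sum_le_sum fun j _ => ?_)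
    refine (Finset.abs_sum_le_sum_abs _ _).trans (Finset.sum_le_sum fun k _ => ?_)
    rw [abs_mul, abs_mul, abs_mul, abs_sg (hε i), abs_sg (H.sg i k), abs_sg (H.sg i j),
      abs_of_nonneg (mul_nonneg (mul_nonneg (n j k) (a i j)) (a i k))]
    simp
  have b3 : |∑ a, ∑ k, A a k * ε a| ≤ ∑ i, ∑ j, A i j := by
    refine (Finset.abs_sum_le_sum_abs _ _).trans (Finset.sum_le_sum fun i _ => ?_)
    refine (Finset.abs_sum_le_sum_abs _ _).trans (Finset.sum_le_sum fun j _ => ?_)
    rw [abs_mul, abs_sg (hε i), abs_of_nonneg (a i j)]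
    simp
  have b4 := sumA_le H
  have b5 := X_le H
  rw [hZ]
  rw [abs_le] at b1 b2 b3 ⊢
  constructor <;> nlinarith

/-! ### divisibility -/

omit [DecidableEq ι] in
lemma sum_sym_zmod (f : ι → ι → ZMod 2) (hs : ∀ i j, f i j = f j i) (h0 : ∀ i, f i i = 0) :
    ∑ i, ∑ j, f i j = 0 := by
  rw [← Finset.sum_product']
  refine Finset.sum_involution (fun x _ => x.swap) ?_ ?_ ?_ ?_
  · rintro ⟨i, j⟩ _
    simp only [Prod.fst_swap, Prod.snd_swap]
    rw [hs j i]
    exact CharTwo.add_self_eq_zero _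
  · rintro ⟨i, j⟩ _ h1 h2
    simp only [Prod.swap_prod_mk, Prod.mk.injEq] at h2
    apply h1
    simp only
    rw [h2.1]; exact h0 _
  · rintro ⟨i, j⟩ _; simp
  · rintro ⟨i, j⟩ _; simp

lemma zmod_sq (x : ZMod 2) : x * x = x := by revert x; decide

lemma parity (a : ι → ι → ZMod 2) (hs : ∀ i j, a i j = a j i) (h0 : ∀ i, a i i = 0) (i : ι)
    (q : ι → ZMod 2) (G1 : ∀ i, ∑ j, a i j = 0)
    (G2 : ∀ j, (1 + (if i = j then 1 else 0) + a i j) * ∑ k, a i k * a j k = 0) :
    ∑ j, ∑ k, ((1 + (if i = j then 1 else 0) + a i j) * a i k * a j k +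
      (1 + (if i = k then 1 else 0) + a i k) * a i j * a j k +
      (1 + (if j = k then 1 else 0) + a j k) * a i j * a i k) * (q j * (1 + q k)) = 0 := by
  have t2 : ∀ x : ZMod 2, x + x = 0 := CharTwo.add_self_eq_zero
  set U := ∑ j, ∑ k, a j k * a i j * a i k * q j with hU
  -- third part
  have T3 : ∑ j, ∑ k, (1 + (if j = k then 1 else 0) + a j k) * a i j * a i k *
      (q j * (1 + q k)) = ∑ k, a i k * q k + U := by
    have e : ∀ j k, (1 + (if j = k then 1 else 0) + a j k) * a i j * a i k *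
      (q j * (1 + q k)) = (a i j * q j) * (a i k * (1 + q k)) +
        (if j = k then a i j * a i k * (q j * (1 + q k)) else 0) +
        a j k * a i j * a i k * q j + (a j k * (a i j * q j) * (a i k * q k)) := by
      intro j k
      split_ifs <;> ring
    simp only [e, Finset.sum_add_distrib]
    have s1 : ∑ j, ∑ k, (a i j * q j) * (a i k * (1 + q k)) = ∑ k, a i k * q k := by
      simp only [← Finset.mul_sum]
      rw [← Finset.sum_mul]
      have : ∑ k, a i k * (1 + q k) = ∑ k, a i k * q k := by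
        simp only [mul_add, mul_one, Finset.sum_add_distrib]
        rw [G1, zero_add]
      rw [this]; exact zmod_sq _
    have s2 : ∑ j, ∑ k, (if j = k then a i j * a i k * (q j * (1 + q k)) else 0) = 0 := by
      apply Finset.sum_eq_zero
      intro j _
      simp only [Finset.sum_ite_eq, Finset.mem_univ, if_true]
      have : q j * (1 + q j) = 0 := by rw [mul_add, mul_one, zmod_sq, t2]
      rw [this, mul_zero]
    have s3 : ∑ j, ∑ k, (a j k * (a i j * q j) * (a i k * q k)) = 0 := by
      apply sum_sym_zmod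
      · intro j k; rw [hs j k]; ring
      · intro j; rw [h0]; ring
    rw [s1, s2, s3]
    ring
  have T12 : ∑ j, ∑ k, ((1 + (if i = j then 1 else 0) + a i j) * a i k * a j k +
      (1 + (if i = k then 1 else 0) + a i k) * a i j * a j k) * (q j * (1 + q k)) =
      ∑ k, a i k * q k + U := by
    have e1 : ∑ j, ∑ k, (1 + (if i = k then 1 else 0) + a i k) * a i j * a j k *
        (q j * (1 + q k)) = ∑ j, ∑ k, (1 + (if i = j then 1 else 0) + a i j) * a i k * a j k *
        (q k * (1 + q j)) := by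
      rw [Finset.sum_comm]
      refine Finset.sum_congr rfl fun j _ => Finset.sum_congr rfl fun k _ => ?_
      rw [hs k j]
    have e2 : ∑ j, ∑ k, ((1 + (if i = j then 1 else 0) + a i j) * a i k * a j k +
      (1 + (if i = k then 1 else 0) + a i k) * a i j * a j k) * (q j * (1 + q k)) =
      ∑ j, ∑ k, (1 + (if i = j then 1 else 0) + a i j) * a i k * a j k * (q j * (1 + q k)) +
      ∑ j, ∑ k, (1 + (if i = k then 1 else 0) + a i k) * a i j * a j k *
        (q j * (1 + q k)) := by
      rw [← Finset.sum_add_distrib]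
      refine Finset.sum_congr rfl fun j _ => ?_
      rw [← Finset.sum_add_distrib]
      exact Finset.sum_congr rfl fun k _ => add_mul _ _ _
    rw [e2, e1]
    have e3 : ∑ j, ∑ k, (1 + (if i = j then 1 else 0) + a i j) * a i k * a j k *
          (q j * (1 + q k)) +
        ∑ j, ∑ k, (1 + (if i = j then 1 else 0) + a i j) * a i k * a j k *
          (q k * (1 + q j)) =
        ∑ j, q j * ((1 + (if i = j then 1 else 0) + a i j) * ∑ k, a i k * a j k) +
        ∑ k, (a i k * q k) * ∑ j, (1 + (if i = j then 1 else 0) + a i j) * a j k := by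
      have f1 : ∑ j, q j * ((1 + (if i = j then 1 else 0) + a i j) * ∑ k, a i k * a j k) =
          ∑ j, ∑ k, (1 + (if i = j then 1 else 0) + a i j) * a i k * a j k * q j := by
        refine Finset.sum_congr rfl fun j _ => ?_
        rw [Finset.mul_sum, Finset.mul_sum]
        exact Finset.sum_congr rfl fun k _ => by ring
      have f2 : ∑ k, (a i k * q k) * ∑ j, (1 + (if i = j then 1 else 0) + a i j) * a j k =
          ∑ j, ∑ k, (1 + (if i = j then 1 else 0) + a i j) * a i k * a j k * q k := by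
        rw [Finset.sum_comm]
        refine Finset.sum_congr rfl fun j _ => ?_
        rw [Finset.mul_sum]
        exact Finset.sum_congr rfl fun k _ => by ring
      rw [f1, f2, ← Finset.sum_add_distrib, ← Finset.sum_add_distrib]
      refine Finset.sum_congr rfl fun j _ => ?_
      rw [← Finset.sum_add_distrib, ← Finset.sum_add_distrib]
      refine Finset.sum_congr rfl fun k _ => ?_
      have h := t2 ((1 + (if i = j then 1 else 0) + a i j) * a i k * a j k * q j * q k)
      linear_combination h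
    rw [e3]
    have e4 : ∑ j, q j * ((1 + (if i = j then 1 else 0) + a i j) * ∑ k, a i k * a j k) = 0 :=
      Finset.sum_eq_zero fun j _ => by rw [G2, mul_zero]
    have e5 : ∀ k, ∑ j, (1 + (if i = j then 1 else 0) + a i j) * a j k =
        a i k + ∑ j, a i j * a j k := by
      intro k
      simp only [add_mul, one_mul, Finset.sum_add_distrib, ite_mul, zero_mul,
        Finset.sum_ite_eq, Finset.mem_univ, if_true]
      have : ∑ j, a j k = 0 := by
        rw [← G1 k]
        exact Finset.sum_congr rfl fun j _ => hs j k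
      rw [this, zero_add]
    rw [e4, zero_add]
    have e6 : ∀ k, (a i k * q k) * ∑ j, (1 + (if i = j then 1 else 0) + a i j) * a j k =
        a i k * q k + ∑ j, a k j * a i k * a i j * q k := by
      intro k
      rw [e5, mul_add, Finset.mul_sum]
      congr 1
      · have := zmod_sq (a i k)
        linear_combination (q k) * this
      · refine Finset.sum_congr rfl fun j _ => ?_
        rw [hs j k]; ring
    rw [Finset.sum_congr rfl fun k _ => e6 k, Finset.sum_add_distrib]
  have tot : ∑ j, ∑ k, ((1 + (if i = j then 1 else 0) + a i j) * a i k * a j k +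
      (1 + (if i = k then 1 else 0) + a i k) * a i j * a j k +
      (1 + (if j = k then 1 else 0) + a j k) * a i j * a i k) * (q j * (1 + q k)) =
      ∑ j, ∑ k, ((1 + (if i = j then 1 else 0) + a i j) * a i k * a j k +
        (1 + (if i = k then 1 else 0) + a i k) * a i j * a j k) * (q j * (1 + q k)) +
      ∑ j, ∑ k, (1 + (if j = k then 1 else 0) + a j k) * a i j * a i k *
        (q j * (1 + q k)) := by
    rw [← Finset.sum_add_distrib]
    refine Finset.sum_congr rfl fun j _ => ?_
    rw [← Finset.sum_add_distrib]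
    exact Finset.sum_congr rfl fun k _ => add_mul _ _ _
  rw [tot, T12, T3]
  exact t2 _

/-- the quadratic forms agree modulo `8` -/
lemma Q_diff (H : Hyp A η) {ε : ι → ℤ} (hε : IsS ε) (i : ι) :
    (8:ℤ) ∣ Q A i ε - Q A i (η i) := by
  set q : ι → ℤ := fun j => if ε j = η i j then 0 else 1 with hq
  have hq01 : ∀ j, q j = 0 ∨ q j = 1 := by
    intro j; simp only [hq]; split_ifs
    · exact Or.inl rfl
    · exact Or.inr rfl
  have hεq : ∀ j, ε j = η i j * (1 - 2 * q j) := by
    intro j
    simp only [hq]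
    split_ifs with h
    · rw [h]; ring
    · rcases hε j with h1 | h1 <;> rcases H.sg i j with h2 | h2
      · exact absurd (h1.trans h2.symm) h
      · rw [h1, h2]; norm_num
      · rw [h1, h2]; norm_num
      · exact absurd (h1.trans h2.symm) h
  set R : ℤ := ∑ k, ∑ l, c8 A i k l * η i l * η i k * (q k * (1 - q l)) with hR
  have e1 : Q A i ε - Q A i (η i) = -4 * R := by
    have e2 : ∑ k, ∑ l, c8 A i k l * η i l * η i k * (q l * (1 - q k)) = R := by
      rw [Finset.sum_comm]
      refine Finset.sum_congr rfl fun k _ => Finset.sum_congr rfl fun l _ => ?_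
      rw [c8_23 H.symm i l k]
      ring
    have e3 : -4 * R = -2 * R + -2 * ∑ k, ∑ l, c8 A i k l * η i l * η i k *
        (q l * (1 - q k)) := by rw [e2]; ring
    rw [e3, hR]
    unfold Q
    rw [← Finset.sum_sub_distrib, Finset.mul_sum, Finset.mul_sum, ← Finset.sum_add_distrib]
    refine Finset.sum_congr rfl fun k _ => ?_
    rw [← Finset.sum_sub_distrib, Finset.mul_sum, Finset.mul_sum, ← Finset.sum_add_distrib]
    refine Finset.sum_congr rfl fun l _ => ?_
    rw [hεq k, hεq l]
    ring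
  have e4 : (2:ℤ) ∣ R := by
    have key := parity (fun i j => ((A i j : ℤ) : ZMod 2))
      (fun i j => by rw [H.symm i j]) (fun i => by rw [H.irr]; simp) i
      (fun j => ((q j : ℤ) : ZMod 2)) ?_ ?_
    · have hη : ∀ j, ((η i j : ℤ) : ZMod 2) = 1 := by
        intro j
        rcases H.sg i j with h | h <;> rw [h]
        · simp
        · push_cast; decide
      have hcast : ((R : ℤ) : ZMod 2) = 0 := by
        rw [← key, hR]
        push_cast
        refine Finset.sum_congr rfl fun k _ => Finset.sum_congr rfl fun l _ => ?_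
        rw [hη, hη]
        have h2 : (2 : ZMod 2) = 0 := by decide
        have hm : ∀ x : ZMod 2, -x = x := by decide
        unfold c8 N
        push_cast
        simp only [sub_eq_add_neg, hm, h2, zero_mul, zero_add, mul_one]
      exact (ZMod.intCast_zmod_eq_zero_iff_dvd R 2).1 hcast
    · intro i'
      have h := H.H1 i'
      have h2 : ((∑ j, A i' j * η i' j : ℤ) : ZMod 2) = 0 := by rw [h]; simp
      push_cast at h2
      rw [← h2]
      refine Finset.sum_congr rfl fun j _ => ?_
      have hη : ((η i' j : ℤ) : ZMod 2) = 1 := by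
        rcases H.sg i' j with h | h <;> rw [h]
        · simp
        · push_cast; decide
      rw [hη, mul_one]
    · intro j
      by_cases hij : i = j
      · subst hij
        rw [H.irr, if_pos rfl]
        have : (1 + 1 + ((0:ℤ) : ZMod 2)) = 0 := by decide
        rw [this, zero_mul]
      · rcases H.zo i j with h | h
        · have h1 := H.H2 i j hij h
          have h2 : ((∑ k, A i k * A j k * η i k : ℤ) : ZMod 2) = 0 := by rw [h1]; simp
          push_cast at h2
          have h3 : ∑ k, ((A i k : ℤ) : ZMod 2) * ((A j k : ℤ) : ZMod 2) = 0 := by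
            rw [← h2]
            refine Finset.sum_congr rfl fun k _ => ?_
            have hη : ((η i k : ℤ) : ZMod 2) = 1 := by
              rcases H.sg i k with h | h <;> rw [h]
              · simp
              · push_cast; decide
            rw [hη, mul_one]
          rw [h3, mul_zero]
        · rw [h, if_neg hij]
          have : (1 + 0 + ((1:ℤ) : ZMod 2)) = 0 := by decide
          rw [this, zero_mul]
  obtain ⟨m, hm⟩ := e4
  exact ⟨-m, by rw [e1, hm]; ring⟩

lemma Z_dvd_iff (H : Hyp A η) {ε : ι → ℤ} (hε : IsS ε) (i : ι) :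
    (48:ℤ) ∣ Z A η (Function.update ε i 1) ↔ (48:ℤ) ∣ Z A η (Function.update ε i (-1)) := by
  obtain ⟨m, hm⟩ := Q_diff H hε i
  have e : Z A η (Function.update ε i 1) = Z A η (Function.update ε i (-1)) + 48 * m := by
    rw [Z_upd H, Z_upd H, hm]; ring
  rw [e]
  exact ⟨fun h => (Int.dvd_add_left (Dvd.intro m rfl)).1 h,
    fun h => (Int.dvd_add_left (Dvd.intro m rfl)).2 h⟩

lemma Z_dvd (H : Hyp A η) {ε ε₀ : ι → ℤ} (hε : IsS ε) (hε₀ : IsS ε₀) (h0 : Z A η ε₀ = 0) :
    (48:ℤ) ∣ Z A η ε := by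
  classical
  have key := const (F := fun ε => if (48:ℤ) ∣ Z A η ε then 1 else 0) (fun i ε hε => by
    unfold dl
    beta_reduce
    by_cases h : (48:ℤ) ∣ Z A η (Function.update ε i 1)
    · rw [if_pos h, if_pos ((Z_dvd_iff H hε i).1 h), sub_self]
    · rw [if_neg h, if_neg (fun h' => h ((Z_dvd_iff H hε i).2 h')), sub_self]) hε hε₀
  by_contra hcon
  simp only [hcon, h0, dvd_zero, if_true, if_false] at key
  norm_num at key

/-- **The combinatorial theorem.** -/
theorem main (H : Hyp A η) {g : (ι → ℤ) → ℝ} (odd : ∀ ε, IsS ε → g (-ε) = - g ε)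
    (h3 : ∀ i j k ε, IsS ε → i ≠ j → i ≠ k → j ≠ k → dl (dl (dl g i) j) k ε = c8 A i j k)
    (h1 : ∀ i, dl g i (η i) = 0) {ε₀ : ι → ℤ} (hε₀ : IsS ε₀) (h0 : g ε₀ = 0) :
    ∀ ε, IsS ε → ∃ m : ℤ, g ε = m ∧
      24 * |m| ≤ (Fintype.card ι : ℤ) * ((Fintype.card ι : ℤ)^2 - 1) := by
  have hf := formula H odd h3 h1
  have hZ0 : Z A η ε₀ = 0 := by
    have := hf ε₀ hε₀
    rw [h0] at this
    have h2 : (Z A η ε₀ : ℝ) = 0 := by linarith
    exact_mod_cast h2
  intro ε hε
  obtain ⟨m, hm⟩ := Z_dvd H hε hε₀ hZ0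
  refine ⟨m, ?_, ?_⟩
  · rw [hf ε hε, hm]
    push_cast; ring
  · have hb := Z_bound H hε
    rw [hm, abs_mul] at hb
    have : |(48:ℤ)| = 48 := by norm_num
    rw [this] at hb
    linarith

end Comb

end Pool.Agent.H81
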