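import Pool.Agent.H81.Planar3
import Pool.Agent.H81.Comb3

namespace Pool.Agent.H81

open Set

variable {v : (Circ → ℂ × ℝ) → ℝ}

/-- integer valued sign of a crossing -/
noncomputable def sgz (p : Circ → ℂ) (x : Circ × Circ) : ℤ :=
  open Classical in if sgc p x = 1 then 1 else -1

lemma sgz_cast (p : Circ → ℂ) (x : Circ × Circ) : (sgz p x : ℝ) = sgc p x := by
  unfold sgz
  rcases sgc_or p x with h | h
  · rw [if_pos h, h]; simp
  · rw [if_neg (by rw [h]; norm_num), h]; simp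

lemma sgz_or (p : Circ → ℂ) (x : Circ × Circ) : sgz p x = 1 ∨ sgz p x = -1 := by
  unfold sgz
  split_ifs
  · exact Or.inl rfl
  · exact Or.inr rfl

section
variable (p : Circ → ℂ)

/-- the crossings of `p` -/
abbrev Idx := {d : Circ // d ∈ FF p 0}

noncomputable def adjM (i j : Idx p) : ℤ :=
  open Classical in if Lk (cr p i.1) (cr p j.1) then 1 else 0

noncomputable def etaM (i j : Idx p) : ℤ := sgz p (cr p (ff p (lift 0 i.1) j.1))

/-- pattern with given signs of the crossings -/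
noncomputable def pat (ε : Idx p → ℤ) (θ : Circ) : ℝ :=
  open Classical in if h : θ ∈ FF p 0 then sgc p (cr p θ) * (ε ⟨θ, h⟩ : ℝ) else 0

end

variable {p : Circ → ℂ}

lemma pat_mem (ε : Idx p → ℤ) (i : Idx p) : pat p ε i.1 = sgc p (cr p i.1) * (ε i : ℝ) := by
  unfold pat
  rw [dif_pos i.2]

lemma pat_not_mem (ε : Idx p → ℤ) {θ : Circ} (h : θ ∉ FF p 0) : pat p ε θ = 0 := by
  unfold pat
  rw [dif_neg h]

lemma Idx.feet (hp : IsRegular p) (i : Idx p) : i.1 ∈ feet p := ((mem_FF hp).1 i.2).1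

lemma Idx.isCr (hp : IsRegular p) (i : Idx p) : IsCr p (cr p i.1) := cr_isCr (i.feet hp)

lemma Idx.ptn_not (hp : IsRegular p) (i : Idx p) : ptn p i.1 ∉ FF p 0 :=
  not_FF_ptn hp (i.isCr hp) i.2

lemma pat_ptn (hp : IsRegular p) (ε : Idx p → ℤ) (i : Idx p) : pat p ε (ptn p i.1) = 0 :=
  pat_not_mem ε (i.ptn_not hp)

lemma Idx.sep (hp : IsRegular p) {i j : Idx p} (h : i ≠ j) : Sep (cr p i.1) (cr p j.1) := by
  refine hp.sep (i.isCr hp) (j.isCr hp) (fun h' => h (Subtype.ext h')) fun h' => ?_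
  have h'' : i.1 = ptn p j.1 := h'
  exact j.ptn_not hp (h'' ▸ i.2)

/-- every double point comes from an index -/
lemma dbl_idx (hp : IsRegular p) {s t : Circ} (h : IsDbl p s t) :
    (∃ i : Idx p, s = i.1 ∧ t = ptn p i.1) ∨ (∃ i : Idx p, t = i.1 ∧ s = ptn p i.1) := by
  rcases lt_or_gt_of_ne (lift_ne (a := 0) h.1) with k | k
  · left
    exact ⟨⟨s, (mem_FF hp).2 ⟨h.left_mem, by rw [ptn_eq hp h]; exact k⟩⟩, rfl, (ptn_eq hp h).symm⟩
  · right
    exact ⟨⟨t, (mem_FF hp).2 ⟨h.right_mem, by rw [ptn_eq hp h.symm]; exact k⟩⟩, rfl,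
      (ptn_eq hp h.symm).symm⟩

lemma pat_valid (hp : IsRegular p) {ε : Idx p → ℤ} (hε : Comb.IsS ε) : Valid p (pat p ε) := by
  have key : ∀ i : Idx p, pat p ε i.1 ≠ 0 := by
    intro i
    rw [pat_mem]
    rcases sgc_or p (cr p i.1) with h | h <;> rcases hε i with h' | h' <;> rw [h, h'] <;> norm_num
  intro s t h
  rcases dbl_idx hp h with ⟨i, rfl, rfl⟩ | ⟨i, rfl, rfl⟩
  · rw [pat_ptn hp]; exact key i
  · rw [pat_ptn hp]; exact (key i).symm

lemma pat_neg (ε : Idx p → ℤ) : pat p (-ε) = fun θ => - pat p ε θ := by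
  funext θ
  unfold pat
  by_cases h : θ ∈ FF p 0
  · rw [dif_pos h, dif_pos h]; simp
  · rw [dif_neg h, dif_neg h]; simp

open Classical in
lemma pat_upd (hp : IsRegular p) (ε : Idx p → ℤ) (i : Idx p) (x : ℤ) :
    pat p (Function.update ε i x) = up (pat p ε) (cr p i.1) (sgc p (cr p i.1) * x) := by
  funext θ
  by_cases h : θ = i.1
  · subst h
    have e1 : up (pat p ε) (cr p i.1) (sgc p (cr p i.1) * x) i.1 =
      pat p ε (ptn p i.1) + sgc p (cr p i.1) * x := up_fst _ (cr p i.1) _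
    rw [e1, pat_mem, pat_ptn hp]
    simp
  · have e1 : up (pat p ε) (cr p i.1) (sgc p (cr p i.1) * x) θ = pat p ε θ :=
      up_ne _ (cr p i.1) _ h
    rw [e1]
    unfold pat
    by_cases h' : θ ∈ FF p 0
    · rw [dif_pos h', dif_pos h']
      have : (⟨θ, h'⟩ : Idx p) ≠ i := fun h'' => h (congrArg Subtype.val h'')
      rw [Function.update_of_ne this]
    · rw [dif_neg h', dif_neg h']

open Classical in
lemma dl_pat (hp : IsRegular p) (F : (Circ → ℝ) → ℝ) (i : Idx p) :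
    Comb.dl (fun ε => F (pat p ε)) i = fun ε => sgc p (cr p i.1) * D F (cr p i.1) (pat p ε) := by
  funext ε
  unfold Comb.dl D
  beta_reduce
  rw [pat_upd hp, pat_upd hp]
  rcases sgc_or p (cr p i.1) with h | h <;> rw [h] <;> push_cast <;> norm_num

open Classical in
lemma dl_smul {ι : Type*} [DecidableEq ι] (c : ℝ) (F : (ι → ℤ) → ℝ) (i : ι) :
    Comb.dl (fun ε => c * F ε) i = fun ε => c * Comb.dl F i ε := by
  funext ε
  unfold Comb.dl
  ring

lemma c8_val (i j k : Idx p) (hij : i ≠ j) (hik : i ≠ k) (hjk : j ≠ k) :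
    (open Classical in (Comb.c8 (adjM p) i j k : ℝ)) =
      8 * W (1/4) (1/8) (cr p i.1) (cr p j.1) (cr p k.1) := by
  classical
  unfold Comb.c8 Comb.N adjM W
  rw [if_neg hij, if_neg hik, if_neg hjk]
  by_cases h1 : Lk (cr p i.1) (cr p j.1) <;> by_cases h2 : Lk (cr p i.1) (cr p k.1) <;>
    by_cases h3 : Lk (cr p j.1) (cr p k.1) <;> simp [h1, h2, h3] <;> norm_num

open Classical in
lemma third (hv : IsInv v) (hC : Vals v) (hp : IsRegular p) (i j k : Idx p)
    (hij : i ≠ j) (hik : i ≠ k) (hjk : j ≠ k) {ε : Idx p → ℤ} (hε : Comb.IsS ε) :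
    Comb.dl (Comb.dl (Comb.dl (fun ε => V v p (pat p ε)) i) j) k ε =
      Comb.c8 (adjM p) i j k := by
  have tri : Tri p (cr p i.1) (cr p j.1) (cr p k.1) :=
    ⟨i.isCr hp, j.isCr hp, k.isCr hp, Idx.sep hp hij, Idx.sep hp hik, Idx.sep hp hjk⟩
  rw [c8_val i j k hij hik hjk, ← hC _ _ _ _ hp tri, dl_pat hp, dl_smul, dl_pat hp]
  have e : (fun ε => sgc p (cr p i.1) * (fun ε => sgc p (cr p j.1) *
      D (D (V v p) (cr p i.1)) (cr p j.1) (pat p ε)) ε) =
      fun ε => (sgc p (cr p i.1) * sgc p (cr p j.1)) *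
        D (D (V v p) (cr p i.1)) (cr p j.1) (pat p ε) := by
    funext ε; ring
  rw [e, dl_smul, dl_pat hp]
  have h3 := D3_eq hv hp tri (pat_valid hp hε)
  unfold D3 at h3
  beta_reduce
  rw [h3]
  unfold E
  ring

end Pool.Agent.H81
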