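import Pool.Agent.H81.Defs

namespace Pool.Agent.H81

open Set

section PL
variable {E F : Type*} [AddCommGroup E] [Module ℝ E] [AddCommGroup F] [Module ℝ F]

lemma LAff_iff (f : ℝ → E) (x : ℝ) : LAff f x ↔ RAff (fun y => f (-y)) (-x) := by
  constructor
  · rintro ⟨δ, hδ, u, h⟩
    refine ⟨δ, hδ, -u, fun τ hτ => ?_⟩
    have := h τ hτ
    simp only [neg_add_rev, neg_neg, smul_neg]
    rw [show -τ + x = x - τ by ring, this]; abel
  · rintro ⟨δ, hδ, u, h⟩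
    refine ⟨δ, hδ, -u, fun τ hτ => ?_⟩
    have := h τ hτ
    simp only [neg_add_rev, neg_neg] at this
    rw [show x - τ = -τ + x by ring, this, smul_neg]; abel

lemma RAff.congr {f g : ℝ → E} {x : ℝ} (hf : RAff f x) {ε : ℝ} (hε : 0 < ε)
    (h : ∀ τ ∈ Icc (0:ℝ) ε, g (x + τ) = f (x + τ)) : RAff g x := by
  obtain ⟨δ, hδ, u, hu⟩ := hf
  refine ⟨min δ ε, lt_min hδ hε, u, fun τ hτ => ?_⟩
  have h0 := h 0 ⟨le_rfl, hε.le⟩
  rw [add_zero] at h0
  rw [h τ ⟨hτ.1, hτ.2.trans (min_le_right _ _)⟩, hu τ ⟨hτ.1, hτ.2.trans (min_le_left _ _)⟩, h0]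

lemma LAff.congr {f g : ℝ → E} {x : ℝ} (hf : LAff f x) {ε : ℝ} (hε : 0 < ε)
    (h : ∀ τ ∈ Icc (0:ℝ) ε, g (x - τ) = f (x - τ)) : LAff g x := by
  obtain ⟨δ, hδ, u, hu⟩ := hf
  refine ⟨min δ ε, lt_min hδ hε, u, fun τ hτ => ?_⟩
  have h0 := h 0 ⟨le_rfl, hε.le⟩
  rw [sub_zero] at h0
  rw [h τ ⟨hτ.1, hτ.2.trans (min_le_right _ _)⟩, hu τ ⟨hτ.1, hτ.2.trans (min_le_left _ _)⟩, h0]

lemma RAff.const (c : E) (x : ℝ) : RAff (fun _ => c) x :=
  ⟨1, one_pos, 0, fun τ _ => by simp⟩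

lemma LAff.const (c : E) (x : ℝ) : LAff (fun _ => c) x :=
  ⟨1, one_pos, 0, fun τ _ => by simp⟩

lemma RAff.smulConst (c : E) (x : ℝ) : RAff (fun t => t • c) x :=
  ⟨1, one_pos, c, fun τ _ => by simp [add_smul]⟩

lemma LAff.smulConst (c : E) (x : ℝ) : LAff (fun t => t • c) x :=
  ⟨1, one_pos, c, fun τ _ => by simp [sub_smul]⟩

lemma RAff.add {f g : ℝ → E} {x : ℝ} (hf : RAff f x) (hg : RAff g x) :
    RAff (fun t => f t + g t) x := by
  obtain ⟨δ, hδ, u, hu⟩ := hf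
  obtain ⟨ε, hε, w, hw⟩ := hg
  refine ⟨min δ ε, lt_min hδ hε, u + w, fun τ hτ => ?_⟩
  simp only
  rw [hu τ ⟨hτ.1, hτ.2.trans (min_le_left _ _)⟩, hw τ ⟨hτ.1, hτ.2.trans (min_le_right _ _)⟩,
    smul_add]
  abel

lemma LAff.add {f g : ℝ → E} {x : ℝ} (hf : LAff f x) (hg : LAff g x) :
    LAff (fun t => f t + g t) x := by
  rw [LAff_iff] at *
  exact hf.add hg

lemma RAff.linear {f : ℝ → E} {x : ℝ} (hf : RAff f x) (L : E →ₗ[ℝ] F) :
    RAff (fun t => L (f t)) x := by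
  obtain ⟨δ, hδ, u, hu⟩ := hf
  refine ⟨δ, hδ, L u, fun τ hτ => ?_⟩
  simp only
  rw [hu τ hτ, map_add, map_smul]

lemma LAff.linear {f : ℝ → E} {x : ℝ} (hf : LAff f x) (L : E →ₗ[ℝ] F) :
    LAff (fun t => L (f t)) x := by
  rw [LAff_iff] at *
  exact hf.linear L

lemma RAff.prodMk {f : ℝ → E} {g : ℝ → F} {x : ℝ} (hf : RAff f x) (hg : RAff g x) :
    RAff (fun t => (f t, g t)) x := by
  obtain ⟨δ, hδ, u, hu⟩ := hf
  obtain ⟨ε, hε, w, hw⟩ := hg
  refine ⟨min δ ε, lt_min hδ hε, (u, w), fun τ hτ => ?_⟩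
  simp only
  rw [hu τ ⟨hτ.1, hτ.2.trans (min_le_left _ _)⟩, hw τ ⟨hτ.1, hτ.2.trans (min_le_right _ _)⟩]
  rfl

lemma LAff.prodMk {f : ℝ → E} {g : ℝ → F} {x : ℝ} (hf : LAff f x) (hg : LAff g x) :
    LAff (fun t => (f t, g t)) x := by
  rw [LAff_iff] at *
  exact hf.prodMk hg

lemma RAff.smul {f : ℝ → E} {x : ℝ} (hf : RAff f x) (c : ℝ) : RAff (fun t => c • f t) x :=
  hf.linear (c • (LinearMap.id : E →ₗ[ℝ] E))

lemma LAff.smul {f : ℝ → E} {x : ℝ} (hf : LAff f x) (c : ℝ) : LAff (fun t => c • f t) x :=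
  hf.linear (c • (LinearMap.id : E →ₗ[ℝ] E))

lemma RAff.neg {f : ℝ → E} {x : ℝ} (hf : RAff f x) : RAff (fun t => - f t) x :=
  hf.linear (-(LinearMap.id : E →ₗ[ℝ] E))

lemma LAff.neg {f : ℝ → E} {x : ℝ} (hf : LAff f x) : LAff (fun t => - f t) x :=
  hf.linear (-(LinearMap.id : E →ₗ[ℝ] E))

lemma RAff.sub {f g : ℝ → E} {x : ℝ} (hf : RAff f x) (hg : RAff g x) :
    RAff (fun t => f t - g t) x := by
  simpa only [sub_eq_add_neg] using hf.add hg.neg

lemma LAff.sub {f g : ℝ → E} {x : ℝ} (hf : LAff f x) (hg : LAff g x) :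
    LAff (fun t => f t - g t) x := by
  simpa only [sub_eq_add_neg] using hf.add hg.neg

lemma RAff.abs {f : ℝ → ℝ} {x : ℝ} (hf : RAff f x) : RAff (fun t => |f t|) x := by
  obtain ⟨δ, hδ, u, hu⟩ := hf
  rcases lt_trichotomy (f x) 0 with h | h | h
  · have hp : 0 < -f x / (|u| + 1) := div_pos (by linarith) (by positivity)
    refine ⟨min δ (-f x / (|u| + 1)), lt_min hδ hp, -u, fun τ hτ => ?_⟩
    simp only
    have h2 := hτ.2.trans (min_le_right _ _)
    rw [le_div_iff₀ (by positivity)] at h2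
    rw [hu τ ⟨hτ.1, hτ.2.trans (min_le_left _ _)⟩, smul_eq_mul, smul_eq_mul]
    have h3 : τ * u ≤ τ * |u| := mul_le_mul_of_nonneg_left (le_abs_self u) hτ.1
    rw [abs_of_nonpos (by nlinarith [hτ.1]), abs_of_neg h]
    ring
  · refine ⟨δ, hδ, |u|, fun τ hτ => ?_⟩
    simp only
    rw [hu τ hτ, h]
    simp [abs_mul, abs_of_nonneg hτ.1]
  · have hp : 0 < f x / (|u| + 1) := div_pos (by linarith) (by positivity)
    refine ⟨min δ (f x / (|u| + 1)), lt_min hδ hp, u, fun τ hτ => ?_⟩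
    simp only
    have h2 := hτ.2.trans (min_le_right _ _)
    rw [le_div_iff₀ (by positivity)] at h2
    rw [hu τ ⟨hτ.1, hτ.2.trans (min_le_left _ _)⟩, smul_eq_mul]
    have h3 : -(τ * |u|) ≤ τ * u := by
      have := mul_le_mul_of_nonneg_left (neg_abs_le u) hτ.1
      linarith
    rw [abs_of_nonneg (by nlinarith [hτ.1]), abs_of_pos h]

lemma LAff.abs {f : ℝ → ℝ} {x : ℝ} (hf : LAff f x) : LAff (fun t => |f t|) x := by
  rw [LAff_iff] at *
  exact hf.abs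

lemma max_eq_abs (a b : ℝ) : max a b = (1/2 : ℝ) • ((a + b) + |a - b|) := by
  rcases le_total a b with h | h
  · rw [max_eq_right h, abs_of_nonpos (by linarith), smul_eq_mul]; ring
  · rw [max_eq_left h, abs_of_nonneg (by linarith), smul_eq_mul]; ring

lemma min_eq_abs (a b : ℝ) : min a b = (1/2 : ℝ) • ((a + b) - |a - b|) := by
  rcases le_total a b with h | h
  · rw [min_eq_left h, abs_of_nonpos (by linarith), smul_eq_mul]; ring
  · rw [min_eq_right h, abs_of_nonneg (by linarith), smul_eq_mul]; ring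

lemma RAff.max {f g : ℝ → ℝ} {x : ℝ} (hf : RAff f x) (hg : RAff g x) :
    RAff (fun t => max (f t) (g t)) x := by
  simp only [max_eq_abs]
  exact ((hf.add hg).add (hf.sub hg).abs).smul _

lemma LAff.max {f g : ℝ → ℝ} {x : ℝ} (hf : LAff f x) (hg : LAff g x) :
    LAff (fun t => max (f t) (g t)) x := by
  simp only [max_eq_abs]
  exact ((hf.add hg).add (hf.sub hg).abs).smul _

lemma RAff.min {f g : ℝ → ℝ} {x : ℝ} (hf : RAff f x) (hg : RAff g x) :
    RAff (fun t => min (f t) (g t)) x := by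
  simp only [min_eq_abs]
  exact ((hf.add hg).sub (hf.sub hg).abs).smul _

lemma LAff.min {f g : ℝ → ℝ} {x : ℝ} (hf : LAff f x) (hg : LAff g x) :
    LAff (fun t => min (f t) (g t)) x := by
  simp only [min_eq_abs]
  exact ((hf.add hg).sub (hf.sub hg).abs).smul _

/-- `f` is affine near `x` with velocity `u` on the closed interval `[x, x+δ]`. -/
lemma RAff_of_eq {f : ℝ → E} {x y : ℝ} {c u : E} (hxy : x < y)
    (h : ∀ τ ∈ Icc x y, f τ = c + τ • u) : RAff f x := by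
  refine ⟨y - x, by linarith, u, fun τ hτ => ?_⟩
  rw [h (x + τ) ⟨by linarith [hτ.1], by linarith [hτ.2]⟩, h x ⟨le_rfl, hxy.le⟩, add_smul]
  abel

lemma LAff_of_eq {f : ℝ → E} {x y : ℝ} {c u : E} (hxy : y < x)
    (h : ∀ τ ∈ Icc y x, f τ = c + τ • u) : LAff f x := by
  refine ⟨x - y, by linarith, u, fun τ hτ => ?_⟩
  rw [h (x - τ) ⟨by linarith [hτ.2], by linarith [hτ.1]⟩, h x ⟨hxy.le, le_rfl⟩, sub_smul]
  abel

/-! ### closure of `IsPLR` and `IsPL` -/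

lemma IsPLR.const (c : E) : IsPLR (fun _ : ℝ => c) := fun x => ⟨RAff.const c x, LAff.const c x⟩

lemma IsPLR.smulConst (c : E) : IsPLR (fun t : ℝ => t • c) :=
  fun x => ⟨RAff.smulConst c x, LAff.smulConst c x⟩

lemma IsPLR.id : IsPLR (fun t : ℝ => t) := by
  simpa using IsPLR.smulConst (1:ℝ)

lemma IsPLR.add {f g : ℝ → E} (hf : IsPLR f) (hg : IsPLR g) : IsPLR (fun t => f t + g t) :=
  fun x => ⟨(hf x).1.add (hg x).1, (hf x).2.add (hg x).2⟩

lemma IsPLR.sub {f g : ℝ → E} (hf : IsPLR f) (hg : IsPLR g) : IsPLR (fun t => f t - g t) :=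
  fun x => ⟨(hf x).1.sub (hg x).1, (hf x).2.sub (hg x).2⟩

lemma IsPLR.smul {f : ℝ → E} (hf : IsPLR f) (c : ℝ) : IsPLR (fun t => c • f t) :=
  fun x => ⟨(hf x).1.smul c, (hf x).2.smul c⟩

lemma IsPLR.mul {f : ℝ → ℝ} (hf : IsPLR f) (c : ℝ) : IsPLR (fun t => c * f t) := hf.smul c

lemma IsPLR.neg {f : ℝ → E} (hf : IsPLR f) : IsPLR (fun t => - f t) :=
  fun x => ⟨(hf x).1.neg, (hf x).2.neg⟩

lemma IsPLR.linear {f : ℝ → E} (hf : IsPLR f) (L : E →ₗ[ℝ] F) : IsPLR (fun t => L (f t)) :=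
  fun x => ⟨(hf x).1.linear L, (hf x).2.linear L⟩

lemma IsPLR.prodMk {f : ℝ → E} {g : ℝ → F} (hf : IsPLR f) (hg : IsPLR g) :
    IsPLR (fun t => (f t, g t)) :=
  fun x => ⟨(hf x).1.prodMk (hg x).1, (hf x).2.prodMk (hg x).2⟩

lemma IsPLR.abs {f : ℝ → ℝ} (hf : IsPLR f) : IsPLR (fun t => |f t|) :=
  fun x => ⟨(hf x).1.abs, (hf x).2.abs⟩

lemma IsPLR.max {f g : ℝ → ℝ} (hf : IsPLR f) (hg : IsPLR g) : IsPLR (fun t => max (f t) (g t)) :=
  fun x => ⟨(hf x).1.max (hg x).1, (hf x).2.max (hg x).2⟩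

lemma IsPLR.min {f g : ℝ → ℝ} (hf : IsPLR f) (hg : IsPLR g) : IsPLR (fun t => min (f t) (g t)) :=
  fun x => ⟨(hf x).1.min (hg x).1, (hf x).2.min (hg x).2⟩

/-- an affine function `c + t u` written in any way -/
lemma IsPLR.affine (c u : E) : IsPLR (fun t : ℝ => c + t • u) :=
  (IsPLR.const c).add (IsPLR.smulConst u)

lemma IsPLR.finsum {α : Type*} (S : Finset α) (f : α → ℝ → E) (h : ∀ i ∈ S, IsPLR (f i)) :
    IsPLR (fun t => ∑ i ∈ S, f i t) := by
  classical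
  induction S using Finset.induction_on with
  | empty => simpa using IsPLR.const (0:E)
  | insert a S ha ih =>
    simp only [Finset.sum_insert ha]
    exact (h a (Finset.mem_insert_self _ _)).add (ih fun i hi => h i (Finset.mem_insert_of_mem hi))

lemma IsPL.const (c : E) : IsPL (fun _ : Circ => c) := IsPLR.const c

lemma IsPL.add {f g : Circ → E} (hf : IsPL f) (hg : IsPL g) : IsPL (fun t => f t + g t) :=
  IsPLR.add hf hg

lemma IsPL.sub {f g : Circ → E} (hf : IsPL f) (hg : IsPL g) : IsPL (fun t => f t - g t) :=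
  IsPLR.sub hf hg

lemma IsPL.smul {f : Circ → E} (hf : IsPL f) (c : ℝ) : IsPL (fun t => c • f t) :=
  IsPLR.smul hf c

lemma IsPL.neg {f : Circ → E} (hf : IsPL f) : IsPL (fun t => - f t) := IsPLR.neg hf

lemma IsPL.linear {f : Circ → E} (hf : IsPL f) (L : E →ₗ[ℝ] F) : IsPL (fun t => L (f t)) :=
  IsPLR.linear hf L

lemma IsPL.prodMk {f : Circ → E} {g : Circ → F} (hf : IsPL f) (hg : IsPL g) :
    IsPL (fun t => (f t, g t)) := IsPLR.prodMk hf hg

lemma IsPL.fst {f : Circ → E × F} (hf : IsPL f) : IsPL (fun t => (f t).1) :=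
  hf.linear (LinearMap.fst ℝ E F)

lemma IsPL.snd {f : Circ → E × F} (hf : IsPL f) : IsPL (fun t => (f t).2) :=
  hf.linear (LinearMap.snd ℝ E F)

lemma IsPL.abs {f : Circ → ℝ} (hf : IsPL f) : IsPL (fun t => |f t|) := IsPLR.abs hf

lemma IsPL.max {f g : Circ → ℝ} (hf : IsPL f) (hg : IsPL g) : IsPL (fun t => max (f t) (g t)) :=
  IsPLR.max hf hg

lemma IsPL.min {f g : Circ → ℝ} (hf : IsPL f) (hg : IsPL g) : IsPL (fun t => min (f t) (g t)) :=
  IsPLR.min hf hg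

/-- piecewise linear on a closed interval. -/
def PLOn (f : ℝ → E) (a b : ℝ) : Prop :=
  (∀ x ∈ Ico a b, RAff f x) ∧ (∀ x ∈ Ioc a b, LAff f x)

lemma IsPL.plOn {f : Circ → E} (hf : IsPL f) (a b : ℝ) : PLOn (fun τ : ℝ => f τ) a b :=
  ⟨fun x _ => (hf x).1, fun x _ => (hf x).2⟩

lemma IsPLR.plOn {f : ℝ → E} (hf : IsPLR f) (a b : ℝ) : PLOn f a b :=
  ⟨fun x _ => (hf x).1, fun x _ => (hf x).2⟩

lemma PLOn.mono {f : ℝ → E} {a b c d : ℝ} (hf : PLOn f a b) (hac : a ≤ c) (hdb : d ≤ b) :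
    PLOn f c d :=
  ⟨fun x hx => hf.1 x ⟨hac.trans hx.1, hx.2.trans_le hdb⟩,
   fun x hx => hf.2 x ⟨hac.trans_lt hx.1, hx.2.trans hdb⟩⟩

lemma PLOn.affine (c u : E) (a b : ℝ) : PLOn (fun τ => c + τ • u) a b :=
  ⟨fun x _ => (RAff.const c x).add (RAff.smulConst u x),
   fun x _ => (LAff.const c x).add (LAff.smulConst u x)⟩

lemma PLOn.congr {f g : ℝ → E} {a b : ℝ} (hf : PLOn f a b) (h : ∀ x ∈ Icc a b, g x = f x) :
    PLOn g a b := by
  refine ⟨fun x hx => (hf.1 x hx).congr (sub_pos.2 hx.2) fun τ hτ => h _ ⟨?_, ?_⟩,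
    fun x hx => (hf.2 x hx).congr (sub_pos.2 hx.1) fun τ hτ => h _ ⟨?_, ?_⟩⟩
  · linarith [hx.1, hτ.1]
  · linarith [hτ.2]
  · linarith [hτ.2]
  · linarith [hx.2, hτ.1]

lemma PLOn.append {f : ℝ → E} {a b c : ℝ} (h1 : PLOn f a b) (h2 : PLOn f b c) : PLOn f a c := by
  refine ⟨fun x hx => ?_, fun x hx => ?_⟩
  · rcases lt_or_ge x b with h | h
    · exact h1.1 x ⟨hx.1, h⟩
    · exact h2.1 x ⟨h, hx.2⟩
  · rcases le_or_gt x b with h | h
    · exact h1.2 x ⟨hx.1, h⟩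
    · exact h2.2 x ⟨h, hx.2⟩

/-- piecewise definition on two adjacent intervals -/
lemma PLOn.ite {f g : ℝ → E} {a b c : ℝ} (h1 : PLOn f a b) (h2 : PLOn g b c) (hb : f b = g b) :
    PLOn (fun τ => if τ ≤ b then f τ else g τ) a c := by
  refine PLOn.append (b := b) (h1.congr fun x hx => ?_) (h2.congr fun x hx => ?_)
  · simp [hx.2]
  · rcases eq_or_lt_of_le hx.1 with h | h
    · subst h; simp [hb]
    · simp [not_le.2 h]

end PL

section lift

/-- the representative of `t` in `[a, a+1)` -/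
noncomputable def lift (a : ℝ) (t : Circ) : ℝ := (AddCircle.equivIco (1:ℝ) a t : ℝ)

lemma lift_mem (a : ℝ) (t : Circ) : lift a t ∈ Ico a (a + 1) := (AddCircle.equivIco (1:ℝ) a t).2

lemma le_lift (a : ℝ) (t : Circ) : a ≤ lift a t := (lift_mem a t).1
lemma lift_lt (a : ℝ) (t : Circ) : lift a t < a + 1 := (lift_mem a t).2

@[simp] lemma coe_lift (a : ℝ) (t : Circ) : ((lift a t : ℝ) : Circ) = t :=
  (AddCircle.equivIco (1:ℝ) a).symm_apply_apply t

lemma lift_coe {a τ : ℝ} (h : τ ∈ Ico a (a + 1)) : lift a (τ : Circ) = τ := by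
  have := (AddCircle.equivIco (1:ℝ) a).apply_symm_apply ⟨τ, h⟩
  have h2 : ((AddCircle.equivIco (1:ℝ) a).symm ⟨τ, h⟩) = (τ : Circ) := rfl
  rw [h2] at this
  unfold lift
  rw [this]

lemma coe_add_one (x : ℝ) : ((x + 1 : ℝ) : Circ) = (x : Circ) := by
  rw [AddCircle.coe_add, AddCircle.coe_period, add_zero]

lemma coe_eq_coe_iff {a x y : ℝ} (hx : x ∈ Ico a (a + 1)) (hy : y ∈ Ico a (a + 1)) :
    (x : Circ) = (y : Circ) ↔ x = y := by
  constructor
  · intro h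
    rw [← lift_coe hx, ← lift_coe hy, h]
  · rintro rfl; rfl

lemma coe_injOn (a : ℝ) : Set.InjOn (fun x : ℝ => (x : Circ)) (Ico a (a + 1)) :=
  fun _ hx _ hy h => (coe_eq_coe_iff hx hy).1 h

variable {E : Type*} [AddCommGroup E] [Module ℝ E]

/-- the loop with base point `a` given by a function on `[a, a+1]`. -/
noncomputable def lp {E : Type*} (a : ℝ) (g : ℝ → E) : Circ → E := fun t => g (lift a t)

lemma lp_coe {E : Type*} {a τ : ℝ} (g : ℝ → E) (h : τ ∈ Ico a (a + 1)) : lp a g (τ : Circ) = g τ := by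
  unfold lp; rw [lift_coe h]

lemma lp_coe' {E : Type*} {a τ : ℝ} {g : ℝ → E} (hg : g a = g (a + 1)) (h : τ ∈ Icc a (a + 1)) :
    lp a g (τ : Circ) = g τ := by
  rcases eq_or_lt_of_le h.2 with h2 | h2
  · rw [h2, coe_add_one, lp_coe g ⟨le_rfl, by linarith⟩, hg]
  · exact lp_coe g ⟨h.1, h2⟩

lemma lp_eta {E : Type*} (a : ℝ) (f : Circ → E) : lp a (fun τ : ℝ => f τ) = f := by
  funext t; unfold lp; simp

/-- shifting by an integer -/
lemma coe_add_int (x : ℝ) (k : ℤ) : ((x + k : ℝ) : Circ) = (x : Circ) := by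
  rw [AddCircle.coe_add]
  have : ((k : ℝ) : Circ) = 0 := by
    rw [AddCircle.coe_eq_zero_iff]
    exact ⟨k, by simp⟩
  rw [this, add_zero]

lemma exists_int_shift (a x : ℝ) : ∃ k : ℤ, x + k ∈ Ico a (a + 1) := by
  refine ⟨-⌊x - a⌋, ?_, ?_⟩
  · push_cast
    linarith [Int.floor_le (x - a)]
  · push_cast
    linarith [Int.lt_floor_add_one (x - a)]

lemma exists_int_shift' (a x : ℝ) : ∃ k : ℤ, x + k ∈ Ioc a (a + 1) := by
  refine ⟨-⌈x - a⌉ + 1, ?_, ?_⟩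
  · push_cast
    linarith [Int.ceil_lt_add_one (x - a)]
  · push_cast
    linarith [Int.le_ceil (x - a)]

lemma RAff_shift {f : Circ → E} {x : ℝ} (k : ℤ) (h : RAff (fun τ : ℝ => f τ) (x + k)) :
    RAff (fun τ : ℝ => f τ) x := by
  obtain ⟨δ, hδ, u, hu⟩ := h
  refine ⟨δ, hδ, u, fun τ hτ => ?_⟩
  have := hu τ hτ
  simp only at this ⊢
  rw [show x + k + τ = (x + τ) + k by ring, coe_add_int, coe_add_int] at this
  exact this

lemma LAff_shift {f : Circ → E} {x : ℝ} (k : ℤ) (h : LAff (fun τ : ℝ => f τ) (x + k)) :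
    LAff (fun τ : ℝ => f τ) x := by
  obtain ⟨δ, hδ, u, hu⟩ := h
  refine ⟨δ, hδ, u, fun τ hτ => ?_⟩
  have := hu τ hτ
  simp only at this ⊢
  rw [show x + k - τ = (x - τ) + k by ring, coe_add_int, coe_add_int] at this
  exact this

lemma isPL_of_plOn {f : Circ → E} {a : ℝ} (h : PLOn (fun τ : ℝ => f τ) a (a + 1)) : IsPL f := by
  intro x
  obtain ⟨k, hk⟩ := exists_int_shift a x
  obtain ⟨l, hl⟩ := exists_int_shift' a x
  exact ⟨RAff_shift k (h.1 _ hk), LAff_shift l (h.2 _ hl)⟩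

lemma lp_isPL {a : ℝ} {g : ℝ → E} (h : PLOn g a (a + 1)) (hg : g a = g (a + 1)) :
    IsPL (lp a g) :=
  isPL_of_plOn (a := a) (h.congr fun _ hx => lp_coe' hg hx)

end lift

section cont
variable {E : Type*} [NormedAddCommGroup E] [NormedSpace ℝ E]

lemma RAff.continuousWithinAt {f : ℝ → E} {x : ℝ} (h : RAff f x) :
    ContinuousWithinAt f (Ici x) x := by
  obtain ⟨δ, hδ, u, hu⟩ := h
  have h1 : ContinuousWithinAt (fun y => f x + (y - x) • u) (Ici x) x :=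
    (Continuous.continuousWithinAt (by fun_prop))
  refine h1.congr_of_eventuallyEq ?_ (by simp)
  have : Icc x (x + δ) ∈ nhdsWithin x (Ici x) := Icc_mem_nhdsGE (by linarith)
  filter_upwards [this] with y hy
  have := hu (y - x) ⟨by linarith [hy.1], by linarith [hy.2]⟩
  rw [← this]; congr 1; ring

lemma LAff.continuousWithinAt {f : ℝ → E} {x : ℝ} (h : LAff f x) :
    ContinuousWithinAt f (Iic x) x := by
  obtain ⟨δ, hδ, u, hu⟩ := h
  have h1 : ContinuousWithinAt (fun y => f x - (x - y) • u) (Iic x) x :=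
    (Continuous.continuousWithinAt (by fun_prop))
  refine h1.congr_of_eventuallyEq ?_ (by simp)
  have : Icc (x - δ) x ∈ nhdsWithin x (Iic x) := Icc_mem_nhdsLE (by linarith)
  filter_upwards [this] with y hy
  have := hu (x - y) ⟨by linarith [hy.2], by linarith [hy.1]⟩
  rw [← this]; congr 1; ring

lemma IsPLR.continuous {f : ℝ → E} (hf : IsPLR f) : Continuous f := by
  rw [continuous_iff_continuousAt]
  intro x
  have h1 := (hf x).1.continuousWithinAt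
  have h2 := (hf x).2.continuousWithinAt
  have := h1.union h2
  rw [Set.union_comm, Set.Iic_union_Ici] at this
  exact (continuousWithinAt_univ _ _).1 this

lemma IsPL.continuous_coe {f : Circ → E} (hf : IsPL f) : Continuous (fun τ : ℝ => f τ) :=
  IsPLR.continuous hf

lemma IsPL.continuous {f : Circ → E} (hf : IsPL f) : Continuous f := by
  rw [(QuotientAddGroup.isQuotientMap_mk (N := AddSubgroup.zmultiples (1:ℝ))).continuous_iff]
  exact hf.continuous_coe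

end cont

end Pool.Agent.H81
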