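import Pool.Agent.H81.Link

namespace Pool.Agent.H81

open Set

variable {v : (Circ → ℂ × ℝ) → ℝ}

lemma W_zero {κX κH : ℝ} {x y z : Circ × Circ}
    (h : ¬ ((Lk x y ∧ Lk x z) ∨ (Lk x y ∧ Lk y z) ∨ (Lk x z ∧ Lk y z))) :
    W κX κH x y z = 0 := by
  unfold W
  rw [if_neg (fun h' => h (Or.inl ⟨h'.1, h'.2.1⟩)), if_neg h]

lemma W_X {κX κH : ℝ} {x y z : Circ × Circ} (h1 : Lk x y) (h2 : Lk x z) (h3 : Lk y z) :
    W κX κH x y z = κX := by
  unfold W
  rw [if_pos ⟨h1, h2, h3⟩]

lemma W_H {κX κH : ℝ} {x y z : Circ × Circ} (h : ¬ (Lk x y ∧ Lk x z ∧ Lk y z))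
    (h' : (Lk x y ∧ Lk x z) ∨ (Lk x y ∧ Lk y z) ∨ (Lk x z ∧ Lk y z)) :
    W κX κH x y z = κH := by
  unfold W
  rw [if_neg h, if_pos h']

/-- classification when the chords are sorted and oriented -/
lemma class_sorted (hv : IsInv v) {κX κH : ℝ}
    (hX : ∀ p t, Dat p ![0,1,2] ![3,4,5] t → E3 v p ![0,1,2] ![3,4,5] t = κX)
    (hH : ∀ p t, Dat p ![0,1,2] ![3,5,4] t → E3 v p ![0,1,2] ![3,5,4] t = κH)
    {p : Circ → ℂ} (hp : IsRegular p) {x y z : Circ × Circ} (h : Tri p x y z)
    (hx : lift 0 x.1 < lift 0 x.2) (hy : lift 0 y.1 < lift 0 y.2) (hz : lift 0 z.1 < lift 0 z.2)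
    (hxy : lift 0 x.1 < lift 0 y.1) (hyz : lift 0 y.1 < lift 0 z.1) :
    E v p x y z = W κX κH x y z := by
  have Lxy := Lk_sorted h.s12 hxy hx hy
  have Lxz := Lk_sorted h.s13 (hxy.trans hyz) hx hz
  have Lyz := Lk_sorted h.s23 hyz hy hz
  have n1 : lift 0 x.2 ≠ lift 0 y.1 := lift_ne h.s12.h21
  have n2 : lift 0 x.2 ≠ lift 0 y.2 := lift_ne h.s12.h22
  have n3 : lift 0 x.2 ≠ lift 0 z.1 := lift_ne h.s13.h21
  have n4 : lift 0 x.2 ≠ lift 0 z.2 := lift_ne h.s13.h22
  have n5 : lift 0 y.2 ≠ lift 0 z.1 := lift_ne h.s23.h21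
  have n6 : lift 0 y.2 ≠ lift 0 z.2 := lift_ne h.s23.h22
  have b := fun θ => le_lift 0 θ
  have b' := fun θ => lift_lt 0 θ
  have bx2 := b' x.2
  have by2 := b' y.2
  have bz2 := b' z.2
  have bx1 := b x.1
  have c0 := fun θ => coe_lift 0 θ
  have up : ∀ {s : ℝ} {θ : Circ}, s ≤ lift 0 θ → 0 ≤ s → lift s θ = lift 0 θ := by
    intro s θ h1 h2
    exact lift_eq_of (c0 θ) h1 (by linarith [b' θ])
  have up' : ∀ {s : ℝ} {θ : Circ}, lift 0 θ < s → s < 1 → lift s θ = lift 0 θ + 1 := by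
    intro s θ h1 h2
    exact lift_eq_of (by rw [coe_add_one, c0]) (by linarith [b θ]) (by linarith)
  have far : ∀ {s t : ℝ} {θ : Circ}, lift 0 θ < s → s < 1 → t < lift 0 θ + 1 → t < lift s θ := by
    intro s t θ h1 h2 h3
    rw [up' h1 h2]; exact h3
  have near : ∀ {s t : ℝ} {θ : Circ}, s ≤ lift 0 θ → 0 ≤ s → t < lift 0 θ → t < lift s θ := by
    intro s t θ h1 h2 h3
    rw [up h1 h2]; exact h3
  -- the isolation statements
  have isoZ : (lift 0 z.2 < lift 0 x.2 ∨ lift 0 x.2 < lift 0 z.1) →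
      (lift 0 z.2 < lift 0 y.2 ∨ lift 0 y.2 < lift 0 z.1) → E v p x y z = 0 := by
    intro h1 h2
    refine E_zero hv hp hz (by linarith) h (c0 _) (c0 _) ?_ ?_ ?_ ?_
    · exact far (by linarith) (by linarith) (by linarith)
    · rcases h1 with h1 | h1
      · exact near (by linarith) (by linarith) (by linarith)
      · exact far (by linarith) (by linarith) (by linarith)
    · exact far (by linarith) (by linarith) (by linarith)
    · rcases h2 with h1 | h1
      · exact near (by linarith) (by linarith) (by linarith)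
      · exact far (by linarith) (by linarith) (by linarith)
  rcases lt_or_gt_of_ne n1 with k1 | k1
  · -- x is isolated
    rw [W_zero (by rw [Lxy, Lxz, Lyz]; rintro (⟨h1, h2⟩ | ⟨h1, h2⟩ | ⟨h1, h2⟩) <;> linarith [h1.1])]
    have h' : Tri p y z x := ⟨h.c2, h.c3, h.c1, h.s23, h.s12.symm, h.s13.symm⟩
    rw [E_perm12 h.s12, E_perm23 h.s13]
    exact E_zero hv hp hx (by linarith) h' (c0 _) (c0 _)
      (near (by linarith) (by linarith) (by linarith))
      (near (by linarith) (by linarith) (by linarith))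
      (near (by linarith) (by linarith) (by linarith))
      (near (by linarith) (by linarith) (by linarith))
  · rcases lt_or_gt_of_ne n2 with k2 | k2
    · -- x y interlaced
      rcases lt_or_gt_of_ne n3 with k3 | k3
      · -- x z not
        rcases lt_or_gt_of_ne n5 with k5 | k5
        · rw [isoZ (Or.inr k3) (Or.inr k5), W_zero]
          rw [Lxy, Lxz, Lyz]; rintro (⟨h1, h2⟩ | ⟨h1, h2⟩ | ⟨h1, h2⟩) <;>
            linarith [h1.1, h2.1]
        · rcases lt_or_gt_of_ne n6 with k6 | k6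
          · -- H with center y
            rw [W_H (by rw [Lxz]; rintro ⟨_, h2, _⟩; linarith [h2.1])
              (Or.inr (Or.inl ⟨Lxy.2 ⟨k1, k2⟩, Lyz.2 ⟨k5, k6⟩⟩))]
            have h' : Tri p y x.swap z :=
              ⟨h.c2, h.c1.swap, h.c3, h.s12.symm.swap_right, h.s23, h.s13.swap_left⟩
            obtain ⟨D, e⟩ := datH (v := v) hp h' k1 k3 k5 k6
              (show lift 0 z.2 < lift 0 x.1 + 1 by linarith) (by linarith) (c0 _) (c0 _) (c0 _)
              (c0 _) (c0 _) (by rw [coe_add_one]; exact c0 _)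
            rw [← hH _ _ D, e, E_perm12 h.s12.swap_left.symm, E_swap1 hv hp h]
          · rw [isoZ (Or.inr k3) (Or.inl k6), W_zero]
            rw [Lxy, Lxz, Lyz]; rintro (⟨h1, h2⟩ | ⟨h1, h2⟩ | ⟨h1, h2⟩) <;>
              linarith [h1.1, h2.1, h1.2, h2.2]
      · rcases lt_or_gt_of_ne n4 with k4 | k4
        · rcases lt_or_gt_of_ne n6 with k6 | k6
          · -- X
            rw [W_X (Lxy.2 ⟨k1, k2⟩) (Lxz.2 ⟨k3, k4⟩) (Lyz.2 ⟨k3.trans k2, k6⟩)]
            obtain ⟨D, e⟩ := datX (v := v) hp h hxy hyz k3 k2 k6 (by linarith) (c0 _) (c0 _)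
              (c0 _) (c0 _) (c0 _) (c0 _)
            rw [← hX _ _ D, e]
          · -- H with center x
            rw [W_H (by rw [Lyz]; rintro ⟨_, _, h2⟩; linarith [h2.2])
              (Or.inl ⟨Lxy.2 ⟨k1, k2⟩, Lxz.2 ⟨k3, k4⟩⟩)]
            obtain ⟨D, e⟩ := datH (v := v) hp h hxy hyz k3 k4 k6 (by linarith) (c0 _) (c0 _)
              (c0 _) (c0 _) (c0 _) (c0 _)
            rw [← hH _ _ D, e]
        · rw [isoZ (Or.inl k4) (Or.inl (k4.trans k2)), W_zero]
          rw [Lxy, Lxz, Lyz]; rintro (⟨h1, h2⟩ | ⟨h1, h2⟩ | ⟨h1, h2⟩) <;>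
            linarith [h1.1, h2.1, h1.2, h2.2]
    · -- x y not interlaced, y inside x
      rcases lt_or_gt_of_ne n5 with k5 | k5
      · -- y isolated
        rw [W_zero (by rw [Lxy, Lxz, Lyz]; rintro (⟨h1, h2⟩ | ⟨h1, h2⟩ | ⟨h1, h2⟩) <;>
          linarith [h1.2, h2.1])]
        have h' : Tri p x z y := h.perm23
        rw [E_perm23 h.s23]
        exact E_zero hv hp hy (by linarith) h' (c0 _) (c0 _)
          (far (by linarith) (by linarith) (by linarith))
          (near (by linarith) (by linarith) (by linarith))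
          (near (by linarith) (by linarith) (by linarith))
          (near (by linarith) (by linarith) (by linarith))
      · rcases lt_or_gt_of_ne n6 with k6 | k6
        · rcases lt_or_gt_of_ne n4 with k4 | k4
          · -- H with center z
            rw [W_H (by rw [Lxy]; rintro ⟨h2, _, _⟩; linarith [h2.2])
              (Or.inr (Or.inr ⟨Lxz.2 ⟨k5.trans k2, k4⟩, Lyz.2 ⟨k5, k6⟩⟩))]
            have h' : Tri p z.swap x y :=
              ⟨h.c3.swap, h.c1, h.c2, h.s13.symm.swap_left, h.s23.symm.swap_left, h.s12⟩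
            obtain ⟨D, e⟩ := datH (v := v) hp h' (a := lift 0 z.2 - 1) (b := lift 0 x.1)
              (c := lift 0 y.1) (d := lift 0 z.1) (e := lift 0 y.2) (f := lift 0 x.2)
              (by linarith) hxy hyz k5 k2 (by linarith)
              (by rw [← coe_add_one (lift 0 z.2 - 1), sub_add_cancel]; exact c0 _)
              (c0 _) (c0 _) (c0 _) (c0 _) (c0 _)
            have h'' : Tri p z x y := ⟨h.c3, h.c1, h.c2, h.s13.symm, h.s23.symm, h.s12⟩
            rw [← hH _ _ D, e, E_swap1 hv hp h'', E_perm12 h.s13.symm, E_perm23 h.s23.symm]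
          · -- x isolated
            rw [W_zero (by rw [Lxy, Lxz, Lyz]; rintro (⟨h1, h2⟩ | ⟨h1, h2⟩ | ⟨h1, h2⟩) <;>
              linarith [h1.2, h2.1])]
            have h' : Tri p y z x.swap :=
              ⟨h.c2, h.c3, h.c1.swap, h.s23, h.s12.symm.swap_right, h.s13.symm.swap_right⟩
            have h'' : Tri p y z x := ⟨h.c2, h.c3, h.c1, h.s23, h.s12.symm, h.s13.symm⟩
            rw [E_perm12 h.s12, E_perm23 h.s13, ← E_swap3 hv hp h'']
            exact E_zero hv hp (s := lift 0 x.2) (t := lift 0 x.1 + 1) (by linarith)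
              (by linarith) h' (c0 _) (by rw [coe_add_one]; exact c0 _)
              (far (by linarith) (by linarith) (by linarith))
              (far (by linarith) (by linarith) (by linarith))
              (far (by linarith) (by linarith) (by linarith))
              (far (by linarith) (by linarith) (by linarith))
        · rw [isoZ (Or.inl (by linarith)) (Or.inl k6), W_zero]
          rw [Lxy, Lxz, Lyz]; rintro (⟨h1, h2⟩ | ⟨h1, h2⟩ | ⟨h1, h2⟩) <;>
            linarith [h1.1, h2.1, h1.2, h2.2]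

/-- classification for oriented chords -/
lemma class_oriented (hv : IsInv v) {κX κH : ℝ}
    (hX : ∀ p t, Dat p ![0,1,2] ![3,4,5] t → E3 v p ![0,1,2] ![3,4,5] t = κX)
    (hH : ∀ p t, Dat p ![0,1,2] ![3,5,4] t → E3 v p ![0,1,2] ![3,5,4] t = κH)
    {p : Circ → ℂ} (hp : IsRegular p) {x y z : Circ × Circ} (h : Tri p x y z)
    (hx : lift 0 x.1 < lift 0 x.2) (hy : lift 0 y.1 < lift 0 y.2) (hz : lift 0 z.1 < lift 0 z.2) :
    E v p x y z = W κX κH x y z := by
  have n1 : lift 0 x.1 ≠ lift 0 y.1 := lift_ne h.s12.h11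
  have n2 : lift 0 x.1 ≠ lift 0 z.1 := lift_ne h.s13.h11
  have n3 : lift 0 y.1 ≠ lift 0 z.1 := lift_ne h.s23.h11
  rcases lt_or_gt_of_ne n1 with k1 | k1
  · rcases lt_or_gt_of_ne n3 with k3 | k3
    · exact class_sorted hv hX hH hp h hx hy hz k1 k3
    · rcases lt_or_gt_of_ne n2 with k2 | k2
      · -- x z y
        rw [E_perm23 h.s23, W_perm23]
        exact class_sorted hv hX hH hp h.perm23 hx hz hy k2 k3
      · -- z x y
        rw [E_perm23 h.s23, W_perm23, E_perm12 h.s13, W_perm12]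
        exact class_sorted hv hX hH hp h.perm23.perm12 hz hx hy k2 k1
  · rcases lt_or_gt_of_ne n2 with k2 | k2
    · -- y x z
      rw [E_perm12 h.s12, W_perm12]
      exact class_sorted hv hX hH hp h.perm12 hy hx hz k1 k2
    · rcases lt_or_gt_of_ne n3 with k3 | k3
      · -- y z x
        rw [E_perm12 h.s12, W_perm12, E_perm23 h.s13, W_perm23]
        exact class_sorted hv hX hH hp h.perm12.perm23 hy hz hx k3 k2
      · -- z y x
        rw [E_perm12 h.s12, W_perm12, E_perm23 h.s13, W_perm23, E_perm12 h.s23, W_perm12]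
        exact class_sorted hv hX hH hp h.perm12.perm23.perm12 hz hy hx k3 k1

/-- **Classification** of the cubic coefficients, up to two constants. -/
theorem classify (hv : IsInv v) : ∃ κX κH : ℝ,
    (∀ p t, Dat p ![0,1,2] ![3,4,5] t → E3 v p ![0,1,2] ![3,4,5] t = κX) ∧
    ∀ p x y z, IsRegular p → Tri p x y z → E v p x y z = W κX κH x y z := by
  obtain ⟨κX, hX⟩ := exists_kappa hv ![0,1,2] ![3,4,5]
  obtain ⟨κH, hH⟩ := exists_kappa hv ![0,1,2] ![3,5,4]
  refine ⟨κX, κH, hX, fun p x y z hp h => ?_⟩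
  have step3 : ∀ x y z, Tri p x y z → lift 0 x.1 < lift 0 x.2 → lift 0 y.1 < lift 0 y.2 →
      E v p x y z = W κX κH x y z := by
    intro x y z h hx hy
    rcases lt_or_gt_of_ne (lift_ne (a := 0) h.c3.1) with k | k
    · exact class_oriented hv hX hH hp h hx hy k
    · have h' : Tri p x y z.swap := ⟨h.c1, h.c2, h.c3.swap, h.s12, h.s13.swap_right,
        h.s23.swap_right⟩
      rw [← E_swap3 hv hp h, ← W_swap3]
      exact class_oriented hv hX hH hp h' hx hy k
  have step2 : ∀ x y z, Tri p x y z → lift 0 x.1 < lift 0 x.2 →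
      E v p x y z = W κX κH x y z := by
    intro x y z h hx
    rcases lt_or_gt_of_ne (lift_ne (a := 0) h.c2.1) with k | k
    · exact step3 x y z h hx k
    · have h' : Tri p x y.swap z := ⟨h.c1, h.c2.swap, h.c3, h.s12.swap_right, h.s13,
        h.s23.swap_left⟩
      rw [← E_swap2 hv hp h, ← W_swap2]
      exact step3 _ _ _ h' hx k
  rcases lt_or_gt_of_ne (lift_ne (a := 0) h.c1.1) with k | k
  · exact step2 x y z h k
  · have h' : Tri p x.swap y z := h.swap1
    rw [← E_swap1 hv hp h, ← W_swap1]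
    exact step2 _ _ _ h' k

end Pool.Agent.H81
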