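import Pool.Agent.H81.Splice

namespace Pool.Agent.H81

open Set

lemma det_comb (u w : ℂ) (α β α' β' : ℝ) :
    det (α • u + β • w) (α' • u + β' • w) = (α * β' - β * α') * det u w := by
  unfold det
  simp only [Complex.add_re, Complex.add_im, Complex.smul_re, Complex.smul_im, smul_eq_mul]
  ring

lemma coord_inj {u w : ℂ} (h : det u w ≠ 0) {α β α' β' : ℝ}
    (e : α • u + β • w = α' • u + β' • w) : α = α' ∧ β = β' := by
  have h1 : det (α • u + β • w) ((0:ℝ) • u + (1:ℝ) • w) =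
      det (α' • u + β' • w) ((0:ℝ) • u + (1:ℝ) • w) := by rw [e]
  have h2 : det ((1:ℝ) • u + (0:ℝ) • w) (α • u + β • w) =
      det ((1:ℝ) • u + (0:ℝ) • w) (α' • u + β' • w) := by rw [e]
  rw [det_comb, det_comb] at h1 h2
  have h3 := mul_right_cancel₀ h h1
  have h4 := mul_right_cancel₀ h h2
  constructor <;> linarith

/-- a clean parallelogram at the crossing `(s,t)` -/
structure Clean (p : Circ → ℂ) (s t : ℝ) (u w : ℂ) (r : ℝ) : Prop where
  reg : IsRegular p
  hr : 0 < r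
  hst : s + r < t - r
  hts : t + r < s + 1 - r
  dt : det u w ≠ 0
  ps : ∀ x : ℝ, |x| ≤ r → p ((s + x : ℝ) : Circ) = p s + x • u
  pt : ∀ x : ℝ, |x| ≤ r → p ((t + x : ℝ) : Circ) = p s + x • w
  cl : ∀ (θ : Circ) (α β : ℝ), |α| ≤ r → |β| ≤ r → p θ = p s + (α • u + β • w) →
    ∃ τ : ℝ, (τ : Circ) = θ ∧ (|τ - s| ≤ r ∨ |τ - t| ≤ r)

lemma exists_clean {p : Circ → ℂ} (hp : IsRegular p) {s t : ℝ} (hst : s < t) (hts : t < s + 1)
    (heq : p s = p t) : ∃ u w : ℂ, ∃ r₀ > 0, ∀ r, 0 < r → r ≤ r₀ → Clean p s t u w r := by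
  have hne : (s : Circ) ≠ (t : Circ) := by
    intro h
    rw [coe_eq_coe_iff (a := s) ⟨le_rfl, by linarith⟩ ⟨hst.le, hts⟩] at h
    linarith
  obtain ⟨u, w, hu, hw, hd⟩ := hp.trans s t hne heq
  rw [vel_iff] at hu hw
  obtain ⟨δ₁, hδ₁, hu⟩ := hu
  obtain ⟨δ₂, hδ₂, hw⟩ := hw
  obtain ⟨r₁, hr₁, b1, b2, b3, b4⟩ : ∃ r₁ > 0, r₁ < δ₁ ∧ r₁ < δ₂ ∧ s + r₁ < t - r₁ ∧
      t + r₁ < s + 1 - r₁ := by
    refine ⟨min (min (δ₁/2) (δ₂/2)) (min ((t-s)/3) ((s+1-t)/3)), ?_, ?_, ?_, ?_, ?_⟩
    · exact lt_min (lt_min (by linarith) (by linarith)) (lt_min (by linarith) (by linarith))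
    · have := (min_le_left (min (δ₁/2) (δ₂/2)) (min ((t-s)/3) ((s+1-t)/3))).trans (min_le_left _ _)
      linarith
    · have := (min_le_left (min (δ₁/2) (δ₂/2)) (min ((t-s)/3) ((s+1-t)/3))).trans (min_le_right _ _)
      linarith
    · have := (min_le_right (min (δ₁/2) (δ₂/2)) (min ((t-s)/3) ((s+1-t)/3))).trans (min_le_left _ _)
      linarith
    · have := (min_le_right (min (δ₁/2) (δ₂/2)) (min ((t-s)/3) ((s+1-t)/3))).trans (min_le_right _ _)
      linarith
  -- distance from the other points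
  have hcont := hp.pl.continuous_coe
  have far : ∀ x y : ℝ, x ≤ y → (∀ τ ∈ Icc x y, p τ ≠ p s) → ∃ ρ > 0, ∀ τ ∈ Icc x y,
      ρ ≤ ‖p τ - p s‖ := by
    intro x y hxy hne
    have hc : ContinuousOn (fun τ : ℝ => ‖p τ - p s‖) (Icc x y) :=
      ((hcont.sub continuous_const).norm).continuousOn
    obtain ⟨m, hm, hmin⟩ := isCompact_Icc.exists_isMinOn (nonempty_Icc.2 hxy) hc
    exact ⟨‖p m - p s‖, norm_pos_iff.2 (sub_ne_zero.2 (hne m hm)), fun τ hτ => hmin hτ⟩
  have hno : ∀ τ : ℝ, s < τ → τ < s + 1 → τ ≠ t → p τ ≠ p s := by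
    intro τ h1 h2 h3 h4
    rcases hp.triple τ s t h4 heq with h | h | h
    · rw [coe_eq_coe_iff (a := s) ⟨h1.le, h2⟩ ⟨le_rfl, by linarith⟩] at h; linarith
    · exact hne h
    · rw [coe_eq_coe_iff (a := s) ⟨h1.le, h2⟩ ⟨hst.le, hts⟩] at h; exact h3 h
  obtain ⟨ρ₁, hρ₁, f1⟩ := far (s + r₁) (t - r₁) b3.le fun τ hτ =>
    hno τ (by linarith [hτ.1]) (by linarith [hτ.2]) (by linarith [hτ.2])
  obtain ⟨ρ₂, hρ₂, f2⟩ := far (t + r₁) (s + 1 - r₁) b4.le fun τ hτ =>
    hno τ (by linarith [hτ.1]) (by linarith [hτ.2]) (by linarith [hτ.1])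
  have hpos : 0 < ‖u‖ + ‖w‖ + 1 := by positivity
  refine ⟨u, w, min (r₁/2) (min ρ₁ ρ₂ / 2 / (‖u‖ + ‖w‖ + 1)), ?_, fun r hr0 hr => ?_⟩
  · exact lt_min (by linarith) (by have := lt_min hρ₁ hρ₂; positivity)
  have k1 : r ≤ r₁ / 2 := hr.trans (min_le_left _ _)
  have k2 : r * (‖u‖ + ‖w‖ + 1) ≤ min ρ₁ ρ₂ / 2 := by
    have := hr.trans (min_le_right _ _)
    rwa [le_div_iff₀ hpos] at this
  have hps : ∀ x : ℝ, |x| < r₁ → p ((s + x : ℝ) : Circ) = p s + x • u := fun x hx =>
    hu x (by linarith)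
  have hpt : ∀ x : ℝ, |x| < r₁ → p ((t + x : ℝ) : Circ) = p s + x • w := fun x hx => by
    rw [heq]; exact hw x (by linarith)
  refine ⟨hp, hr0, by linarith, by linarith, hd, fun x hx => hps x (by linarith),
    fun x hx => hpt x (by linarith), ?_⟩
  intro θ α β hα hβ hθ
  have hnorm : ‖p θ - p s‖ < min ρ₁ ρ₂ := by
    rw [hθ, add_sub_cancel_left]
    have e1 : ‖α • u + β • w‖ ≤ r * ‖u‖ + r * ‖w‖ := by
      refine (norm_add_le _ _).trans ?_
      rw [norm_smul, norm_smul, Real.norm_eq_abs, Real.norm_eq_abs]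
      exact add_le_add (mul_le_mul_of_nonneg_right hα (norm_nonneg _))
        (mul_le_mul_of_nonneg_right hβ (norm_nonneg _))
    have : 0 < min ρ₁ ρ₂ := lt_min hρ₁ hρ₂
    nlinarith
  set τ := lift (s - r₁) θ with hτ
  have t1 : s - r₁ ≤ τ := le_lift _ θ
  have t2 : τ < s - r₁ + 1 := lift_lt _ θ
  have hcoe : (τ : Circ) = θ := coe_lift _ θ
  refine ⟨τ, hcoe, ?_⟩
  rcases le_or_gt (s + r₁) τ with h1 | h1
  · rcases le_or_gt τ (t - r₁) with h2 | h2
    · exfalso
      have := f1 τ ⟨h1, h2⟩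
      rw [hcoe] at this
      linarith [min_le_left ρ₁ ρ₂]
    · rcases le_or_gt (t + r₁) τ with h3 | h3
      · exfalso
        have := f2 τ ⟨h3, by linarith⟩
        rw [hcoe] at this
        linarith [min_le_right ρ₁ ρ₂]
      · right
        have e := hpt (τ - t) (by rw [abs_lt]; constructor <;> linarith)
        rw [add_sub_cancel, hcoe, hθ] at e
        have e2 : α • u + β • w = (0:ℝ) • u + (τ - t) • w := by
          rw [zero_smul, zero_add]; exact add_left_cancel e
        rw [← (coord_inj hd e2).2]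
        exact hβ
  · rcases lt_or_ge (s - r₁) τ with h4 | h4
    · left
      have e := hps (τ - s) (by rw [abs_lt]; constructor <;> linarith)
      rw [add_sub_cancel, hcoe, hθ] at e
      have e2 : α • u + β • w = (τ - s) • u + (0:ℝ) • w := by
        rw [zero_smul, add_zero]; exact add_left_cancel e
      rw [← (coord_inj hd e2).1]
      exact hα
    · exfalso
      have h5 : τ = s - r₁ := le_antisymm h4 t1
      have := f2 (s + 1 - r₁) ⟨by linarith, le_rfl⟩
      rw [show s + 1 - r₁ = (s - r₁) + 1 by ring, coe_add_one, ← h5, hcoe] at this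
      linarith [min_le_right ρ₁ ρ₂]

namespace Clean

variable {p : Circ → ℂ} {s t : ℝ} {u w : ℂ} {r : ℝ}

lemma s_cases (C : Clean p s t u w r) {θ : Circ} {α β : ℝ} (h1 : |α| ≤ r) (h2 : |β| ≤ r)
    (h : p θ = p s + (α • u + β • w)) :
    (β = 0 ∧ θ = ((s + α : ℝ) : Circ)) ∨ (α = 0 ∧ θ = ((t + β : ℝ) : Circ)) := by
  obtain ⟨τ, hτ, h3 | h3⟩ := C.cl θ α β h1 h2 h
  · left
    have e := C.ps (τ - s) h3
    rw [add_sub_cancel, hτ, h] at e
    have e2 : α • u + β • w = (τ - s) • u + (0:ℝ) • w := by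
      rw [zero_smul, add_zero]; exact add_left_cancel e
    obtain ⟨e3, e4⟩ := coord_inj C.dt e2
    refine ⟨e4, ?_⟩
    rw [e3, add_sub_cancel, hτ]
  · right
    have e := C.pt (τ - t) h3
    rw [add_sub_cancel, hτ, h] at e
    have e2 : α • u + β • w = (0:ℝ) • u + (τ - t) • w := by
      rw [zero_smul, zero_add]; exact add_left_cancel e
    obtain ⟨e3, e4⟩ := coord_inj C.dt e2
    refine ⟨e3, ?_⟩
    rw [e4, add_sub_cancel, hτ]

lemma hs1 (C : Clean p s t u w r) : s < t := by linarith [C.hst, C.hr]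
lemma ht1 (C : Clean p s t u w r) : t < s + 1 := by linarith [C.hts, C.hr]

lemma eqst (C : Clean p s t u w r) : p (s : Circ) = p (t : Circ) := by
  have := C.pt 0 (by simpa using C.hr.le)
  simpa using this.symm

lemma isCr (C : Clean p s t u w r) : IsCr p ((s : Circ), (t : Circ)) := by
  refine ⟨fun h => ?_, C.eqst⟩
  have h' : (s : Circ) = (t : Circ) := h
  rw [coe_eq_coe_iff (a := s) ⟨le_rfl, by linarith⟩ ⟨C.hs1.le, C.ht1⟩] at h'
  linarith [C.hs1]

lemma s_not (C : Clean p s t u w r) {x : ℝ} (hx : |x| ≤ r) (hx0 : x ≠ 0) :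
    ((s + x : ℝ) : Circ) ∉ feet p := by
  rintro ⟨θ, hne, h⟩
  have h2 : p θ = p s + (x • u + (0:ℝ) • w) := by rw [h, C.ps x hx, zero_smul, add_zero]
  rcases C.s_cases hx (by simpa using C.hr.le) h2 with ⟨_, h3⟩ | ⟨h3, _⟩
  · exact hne h3
  · exact hx0 h3

lemma t_not (C : Clean p s t u w r) {x : ℝ} (hx : |x| ≤ r) (hx0 : x ≠ 0) :
    ((t + x : ℝ) : Circ) ∉ feet p := by
  rintro ⟨θ, hne, h⟩
  have h2 : p θ = p s + ((0:ℝ) • u + x • w) := by rw [h, C.pt x hx, zero_smul, zero_add]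
  rcases C.s_cases (by simpa using C.hr.le) hx h2 with ⟨h3, _⟩ | ⟨_, h3⟩
  · exact hx0 h3
  · exact hne h3

/-- feet of other crossings avoid the strands of the clean parallelogram -/
lemma foot_away (C : Clean p s t u w r) {θ : Circ} (h : θ ∈ feet p) {τ : ℝ} (hτ : (τ : Circ) = θ)
    (h1 : τ ≠ s) (h2 : τ ≠ t) : r < |τ - s| ∧ r < |τ - t| := by
  constructor
  · by_contra hcon
    have := C.s_not (not_lt.1 hcon) (sub_ne_zero.2 h1)
    rw [add_sub_cancel, hτ] at this
    exact this h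
  · by_contra hcon
    have := C.t_not (not_lt.1 hcon) (sub_ne_zero.2 h2)
    rw [add_sub_cancel, hτ] at this
    exact this h

end Clean

lemma lift_eq_of {a τ : ℝ} {θ : Circ} (h : (τ : Circ) = θ) (h1 : a ≤ τ) (h2 : τ < a + 1) :
    lift a θ = τ := by rw [← h, lift_coe ⟨h1, h2⟩]

/-- the affine path on `[a,b]` from `X + (α₀ u + β₀ w)` to `X + (α₁ u + β₁ w)` -/
noncomputable def seg (a b : ℝ) (X u w : ℂ) (α₀ β₀ α₁ β₁ τ : ℝ) : ℂ :=
  X + ((α₀ + (τ - a) / (b - a) * (α₁ - α₀)) • u + (β₀ + (τ - a) / (b - a) * (β₁ - β₀)) • w)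

lemma seg_isPLR (a b : ℝ) (X u w : ℂ) (α₀ β₀ α₁ β₁ : ℝ) :
    IsPLR (seg a b X u w α₀ β₀ α₁ β₁) := by
  have h : ∀ x y : ℝ, IsPLR (fun τ : ℝ => x + (τ - a) / (b - a) * y) := by
    intro x y
    have := IsPLR.affine (E := ℝ) (x - a / (b - a) * y) (1 / (b - a) * y)
    refine (?_ : (fun τ : ℝ => x + (τ - a) / (b - a) * y) =
      fun t => (x - a / (b - a) * y) + t • (1 / (b - a) * y)) ▸ this
    funext τ
    simp only [smul_eq_mul]
    ring
  exact (IsPLR.const X).add (((h _ _).linear ((LinearMap.id (R := ℝ) (M := ℝ)).smulRight u)).add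
    ((h _ _).linear ((LinearMap.id (R := ℝ) (M := ℝ)).smulRight w)))

lemma seg_left (a b : ℝ) (X u w : ℂ) (α₀ β₀ α₁ β₁ : ℝ) :
    seg a b X u w α₀ β₀ α₁ β₁ a = X + (α₀ • u + β₀ • w) := by
  unfold seg; simp

lemma seg_right {a b : ℝ} (h : a < b) (X u w : ℂ) (α₀ β₀ α₁ β₁ : ℝ) :
    seg a b X u w α₀ β₀ α₁ β₁ b = X + (α₁ • u + β₁ • w) := by
  unfold seg
  rw [div_self (by linarith)]
  simp

namespace Clean

variable {p : Circ → ℂ} {s t : ℝ} {u w : ℂ} {r : ℝ}

lemma frac_mem {a b τ : ℝ} (hab : a < b) (h1 : a ≤ τ) (h2 : τ ≤ b) :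
    0 ≤ (τ - a) / (b - a) ∧ (τ - a) / (b - a) ≤ 1 :=
  ⟨div_nonneg (by linarith) (by linarith), (div_le_one (by linarith)).2 (by linarith)⟩

/-- closing off the lobe `(s,t)` by a small segment -/
lemma corner1 (C : Clean p s t u w r) :
    GoodSplice p (s + r) (t - r) (seg (s + r) (t - r) (p s) u w r 0 0 (-r)) ∧
    AF (splice p (s + r) (t - r) (seg (s + r) (t - r) (p s) u w r 0 0 (-r))) (s + r) (t - r) = ∅ := by
  have hr := C.hr
  have hst := C.hst
  have hts := C.hts
  have hrr : |r| ≤ r := by rw [abs_of_pos hr]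
  have hrr' : |-r| ≤ r := by rw [abs_neg, abs_of_pos hr]
  refine clean_splice C.reg hst (by linarith) (C.s_not hrr hr.ne') ?_
    ((seg_isPLR _ _ _ _ _ _ _ _ _).plOn _ _) ?_ ?_ ?_ ?_
  · have := C.t_not hrr' (by linarith)
    rwa [← sub_eq_add_neg] at this
  · rw [seg_left, C.ps r hrr, zero_smul, add_zero]
  · rw [seg_right hst, zero_smul, zero_add, sub_eq_add_neg t r, C.pt (-r) hrr']
  · intro σ τ h1 h2 h3 h4
    unfold seg at h4
    have := (coord_inj C.dt (add_left_cancel h4)).2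
    have h5 : (σ - (s + r)) / (t - r - (s + r)) < (τ - (s + r)) / (t - r - (s + r)) :=
      div_lt_div_of_pos_right (by linarith) (by linarith)
    nlinarith
  · intro σ τ h1 h2 h3 h4 h5
    obtain ⟨g1, g2⟩ := frac_mem hst h1 h2
    unfold seg at h5
    set l := (σ - (s + r)) / (t - r - (s + r)) with hl
    have a1 : |r + l * (0 - r)| ≤ r := by
      rw [abs_le]; constructor <;> nlinarith
    have a2 : |0 + l * (-r - 0)| ≤ r := by
      rw [abs_le]; constructor <;> nlinarith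
    rcases C.s_cases a1 a2 h5.symm with ⟨m1, m2⟩ | ⟨m1, m2⟩
    · have hl0 : l = 0 := by
        have : l * r = 0 := by linarith
        rcases mul_eq_zero.1 this with h | h
        · exact h
        · linarith
      rw [hl0, zero_mul, add_zero] at m2
      rw [coe_eq_coe_iff (a := s + r) ⟨by linarith, h4⟩ ⟨le_rfl, by linarith⟩] at m2
      linarith
    · have hl1 : l = 1 := by
        have : (1 - l) * r = 0 := by linarith
        rcases mul_eq_zero.1 this with h | h
        · linarith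
        · linarith
      rw [hl1] at m2
      rw [coe_eq_coe_iff (a := s + r) ⟨by linarith, h4⟩ ⟨by linarith, by linarith⟩] at m2
      linarith

/-- cutting the corner after the lobe has been closed off -/
lemma corner2 (C : Clean p s t u w r) (q : Circ → ℂ)
    (hq : q = splice p (s + r) (t - r) (seg (s + r) (t - r) (p s) u w r 0 0 (-r))) :
    GoodSplice q (s - r) (t + r) (seg (s - r) (t + r) (p s) u w (-r) 0 0 r) ∧
    AF (splice q (s - r) (t + r) (seg (s - r) (t + r) (p s) u w (-r) 0 0 r)) (s - r) (t + r) = ∅ ∧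
    AF q (s - r) (t + r) = {(s : Circ)} ∧ cr q (s : Circ) = ((s : Circ), (t : Circ)) := by
  obtain ⟨H, hAF⟩ := C.corner1
  have hr := C.hr
  have hst := C.hst
  have hts := C.hts
  have hrr : |r| ≤ r := by rw [abs_of_pos hr]
  have hrr' : |-r| ≤ r := by rw [abs_neg, abs_of_pos hr]
  have qreg : IsRegular q := hq ▸ H.regular
  have q_ge : ∀ τ : ℝ, t - r ≤ τ → τ ≤ s + r + 1 → q (τ : Circ) = p τ := fun τ h1 h2 => by
    rw [hq]; exact H.coe_ge h1 h2
  have q_ge' : ∀ τ : ℝ, s - r ≤ τ → τ ≤ s + r → q (τ : Circ) = p τ := fun τ h1 h2 => by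
    rw [← coe_add_one τ, q_ge (τ + 1) (by linarith) (by linarith)]
  have hqs : q (s : Circ) = p s := q_ge' s (by linarith) (by linarith)
  have hqt : q (t : Circ) = p t := q_ge t (by linarith) (by linarith)
  have hcrq : IsCr q ((s : Circ), (t : Circ)) := ⟨C.isCr.1, by
    show q (s : Circ) = q (t : Circ)
    rw [hqs, hqt]; exact C.eqst⟩
  -- feet of q are feet of p outside
  have hfeet : ∀ θ θ', IsDbl q θ θ' → IsDbl p θ θ' ∧ t - r < lift (s + r) θ ∧
      t - r < lift (s + r) θ' := by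
    have main : ∀ θ θ', IsDbl q θ θ' → lift (s + r) θ < lift (s + r) θ' →
        IsDbl p θ θ' ∧ t - r < lift (s + r) θ ∧ t - r < lift (s + r) θ' := by
      intro θ θ' h hlt
      rw [hq] at h
      have hnm : θ ∉ AF (splice p (s + r) (t - r) (seg (s + r) (t - r) (p s) u w r 0 0 (-r)))
        (s + r) (t - r) := by rw [hAF]; simp
      rw [mem_AF H.regular, ptn_eq H.regular h] at hnm
      rcases H.dbl_cases h hlt with ⟨k1, _⟩ | ⟨k0, k1, k2⟩ | ⟨k1, k2⟩
      · exact absurd ⟨h.left_mem, by linarith, hlt⟩ hnm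
      · have hb : lift (s + r) θ ≠ t - r := lift_ne_of_not_feet H.agree.b1 h.left_mem
        exact absurd ⟨h.left_mem, lt_of_le_of_ne k0 hb, hlt⟩ hnm
      · exact ⟨k2, k1, k1.trans hlt⟩
    intro θ θ' h
    rcases lt_or_gt_of_ne (lift_ne (a := s + r) h.1) with h1 | h1
    · exact main θ θ' h h1
    · obtain ⟨m1, m2, m3⟩ := main θ' θ h.symm h1
      exact ⟨m1.symm, m3, m2⟩
  have hfeet' : ∀ θ ∈ feet q, θ ∈ feet p := by
    rintro θ ⟨θ', hne, h⟩
    exact (hfeet θ θ' ⟨hne.symm, h.symm⟩).1.left_mem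
  have hptn : ptn q (s : Circ) = (t : Circ) := ptn_eq qreg hcrq
  have key : GoodSplice q (s - r) (t + r) (seg (s - r) (t + r) (p s) u w (-r) 0 0 r) ∧
    AF (splice q (s - r) (t + r) (seg (s - r) (t + r) (p s) u w (-r) 0 0 r)) (s - r) (t + r) =
      ∅ := by
    refine clean_splice qreg (by linarith) (by linarith) ?_ ?_
      ((seg_isPLR _ _ _ _ _ _ _ _ _).plOn _ _) ?_ ?_ ?_ ?_
    · intro h
      have := C.s_not hrr' (by linarith)
      rw [← sub_eq_add_neg] at this
      exact this (hfeet' _ h)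
    · intro h
      exact C.t_not hrr hr.ne' (hfeet' _ h)
    · rw [seg_left, q_ge' _ le_rfl (by linarith), sub_eq_add_neg s r, C.ps (-r) hrr', zero_smul,
        add_zero]
    · rw [seg_right (by linarith), q_ge _ (by linarith) (by linarith), C.pt r hrr, zero_smul,
        zero_add]
    · intro σ τ h1 h2 h3 h4
      unfold seg at h4
      have := (coord_inj C.dt (add_left_cancel h4)).2
      have h5 : (σ - (s - r)) / (t + r - (s - r)) < (τ - (s - r)) / (t + r - (s - r)) :=
        div_lt_div_of_pos_right (by linarith) (by linarith)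
      nlinarith
    · intro σ τ h1 h2 h3 h4 h5
      rw [q_ge τ (by linarith) (by linarith)] at h5
      obtain ⟨g1, g2⟩ := frac_mem (by linarith : s - r < t + r) h1 h2
      unfold seg at h5
      set l := (σ - (s - r)) / (t + r - (s - r)) with hl
      have a1 : |-r + l * (0 - -r)| ≤ r := by
        rw [abs_le]; constructor <;> nlinarith
      have a2 : |0 + l * (r - 0)| ≤ r := by
        rw [abs_le]; constructor <;> nlinarith
      rcases C.s_cases a1 a2 h5.symm with ⟨m1, m2⟩ | ⟨m1, m2⟩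
      · have hl0 : l = 0 := by
          have : l * r = 0 := by linarith
          rcases mul_eq_zero.1 this with h | h
          · exact h
          · linarith
        rw [hl0, zero_mul, add_zero] at m2
        rw [coe_eq_coe_iff (a := s - r) ⟨by linarith, h4⟩ ⟨by linarith, by linarith⟩] at m2
        linarith
      · have hl1 : l = 1 := by
          have : (1 - l) * r = 0 := by linarith
          rcases mul_eq_zero.1 this with h | h
          · linarith
          · linarith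
        rw [hl1] at m2
        rw [coe_eq_coe_iff (a := s - r) ⟨by linarith, h4⟩ ⟨by linarith, by linarith⟩] at m2
        linarith
  obtain ⟨H2, hAF2⟩ := key
  refine ⟨H2, hAF2, ?_, ?_⟩
  · ext θ
    rw [mem_AF qreg, Finset.mem_singleton]
    constructor
    · rintro ⟨h1, h2, h3⟩
      obtain ⟨k1, k2, k3⟩ := hfeet θ _ (ptn_spec h1)
      -- θ in the arc
      have g1 := le_lift (s - r) θ
      set τ := lift (s - r) θ with hτ
      have hτc : (τ : Circ) = θ := coe_lift _ _
      by_contra hne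
      have hτs : τ ≠ s := fun h => hne (by rw [← hτc, h])
      have hτt : τ ≠ t := by
        intro h
        have hθt : θ = (t : Circ) := by rw [← hτc, h]
        have e1 : ptn q θ = (s : Circ) := by rw [hθt]; exact ptn_eq qreg hcrq.swap
        rw [e1] at h3
        have e2 : lift (s - r) (s : Circ) = s := lift_coe ⟨by linarith, by linarith⟩
        rw [e2, h] at h3
        linarith [C.hs1]
      obtain ⟨m1, m2⟩ := C.foot_away k1.left_mem hτc hτs hτt
      -- position
      rcases le_or_gt (s + r) τ with h4 | h4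
      · have e3 : lift (s + r) θ = τ := lift_eq_of hτc h4 (by linarith)
        rw [e3] at k2
        rw [lt_abs] at m1 m2
        rcases m2 with m2 | m2 <;> linarith
      · rw [lt_abs] at m1
        rcases m1 with m1 | m1 <;> linarith
    · rintro rfl
      have e1 : lift (s - r) (s : Circ) = s := lift_coe ⟨by linarith, by linarith⟩
      have e2 : lift (s - r) (t : Circ) = t := lift_coe ⟨by linarith, by linarith⟩
      rw [hptn, e1, e2]
      exact ⟨hcrq.left_mem, by linarith, C.hs1⟩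
  · unfold cr; rw [hptn]

end Clean

/-- **Isolated chords**: the cubic coefficient vanishes. -/
theorem cc_zero {v : (Circ → ℂ × ℝ) → ℝ} (hv : IsInv v) {p : Circ → ℂ} (hp : IsRegular p)
    {s t : ℝ} (hst : s < t) (hts : t < s + 1) {x x' : Circ × Circ}
    (h : Tri p x x' ((s : Circ), (t : Circ))) (h1 : t < lift s x.1) (h2 : t < lift s x.2)
    (h3 : t < lift s x'.1) (h4 : t < lift s x'.2) :
    cc v p x x' ((s : Circ), (t : Circ)) = 0 := by
  obtain ⟨u, w, r, hr, hC⟩ := exists_clean hp hst hts h.c3.2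
  have C := hC r hr le_rfl
  obtain ⟨H, hAF⟩ := C.corner1
  set q := splice p (s + r) (t - r) (seg (s + r) (t - r) (p s) u w r 0 0 (-r)) with hq
  obtain ⟨G1, G2, G3, G4⟩ := C.corner2 q hq
  have hstr := C.hst
  have htsr := C.hts
  -- other feet
  have key : ∀ θ ∈ feet p, t < lift s θ → t - r < lift (s + r) θ ∧ t + r < lift (s - r) θ := by
    intro θ hθ hlt
    have k1 := lift_lt s θ
    set τ := lift s θ with hτ
    have hc : (τ : Circ) = θ := coe_lift s θ
    obtain ⟨m1, m2⟩ := C.foot_away hθ hc (by linarith) (by linarith)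
    have hc' : ((τ - 1 : ℝ) : Circ) = θ := by
      rw [← coe_add_one (τ - 1), sub_add_cancel, hc]
    obtain ⟨m3, m4⟩ := C.foot_away hθ hc' (by linarith) (by linarith)
    rw [lt_abs] at m2 m3
    have n1 : t + r < τ := by rcases m2 with m | m <;> linarith
    have n2 : τ < s + 1 - r := by rcases m3 with m | m <;> linarith
    rw [lift_eq_of (a := s + r) hc (by linarith) (by linarith),
      lift_eq_of (a := s - r) hc (by linarith) (by linarith)]
    constructor <;> linarith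
  have ox : Out p (s + r) (t - r) x := ⟨h.c1, (key _ h.c1.left_mem h1).1, (key _ h.c1.right_mem h2).1⟩
  have ox' : Out p (s + r) (t - r) x' :=
    ⟨h.c2, (key _ h.c2.left_mem h3).1, (key _ h.c2.right_mem h4).1⟩
  have oc : Out p (s + r) (t - r) ((s : Circ), (t : Circ)) := by
    refine ⟨h.c3, ?_, ?_⟩
    · have : lift (s + r) (s : Circ) = s + 1 :=
        lift_eq_of (coe_add_one s) (by linarith) (by linarith)
      show t - r < lift (s + r) (s : Circ)
      rw [this]; linarith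
    · show t - r < lift (s + r) (t : Circ)
      rw [lift_coe ⟨by linarith, by linarith⟩]; linarith
  obtain ⟨e1, tri⟩ := cc_agree hv H.agree h ox ox' oc
  rw [e1]
  have qx : Out q (s - r) (t + r) x :=
    ⟨tri.c1, (key _ h.c1.left_mem h1).2, (key _ h.c1.right_mem h2).2⟩
  have qx' : Out q (s - r) (t + r) x' :=
    ⟨tri.c2, (key _ h.c2.left_mem h3).2, (key _ h.c2.right_mem h4).2⟩
  have e2 := arc_identity hv G1.agree tri.s12 qx qx'
  rw [G2, G3, Finset.sum_singleton, Finset.sum_empty, G4] at e2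
  exact e2

end Pool.Agent.H81
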