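import Pool.Agent.H81.Diff

namespace Pool.Agent.H81

open Set

/-- constancy by induction on the patterns -/
lemma pat_const {p : Circ → ℂ} (hp : IsRegular p) {F : (Circ → ℝ) → ℝ} (hF : PI p F)
    (hins : ∀ x, IsCr p x → ∀ y, Valid p y → ∀ e : ℝ, (e = 1 ∨ e = -1) → F (up y x e) = F y) :
    ∀ y y', Valid p y → Valid p y' → F y = F y' := by
  classical
  have key : ∀ T : Finset Circ, ∀ y y', Valid p y → Valid p y' →
      (∀ s t, IsDbl p s t → s ∉ T → t ∉ T → 0 < (y s - y t) * (y' s - y' t)) → F y = F y' := by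
    intro T
    induction T using Finset.induction_on with
    | empty =>
      intro y y' _ _ h
      exact hF _ _ fun s t hst => h s t hst (by simp) (by simp)
    | insert d T hd ih =>
      intro y y' hy hy' h
      by_cases hf : d ∈ feet p
      · obtain ⟨t, htd, ht⟩ := hf
        have hx : IsCr p (d, t) := ⟨htd.symm, ht.symm⟩
        have hne : y' d - y' t ≠ 0 := sub_ne_zero.2 (hy' _ _ hx)
        obtain ⟨e, he, he'⟩ : ∃ e : ℝ, (e = 1 ∨ e = -1) ∧ 0 < e * (y' d - y' t) := by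
          rcases lt_or_gt_of_ne hne with h3 | h3
          · exact ⟨-1, Or.inr rfl, by linarith⟩
          · exact ⟨1, Or.inl rfl, by linarith⟩
        have he0 : e ≠ 0 := by rcases he with rfl | rfl <;> norm_num
        rw [← hins (d, t) hx y hy e he]
        refine ih _ y' (hy.up hp hx he0) hy' ?_
        intro s s' hss hs hs'
        by_cases h1 : s = d
        · subst h1
          have : t = s' := hp.uniq hx hss
          subst this
          rw [up_fst (x := (s, t)), up_ne _ _ _ htd]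
          simp only [add_sub_cancel_left]
          exact he'
        · by_cases h2 : s' = d
          · subst h2
            have : t = s := hp.uniq hx hss.symm
            subst this
            rw [up_fst (x := (s', t)), up_ne _ _ _ htd]
            have : (y t - (y t + e)) * (y' t - y' s') = e * (y' s' - y' t) := by ring
            rw [this]; exact he'
          · rw [up_ne _ _ _ h1, up_ne _ _ _ h2]
            exact h s s' hss (by simp [h1, hs]) (by simp [h2, hs'])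
      · refine ih y y' hy hy' ?_
        intro s t hst hs ht
        refine h s t hst ?_ ?_
        · simp only [Finset.mem_insert, not_or]
          exact ⟨fun h1 => hf (h1 ▸ hst.left_mem), hs⟩
        · simp only [Finset.mem_insert, not_or]
          exact ⟨fun h1 => hf (h1 ▸ hst.right_mem), ht⟩
  intro y y' hy hy'
  refine key hp.fin.toFinset y y' hy hy' fun s t hst hs _ => ?_
  exact absurd (hp.fin.mem_toFinset.2 hst.left_mem) hs

lemma swap_samePat {p : Circ → ℂ} (hp : IsRegular p) {x : Circ × Circ} (hx : IsCr p x)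
    {y : Circ → ℝ} (hy : Valid p y) {e : ℝ} (he : e ≠ 0) :
    SamePat p (up y x.swap e) (up y x (-e)) := by
  refine samePat_of hp hx ?_ ?_
  · have e1 : up y x.swap e x.1 = y x.1 := up_ne _ _ _ hx.1
    have e2 : up y x.swap e x.2 = y x.1 + e := up_fst y x.swap e
    have e3 : up y x (-e) x.1 = y x.2 + -e := up_fst y x (-e)
    have e4 : up y x (-e) x.2 = y x.2 := up_ne _ _ _ hx.1.symm
    rw [e1, e2, e3, e4]
    have : (y x.1 - (y x.1 + e)) * (y x.2 + -e - y x.2) = e * e := by ring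
    rw [this]
    exact mul_self_pos.2 he
  · intro s t hst h1 h2 h3 h4
    have e1 : up y x.swap e s = y s := up_ne _ _ _ h2
    have e2 : up y x.swap e t = y t := up_ne _ _ _ h4
    rw [e1, e2, up_ne _ _ _ h1, up_ne _ _ _ h3]
    exact hy.samePat s t hst

lemma D_swap {p : Circ → ℂ} (hp : IsRegular p) {F : (Circ → ℝ) → ℝ} (hF : PI p F)
    {x : Circ × Circ} (hx : IsCr p x) {y : Circ → ℝ} (hy : Valid p y) :
    D F x.swap y = - D F x y := by
  unfold D
  rw [hF _ _ (swap_samePat hp hx hy one_ne_zero),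
    hF _ _ (swap_samePat hp hx hy (neg_ne_zero.2 one_ne_zero)), neg_neg]
  ring

lemma D_up_self (F : (Circ → ℝ) → ℝ) {x : Circ × Circ} (h : x.2 ≠ x.1) (y : Circ → ℝ) (e : ℝ) :
    D F x (up y x e) = D F x y := by
  unfold D
  rw [up_up y h, up_up y h]

lemma D_comm' (F : (Circ → ℝ) → ℝ) {x x' : Circ × Circ} (h : Sep x x') :
    D (D F x) x' = D (D F x') x := funext fun y => D_comm F h y

/-- an invariant function insensitive at `x` is insensitive at `x.swap` -/
lemma insens_swap {p : Circ → ℂ} (hp : IsRegular p) {F : (Circ → ℝ) → ℝ} (hF : PI p F)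
    {x : Circ × Circ} (hx : IsCr p x)
    (h : ∀ y, Valid p y → ∀ e : ℝ, (e = 1 ∨ e = -1) → F (up y x e) = F y) :
    ∀ y, Valid p y → ∀ e : ℝ, (e = 1 ∨ e = -1) → F (up y x.swap e) = F y := by
  intro y hy e he
  have he0 : e ≠ 0 := by rcases he with rfl | rfl <;> norm_num
  rw [hF _ _ (swap_samePat hp hx hy he0)]
  apply h y hy
  rcases he with rfl | rfl
  · exact Or.inr rfl
  · left; norm_num

/-- two crossings are separated or equal up to swap -/
lemma sep_or {p : Circ → ℂ} (hp : IsRegular p) {x x' : Circ × Circ} (h : IsCr p x)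
    (h' : IsCr p x') : Sep x x' ∨ x = x' ∨ x = x'.swap := by
  by_cases h1 : x.1 = x'.1
  · right; left
    have : IsDbl p x.1 x'.2 := by rw [h1]; exact h'
    exact Prod.ext h1 (hp.uniq h this)
  · by_cases h2 : x.1 = x'.2
    · right; right
      have : IsDbl p x.1 x'.1 := by rw [h2]; exact IsDbl.symm h'
      exact Prod.ext h2 (hp.uniq h this)
    · left; exact hp.sep h h' h1 h2

variable {v : (Circ → ℂ × ℝ) → ℝ}

/-- the third difference -/
noncomputable def D3 (v : (Circ → ℂ × ℝ) → ℝ) (p : Circ → ℂ) (x₁ x₂ x₃ : Circ × Circ) :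
    (Circ → ℝ) → ℝ := D (D (D (V v p) x₁) x₂) x₃

lemma D3_PI (hv : IsInv v) {p : Circ → ℂ} (hp : IsRegular p) {x₁ x₂ x₃ : Circ × Circ}
    (h1 : IsCr p x₁) (h2 : IsCr p x₂) (h3 : IsCr p x₃) : PI p (D3 v p x₁ x₂ x₃) :=
  (((V_PI hv hp).D hp h1).D hp h2).D hp h3

/-- three pairwise different crossings of `p` -/
structure Tri (p : Circ → ℂ) (x₁ x₂ x₃ : Circ × Circ) : Prop where
  c1 : IsCr p x₁
  c2 : IsCr p x₂
  c3 : IsCr p x₃
  s12 : Sep x₁ x₂
  s13 : Sep x₁ x₃
  s23 : Sep x₂ x₃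

lemma Tri.perm12 {p : Circ → ℂ} {x₁ x₂ x₃ : Circ × Circ} (h : Tri p x₁ x₂ x₃) :
    Tri p x₂ x₁ x₃ := ⟨h.c2, h.c1, h.c3, h.s12.symm, h.s23, h.s13⟩

lemma Tri.perm23 {p : Circ → ℂ} {x₁ x₂ x₃ : Circ × Circ} (h : Tri p x₁ x₂ x₃) :
    Tri p x₁ x₃ x₂ := ⟨h.c1, h.c3, h.c2, h.s13, h.s12, h.s23.symm⟩

lemma IsCr.swap {p : Circ → ℂ} {x : Circ × Circ} (h : IsCr p x) : IsCr p x.swap := IsDbl.symm h

lemma Tri.swap1 {p : Circ → ℂ} {x₁ x₂ x₃ : Circ × Circ} (h : Tri p x₁ x₂ x₃) :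
    Tri p x₁.swap x₂ x₃ := ⟨h.c1.swap, h.c2, h.c3, h.s12.swap_left, h.s13.swap_left, h.s23⟩

lemma D3_perm12 {x₁ x₂ x₃ : Circ × Circ} (p : Circ → ℂ) (h : Sep x₁ x₂) :
    D3 v p x₁ x₂ x₃ = D3 v p x₂ x₁ x₃ := by
  unfold D3; rw [D_comm' _ h]

lemma D3_perm23 {x₁ x₂ x₃ : Circ × Circ} (p : Circ → ℂ) (h : Sep x₂ x₃) :
    D3 v p x₁ x₂ x₃ = D3 v p x₁ x₃ x₂ := by
  unfold D3; rw [D_comm' _ h]

lemma D3_const (hv : IsInv v) {p : Circ → ℂ} (hp : IsRegular p) {x₁ x₂ x₃ : Circ × Circ}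
    (h : Tri p x₁ x₂ x₃) : ∀ y y', Valid p y → Valid p y' →
    D3 v p x₁ x₂ x₃ y = D3 v p x₁ x₂ x₃ y' := by
  have hPI := D3_PI hv hp h.c1 h.c2 h.c3
  refine pat_const hp hPI ?_
  have i3 : ∀ y, Valid p y → ∀ e : ℝ, (e = 1 ∨ e = -1) →
      D3 v p x₁ x₂ x₃ (up y x₃ e) = D3 v p x₁ x₂ x₃ y := fun y _ e _ =>
    D_up_self _ h.c3.1.symm _ _
  have i2 : ∀ y, Valid p y → ∀ e : ℝ, (e = 1 ∨ e = -1) →
      D3 v p x₁ x₂ x₃ (up y x₂ e) = D3 v p x₁ x₂ x₃ y := fun y _ e _ => by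
    rw [D3_perm23 p h.s23]
    exact D_up_self _ h.c2.1.symm _ _
  have i1 : ∀ y, Valid p y → ∀ e : ℝ, (e = 1 ∨ e = -1) →
      D3 v p x₁ x₂ x₃ (up y x₁ e) = D3 v p x₁ x₂ x₃ y := fun y _ e _ => by
    rw [D3_perm12 p h.s12, D3_perm23 p h.s13]
    exact D_up_self _ h.c1.1.symm _ _
  intro x hx y hy e he
  rcases sep_or hp hx h.c1 with k1 | rfl | rfl
  · rcases sep_or hp hx h.c2 with k2 | rfl | rfl
    · rcases sep_or hp hx h.c3 with k3 | rfl | rfl
      · refine hPI.insens hp hx hy ?_ he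
        exact fourth hv hp h.c1 h.c2 h.c3 hx h.s12 h.s13 k1.symm h.s23 k2.symm k3.symm hy
      · exact i3 y hy e he
      · exact insens_swap hp hPI h.c3 i3 y hy e he
    · exact i2 y hy e he
    · exact insens_swap hp hPI h.c2 i2 y hy e he
  · exact i1 y hy e he
  · exact insens_swap hp hPI h.c1 i1 y hy e he

lemma valid_lift (p : Circ → ℂ) (a : ℝ) : Valid p (lift a) := fun _ _ h => lift_ne h.1

/-- the cubic coefficient -/
noncomputable def cc (v : (Circ → ℂ × ℝ) → ℝ) (p : Circ → ℂ) (x₁ x₂ x₃ : Circ × Circ) : ℝ :=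
  (1/8) * D3 v p x₁ x₂ x₃ (lift 0)

lemma D3_eq (hv : IsInv v) {p : Circ → ℂ} (hp : IsRegular p) {x₁ x₂ x₃ : Circ × Circ}
    (h : Tri p x₁ x₂ x₃) {y : Circ → ℝ} (hy : Valid p y) :
    D3 v p x₁ x₂ x₃ y = 8 * cc v p x₁ x₂ x₃ := by
  rw [D3_const hv hp h y (lift 0) hy (valid_lift p 0)]
  unfold cc; ring

lemma cc_perm12 {p : Circ → ℂ} {x₁ x₂ x₃ : Circ × Circ} (h : Sep x₁ x₂) :
    cc v p x₁ x₂ x₃ = cc v p x₂ x₁ x₃ := by unfold cc; rw [D3_perm12 p h]

lemma cc_perm23 {p : Circ → ℂ} {x₁ x₂ x₃ : Circ × Circ} (h : Sep x₂ x₃) :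
    cc v p x₁ x₂ x₃ = cc v p x₁ x₃ x₂ := by unfold cc; rw [D3_perm23 p h]

lemma cc_swap3 (hv : IsInv v) {p : Circ → ℂ} (hp : IsRegular p) {x₁ x₂ x₃ : Circ × Circ}
    (h : Tri p x₁ x₂ x₃) : cc v p x₁ x₂ x₃.swap = - cc v p x₁ x₂ x₃ := by
  unfold cc D3
  rw [D_swap hp (((V_PI hv hp).D hp h.c1).D hp h.c2) h.c3 (valid_lift p 0)]
  ring

lemma cc_swap1 (hv : IsInv v) {p : Circ → ℂ} (hp : IsRegular p) {x₁ x₂ x₃ : Circ × Circ}
    (h : Tri p x₁ x₂ x₃) : cc v p x₁.swap x₂ x₃ = - cc v p x₁ x₂ x₃ := by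
  rw [cc_perm12 h.s12.swap_left, cc_perm23 h.s13.swap_left,
    cc_swap3 hv hp h.perm12.perm23, cc_perm23 h.s13.symm, cc_perm12 h.s12.symm]

lemma cc_swap2 (hv : IsInv v) {p : Circ → ℂ} (hp : IsRegular p) {x₁ x₂ x₃ : Circ × Circ}
    (h : Tri p x₁ x₂ x₃) : cc v p x₁ x₂.swap x₃ = - cc v p x₁ x₂ x₃ := by
  rw [cc_perm12 h.s12.swap_right, cc_swap1 hv hp h.perm12, cc_perm12 h.s12.symm]

/-! ### parity -/

lemma up_neg (y : Circ → ℝ) (x : Circ × Circ) (e : ℝ) :
    up (fun t => - y t) x e = fun t => - up y x (-e) t := by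
  funext r
  by_cases h : r = x.1
  · subst h; rw [up_fst, up_fst]; ring
  · rw [up_ne _ _ _ h, up_ne _ _ _ h]

lemma D_V_neg (hv : IsInv v) {p : Circ → ℂ} (hp : IsRegular p) {x : Circ × Circ} (hx : IsCr p x)
    {y : Circ → ℝ} (hy : Valid p y) : D (V v p) x (fun t => - y t) = D (V v p) x y := by
  unfold D
  rw [up_neg, up_neg, V_neg hv hp (hy.up hp hx (by norm_num)),
    V_neg hv hp (hy.up hp hx (by norm_num)), neg_neg]
  ring

lemma D2_V_neg (hv : IsInv v) {p : Circ → ℂ} (hp : IsRegular p) {x x' : Circ × Circ}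
    (hx : IsCr p x) (hx' : IsCr p x') {y : Circ → ℝ} (hy : Valid p y) :
    D (D (V v p) x) x' (fun t => - y t) = - D (D (V v p) x) x' y := by
  have e : ∀ w, D (D (V v p) x) x' w =
    D (V v p) x (up w x' 1) - D (V v p) x (up w x' (-1)) := fun w => rfl
  rw [e, e, up_neg, up_neg, D_V_neg hv hp hx (hy.up hp hx' (by norm_num)),
    D_V_neg hv hp hx (hy.up hp hx' (by norm_num)), neg_neg]
  ring

/-! ### partners and first feet -/

/-- the other foot of the crossing -/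
noncomputable def ptn (p : Circ → ℂ) (s : Circ) : Circ :=
  open Classical in if h : ∃ t, t ≠ s ∧ p t = p s then h.choose else s

lemma ptn_spec {p : Circ → ℂ} {s : Circ} (h : s ∈ feet p) : IsDbl p s (ptn p s) := by
  have h : ∃ t, t ≠ s ∧ p t = p s := h
  unfold ptn
  rw [dif_pos h]
  exact ⟨(Exists.choose_spec h).1.symm, (Exists.choose_spec h).2.symm⟩

lemma ptn_eq {p : Circ → ℂ} (hp : IsRegular p) {s t : Circ} (h : IsDbl p s t) : ptn p s = t :=
  hp.uniq (ptn_spec h.left_mem) h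

/-- the crossing with first foot `s` -/
noncomputable def cr (p : Circ → ℂ) (s : Circ) : Circ × Circ := (s, ptn p s)

lemma cr_isCr {p : Circ → ℂ} {s : Circ} (h : s ∈ feet p) : IsCr p (cr p s) := ptn_spec h

/-- first feet for the base point `a` -/
noncomputable def FF (p : Circ → ℂ) (a : ℝ) : Finset Circ :=
  open Classical in
  if h : (feet p).Finite then h.toFinset.filter (fun s => lift a s < lift a (ptn p s)) else ∅

lemma mem_FF {p : Circ → ℂ} (hp : IsRegular p) {a : ℝ} {s : Circ} :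
    s ∈ FF p a ↔ s ∈ feet p ∧ lift a s < lift a (ptn p s) := by
  unfold FF
  rw [dif_pos hp.fin, Finset.mem_filter, Set.Finite.mem_toFinset]

/-- descending heights -/
noncomputable def desc (a : ℝ) (t : Circ) : ℝ := - lift a t

lemma valid_desc (p : Circ → ℂ) (a : ℝ) : Valid p (desc a) := fun _ _ h => by
  unfold desc
  intro h'
  exact lift_ne h.1 (neg_injective h')

end Pool.Agent.H81
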