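import Mathlib

namespace Pool.Agent.H81

open Finset

namespace Comb

variable {ι : Type*} [Fintype ι] [DecidableEq ι]

/-- sign vectors -/
def IsS (ε : ι → ℤ) : Prop := ∀ i, ε i = 1 ∨ ε i = -1

/-- difference in direction `i` -/
def dl (g : (ι → ℤ) → ℝ) (i : ι) (ε : ι → ℤ) : ℝ :=
  g (Function.update ε i 1) - g (Function.update ε i (-1))

omit [Fintype ι] in
lemma IsS.upd {ε : ι → ℤ} (h : IsS ε) (i : ι) {x : ℤ} (hx : x = 1 ∨ x = -1) :
    IsS (Function.update ε i x) := by
  intro j
  by_cases hj : j = i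
  · subst hj; simpa using hx
  · rw [Function.update_of_ne hj]; exact h j

omit [Fintype ι] [DecidableEq ι] in
lemma IsS.neg {ε : ι → ℤ} (h : IsS ε) : IsS (-ε) := fun i => by
  rcases h i with h | h <;> simp [h]

omit [Fintype ι] in
lemma upd_neg (ε : ι → ℤ) (i : ι) (x : ℤ) :
    Function.update (-ε) i x = - Function.update ε i (-x) := by
  funext j
  by_cases hj : j = i
  · subst hj; simp
  · simp [Function.update_of_ne hj]

lemma const {F : (ι → ℤ) → ℝ} (h : ∀ i ε, IsS ε → dl F i ε = 0) {ε ε' : ι → ℤ} (h1 : IsS ε)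
    (h2 : IsS ε') : F ε = F ε' := by
  have key : ∀ S : Finset ι, ∀ ε, IsS ε → (∀ i ∉ S, ε i = ε' i) → F ε = F ε' := by
    intro S
    induction S using Finset.induction_on with
    | empty => intro ε _ h; congr 1; funext i; exact h i (by simp)
    | insert a S ha ih =>
      intro ε hε hh
      have e : F ε = F (Function.update ε a (ε' a)) := by
        have hd := h a ε hε
        unfold dl at hd
        have hd' : F (Function.update ε a 1) = F (Function.update ε a (-1)) := by linarith
        have e0 : Function.update ε a (ε a) = ε := Function.update_eq_self _ _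
        rcases hε a with k | k <;> rcases h2 a with k' | k'
        · rw [k', ← k, e0]
        · rw [k', ← hd', ← k, e0]
        · rw [k', hd', ← k, e0]
        · rw [k', ← k, e0]
      rw [e]
      refine ih _ (hε.upd a (h2 a)) ?_
      intro i hi
      by_cases hia : i = a
      · subst hia; simp
      · rw [Function.update_of_ne hia]; exact hh i (by simp [hia, hi])
  exact key univ ε h1 (by simp)

omit [Fintype ι] in
lemma dl_self (g : (ι → ℤ) → ℝ) (i : ι) (ε : ι → ℤ) : dl (dl g i) i ε = 0 := by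
  unfold dl
  simp only [Function.update_idem]
  ring

omit [Fintype ι] in
lemma dl_comm (g : (ι → ℤ) → ℝ) {i j : ι} (h : i ≠ j) : dl (dl g i) j = dl (dl g j) i := by
  funext ε
  unfold dl
  rw [Function.update_comm h, Function.update_comm h, Function.update_comm h,
    Function.update_comm h]
  ring

omit [Fintype ι] in
lemma dl_even {g : (ι → ℤ) → ℝ} (h : ∀ ε, IsS ε → g (-ε) = - g ε) (i : ι) {ε : ι → ℤ}
    (hε : IsS ε) : dl g i (-ε) = dl g i ε := by
  unfold dl
  rw [upd_neg, upd_neg, h _ (hε.upd i (Or.inr rfl)),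
    h _ (hε.upd i (by norm_num))]
  rw [neg_neg]
  ring

omit [Fintype ι] in
lemma dl_odd {g : (ι → ℤ) → ℝ} (h : ∀ ε, IsS ε → g (-ε) = g ε) (i : ι) {ε : ι → ℤ}
    (hε : IsS ε) : dl g i (-ε) = - dl g i ε := by
  unfold dl
  rw [upd_neg, upd_neg, h _ (hε.upd i (Or.inr rfl)),
    h _ (hε.upd i (by norm_num))]
  rw [neg_neg]
  ring

/-- an odd function with vanishing third differences and with first differences vanishing
somewhere is zero -/
lemma zero_of {g : (ι → ℤ) → ℝ} (odd : ∀ ε, IsS ε → g (-ε) = - g ε)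
    (h3 : ∀ i j k ε, IsS ε → i ≠ j → i ≠ k → j ≠ k → dl (dl (dl g i) j) k ε = 0)
    (h1 : ∀ i, ∃ ε, IsS ε ∧ dl g i ε = 0) : ∀ ε, IsS ε → g ε = 0 := by
  have h2 : ∀ i j ε, IsS ε → dl (dl g i) j ε = 0 := by
    intro i j ε hε
    by_cases hij : i = j
    · subst hij; exact dl_self g i ε
    · have hc : ∀ k ε, IsS ε → dl (dl (dl g i) j) k ε = 0 := by
        intro k ε hε
        by_cases hk : j = k
        · subst hk; exact dl_self _ _ _
        · by_cases hk' : i = k
          · subst hk'
            rw [dl_comm g hij]; exact dl_self _ _ _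
          · exact h3 i j k ε hε hij hk' hk
      have e1 := const hc hε hε.neg
      have e2 := dl_odd (fun ε hε => dl_even odd i hε) j hε
      linarith
  have h1' : ∀ i ε, IsS ε → dl g i ε = 0 := by
    intro i ε hε
    obtain ⟨ε₀, k1, k2⟩ := h1 i
    rw [const (h2 i) hε k1, k2]
  intro ε hε
  have e1 := const h1' hε hε.neg
  have e2 := odd ε hε
  linarith

/-! ### polynomials -/

lemma lin (f : ι → ℤ) (ε : ι → ℤ) (i : ι) (x : ℤ) :
    ∑ l, f l * Function.update ε i x l = ∑ l, f l * ε l + f i * (x - ε i) := by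
  have : ∀ l, Function.update ε i x l = ε l + if l = i then x - ε i else 0 := by
    intro l
    by_cases h : l = i
    · subst h; simp
    · simp [h]
  simp only [this, mul_add, Finset.sum_add_distrib]
  simp

lemma quad (b : ι → ι → ℤ) (hb : ∀ k l, b k l = b l k) (ε : ι → ℤ) (i : ι) (hi : b i i = 0)
    (x : ℤ) : ∑ k, ∑ l, b k l * Function.update ε i x l * Function.update ε i x k =
      ∑ k, ∑ l, b k l * ε l * ε k + 2 * (x - ε i) * ∑ l, b i l * ε l := by
  have e1 : ∀ k, ∑ l, b k l * Function.update ε i x l * Function.update ε i x k =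
      (∑ l, b k l * ε l + b k i * (x - ε i)) * Function.update ε i x k := by
    intro k
    rw [← Finset.sum_mul, lin]
  rw [Finset.sum_congr rfl fun k _ => e1 k, lin, hi]
  have e2 : ∑ k, (∑ l, b k l * ε l + b k i * (x - ε i)) * ε k =
      ∑ k, ∑ l, b k l * ε l * ε k + (x - ε i) * ∑ l, b i l * ε l := by
    rw [Finset.mul_sum, ← Finset.sum_add_distrib]
    apply Finset.sum_congr rfl
    intro k _
    rw [add_mul, Finset.sum_mul, hb k i]
    ring
  rw [e2]
  ring

lemma cub (c : ι → ι → ι → ℤ) (h12 : ∀ i j k, c i j k = c j i k)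
    (h23 : ∀ i j k, c i j k = c i k j) (h0 : ∀ i k, c i i k = 0) (ε : ι → ℤ) (i : ι) (x : ℤ) :
    ∑ a, ∑ k, ∑ l, c a k l * Function.update ε i x l * Function.update ε i x k *
        Function.update ε i x a =
      ∑ a, ∑ k, ∑ l, c a k l * ε l * ε k * ε a +
        3 * (x - ε i) * ∑ k, ∑ l, c i k l * ε l * ε k := by
  have h0' : ∀ a, c a i i = 0 := fun a => by rw [h12, h23, h0]
  have e1 : ∀ a, ∑ k, ∑ l, c a k l * Function.update ε i x l * Function.update ε i x k *
        Function.update ε i x a =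
      (∑ k, ∑ l, c a k l * ε l * ε k + 2 * (x - ε i) * ∑ l, c a i l * ε l) *
        Function.update ε i x a := by
    intro a
    rw [← quad (c a) (h23 a) ε i (h0' a) x, Finset.sum_mul]
    apply Finset.sum_congr rfl
    intro k _
    rw [Finset.sum_mul]
  rw [Finset.sum_congr rfl fun a _ => e1 a, lin]
  have e2 : ∑ l, c i i l * ε l = 0 := Finset.sum_eq_zero fun l _ => by rw [h0, zero_mul]
  rw [e2]
  have e3 : ∑ a, (∑ k, ∑ l, c a k l * ε l * ε k + 2 * (x - ε i) * ∑ l, c a i l * ε l) * ε a =
      ∑ a, ∑ k, ∑ l, c a k l * ε l * ε k * ε a +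
        2 * (x - ε i) * ∑ k, ∑ l, c i k l * ε l * ε k := by
    rw [Finset.mul_sum, ← Finset.sum_add_distrib]
    apply Finset.sum_congr rfl
    intro a _
    rw [add_mul, Finset.sum_mul, mul_assoc (2 * (x - ε i)), Finset.sum_mul]
    congr 1
    · apply Finset.sum_congr rfl
      intro k _
      rw [Finset.sum_mul]
    · congr 1
      apply Finset.sum_congr rfl
      intro k _
      rw [h12]
  rw [e3]
  ring

variable (A η : ι → ι → ℤ)

/-- indicator of distinct non-adjacent pairs -/
def N (i j : ι) : ℤ := 1 - (if i = j then 1 else 0) - A i j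

/-- eight times the cubic coefficient -/
def c8 (i j k : ι) : ℤ :=
  2 * (A i j * A j k * A i k) +
    (N A i j * A i k * A j k + N A i k * A i j * A j k + N A j k * A i j * A i k)

/-- hypotheses on the adjacency matrix and the signs -/
structure Hyp : Prop where
  zo : ∀ i j, A i j = 0 ∨ A i j = 1
  symm : ∀ i j, A i j = A j i
  irr : ∀ i, A i i = 0
  sg : ∀ i j, η i j = 1 ∨ η i j = -1
  H1 : ∀ i, ∑ j, A i j * η i j = 0
  H2 : ∀ i j, i ≠ j → A i j = 0 → ∑ k, A i k * A j k * η i k = 0

variable {A η}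

omit [Fintype ι] in
lemma N_symm (h : ∀ i j, A i j = A j i) (i j : ι) : N A i j = N A j i := by
  unfold N
  rw [h i j]
  congr 2
  simp only [eq_comm]

omit [Fintype ι] in
lemma N_self (h : ∀ i, A i i = 0) (i : ι) : N A i i = 0 := by
  unfold N; rw [h]; simp

omit [Fintype ι] in
lemma c8_12 (h : ∀ i j, A i j = A j i) (i j k : ι) : c8 A i j k = c8 A j i k := by
  unfold c8
  rw [N_symm h j i, h j i]
  ring

omit [Fintype ι] in
lemma c8_23 (h : ∀ i j, A i j = A j i) (i j k : ι) : c8 A i j k = c8 A i k j := by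
  unfold c8
  rw [N_symm h k j, h k j]
  ring

omit [Fintype ι] in
lemma c8_0 (h : ∀ i, A i i = 0) (i k : ι) : c8 A i i k = 0 := by
  unfold c8
  rw [N_self h, h]
  ring

end Comb

end Pool.Agent.H81
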