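import Pool.Agent.H81.Comb

namespace Pool.Agent.H81

open Finset

namespace Comb

variable {ι : Type*} [Fintype ι] [DecidableEq ι] {A η : ι → ι → ℤ}

/-- quadratic form -/
def Q (A : ι → ι → ℤ) (i : ι) (ε : ι → ℤ) : ℤ := ∑ k, ∑ l, c8 A i k l * ε l * ε k

/-- `48` times the invariant -/
def Z (A η : ι → ι → ℤ) (ε : ι → ℤ) : ℤ :=
  ∑ a, ∑ k, ∑ l, c8 A a k l * ε l * ε k * ε a - 3 * ∑ i, Q A i (η i) * ε i

lemma Z_upd (H : Hyp A η) (ε : ι → ℤ) (i : ι) (x : ℤ) : Z A η (Function.update ε i x) =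
    Z A η ε + 3 * (x - ε i) * (Q A i ε - Q A i (η i)) := by
  unfold Z
  rw [cub (c8 A) (c8_12 H.symm) (c8_23 H.symm) (c8_0 H.irr), lin]
  unfold Q
  ring

lemma Q_upd (H : Hyp A η) (ε : ι → ℤ) (i j : ι) (x : ℤ) : Q A i (Function.update ε j x) =
    Q A i ε + 2 * (x - ε j) * ∑ l, c8 A i j l * ε l := by
  unfold Q
  exact quad (c8 A i) (c8_23 H.symm i) ε j (by rw [c8_12 H.symm, c8_23 H.symm, c8_0 H.irr]) x

lemma Z_neg (ε : ι → ℤ) : Z A η (-ε) = - Z A η ε := by
  unfold Z
  simp only [Pi.neg_apply, mul_neg, neg_mul, neg_neg, Finset.sum_neg_distrib]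
  ring

omit [Fintype ι] in
lemma dl_sub (f z : (ι → ℤ) → ℝ) (i : ι) :
    dl (fun ε => f ε - z ε) i = fun ε => dl f i ε - dl z i ε := by
  funext ε
  unfold dl
  ring

lemma dl1 (H : Hyp A η) (i : ι) : dl (fun ε => (Z A η ε : ℝ) / 48) i =
    fun ε => ((Q A i ε - Q A i (η i) : ℤ) : ℝ) / 8 := by
  funext ε
  unfold dl
  beta_reduce
  rw [Z_upd H, Z_upd H]
  push_cast
  ring

lemma dl2 (H : Hyp A η) (i j : ι) : dl (fun ε => ((Q A i ε - Q A i (η i) : ℤ) : ℝ) / 8) j =
    fun ε => ((∑ l, c8 A i j l * ε l : ℤ) : ℝ) / 2 := by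
  funext ε
  unfold dl
  beta_reduce
  rw [Q_upd H, Q_upd H]
  push_cast
  ring

lemma dl3 (i j k : ι) (ε : ι → ℤ) :
    dl (fun ε => ((∑ l, c8 A i j l * ε l : ℤ) : ℝ) / 2) k ε = c8 A i j k := by
  unfold dl
  beta_reduce
  rw [lin, lin]
  push_cast
  ring

theorem formula (H : Hyp A η) {g : (ι → ℤ) → ℝ} (odd : ∀ ε, IsS ε → g (-ε) = - g ε)
    (h3 : ∀ i j k ε, IsS ε → i ≠ j → i ≠ k → j ≠ k → dl (dl (dl g i) j) k ε = c8 A i j k)
    (h1 : ∀ i, dl g i (η i) = 0) : ∀ ε, IsS ε → g ε = (Z A η ε : ℝ) / 48 := by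
  have key := zero_of (g := fun ε => g ε - (Z A η ε : ℝ) / 48) ?_ ?_ ?_
  · intro ε hε
    have := key ε hε
    linarith
  · intro ε hε
    rw [odd ε hε, Z_neg]
    push_cast
    ring
  · intro i j k ε hε hij hik hjk
    have e1 := dl_sub g (fun ε => (Z A η ε : ℝ) / 48) i
    rw [e1, dl1 H i]
    have e2 := dl_sub (dl g i) (fun ε => ((Q A i ε - Q A i (η i) : ℤ) : ℝ) / 8) j
    rw [e2, dl2 H i j]
    have e3 := dl_sub (dl (dl g i) j) (fun ε => ((∑ l, c8 A i j l * ε l : ℤ) : ℝ) / 2) k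
    rw [e3]
    beta_reduce
    rw [dl3, h3 i j k ε hε hij hik hjk, sub_self]
  · intro i
    refine ⟨η i, H.sg i, ?_⟩
    have e1 := dl_sub g (fun ε => (Z A η ε : ℝ) / 48) i
    rw [e1, dl1 H i]
    simp only
    rw [h1 i, sub_self]
    simp

/-! ### reduction of the linear coefficients -/

lemma NA0 (H : Hyp A η) (i j : ι) : N A i j * ∑ k, A i k * A j k * η i k = 0 := by
  by_cases hij : i = j
  · subst hij; rw [N_self H.irr, zero_mul]
  · rcases H.zo i j with h | h
    · rw [H.H2 i j hij h, mul_zero]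
    · unfold N; rw [if_neg hij, h]; ring

lemma Q_eta (H : Hyp A η) (i : ι) : Q A i (η i) = -2 * ∑ k, A i k -
    ∑ k, ∑ l, N A k l * A i k * A i l * η i l * η i k := by
  have e0 : ∀ k l, c8 A i k l * η i l * η i k =
      2 * ((A i k * η i k) * (A i l * η i l) -
        (if k = l then A i k * A i l * η i l * η i k else 0)) +
      (N A i k * η i k) * (A i l * A k l * η i l) +
      (N A i l * η i l) * (A i k * A l k * η i k) -
      N A k l * A i k * A i l * η i l * η i k := by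
    intro k l
    have hN : A k l = 1 - (if k = l then 1 else 0) - N A k l := by unfold N; ring
    unfold c8
    rw [H.symm l k]
    by_cases hkl : k = l
    · subst hkl
      rw [N_self H.irr, H.irr] at *
      simp
      ring
    · rw [if_neg hkl] at hN ⊢
      rw [sub_zero] at hN
      have : N A k l = 1 - A k l := by rw [hN]; ring
      rw [this]
      ring
  unfold Q
  simp only [e0, Finset.sum_add_distrib, Finset.sum_sub_distrib]
  have e1 : ∑ k, ∑ l, 2 * ((A i k * η i k) * (A i l * η i l) -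
        (if k = l then A i k * A i l * η i l * η i k else 0)) = -2 * ∑ k, A i k := by
    have a1 : ∀ k, ∑ l, 2 * ((A i k * η i k) * (A i l * η i l) -
        (if k = l then A i k * A i l * η i l * η i k else 0)) = -2 * A i k := by
      intro k
      rw [← Finset.mul_sum, Finset.sum_sub_distrib, ← Finset.mul_sum, H.H1 i]
      simp only [Finset.sum_ite_eq, Finset.mem_univ, if_true]
      have h1 : A i k * A i k = A i k := by rcases H.zo i k with h | h <;> rw [h] <;> norm_num
      have h2 : η i k * η i k = 1 := by rcases H.sg i k with h | h <;> rw [h] <;> norm_num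
      have h3 : A i k * A i k * η i k * η i k = A i k := by
        rw [mul_assoc, h1, h2, mul_one]
      rw [h3]; ring
    rw [Finset.sum_congr rfl fun k _ => a1 k, ← Finset.mul_sum]
  have e2 : ∑ k, ∑ l, (N A i k * η i k) * (A i l * A k l * η i l) = 0 := by
    apply Finset.sum_eq_zero
    intro k _
    rw [← Finset.mul_sum]
    have := NA0 H i k
    linear_combination (η i k) * this
  have e3 : ∑ k, ∑ l, (N A i l * η i l) * (A i k * A l k * η i k) = 0 := by
    rw [Finset.sum_comm]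
    exact e2
  rw [e1, e2, e3]
  ring

end Comb

end Pool.Agent.H81
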