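import Pool.Agent.H81.Trefoil

namespace Pool.Agent.H81

open Set

variable {v : (Circ → ℂ × ℝ) → ℝ}

namespace Clean

variable {p : Circ → ℂ} {s t : ℝ} {u w : ℂ} {r : ℝ}

lemma l_x11 (C : Clean p s t u w r) : lift (s - r) (X1 s t r).1 = s + r * (-2/3) :=
  C.lift_s le_rfl (by linarith [C.hr]) (by linarith [C.hr]) (by norm_num)

lemma l_x12 (C : Clean p s t u w r) : lift (s - r) (X1 s t r).2 = t :=
  C.lift_t0 le_rfl (by linarith [C.hr])

lemma l_x21 (C : Clean p s t u w r) : lift (s - r) (X2 s t r).1 = s + r * (-1/6) :=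
  C.lift_s le_rfl (by linarith [C.hr]) (by linarith [C.hr]) (by norm_num)

lemma l_x22 (C : Clean p s t u w r) : lift (s - r) (X2 s t r).2 = t + r * (1/3) :=
  C.lift_t le_rfl (by linarith [C.hr]) (by norm_num) (by norm_num)

lemma l_x31 (C : Clean p s t u w r) : lift (s - r) (X3 s t r).1 = s + r * (3/5) :=
  C.lift_s le_rfl (by linarith [C.hr]) (by linarith [C.hr]) (by norm_num)

lemma l_x32 (C : Clean p s t u w r) : lift (s - r) (X3 s t r).2 = t + r * (-2/5) :=
  C.lift_t le_rfl (by linarith [C.hr]) (by norm_num) (by norm_num)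

lemma l_y1 (C : Clean p s t u w r) : lift (s - r) (Yl s r).1 = s + r * (-3/4) :=
  C.lift_s le_rfl (by linarith [C.hr]) (by linarith [C.hr]) (by norm_num)

lemma l_y2 (C : Clean p s t u w r) : lift (s - r) (Yl s r).2 = s + r * (1/4) :=
  C.lift_s le_rfl (by linarith [C.hr]) (by linarith [C.hr]) (by norm_num)

end Clean

lemma Lk_val {x y : Circ × Circ} (h : Sep x y) {a x1 x2 y1 y2 : ℝ} (ex1 : lift a x.1 = x1)
    (ex2 : lift a x.2 = x2) (ey1 : lift a y.1 = y1) (ey2 : lift a y.2 = y2) (h0 : x1 < y1)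
    (hx : x1 < x2) (hy : y1 < y2) : Lk x y ↔ y1 < x2 ∧ x2 < y2 := by
  subst ex1 ex2 ey1 ey2
  exact Lk_sorted h h0 hx hy

/-- The values of the cubic coefficients. -/
theorem constants (hv : IsInv v) {K : Circ → ℂ × ℝ} (hK : IsRightTrefoil K) (hv1 : v K = 1) :
    ∀ p x y z, IsRegular p → Tri p x y z → E v p x y z = W (1/4) (1/8) x y z := by
  obtain ⟨κX, κH, hX, hC⟩ := classify hv
  obtain ⟨p, t, D, e⟩ := trefoil_E hv hK hv1
  have eX : κX = 1/4 := (hX p t D).symm.trans e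
  have h01 := D.lt (m := 0) (n := 1) (by norm_num) (by norm_num)
  have h13 := D.lt (m := 1) (n := 3) (by norm_num) (by norm_num)
  have h34 := D.lt (m := 3) (n := 4) (by norm_num) (by norm_num)
  have h45 := D.lt (m := 4) (n := 5) (by norm_num) (by norm_num)
  have h50 := D.last
  have q03 : p (t 0) = p (t 3) := D.eq 0
  have q14 : p (t 1) = p (t 4) := D.eq 1
  obtain ⟨u, w, r, hr, hC'⟩ := exists_clean D.reg (s := t 0) (t := t 3) (by linarith)
    (by linarith) q03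
  have C := hC' r hr le_rfl
  have hst := C.hst
  have hts := C.hts
  have crx : IsCr p ((t 1 : Circ), (t 4 : Circ)) := D.cr 1
  -- positions
  have p1 : t 0 + r < t 1 ∧ t 1 < t 3 - r := by
    obtain ⟨m1, m2⟩ := C.foot_away crx.left_mem (τ := t 1) rfl (by linarith) (by linarith)
    rw [lt_abs] at m1 m2
    constructor
    · rcases m1 with m | m <;> linarith
    · rcases m2 with m | m <;> linarith
  have p4 : t 3 + r < t 4 ∧ t 4 < t 0 - r + 1 := by
    obtain ⟨m1, m2⟩ := C.foot_away crx.right_mem (τ := t 4) rfl (by linarith) (by linarith)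
    obtain ⟨m3, m4⟩ := C.foot_away crx.right_mem (τ := t 4 - 1)
      (by rw [← coe_add_one (t 4 - 1), sub_add_cancel]) (by linarith) (by linarith)
    rw [lt_abs] at m2 m3
    constructor
    · rcases m2 with m | m <;> linarith
    · rcases m3 with m | m <;> linarith
  have l1 : lift (t 0 - r) (t 1 : Circ) = t 1 := lift_coe ⟨by linarith, by linarith⟩
  have l4 : lift (t 0 - r) (t 4 : Circ) = t 4 := lift_coe ⟨by linarith, by linarith⟩
  set x : Circ × Circ := ((t 1 : Circ), (t 4 : Circ)) with hx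
  have lx1 : lift (t 0 - r) x.1 = t 1 := l1
  have lx2 : lift (t 0 - r) x.2 = t 4 := l4
  have out : Out p (t 0 - r) (t 0 + r) x :=
    ⟨crx, by rw [lx1]; linarith, by rw [lx2]; linarith⟩
  have ft := C.four_term hv out
  have xl := (out.tr C.loop_agree).cr
  have sx1 : Sep x (X1 (t 0) (t 3) r) := C.s_out out C.x1_cr C.lift_x1
  have sx2 : Sep x (X2 (t 0) (t 3) r) := C.s_out out C.x2_cr C.lift_x2
  have sx3 : Sep x (X3 (t 0) (t 3) r) := C.s_out out C.x3_cr C.lift_x3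
  have sy : Sep x (Yl (t 0) r) := C.s_out out C.y_cr C.lift_y
  have e11 := C.l_x11
  have e12 := C.l_x12
  have e21 := C.l_x21
  have e22 := C.l_x22
  have e31 := C.l_x31
  have e32 := C.l_x32
  have ey1 := C.l_y1
  have ey2 := C.l_y2
  have k1x : Lk (X1 (t 0) (t 3) r) x :=
    (Lk_val sx1.symm e11 e12 lx1 lx2 (by linarith) (by linarith) (by linarith)).2
      ⟨by linarith, by linarith⟩
  have k2x : Lk (X2 (t 0) (t 3) r) x :=
    (Lk_val sx2.symm e21 e22 lx1 lx2 (by linarith) (by linarith) (by linarith)).2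
      ⟨by linarith, by linarith⟩
  have k3x : Lk (X3 (t 0) (t 3) r) x :=
    (Lk_val sx3.symm e31 e32 lx1 lx2 (by linarith) (by linarith) (by linarith)).2
      ⟨by linarith, by linarith⟩
  have kyx : ¬ Lk (Yl (t 0) r) x := by
    rw [Lk_val sy.symm ey1 ey2 lx1 lx2 (by linarith) (by linarith) (by linarith)]
    rintro ⟨h1, h2⟩; linarith
  have k12 : Lk (X1 (t 0) (t 3) r) (X2 (t 0) (t 3) r) :=
    (Lk_val C.s_x1x2 e11 e12 e21 e22 (by linarith) (by linarith) (by linarith)).2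
      ⟨by linarith, by linarith⟩
  have k13 : ¬ Lk (X1 (t 0) (t 3) r) (X3 (t 0) (t 3) r) := by
    rw [Lk_val C.s_x1x3 e11 e12 e31 e32 (by linarith) (by linarith) (by linarith)]
    rintro ⟨h1, h2⟩; linarith
  have k1y : Lk (Yl (t 0) r) (X1 (t 0) (t 3) r) :=
    (Lk_val C.s_x1y.symm ey1 ey2 e11 e12 (by linarith) (by linarith) (by linarith)).2
      ⟨by linarith, by linarith⟩
  have w1 : E v C.loop (X1 (t 0) (t 3) r) x (X2 (t 0) (t 3) r) = κX := by
    rw [hC _ _ _ _ C.loop_reg ⟨C.x1_cr, xl, C.x2_cr, sx1.symm, C.s_x1x2, sx2⟩]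
    exact W_X k1x k12 ((Lk_comm _ _).1 k2x)
  have w2 : E v C.loop (X1 (t 0) (t 3) r) x (Yl (t 0) r) = κH := by
    rw [hC _ _ _ _ C.loop_reg ⟨C.x1_cr, xl, C.y_cr, sx1.symm, C.s_x1y, sy⟩]
    exact W_H (fun h => kyx ((Lk_comm _ _).1 h.2.2)) (Or.inl ⟨k1x, (Lk_comm _ _).1 k1y⟩)
  have w3 : E v C.loop (X1 (t 0) (t 3) r) x (X3 (t 0) (t 3) r) = κH := by
    rw [hC _ _ _ _ C.loop_reg ⟨C.x1_cr, xl, C.x3_cr, sx1.symm, C.s_x1x3, sx3⟩]
    exact W_H (fun h => k13 h.2.1) (Or.inr (Or.inl ⟨k1x, (Lk_comm _ _).1 k3x⟩))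
  rw [w1, w2, w3] at ft
  have eH : κH = 1/8 := by linarith
  rw [eX, eH] at hC
  exact hC

end Pool.Agent.H81
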