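import Mathlib

namespace Pool.Agent.H81

/-- The parameter circle `ℝ/ℤ`. -/
abbrev Circ := AddCircle (1:ℝ)

section PL
variable {E : Type*} [AddCommGroup E] [Module ℝ E]

/-- `f` is affine on some interval `[x, x+δ]`. -/
def RAff (f : ℝ → E) (x : ℝ) : Prop :=
  ∃ δ > 0, ∃ u : E, ∀ τ ∈ Set.Icc (0:ℝ) δ, f (x + τ) = f x + τ • u

/-- `f` is affine on some interval `[x-δ, x]`. -/
def LAff (f : ℝ → E) (x : ℝ) : Prop :=
  ∃ δ > 0, ∃ u : E, ∀ τ ∈ Set.Icc (0:ℝ) δ, f (x - τ) = f x - τ • u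

/-- A map from the line is piecewise linear. -/
def IsPLR (f : ℝ → E) : Prop := ∀ x : ℝ, RAff f x ∧ LAff f x

/-- A map from the circle is piecewise linear. -/
def IsPL (f : Circ → E) : Prop := IsPLR (fun τ : ℝ => f τ)

end PL

/-- A piecewise linear oriented knot in `ℝ³ = ℂ × ℝ`, parametrised by the circle. -/
def IsKnot (K : Circ → ℂ × ℝ) : Prop := IsPL K ∧ Function.Injective K

/-- The straight line homotopy from `K₀` to `K₁` is an isotopy through PL knots. -/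
def LinIsotopic (K₀ K₁ : Circ → ℂ × ℝ) : Prop :=
  ∀ s ∈ Set.Icc (0:ℝ) 1, IsKnot (fun t => (1 - s) • K₀ t + s • K₁ t)

/-- `K₁` is an orientation preserving PL reparametrisation of `K₀`. -/
def Reparam (K₀ K₁ : Circ → ℂ × ℝ) : Prop :=
  ∃ φ : ℝ → ℝ, IsPLR φ ∧ StrictMono φ ∧ (∀ x, φ (x + 1) = φ x + 1) ∧
    ∀ x : ℝ, K₁ (x : Circ) = K₀ (φ x : Circ)

/-- planar determinant -/
def det (u w : ℂ) : ℝ := u.re * w.im - u.im * w.re

/-- the plane curve `p` is straight near `t`, with velocity `u` -/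
def Vel (p : Circ → ℂ) (t : Circ) (u : ℂ) : Prop :=
  ∃ δ > 0, ∀ τ : ℝ, |τ| < δ → p (t + (τ : Circ)) = p t + τ • u

/-- the parameters of the double points of `p` -/
def feet (p : Circ → ℂ) : Set Circ := {s | ∃ t, t ≠ s ∧ p t = p s}

/-- `p` is a regular PL plane curve: finitely many double points, all transverse and
away from the corners, and no triple points. -/
structure IsRegular (p : Circ → ℂ) : Prop where
  pl : IsPL p
  fin : (feet p).Finite
  triple : ∀ r s t, p r = p s → p s = p t → r = s ∨ s = t ∨ r = t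
  trans : ∀ s t, s ≠ t → p s = p t → ∃ u w, Vel p s u ∧ Vel p t w ∧ det u w ≠ 0

/-- finite type of degree at most three -/
def DegLE3 (v : (Circ → ℂ × ℝ) → ℝ) : Prop :=
  ∀ (p : Circ → ℂ) (s t : Fin 4 → Circ) (z : (Fin 4 → Bool) → Circ → ℝ),
    IsRegular p → (∀ S, IsPL (z S)) →
    (∀ i, s i ≠ t i ∧ p (s i) = p (t i)) →
    (∀ i j, i ≠ j → s i ≠ s j ∧ s i ≠ t j) →
    (∀ S i, S i = true → z S (t i) < z S (s i)) →
    (∀ S i, S i = false → z S (s i) < z S (t i)) →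
    (∀ r r', r ≠ r' → p r = p r' → (∀ i, r ≠ s i ∧ r ≠ t i) →
      ∀ S S', 0 < (z S r - z S r') * (z S' r - z S' r')) →
    ∑ S : Fin 4 → Bool, (∏ i, if S i then (1:ℝ) else -1) * v (fun r => (p r, z S r)) = 0

/-- a standard diagram of the right-handed trefoil: three mutually interlaced crossings,
alternating, and all positive -/
structure IsRightTrefoil (K : Circ → ℂ × ℝ) : Prop where
  knot : IsKnot K
  reg : IsRegular (fun t => (K t).1)
  diag : ∃ t : Fin 6 → ℝ, StrictMono t ∧ t 5 < t 0 + 1 ∧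
    feet (fun t => (K t).1) = Set.range (fun i => (t i : Circ)) ∧
    (K (t 0)).1 = (K (t 3)).1 ∧ (K (t 1)).1 = (K (t 4)).1 ∧ (K (t 2)).1 = (K (t 5)).1 ∧
    (K (t 3)).2 < (K (t 0)).2 ∧ (K (t 1)).2 < (K (t 4)).2 ∧ (K (t 5)).2 < (K (t 2)).2
  pos : ∀ s t u w, s ≠ t → (K s).1 = (K t).1 → (K t).2 < (K s).2 →
    Vel (fun t => (K t).1) s u → Vel (fun t => (K t).1) t w → 0 < det u w

/-- The properties that characterise the invariant `v₃`. -/
structure IsV3 (v : (Circ → ℂ × ℝ) → ℝ) : Prop where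
  isotopy : ∀ K₀ K₁, LinIsotopic K₀ K₁ → v K₀ = v K₁
  reparam : ∀ K₀ K₁, IsKnot K₀ → Reparam K₀ K₁ → v K₀ = v K₁
  degree : DegLE3 v
  mirror : ∀ K, IsKnot K → v (fun t => ((K t).1, -(K t).2)) = - v K
  trefoil : ∃ K, IsRightTrefoil K ∧ v K = 1

/-- the double points of a plane curve -/
def dblPts (p : Circ → ℂ) : Set ℂ := {x | ∃ s t, s ≠ t ∧ p s = x ∧ p t = x}

/-- the equivalence relation of PL knots generated by straight line isotopies and orientation
preserving reparametrisations -/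
def SameKnot : (Circ → ℂ × ℝ) → (Circ → ℂ × ℝ) → Prop :=
  Relation.EqvGen fun K₀ K₁ => LinIsotopic K₀ K₁ ∨ (IsKnot K₀ ∧ Reparam K₀ K₁)

/-- `K` has a diagram with `n` crossings -/
def HasDiagram (K : Circ → ℂ × ℝ) (n : ℕ) : Prop :=
  ∃ K', SameKnot K K' ∧ IsKnot K' ∧ IsRegular (fun t => (K' t).1) ∧
    (dblPts fun t => (K' t).1).ncard = n

end Pool.Agent.H81
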