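import Pool.Agent.H81.Over

namespace Pool.Agent.H81

open Set

/-- **Descending diagrams**: the invariant vanishes. -/
theorem descend_zero {v : (Circ → ℂ × ℝ) → ℝ} (hv : IsInv v) {p : Circ → ℂ} (hp : IsRegular p)
    {a : ℝ} {y : Circ → ℝ}
    (hy : ∀ s t, IsDbl p s t → lift a s < lift a t → y t < y s) : V v p y = 0 := by
  have hF : (lift a '' (feet p)).Finite := hp.fin.image _
  set F := lift a '' (feet p) with hFdef
  have haF : a + 1 ∉ F := by
    rintro ⟨s, hs, h⟩
    have := lift_lt a s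
    linarith
  obtain ⟨δ₂, hδ₂, g2⟩ := exists_gap F hF (a+1) haF
  obtain ⟨δ₃, hδ₃, u, hu⟩ := (hp.pl (a + 1)).2
  obtain ⟨δ, hδ, d1, d2, d3⟩ : ∃ δ > 0, 2 * δ ≤ δ₂ ∧ 2 * δ ≤ δ₃ ∧ 4 * δ ≤ 1 := by
    refine ⟨min (δ₂/2) (min (δ₃/2) (1/4)), ?_, ?_, ?_, ?_⟩
    · exact lt_min (by linarith) (lt_min (by linarith) (by norm_num))
    · linarith [min_le_left (δ₂/2) (min (δ₃/2) (1/4))]
    · linarith [min_le_right (δ₂/2) (min (δ₃/2) (1/4)), min_le_left (δ₃/2) (1/4:ℝ)]
    · linarith [min_le_right (δ₂/2) (min (δ₃/2) (1/4)), min_le_right (δ₃/2) (1/4:ℝ)]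
  simp only at hu
  have hpu : ∀ τ : ℝ, a + 1 - 2 * δ ≤ τ → τ ≤ a + 1 → p τ = p a - (a + 1 - τ) • u := by
    intro τ h1 h2
    have := hu (a + 1 - τ) ⟨by linarith, by linarith⟩
    rw [sub_sub_cancel, coe_add_one] at this
    exact this
  have hFlt : ∀ σ ∈ F, σ < a + 1 - 2 * δ := by
    intro σ hσ
    have h1 := g2 σ hσ
    obtain ⟨s, hs, rfl⟩ := hσ
    have := lift_lt a s
    rw [abs_of_neg (by linarith)] at h1
    linarith
  have hu0 : u ≠ 0 := by
    rintro rfl
    have h1 : p ((a + 1 - δ : ℝ) : Circ) = p ((a + 1 - 2 * δ : ℝ) : Circ) := by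
      rw [hpu (a + 1 - δ) (by linarith) (by linarith),
        hpu (a + 1 - 2 * δ) (by linarith) (by linarith), smul_zero, smul_zero]
    have h2 : ((a + 1 - δ : ℝ) : Circ) ≠ ((a + 1 - 2 * δ : ℝ) : Circ) := by
      intro h
      rw [coe_eq_coe_iff (a := a) ⟨by linarith, by linarith⟩ ⟨by linarith, by linarith⟩] at h
      linarith
    have h3 : ((a + 1 - δ : ℝ) : Circ) ∈ feet p := ⟨_, h2.symm, h1.symm⟩
    have h4 := hFlt _ ⟨_, h3, rfl⟩
    rw [lift_coe ⟨by linarith, by linarith⟩] at h4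
    linarith
  -- the heights
  set G : ℝ → ℝ := fun τ => max (a - τ) (((1 - δ) / δ) * (τ - (a + 1))) with hG
  have GPL : IsPLR G := ((IsPLR.const a).sub IsPLR.id).max ((IsPLR.id.sub (IsPLR.const (a+1))).mul _)
  have G1 : ∀ τ, τ ≤ a + 1 - δ → G τ = a - τ := by
    intro τ h
    simp only [hG]
    rw [max_eq_left]
    have h1 : ((1 - δ) / δ) * (τ - (a + 1)) ≤ ((1 - δ) / δ) * (-δ) :=
      mul_le_mul_of_nonneg_left (by linarith) (div_nonneg (by linarith) hδ.le)
    have h2 : ((1 - δ) / δ) * (-δ) = -(1-δ) := by field_simp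
    -- for τ ≤ a + 1 - δ
    have h3 : ((1 - δ) / δ) * (τ - (a + 1)) + (1-δ) = ((1 - δ) / δ) * (τ - (a + 1 - δ)) := by
      field_simp; ring
    have h4 : ((1 - δ) / δ) * (τ - (a + 1 - δ)) ≤ 0 :=
      mul_nonpos_of_nonneg_of_nonpos (div_nonneg (by linarith) hδ.le) (by linarith)
    linarith
  have G2 : ∀ τ, a + 1 - δ ≤ τ → G τ = ((1 - δ) / δ) * (τ - (a + 1)) := by
    intro τ h
    simp only [hG]
    rw [max_eq_right]
    have h3 : ((1 - δ) / δ) * (τ - (a + 1)) + (1-δ) = ((1 - δ) / δ) * (τ - (a + 1 - δ)) := by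
      field_simp; ring
    have h4 : 0 ≤ ((1 - δ) / δ) * (τ - (a + 1 - δ)) :=
      mul_nonneg (div_nonneg (by linarith) hδ.le) (by linarith)
    linarith
  have hGends : G a = G (a + 1) := by
    rw [G1 a (by linarith), G2 (a+1) (by linarith)]; ring
  set z : Circ → ℝ := lp a G with hz
  have zPL : IsPL z := lp_isPL (GPL.plOn _ _) hGends
  have z_coe : ∀ τ, a ≤ τ → τ ≤ a + 1 → z (τ : Circ) = G τ := fun τ k1 k2 =>
    lp_coe' hGends ⟨k1, k2⟩
  have z_lift : ∀ s, z s = G (lift a s) := fun s => rfl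
  have hsame : SamePat p z y := by
    intro s t hst
    wlog hlt : lift a s < lift a t generalizing s t
    · have h3 := this t s hst.symm (lt_of_le_of_ne (not_lt.1 hlt) (lift_ne hst.1.symm))
      linarith
    have h1 := hFlt _ ⟨s, hst.left_mem, rfl⟩
    have h2 := hFlt _ ⟨t, hst.right_mem, rfl⟩
    rw [z_lift, z_lift, G1 _ (by linarith), G1 _ (by linarith)]
    have := hy s t hst hlt
    nlinarith
  have hknot : IsKnot (mk p z) := Valid.isKnot hp.pl zPL hsame.valid_left
  rw [← V_eq hv hp zPL hsame]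
  have hfan : v (mk p z) = v (FanHyp.fan (mk p z) a (a + 1 - 2 * δ)) := by
    refine FanHyp.fan_eq (e := a + 1 - δ) ⟨hknot, by linarith, by linarith, by linarith, ?_, ?_, ?_⟩ hv
    · intro τ τ' k1 k2 k3
      simp only [mk]
      rw [z_coe τ k1 (by linarith), z_coe τ' (by linarith) (by linarith), G1 _ (by linarith),
        G1 _ (by linarith)]
      linarith
    · intro τ k1 k2
      simp only [mk]
      rw [z_coe τ (by linarith) (by linarith), z_coe _ (by linarith) (by linarith), G1 _ k2,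
        G1 _ (by linarith)]
      linarith
    · intro τ k1 k2
      simp only [mk]
      apply Prod.ext
      · simp only [Prod.fst_add, Prod.smul_fst, Prod.fst_sub]
        rw [hpu τ (by linarith) k2, hpu (a + 1 - δ) (by linarith) (by linarith),
          sub_sub_cancel, sub_sub_cancel, smul_smul, div_mul_cancel₀ _ hδ.ne',
          sub_add, ← sub_smul]
        congr 2
        ring
      · simp only [Prod.snd_add, Prod.smul_snd, Prod.snd_sub, smul_eq_mul]
        rw [z_coe τ (by linarith) k2, z_coe (a + 1 - δ) (by linarith) (by linarith),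
          z_coe a le_rfl (by linarith), G2 τ k1, G2 _ le_rfl, G1 a (by linarith)]
        rw [show a + 1 - (a + 1 - δ) = δ by ring]
        field_simp
        ring
  rw [hfan]
  -- triangle family
  set ξ : ℝ → ℝ := fun τ => max (-(2 * δ / (1 - 2 * δ)) * (τ - a)) (τ - (a + 1)) with hξ
  set H : ℝ → ℝ := fun τ => max 0 (min ((1/(1 - 2 * δ)) * (τ - a)) ((1/δ) * (a + 1 - δ - τ))) with hH
  have h12 : 0 < 1 - 2 * δ := by linarith
  have hne : 1 - 2 * δ ≠ 0 := h12.ne'
  have ξ1 : ∀ τ, τ ≤ a + 1 - 2 * δ → ξ τ = -(2 * δ / (1 - 2 * δ)) * (τ - a) := by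
    intro τ h
    simp only [hξ]
    rw [max_eq_left]
    have : -(2 * δ / (1 - 2 * δ)) * (τ - a) - (τ - (a+1)) = (1/(1-2*δ)) * (a + 1 - 2 * δ - τ) := by
      field_simp; ring
    have h2 : 0 ≤ (1/(1-2*δ)) * (a + 1 - 2 * δ - τ) := mul_nonneg (by positivity) (by linarith)
    linarith
  have ξ2 : ∀ τ, a + 1 - 2 * δ ≤ τ → ξ τ = τ - (a + 1) := by
    intro τ h
    simp only [hξ]
    rw [max_eq_right]
    have : -(2 * δ / (1 - 2 * δ)) * (τ - a) - (τ - (a+1)) = -((1/(1-2*δ)) * (τ - (a + 1 - 2 * δ))) := by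
      field_simp; ring
    have h2 : 0 ≤ (1/(1-2*δ)) * (τ - (a + 1 - 2 * δ)) := mul_nonneg (by positivity) (by linarith)
    linarith
  have H1 : ∀ τ, a ≤ τ → τ ≤ a + 1 - 2 * δ → H τ = (1/(1 - 2 * δ)) * (τ - a) := by
    intro τ h0 h
    simp only [hH]
    have : (1/δ) * (a + 1 - δ - τ) - (1/(1 - 2 * δ)) * (τ - a) =
      ((1 - δ) / (δ * (1-2*δ))) * (a + 1 - 2 * δ - τ) := by
      rw [one_div_mul_eq_div, one_div_mul_eq_div, div_sub_div _ _ hδ.ne' hne, div_mul_eq_mul_div]
      congr 1; ring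
    have h2 : 0 ≤ ((1 - δ) / (δ * (1-2*δ))) * (a + 1 - 2 * δ - τ) :=
      mul_nonneg (div_nonneg (by linarith) (by positivity)) (by linarith)
    have h3 : 0 ≤ (1/(1 - 2 * δ)) * (τ - a) := mul_nonneg (by positivity) (by linarith)
    rw [min_eq_left (by linarith), max_eq_right h3]
  have H2 : ∀ τ, a + 1 - 2 * δ ≤ τ → τ ≤ a + 1 - δ → H τ = (1/δ) * (a + 1 - δ - τ) := by
    intro τ h0 h
    simp only [hH]
    have : (1/δ) * (a + 1 - δ - τ) - (1/(1 - 2 * δ)) * (τ - a) =
      -(((1 - δ) / (δ * (1-2*δ))) * (τ - (a + 1 - 2 * δ))) := by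
      rw [one_div_mul_eq_div, one_div_mul_eq_div, div_sub_div _ _ hδ.ne' hne, div_mul_eq_mul_div,
        ← neg_div]
      congr 1; ring
    have h2 : 0 ≤ ((1 - δ) / (δ * (1-2*δ))) * (τ - (a + 1 - 2 * δ)) :=
      mul_nonneg (div_nonneg (by linarith) (by positivity)) (by linarith)
    have h3 : 0 ≤ (1/δ) * (a + 1 - δ - τ) := mul_nonneg (by positivity) (by linarith)
    rw [min_eq_right (by linarith), max_eq_right h3]
  have H3 : ∀ τ, a + 1 - δ ≤ τ → H τ = 0 := by
    intro τ h0
    simp only [hH]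
    rw [max_eq_left]
    refine (min_le_right _ _).trans (mul_nonpos_of_nonneg_of_nonpos (by positivity) (by linarith))
  have ξPL : IsPLR ξ := ((IsPLR.id.sub (IsPLR.const a)).mul _).max (IsPLR.id.sub (IsPLR.const (a+1)))
  have HPL : IsPLR H := (IsPLR.const (0:ℝ)).max (((IsPLR.id.sub (IsPLR.const a)).mul _).min
    (((IsPLR.const (a + 1 - δ)).sub IsPLR.id).mul _))
  have ξa : ξ a = 0 := by rw [ξ1 a (by linarith)]; ring
  have ξa1 : ξ (a+1) = 0 := by rw [ξ2 (a+1) (by linarith)]; ring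
  have Ha : H a = 0 := by rw [H1 a le_rfl (by linarith)]; ring
  have Ha1 : H (a+1) = 0 := H3 _ (by linarith)
  set P : ℝ → ℝ → ℂ := fun s τ => p a + ((ξ τ) • u + (s * H τ) • (Complex.I * u)) with hP
  have PPL : ∀ s, IsPLR (P s) := by
    intro s
    have e1 : IsPLR (fun τ => (ξ τ) • u) := ξPL.linear ((LinearMap.id (R := ℝ) (M := ℝ)).smulRight u)
    have e2 : IsPLR (fun τ => (s * H τ) • (Complex.I * u)) :=
      (HPL.mul s).linear ((LinearMap.id (R := ℝ) (M := ℝ)).smulRight (Complex.I * u))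
    exact (IsPLR.const (p a)).add (e1.add e2)
  set T : ℝ → Circ → ℂ × ℝ := fun s => lp a (fun τ => (P s τ, G τ)) with hT
  have P_eq : ∀ s s' σ τ, P s σ = P s' τ → ξ σ = ξ τ ∧ s * H σ = s' * H τ := by
    intro s s' σ τ h
    simp only [hP] at h
    have h1 := add_left_cancel h
    have h2 : (((ξ σ : ℝ) : ℂ) + ((s * H σ : ℝ) : ℂ) * Complex.I) * u =
        (((ξ τ : ℝ) : ℂ) + ((s' * H τ : ℝ) : ℂ) * Complex.I) * u := by
      simp only [Complex.real_smul] at h1
      linear_combination h1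
    have h3 := mul_right_cancel₀ hu0 h2
    have h4 := congrArg Complex.re h3
    have h5 := congrArg Complex.im h3
    simp at h4 h5
    exact ⟨h4, h5⟩
  have TPL : ∀ s, IsPL (T s) := by
    intro s
    refine lp_isPL (((PPL s).prodMk GPL).plOn _ _) ?_
    simp only [hP, ξa, ξa1, Ha, Ha1, hGends]
  have Tinj : ∀ s, Function.Injective (T s) := by
    intro s x x' hxx
    by_contra hne
    wlog hlt : lift a x < lift a x' generalizing x x'
    · exact this hxx.symm (Ne.symm hne) (lt_of_le_of_ne (not_lt.1 hlt) (lift_ne (Ne.symm hne)))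
    simp only [hT, lp, Prod.mk.injEq] at hxx
    obtain ⟨k1, k2⟩ := hxx
    have k3 := (P_eq _ _ _ _ k1).1
    have b1 := le_lift a x
    have b2 := le_lift a x'
    have b3 := lift_lt a x
    have b4 := lift_lt a x'
    set σ := lift a x
    set τ := lift a x'
    have hcoef : 0 < (1 - δ) / δ := div_pos (by linarith) hδ
    rcases le_or_gt τ (a + 1 - δ) with c1 | c1
    · rw [G1 σ (by linarith), G1 τ c1] at k2
      linarith
    · rw [G2 τ c1.le] at k2
      rw [ξ2 τ (by linarith)] at k3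
      rcases le_or_gt (a + 1 - δ) σ with c2 | c2
      · rw [G2 σ c2] at k2
        have := mul_left_cancel₀ hcoef.ne' k2
        linarith
      · rcases le_or_gt σ (a + 1 - 2 * δ) with c3 | c3
        · rw [G1 σ c2.le] at k2
          rw [ξ1 σ c3] at k3
          rw [← k3] at k2
          have e1 : (1 - δ) / δ * (-(2 * δ / (1 - 2 * δ)) * (σ - a)) =
            -((2 * (1 - δ)/(1 - 2*δ)) * (σ - a)) := by field_simp
          rw [e1] at k2
          have e2 : (2 * (1 - δ)/(1 - 2*δ)) = 1 + 1/(1-2*δ) := by field_simp; ring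
          rw [e2] at k2
          have e3 : (1/(1-2*δ)) * (σ - a) = 0 := by linarith
          have e4 : σ - a = 0 := by
            rcases mul_eq_zero.1 e3 with h | h
            · exfalso
              have : 0 < 1/(1-2*δ) := by positivity
              linarith
            · exact h
          rw [e4] at k3
          linarith
        · rw [ξ2 σ c3.le] at k3
          linarith
  have hT0 : FanHyp.fan (mk p z) a (a + 1 - 2 * δ) = T 0 := by
    funext t
    simp only [FanHyp.fan, hT, lp, FanHyp.fanMap]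
    have b1 := le_lift a t
    have b3 := lift_lt a t
    set τ := lift a t
    split_ifs with h
    · simp only [mk]
      rw [z_coe a le_rfl (by linarith), z_coe (a + 1 - 2 * δ) (by linarith) (by linarith),
        G1 a (by linarith), G1 (a + 1 - 2 * δ) (by linarith), G1 τ (by linarith),
        hpu (a + 1 - 2 * δ) le_rfl (by linarith)]
      simp only [hP]
      rw [ξ1 τ h]
      apply Prod.ext
      · simp only [Prod.fst_add, Prod.smul_fst, Prod.fst_sub, zero_mul, zero_smul, add_zero]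
        congr 1
        rw [sub_sub_cancel, sub_sub_cancel_left, ← neg_smul, smul_smul]
        congr 1
        have : a + 1 - 2 * δ - a ≠ 0 := by linarith
        rw [show a + 1 - 2 * δ - a = 1 - 2 * δ by ring]
        field_simp
      · simp only [Prod.snd_add, Prod.smul_snd, Prod.snd_sub, smul_eq_mul]
        rw [show a + 1 - 2 * δ - a = 1 - 2 * δ by ring]
        field_simp
        ring
    · have h' : a + 1 - 2 * δ ≤ τ := (not_le.1 h).le
      simp only [mk]
      rw [z_coe τ b1 b3.le, hpu τ h' b3.le]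
      simp only [hP]
      rw [ξ2 τ h']
      congr 1
      rw [zero_mul, zero_smul, add_zero, sub_eq_add_neg, ← neg_smul]
      congr 2
      ring
  rw [hT0]
  have hiso : v (T 0) = v (T 1) := by
    apply hv.isotopy
    intro s _
    have : (fun t => (1 - s) • T 0 t + s • T 1 t) = T s := by
      funext t
      simp only [hT, lp, hP]
      apply Prod.ext
      · simp only [Prod.fst_add, Prod.smul_fst, zero_mul, zero_smul, add_zero, one_mul]
        simp only [Complex.real_smul]
        push_cast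
        ring
      · simp only [Prod.snd_add, Prod.smul_snd, smul_eq_mul]
        ring
    rw [this]
    exact ⟨TPL s, Tinj s⟩
  rw [hiso]
  have hmk : T 1 = mk (lp a (P 1)) z := rfl
  rw [hmk]
  refine v_zero hv (lp_isPL ((PPL 1).plOn _ _) ?_) zPL ?_
  · simp only [hP, ξa, ξa1, Ha, Ha1]
  · intro x x' hxx
    by_contra hne
    wlog hlt : lift a x < lift a x' generalizing x x'
    · exact this hxx.symm (Ne.symm hne) (lt_of_le_of_ne (not_lt.1 hlt) (lift_ne (Ne.symm hne)))
    simp only [lp] at hxx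
    obtain ⟨k1, k2⟩ := P_eq _ _ _ _ hxx
    rw [one_mul, one_mul] at k2
    have b1 := le_lift a x
    have b2 := le_lift a x'
    have b3 := lift_lt a x
    have b4 := lift_lt a x'
    set σ := lift a x
    set τ := lift a x'
    have hcoef : 0 < 1/(1 - 2 * δ) := by positivity
    rcases le_or_gt τ (a + 1 - 2 * δ) with c1 | c1
    · rw [H1 σ b1 (by linarith), H1 τ b2 c1] at k2
      have := mul_left_cancel₀ hcoef.ne' k2
      linarith
    · rcases le_or_gt (a + 1 - 2 * δ) σ with c2 | c2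
      · rw [ξ2 σ c2, ξ2 τ c1.le] at k1
        linarith
      · rw [ξ1 σ c2.le, ξ2 τ c1.le] at k1
        rw [H1 σ b1 c2.le] at k2
        have e1 : -(2 * δ / (1 - 2 * δ)) * (σ - a) = -(2 * δ) * ((1/(1-2*δ)) * (σ - a)) := by
          field_simp
        rw [e1, k2] at k1
        rcases le_or_gt τ (a + 1 - δ) with c3 | c3
        · rw [H2 τ c1.le c3] at k1
          have e2 : -(2 * δ) * (1 / δ * (a + 1 - δ - τ)) = - (2 * (a + 1 - δ - τ)) := by
            field_simp
          rw [e2] at k1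
          -- τ = a + 1 - 2δ
          linarith
        · rw [H3 τ c3.le] at k1
          linarith

end Pool.Agent.H81
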