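import Pool.Agent.H81.Descend

namespace Pool.Agent.H81

open Set

/-- set the height of the first foot of `x` relative to that of the second foot -/
noncomputable def up (y : Circ → ℝ) (x : Circ × Circ) (e : ℝ) : Circ → ℝ :=
  open Classical in Function.update y x.1 (y x.2 + e)

lemma up_fst (y : Circ → ℝ) (x : Circ × Circ) (e : ℝ) : up y x e x.1 = y x.2 + e := by
  unfold up; simp

lemma up_ne (y : Circ → ℝ) (x : Circ × Circ) (e : ℝ) {r : Circ} (h : r ≠ x.1) :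
    up y x e r = y r := by
  unfold up; simp [Function.update_of_ne h]

/-- difference operator -/
noncomputable def D (F : (Circ → ℝ) → ℝ) (x : Circ × Circ) (y : Circ → ℝ) : ℝ :=
  F (up y x 1) - F (up y x (-1))

/-- `x` is a crossing of `p` -/
def IsCr (p : Circ → ℂ) (x : Circ × Circ) : Prop := IsDbl p x.1 x.2

/-- the crossings `x` and `x'` are different -/
structure Sep (x x' : Circ × Circ) : Prop where
  h11 : x.1 ≠ x'.1
  h12 : x.1 ≠ x'.2
  h21 : x.2 ≠ x'.1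
  h22 : x.2 ≠ x'.2

lemma Sep.symm {x x' : Circ × Circ} (h : Sep x x') : Sep x' x :=
  ⟨h.h11.symm, h.h21.symm, h.h12.symm, h.h22.symm⟩

lemma Sep.swap_left {x x' : Circ × Circ} (h : Sep x x') : Sep x.swap x' :=
  ⟨h.h21, h.h22, h.h11, h.h12⟩

lemma Sep.swap_right {x x' : Circ × Circ} (h : Sep x x') : Sep x x'.swap :=
  ⟨h.h12, h.h11, h.h22, h.h21⟩

lemma IsRegular.sep {p : Circ → ℂ} (hp : IsRegular p) {x x' : Circ × Circ} (h : IsCr p x)
    (h' : IsCr p x') (h1 : x.1 ≠ x'.1) (h2 : x.1 ≠ x'.2) : Sep x x' := by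
  refine ⟨h1, h2, fun h3 => ?_, fun h3 => ?_⟩
  · apply h2
    have e1 : IsDbl p x.2 x.1 := IsDbl.symm h
    have e2 : IsDbl p x.2 x'.2 := by rw [h3]; exact h'
    exact hp.uniq e1 e2
  · apply h1
    have e1 : IsDbl p x.2 x.1 := IsDbl.symm h
    have e2 : IsDbl p x.2 x'.1 := by rw [h3]; exact IsDbl.symm h'
    exact hp.uniq e1 e2

lemma up_comm (y : Circ → ℝ) {x x' : Circ × Circ} (h : Sep x x') (e e' : ℝ) :
    up (up y x e) x' e' = up (up y x' e') x e := by
  funext r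
  by_cases h1 : r = x.1
  · subst h1
    rw [up_ne _ _ _ h.h11, up_fst, up_fst, up_ne _ _ _ h.h21]
  · by_cases h2 : r = x'.1
    · subst h2
      rw [up_fst, up_ne _ _ _ h1, up_fst, up_ne _ _ _ h.h12.symm]
    · rw [up_ne _ _ _ h2, up_ne _ _ _ h1, up_ne _ _ _ h1, up_ne _ _ _ h2]

lemma up_up (y : Circ → ℝ) {x : Circ × Circ} (h : x.2 ≠ x.1) (e e' : ℝ) :
    up (up y x e) x e' = up y x e' := by
  funext r
  by_cases h1 : r = x.1
  · subst h1
    rw [up_fst, up_fst, up_ne _ _ _ h]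
  · rw [up_ne _ _ _ h1, up_ne _ _ _ h1, up_ne _ _ _ h1]

lemma D_comm (F : (Circ → ℝ) → ℝ) {x x' : Circ × Circ} (h : Sep x x') (y : Circ → ℝ) :
    D (D F x) x' y = D (D F x') x y := by
  unfold D
  rw [up_comm y h.symm, up_comm y h.symm, up_comm y h.symm, up_comm y h.symm]
  ring

/-- pattern invariance -/
def PI (p : Circ → ℂ) (F : (Circ → ℝ) → ℝ) : Prop := ∀ y y', SamePat p y y' → F y = F y'

/-- a convenient criterion for `SamePat` -/
lemma samePat_of {p : Circ → ℂ} (hp : IsRegular p) {x : Circ × Circ} (hx : IsCr p x)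
    {y y' : Circ → ℝ} (h1 : 0 < (y x.1 - y x.2) * (y' x.1 - y' x.2))
    (h2 : ∀ s t, IsDbl p s t → s ≠ x.1 → s ≠ x.2 → t ≠ x.1 → t ≠ x.2 →
      0 < (y s - y t) * (y' s - y' t)) : SamePat p y y' := by
  intro s t hst
  by_cases e1 : s = x.1
  · subst e1
    have := hp.uniq hst hx
    subst this
    exact h1
  · by_cases e2 : s = x.2
    · subst e2
      have := hp.uniq hst (IsDbl.symm hx)
      subst this
      linarith
    · have h := hp.sep (x := (s, t)) (x' := x) hst hx e1 e2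
      exact h2 s t hst e1 e2 h.h21 h.h22

lemma up_samePat {p : Circ → ℂ} (hp : IsRegular p) {x : Circ × Circ} (hx : IsCr p x)
    {y y' : Circ → ℝ} (h : SamePat p y y') {e : ℝ} (he : e ≠ 0) :
    SamePat p (up y x e) (up y' x e) := by
  refine samePat_of hp hx ?_ ?_
  · rw [up_fst, up_fst, up_ne _ _ _ hx.1.symm, up_ne _ _ _ hx.1.symm]
    simp only [add_sub_cancel_left]
    exact mul_self_pos.2 he
  · intro s t hst h1 _ h3 _
    rw [up_ne _ _ _ h1, up_ne _ _ _ h3, up_ne _ _ _ h1, up_ne _ _ _ h3]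
    exact h s t hst

lemma Valid.up {p : Circ → ℂ} (hp : IsRegular p) {x : Circ × Circ} (hx : IsCr p x)
    {y : Circ → ℝ} (h : Valid p y) {e : ℝ} (he : e ≠ 0) : Valid p (up y x e) :=
  (up_samePat hp hx h.samePat he).valid_left

lemma PI.D {p : Circ → ℂ} (hp : IsRegular p) {F : (Circ → ℝ) → ℝ} (hF : PI p F)
    {x : Circ × Circ} (hx : IsCr p x) : PI p (D F x) := by
  intro y y' h
  unfold H81.D
  rw [hF _ _ (up_samePat hp hx h one_ne_zero),
    hF _ _ (up_samePat hp hx h (neg_ne_zero.2 one_ne_zero))]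

/-- `y` has the same pattern as one of the two updates -/
lemma samePat_up_self {p : Circ → ℂ} (hp : IsRegular p) {x : Circ × Circ} (hx : IsCr p x)
    {y : Circ → ℝ} (h : Valid p y) {e : ℝ} (he : 0 < (y x.1 - y x.2) * e) :
    SamePat p y (up y x e) := by
  refine samePat_of hp hx ?_ ?_
  · rw [up_fst, up_ne _ _ _ hx.1.symm, add_sub_cancel_left]
    exact he
  · intro s t hst h1 _ h3 _
    rw [up_ne _ _ _ h1, up_ne _ _ _ h3]
    exact h.samePat s t hst

/-- if a pattern invariant function has zero difference at the crossing `x`, then it does not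
see that crossing -/
lemma PI.insens {p : Circ → ℂ} (hp : IsRegular p) {F : (Circ → ℝ) → ℝ} (hF : PI p F)
    {x : Circ × Circ} (hx : IsCr p x) {y : Circ → ℝ} (h : Valid p y) (h0 : H81.D F x y = 0)
    {e : ℝ} (he : e = 1 ∨ e = -1) : F (H81.up y x e) = F y := by
  unfold H81.D at h0
  have h1 : F (H81.up y x 1) = F (H81.up y x (-1)) := by linarith
  have hne : y x.1 - y x.2 ≠ 0 := sub_ne_zero.2 (h _ _ hx)
  have h2 : F y = F (H81.up y x 1) := by
    rcases lt_or_gt_of_ne hne with h3 | h3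
    · rw [h1]
      exact hF _ _ (samePat_up_self hp hx h (by linarith))
    · exact hF _ _ (samePat_up_self hp hx h (by linarith))
  rcases he with rfl | rfl
  · exact h2.symm
  · rw [← h1, h2]

lemma sum_fin4 (f : Bool → Bool → Bool → Bool → ℝ) :
    ∑ S : Fin 4 → Bool, f (S 0) (S 1) (S 2) (S 3) = ∑ a, ∑ b, ∑ c, ∑ d, f a b c d := by
  let E : Bool × Bool × Bool × Bool ≃ (Fin 4 → Bool) :=
    { toFun := fun q => ![q.1, q.2.1, q.2.2.1, q.2.2.2]
      invFun := fun S => (S 0, S 1, S 2, S 3)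
      left_inv := fun q => rfl
      right_inv := fun S => by funext i; fin_cases i <;> rfl }
  rw [← E.sum_comp]
  simp only [Fintype.sum_prod_type]
  rfl

/-- the sign of a boolean -/
def sg (b : Bool) : ℝ := if b then 1 else -1

variable {v : (Circ → ℂ × ℝ) → ℝ}

lemma V_PI (hv : IsInv v) {p : Circ → ℂ} (hp : IsRegular p) : PI p (V v p) :=
  fun _ _ h => V_congr hv hp h

/-- fourth differences vanish -/
lemma fourth (hv : IsInv v) {p : Circ → ℂ} (hp : IsRegular p) {x₀ x₁ x₂ x₃ : Circ × Circ}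
    (h0 : IsCr p x₀) (h1 : IsCr p x₁) (h2 : IsCr p x₂) (h3 : IsCr p x₃)
    (h01 : Sep x₀ x₁) (h02 : Sep x₀ x₂) (h03 : Sep x₀ x₃) (h12 : Sep x₁ x₂) (h13 : Sep x₁ x₃)
    (h23 : Sep x₂ x₃) {y : Circ → ℝ} (hy : Valid p y) :
    D (D (D (D (V v p) x₀) x₁) x₂) x₃ y = 0 := by
  let Y : Bool → Bool → Bool → Bool → Circ → ℝ := fun a b c d =>
    up (up (up (up y x₃ (sg d)) x₂ (sg c)) x₁ (sg b)) x₀ (sg a)
  have hsg : ∀ b, sg b ≠ 0 := by intro b; cases b <;> simp [sg]
  have key := hv.degree p ![x₀.1, x₁.1, x₂.1, x₃.1] ![x₀.2, x₁.2, x₂.2, x₃.2]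
    (fun S => real p (Y (S 0) (S 1) (S 2) (S 3))) hp (fun S => (real_spec hp _).1)
  have hY : ∀ a b c d, ∀ r ∈ feet p, real p (Y a b c d) r = Y a b c d r := fun a b c d =>
    (real_spec hp _).2
  -- values of Y
  have hx0 : ∀ a b c d, Y a b c d x₀.1 = y x₀.2 + sg a ∧ Y a b c d x₀.2 = y x₀.2 := by
    intro a b c d
    simp only [Y]
    rw [up_fst, up_ne _ _ _ h0.1.symm, up_ne _ _ _ h01.h21, up_ne _ _ _ h02.h21,
      up_ne _ _ _ h03.h21]
    exact ⟨rfl, rfl⟩
  have hx1 : ∀ a b c d, Y a b c d x₁.1 = y x₁.2 + sg b ∧ Y a b c d x₁.2 = y x₁.2 := by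
    intro a b c d
    simp only [Y]
    rw [up_ne _ _ _ h01.h11.symm, up_fst, up_ne _ _ _ h01.h12.symm, up_ne _ _ _ h1.1.symm,
      up_ne _ _ _ h12.h21, up_ne _ _ _ h13.h21]
    exact ⟨rfl, rfl⟩
  have hx2 : ∀ a b c d, Y a b c d x₂.1 = y x₂.2 + sg c ∧ Y a b c d x₂.2 = y x₂.2 := by
    intro a b c d
    simp only [Y]
    rw [up_ne _ _ _ h02.h11.symm, up_ne _ _ _ h12.h11.symm, up_fst, up_ne _ _ _ h02.h12.symm,
      up_ne _ _ _ h12.h12.symm, up_ne _ _ _ h2.1.symm, up_ne _ _ _ h23.h21]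
    exact ⟨rfl, rfl⟩
  have hx3 : ∀ a b c d, Y a b c d x₃.1 = y x₃.2 + sg d ∧ Y a b c d x₃.2 = y x₃.2 := by
    intro a b c d
    simp only [Y]
    rw [up_ne _ _ _ h03.h11.symm, up_ne _ _ _ h13.h11.symm, up_ne _ _ _ h23.h11.symm, up_fst,
      up_ne _ _ _ h03.h12.symm, up_ne _ _ _ h13.h12.symm, up_ne _ _ _ h23.h12.symm,
      up_ne _ _ _ h3.1.symm]
    exact ⟨rfl, rfl⟩
  have hother : ∀ a b c d r, r ≠ x₀.1 → r ≠ x₁.1 → r ≠ x₂.1 → r ≠ x₃.1 → Y a b c d r = y r := by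
    intro a b c d r r0 r1 r2 r3
    simp only [Y]
    rw [up_ne _ _ _ r0, up_ne _ _ _ r1, up_ne _ _ _ r2, up_ne _ _ _ r3]
  have hres := key ?_ ?_ ?_ ?_ ?_
  · -- expand
    have hsum : ∑ S : Fin 4 → Bool, (∏ i, if S i then (1:ℝ) else -1) *
        v (fun r => (p r, real p (Y (S 0) (S 1) (S 2) (S 3)) r)) =
        ∑ S : Fin 4 → Bool, (fun a b c d => sg a * sg b * sg c * sg d * V v p (Y a b c d))
          (S 0) (S 1) (S 2) (S 3) := by
      refine Finset.sum_congr rfl fun S _ => ?_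
      rw [Fin.prod_univ_four]
      rfl
    rw [hsum, sum_fin4 (fun a b c d => sg a * sg b * sg c * sg d * V v p (Y a b c d))] at hres
    simp only [Fintype.sum_bool] at hres
    simp only [D]
    simp only [Y, sg] at hres
    simp only [if_true, Bool.false_eq_true, if_false] at hres
    linarith
  · intro i
    fin_cases i
    · exact h0
    · exact h1
    · exact h2
    · exact h3
  · intro i j hij
    fin_cases i <;> fin_cases j <;> first | exact absurd rfl hij | skip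
    · exact ⟨h01.h11, h01.h12⟩
    · exact ⟨h02.h11, h02.h12⟩
    · exact ⟨h03.h11, h03.h12⟩
    · exact ⟨h01.h11.symm, h01.h21.symm⟩
    · exact ⟨h12.h11, h12.h12⟩
    · exact ⟨h13.h11, h13.h12⟩
    · exact ⟨h02.h11.symm, h02.h21.symm⟩
    · exact ⟨h12.h11.symm, h12.h21.symm⟩
    · exact ⟨h23.h11, h23.h12⟩
    · exact ⟨h03.h11.symm, h03.h21.symm⟩
    · exact ⟨h13.h11.symm, h13.h21.symm⟩
    · exact ⟨h23.h11.symm, h23.h21.symm⟩
  · intro S i hi
    fin_cases i
    · show real p _ x₀.2 < real p _ x₀.1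
      rw [hY _ _ _ _ _ (IsDbl.right_mem h0), hY _ _ _ _ _ (IsDbl.left_mem h0),
        (hx0 _ _ _ _).1, (hx0 _ _ _ _).2]
      have : S 0 = true := hi
      rw [this]; simp [sg]
    · show real p _ x₁.2 < real p _ x₁.1
      rw [hY _ _ _ _ _ (IsDbl.right_mem h1), hY _ _ _ _ _ (IsDbl.left_mem h1),
        (hx1 _ _ _ _).1, (hx1 _ _ _ _).2]
      have : S 1 = true := hi
      rw [this]; simp [sg]
    · show real p _ x₂.2 < real p _ x₂.1
      rw [hY _ _ _ _ _ (IsDbl.right_mem h2), hY _ _ _ _ _ (IsDbl.left_mem h2),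
        (hx2 _ _ _ _).1, (hx2 _ _ _ _).2]
      have : S 2 = true := hi
      rw [this]; simp [sg]
    · show real p _ x₃.2 < real p _ x₃.1
      rw [hY _ _ _ _ _ (IsDbl.right_mem h3), hY _ _ _ _ _ (IsDbl.left_mem h3),
        (hx3 _ _ _ _).1, (hx3 _ _ _ _).2]
      have : S 3 = true := hi
      rw [this]; simp [sg]
  · intro S i hi
    fin_cases i
    · show real p _ x₀.1 < real p _ x₀.2
      rw [hY _ _ _ _ _ (IsDbl.right_mem h0), hY _ _ _ _ _ (IsDbl.left_mem h0),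
        (hx0 _ _ _ _).1, (hx0 _ _ _ _).2]
      have : S 0 = false := hi
      rw [this]; simp [sg]
    · show real p _ x₁.1 < real p _ x₁.2
      rw [hY _ _ _ _ _ (IsDbl.right_mem h1), hY _ _ _ _ _ (IsDbl.left_mem h1),
        (hx1 _ _ _ _).1, (hx1 _ _ _ _).2]
      have : S 1 = false := hi
      rw [this]; simp [sg]
    · show real p _ x₂.1 < real p _ x₂.2
      rw [hY _ _ _ _ _ (IsDbl.right_mem h2), hY _ _ _ _ _ (IsDbl.left_mem h2),
        (hx2 _ _ _ _).1, (hx2 _ _ _ _).2]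
      have : S 2 = false := hi
      rw [this]; simp [sg]
    · show real p _ x₃.1 < real p _ x₃.2
      rw [hY _ _ _ _ _ (IsDbl.right_mem h3), hY _ _ _ _ _ (IsDbl.left_mem h3),
        (hx3 _ _ _ _).1, (hx3 _ _ _ _).2]
      have : S 3 = false := hi
      rw [this]; simp [sg]
  · intro r r' hne heq hr S S'
    have hd : IsDbl p r r' := ⟨hne, heq⟩
    have s0 := hp.sep (x := (r, r')) hd h0 (hr 0).1 (hr 0).2
    have s1 := hp.sep (x := (r, r')) hd h1 (hr 1).1 (hr 1).2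
    have s2 := hp.sep (x := (r, r')) hd h2 (hr 2).1 (hr 2).2
    have s3 := hp.sep (x := (r, r')) hd h3 (hr 3).1 (hr 3).2
    rw [hY _ _ _ _ _ hd.left_mem, hY _ _ _ _ _ hd.right_mem, hY _ _ _ _ _ hd.left_mem,
      hY _ _ _ _ _ hd.right_mem]
    rw [hother _ _ _ _ r s0.h11 s1.h11 s2.h11 s3.h11,
      hother _ _ _ _ r' s0.h21 s1.h21 s2.h21 s3.h21,
      hother _ _ _ _ r s0.h11 s1.h11 s2.h11 s3.h11,
      hother _ _ _ _ r' s0.h21 s1.h21 s2.h21 s3.h21]
    exact hy.samePat r r' hd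

end Pool.Agent.H81
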