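import Pool.Agent.H81.Knots

namespace Pool.Agent.H81

open Set

/-- hypotheses of the fan lemma: heights strictly decreasing on `[a,c]`, lower on `(c,e]`, and
the knot is a straight segment on `[e,a+1]`. -/
structure FanHyp (K : Circ → ℂ × ℝ) (a c e : ℝ) : Prop where
  knot : IsKnot K
  hac : a < c
  hce : c < e
  hea : e < a + 1
  anti : ∀ τ τ' : ℝ, a ≤ τ → τ < τ' → τ' ≤ c → (K τ').2 < (K τ).2
  low : ∀ τ : ℝ, c < τ → τ ≤ e → (K τ).2 < (K c).2
  rise : ∀ τ : ℝ, e ≤ τ → τ ≤ a + 1 → K τ = K e + ((τ - e) / (a + 1 - e)) • (K a - K e)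

namespace FanHyp

variable {K : Circ → ℂ × ℝ} {a c e : ℝ}

lemma kappa_pos (H : FanHyp K a c e) : 0 < (K a).2 - (K e).2 := by
  have h1 := H.anti a c le_rfl H.hac le_rfl
  have h2 := H.low e H.hce le_rfl
  linarith

lemma e_lt (H : FanHyp K a c e) {τ : ℝ} (h1 : a ≤ τ) : (K e).2 < (K τ).2 ∨ c < τ := by
  rcases le_or_gt τ c with h | h
  · left
    have h3 := H.low e H.hce le_rfl
    rcases h.eq_or_lt with rfl | h4
    · exact h3
    · exact h3.trans (H.anti τ c h1 h4 le_rfl)
  · right; exact h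

/-- points on the rising segment -/
lemma rise' (H : FanHyp K a c e) {τ : ℝ} (h1 : e ≤ τ) (h2 : τ ≤ a + 1) :
    (K τ).1 = (K a).1 + ((a + 1 - τ) / (a + 1 - e)) • ((K e).1 - (K a).1) ∧
    (K τ).2 = (K a).2 - ((a + 1 - τ) / (a + 1 - e)) * ((K a).2 - (K e).2) := by
  have h0 : a + 1 - e ≠ 0 := by linarith [H.hea]
  have h3 := H.rise τ h1 h2
  have h4 : (τ - e) / (a + 1 - e) = 1 - (a + 1 - τ) / (a + 1 - e) := by
    field_simp; ring
  rw [h4] at h3
  rw [h3]
  constructor
  · simp only [Prod.fst_add, Prod.smul_fst, Prod.fst_sub, sub_smul, one_smul, smul_sub]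
    ring
  · simp only [Prod.snd_add, Prod.smul_snd, Prod.snd_sub, smul_eq_mul]
    ring

/-- main criterion -/
lemma crit (H : FanHyp K a c e) (f : ℝ → ℂ × ℝ) (hf : PLOn f a c) (ha : f a = K a)
    (hc : f c = K c) (hanti : ∀ τ τ', a ≤ τ → τ < τ' → τ' ≤ c → (f τ').2 < (f τ).2)
    (hs : ∀ τ, a < τ → τ ≤ c → ((K a).2 - (K e).2) • ((f τ).1 - (K a).1) ≠
      ((K a).2 - (f τ).2) • ((K e).1 - (K a).1)) :
    IsKnot (lp a (fun τ => if τ ≤ c then f τ else K τ)) := by
  have hκ := H.kappa_pos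
  have hac := H.hac
  have hce := H.hce
  have hea := H.hea
  have hKa1 : K ((a + 1 : ℝ) : Circ) = K a := by rw [coe_add_one]
  refine ⟨lp_isPL ((PLOn.ite hf (H.knot.1.plOn c (a+1)) hc)) ?_, ?_⟩
  · simp only [H.hac.le, if_true]
    rw [if_neg (by linarith), ha, hKa1]
  · intro s t hst
    by_contra hne
    -- wlog lift a s < lift a t
    wlog hlt : lift a s < lift a t generalizing s t
    · rcases lt_or_eq_of_le (not_lt.1 hlt) with h | h
      · exact this hst.symm (Ne.symm hne) h
      · exact hne (by rw [← coe_lift a s, ← coe_lift a t, h])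
    simp only [lp] at hst
    have hs1 := le_lift a s
    have ht1 := le_lift a t
    have hs2 := lift_lt a s
    have ht2 := lift_lt a t
    set σ := lift a s with hσ
    set τ := lift a t with hτ
    rcases le_or_gt τ c with h1 | h1
    · rw [if_pos h1, if_pos (by linarith)] at hst
      have := hanti σ τ hs1 hlt h1
      rw [hst] at this
      exact lt_irrefl _ this
    · rw [if_neg (not_le.2 h1)] at hst
      rcases le_or_gt σ c with h2 | h2
      · rw [if_pos h2] at hst
        have hfc : (K c).2 ≤ (f σ).2 := by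
          rcases h2.eq_or_lt with h3 | h3
          · rw [h3, hc]
          · rw [← hc]; exact (hanti σ c hs1 h3 le_rfl).le
        rcases le_or_gt τ e with h3 | h3
        · have := H.low τ h1 h3
          rw [← hst] at this
          linarith
        · obtain ⟨e1, e2⟩ := H.rise' h3.le ht2.le
          have hr : 0 < (a + 1 - τ) / (a + 1 - e) := div_pos (by linarith) (by linarith)
          rw [← hst] at e1 e2
          rcases hs1.eq_or_lt with h4 | h4
          · rw [← h4, ha] at e2
            have := mul_pos hr hκ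
            linarith
          · apply hs σ h4 h2
            rw [e1, e2, add_sub_cancel_left, sub_sub_cancel, smul_smul, mul_comm]
      · rw [if_neg (not_le.2 h2)] at hst
        have := H.knot.2 hst
        rw [coe_eq_coe_iff (a := a) ⟨by linarith, hs2⟩ ⟨by linarith, ht2⟩] at this
        exact hlt.ne this

/-- slope from the top vertex -/
noncomputable def slope (K : Circ → ℂ × ℝ) (a t : ℝ) : ℂ :=
  (1 / ((K a).2 - (K t).2)) • ((K t).1 - (K a).1)

lemma slope_spec (H : FanHyp K a c e) {t : ℝ} (h1 : a < t) (h2 : t ≤ c ∨ t = e) :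
    (K t).1 - (K a).1 = ((K a).2 - (K t).2) • slope K a t ∧ 0 < (K a).2 - (K t).2 := by
  have h3 : 0 < (K a).2 - (K t).2 := by
    rcases h2 with h2 | h2
    · linarith [H.anti a t le_rfl h1 h2]
    · rw [h2]; exact H.kappa_pos
  refine ⟨?_, h3⟩
  unfold slope
  rw [smul_smul, mul_one_div, div_self h3.ne', one_smul]

lemma slope_ne (H : FanHyp K a c e) {t : ℝ} (h1 : a < t) (h2 : t ≤ c) :
    slope K a t ≠ slope K a e := by
  intro heq
  have hce := H.hce
  have hea := H.hea
  have hac := H.hac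
  obtain ⟨e1, p1⟩ := H.slope_spec h1 (Or.inl h2)
  obtain ⟨e2, p2⟩ := H.slope_spec (t := e) (by linarith) (Or.inr rfl)
  rw [heq] at e1
  have hlow : (K e).2 < (K t).2 := by
    rcases H.e_lt h1.le with h | h
    · exact h
    · linarith
  -- the point on the rising segment with the same height
  set r := ((K a).2 - (K t).2) / ((K a).2 - (K e).2) with hr
  have hr0 : 0 < r := div_pos p1 p2
  have hr1 : r < 1 := (div_lt_one p2).2 (by linarith)
  have hl : 0 < a + 1 - e := by linarith
  set τ := a + 1 - r * (a + 1 - e) with hτ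
  have hτ1 : e < τ := by nlinarith
  have hτ2 : τ < a + 1 := by nlinarith
  obtain ⟨f1, f2⟩ := H.rise' hτ1.le hτ2.le
  have h5 : (a + 1 - τ) / (a + 1 - e) = r := by rw [hτ]; field_simp; ring
  rw [h5] at f1 f2
  have h6 : K τ = K t := by
    apply Prod.ext
    · rw [f1, e2, smul_smul, hr, div_mul_cancel₀ _ p2.ne', ← e1]; ring
    · rw [f2, hr, div_mul_cancel₀ _ p2.ne']; ring
  have := H.knot.2 h6
  rw [coe_eq_coe_iff (a := a) ⟨by linarith, hτ2⟩ ⟨by linarith, by linarith⟩] at this
  linarith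

/-- the path used for `fan` -/
noncomputable def fanMap (K : Circ → ℂ × ℝ) (a c : ℝ) (τ : ℝ) : ℂ × ℝ :=
  if τ ≤ c then K a + ((τ - a) / (c - a)) • (K c - K a) else K τ

/-- replace `[a,c]` by the straight segment -/
noncomputable def fan (K : Circ → ℂ × ℝ) (a c : ℝ) : Circ → ℂ × ℝ := lp a (fanMap K a c)

lemma fanMap_plOn (hK : IsPL K) {a c b : ℝ} (h : a < c) : PLOn (fanMap K a c) a b := by
  refine PLOn.ite (f := fun τ : ℝ => K a + ((τ - a) / (c - a)) • (K c - K a))
    (g := fun τ : ℝ => K τ) ?_ (hK.plOn c b) ?_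
  · refine (PLOn.affine (K a - (a/(c-a)) • (K c - K a)) ((1/(c-a)) • (K c - K a)) a c).congr ?_
    intro x _
    rw [smul_smul, sub_add_eq_add_sub, add_sub_assoc, ← sub_smul]
    congr 2
    ring
  · rw [div_self (by linarith), one_smul]; abel

lemma fanMap_left (a : ℝ) {c : ℝ} (h : a < c) : fanMap K a c a = K a := by
  unfold fanMap; rw [if_pos h.le]; simp

lemma fanMap_of_ge {c τ : ℝ} (hac : a < c) (h : c ≤ τ) : fanMap K a c τ = K τ := by
  unfold fanMap
  rcases h.eq_or_lt with rfl | h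
  · rw [if_pos le_rfl, div_self (by linarith), one_smul]; abel
  · rw [if_neg (not_le.2 h)]

/-- properties of the fan path relative to the top vertex -/
lemma fanMap_slope (H : FanHyp K a c e) {c' τ : ℝ} (h1 : a < c') (h2 : c' ≤ c) (h3 : a < τ)
    (h4 : τ ≤ c) : ∃ h > 0, (fanMap K a c' τ).2 = (K a).2 - h ∧
      (fanMap K a c' τ).1 - (K a).1 = h • slope K a (max c' τ) := by
  rcases le_or_gt τ c' with h5 | h5
  · obtain ⟨e1, p1⟩ := H.slope_spec h1 (Or.inl h2)
    refine ⟨((τ - a) / (c' - a)) * ((K a).2 - (K c').2), ?_, ?_, ?_⟩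
    · exact mul_pos (div_pos (by linarith) (by linarith)) p1
    · unfold fanMap
      rw [if_pos h5]
      simp only [Prod.snd_add, Prod.smul_snd, Prod.snd_sub, smul_eq_mul]
      ring
    · unfold fanMap
      rw [if_pos h5, max_eq_left h5]
      simp only [Prod.fst_add, Prod.smul_fst, Prod.fst_sub]
      rw [e1, add_sub_cancel_left, smul_smul]
  · obtain ⟨e1, p1⟩ := H.slope_spec h3 (Or.inl h4)
    refine ⟨(K a).2 - (K τ).2, p1, ?_, ?_⟩
    · unfold fanMap; rw [if_neg (not_le.2 h5)]; ring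
    · unfold fanMap; rw [if_neg (not_le.2 h5), max_eq_right h5.le, e1]

lemma fanMap_anti (H : FanHyp K a c e) {c' : ℝ} (h1 : a < c') (h2 : c' ≤ c) (τ τ' : ℝ)
    (h3 : a ≤ τ) (h4 : τ < τ') (h5 : τ' ≤ c) : (fanMap K a c' τ').2 < (fanMap K a c' τ).2 := by
  have key : ∀ x y : ℝ, a ≤ x → x < y → y ≤ c' →
      (fanMap K a c' y).2 < (fanMap K a c' x).2 := by
    intro x y hx hxy hy
    unfold fanMap
    rw [if_pos hy, if_pos (by linarith)]
    simp only [Prod.snd_add, Prod.smul_snd, Prod.snd_sub, smul_eq_mul]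
    have h6 := H.anti a c' le_rfl h1 h2
    have h7 : (x - a) / (c' - a) < (y - a) / (c' - a) :=
      div_lt_div_of_pos_right (by linarith) (by linarith)
    nlinarith
  rcases le_or_gt τ' c' with h6 | h6
  · exact key τ τ' h3 h4 h6
  · rw [fanMap_of_ge h1 h6.le]
    rcases le_or_gt c' τ with h7 | h7
    · rw [fanMap_of_ge h1 h7]
      exact H.anti τ τ' h3 h4 h5
    · have h8 := key τ c' h3 h7 le_rfl
      rw [fanMap_of_ge h1 le_rfl] at h8
      exact (H.anti c' τ' h1.le h6 h5).trans h8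

/-- the straight line isotopy between two fans -/
lemma fan_isotopic (H : FanHyp K a c e) {c₁ c₂ : ℝ} (h1 : a < c₁) (h2 : c₁ ≤ c) (h3 : a < c₂)
    (h4 : c₂ ≤ c) {x₀ : ℂ}
    (hb : ∀ t, min c₁ c₂ ≤ t → t ≤ max c₁ c₂ →
      slope K a t ∈ Metric.ball x₀ (dist (slope K a e) x₀)) :
    LinIsotopic (fan K a c₁) (fan K a c₂) := by
  intro s hs
  have hs0 := hs.1
  have hs1 : 0 ≤ 1 - s := by linarith [hs.2]
  have heq : (fun t => (1 - s) • fan K a c₁ t + s • fan K a c₂ t) =
      lp a (fun τ => if τ ≤ c then (1 - s) • fanMap K a c₁ τ + s • fanMap K a c₂ τ else K τ) := by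
    funext t
    unfold fan lp
    simp only
    split_ifs with h
    · rfl
    · rw [fanMap_of_ge h1 (by linarith), fanMap_of_ge h3 (by linarith), ← add_smul,
        sub_add_cancel, one_smul]
  rw [heq]
  apply H.crit
  · refine (PLOn.congr (f := fun τ => (1 - s) • fanMap K a c₁ τ + s • fanMap K a c₂ τ) ?_
      (fun _ _ => rfl))
    have p1 := fanMap_plOn (b := c) H.knot.1 h1
    have p2 := fanMap_plOn (b := c) H.knot.1 h3
    exact ⟨fun x hx => ((p1.1 x hx).smul _).add ((p2.1 x hx).smul _),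
      fun x hx => ((p1.2 x hx).smul _).add ((p2.2 x hx).smul _)⟩
  · rw [fanMap_left a h1, fanMap_left a h3, ← add_smul, sub_add_cancel, one_smul]
  · rw [fanMap_of_ge h1 h2, fanMap_of_ge h3 h4, ← add_smul, sub_add_cancel, one_smul]
  · intro τ τ' ha hlt hc
    simp only [Prod.snd_add, Prod.smul_snd, smul_eq_mul]
    have e1 := H.fanMap_anti h1 h2 τ τ' ha hlt hc
    have e2 := H.fanMap_anti h3 h4 τ τ' ha hlt hc
    rcases hs0.eq_or_lt with h | h
    · rw [← h]; linarith
    · nlinarith [mul_nonneg hs1 (sub_pos.2 e1).le, mul_pos h (sub_pos.2 e2)]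
  · intro τ ha hc
    obtain ⟨k₁, hk₁, a1, b1⟩ := H.fanMap_slope h1 h2 ha hc
    obtain ⟨k₂, hk₂, a2, b2⟩ := H.fanMap_slope h3 h4 ha hc
    have hk : 0 < (1 - s) * k₁ + s * k₂ := by
      rcases hs0.eq_or_lt with h | h
      · rw [← h]; linarith
      · nlinarith [mul_nonneg hs1 hk₁.le, mul_pos h hk₂]
    set k := (1 - s) * k₁ + s * k₂ with hkdef
    have hsec : (K a).2 - ((1 - s) • fanMap K a c₁ τ + s • fanMap K a c₂ τ).2 = k := by
      simp only [Prod.snd_add, Prod.smul_snd, smul_eq_mul, a1, a2]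
      rw [hkdef]; ring
    have hfst : ((1 - s) • fanMap K a c₁ τ + s • fanMap K a c₂ τ).1 - (K a).1 =
        ((1 - s) * k₁) • slope K a (max c₁ τ) + (s * k₂) • slope K a (max c₂ τ) := by
      have : ((1 - s) • fanMap K a c₁ τ + s • fanMap K a c₂ τ).1 - (K a).1 =
        (1 - s) • ((fanMap K a c₁ τ).1 - (K a).1) + s • ((fanMap K a c₂ τ).1 - (K a).1) := by
        simp only [Prod.fst_add, Prod.smul_fst]
        rw [smul_sub, smul_sub, sub_smul, one_smul, sub_smul, one_smul]
        ring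
      rw [this, b1, b2, smul_smul, smul_smul]
    rw [hsec, hfst]
    obtain ⟨e2, p2⟩ := H.slope_spec (t := e) (by linarith [H.hac, H.hce]) (Or.inr rfl)
    rw [e2]
    intro hcon
    rw [smul_comm k] at hcon
    have hcon2 : ((1 - s) * k₁) • slope K a (max c₁ τ) + (s * k₂) • slope K a (max c₂ τ) =
      k • slope K a e := smul_right_injective ℂ p2.ne' hcon
    rcases le_or_gt τ (max c₁ c₂) with h | h
    · have m1 : slope K a (max c₁ τ) ∈ Metric.ball x₀ (dist (slope K a e) x₀) :=
        hb _ ((min_le_left _ _).trans (le_max_left _ _)) (max_le (le_max_left _ _) h)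
      have m2 : slope K a (max c₂ τ) ∈ Metric.ball x₀ (dist (slope K a e) x₀) :=
        hb _ ((min_le_right _ _).trans (le_max_left _ _)) (max_le (le_max_right _ _) h)
      have m3 := (convex_ball x₀ (dist (slope K a e) x₀)) m1 m2
        (a := ((1 - s) * k₁) / k) (b := (s * k₂) / k) (by positivity) (by positivity)
        (by rw [← add_div, div_self hk.ne'])
      have m4 : ((1 - s) * k₁ / k) • slope K a (max c₁ τ) + (s * k₂ / k) • slope K a (max c₂ τ) =
          slope K a e := by
        have : slope K a e = (1/k) • (k • slope K a e) := by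
          rw [smul_smul, one_div, inv_mul_cancel₀ hk.ne', one_smul]
        rw [this, ← hcon2, smul_add, smul_smul, smul_smul]
        congr 2 <;> ring
      rw [m4, Metric.mem_ball] at m3
      exact lt_irrefl _ m3
    · have g1 : max c₁ τ = τ := max_eq_right ((le_max_left _ _).trans h.le)
      have g2 : max c₂ τ = τ := max_eq_right ((le_max_right _ _).trans h.le)
      rw [g1, g2, ← add_smul, ← hkdef] at hcon2
      exact H.slope_ne ha hc (smul_right_injective ℂ hk.ne' hcon2)

variable {v : (Circ → ℂ × ℝ) → ℝ}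

lemma slope_cont (H : FanHyp K a c e) {t₀ : ℝ} (h1 : a < t₀) (h2 : t₀ ≤ c) :
    ContinuousAt (fun t => slope K a t) t₀ := by
  have hc := H.knot.1.continuous_coe
  have hc1 : Continuous (fun t : ℝ => (K t).1) := continuous_fst.comp hc
  have hc2 : Continuous (fun t : ℝ => (K t).2) := continuous_snd.comp hc
  obtain ⟨e1, p1⟩ := H.slope_spec h1 (Or.inl h2)
  unfold slope
  have a1 : ContinuousAt (fun t : ℝ => 1 / ((K a).2 - (K t).2)) t₀ :=
    (continuousAt_const).div (continuousAt_const.sub hc2.continuousAt) p1.ne'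
  have a2 : ContinuousAt (fun t : ℝ => (K t).1 - (K a).1) t₀ :=
    hc1.continuousAt.sub continuousAt_const
  exact a1.smul a2

lemma local_const (H : FanHyp K a c e) (hv : IsInv v) {t₀ : ℝ} (h1 : a < t₀) (h2 : t₀ ≤ c) :
    ∃ η > 0, ∀ t, a < t → t ≤ c → |t - t₀| < η → v (fan K a t) = v (fan K a t₀) := by
  have hpos : 0 < dist (slope K a e) (slope K a t₀) := dist_pos.2 (H.slope_ne h1 h2).symm
  have hc := H.slope_cont h1 h2
  rw [Metric.continuousAt_iff] at hc
  obtain ⟨η, hη, h⟩ := hc _ hpos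
  refine ⟨η, hη, fun t ht1 ht2 ht3 => ?_⟩
  apply hv.isotopy
  refine H.fan_isotopic ht1 ht2 h1 h2 (x₀ := slope K a t₀) fun x hx1 hx2 => ?_
  rw [Metric.mem_ball]
  apply h
  rw [Real.dist_eq]
  refine lt_of_le_of_lt ?_ ht3
  rcases le_total t t₀ with h3 | h3
  · rw [min_eq_left h3] at hx1; rw [max_eq_right h3] at hx2
    rw [abs_of_nonpos (by linarith), abs_of_nonpos (by linarith)]; linarith
  · rw [min_eq_right h3] at hx1; rw [max_eq_left h3] at hx2
    rw [abs_of_nonneg (by linarith), abs_of_nonneg (by linarith)]; linarith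

/-- **Fan lemma**. -/
theorem fan_eq (H : FanHyp K a c e) (hv : IsInv v) : v K = v (fan K a c) := by
  -- start : K is affine near a
  obtain ⟨δ, hδ, u, hu⟩ := (H.knot.1 a).1
  have hac := H.hac
  have hce := H.hce
  have hea := H.hea
  set c₀ := min (a + δ) c with hc₀
  have hc₀a : a < c₀ := lt_min (by linarith) hac
  have hc₀c : c₀ ≤ c := min_le_right _ _
  have hstart : fan K a c₀ = K := by
    rw [← lp_eta a K]
    unfold fan
    funext t
    unfold lp
    have ht1 := le_lift a t
    rcases le_or_gt (lift a t) c₀ with h | h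
    · unfold fanMap
      rw [if_pos h]
      simp only [lift_coe (a := a) (τ := a) ⟨le_rfl, by linarith⟩,
        lift_coe (a := a) (τ := c₀) ⟨hc₀a.le, by linarith⟩]
      have h2 := hu (lift a t - a) ⟨by linarith, by linarith [min_le_left (a + δ) c]⟩
      have h3 := hu (c₀ - a) ⟨by linarith, by linarith [min_le_left (a + δ) c]⟩
      rw [add_sub_cancel] at h2 h3
      simp only at h2 h3
      rw [h2, h3, add_sub_cancel_left, smul_smul, div_mul_cancel₀ _ (by linarith)]
    · rw [fanMap_of_ge hc₀a h.le]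
      simp only [coe_lift]
  -- constancy on [c₀, c]
  have hconst : ∀ x ∈ Icc c₀ c, v (fan K a x) = v (fan K a c₀) := by
    have hloc : ∀ x ∈ Icc c₀ c, ∃ η > 0, ∀ t ∈ Icc c₀ c, |t - x| < η →
        v (fan K a t) = v (fan K a x) := by
      intro x hx
      obtain ⟨η, hη, h⟩ := H.local_const hv (lt_of_lt_of_le hc₀a hx.1) hx.2
      exact ⟨η, hη, fun t ht => h t (lt_of_lt_of_le hc₀a ht.1) ht.2⟩
    have hpre : IsPreconnected (Icc c₀ c) := isPreconnected_Icc
    by_contra hcon
    push Not at hcon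
    obtain ⟨x, hx, hxne⟩ := hcon
    -- closed-open argument through a locally constant function
    have hcont : ContinuousOn (fun x => if v (fan K a x) = v (fan K a c₀) then (0:ℝ) else 1)
        (Icc c₀ c) := by
      intro y hy
      obtain ⟨η, hη, h⟩ := hloc y hy
      have : (fun x => if v (fan K a x) = v (fan K a c₀) then (0:ℝ) else 1) =ᶠ[nhdsWithin y (Icc c₀ c)]
          (fun _ => if v (fan K a y) = v (fan K a c₀) then (0:ℝ) else 1) := by
        have hm : Metric.ball y η ∩ Icc c₀ c ∈ nhdsWithin y (Icc c₀ c) :=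
          Filter.inter_mem (mem_nhdsWithin_of_mem_nhds (Metric.ball_mem_nhds y hη))
            self_mem_nhdsWithin
        filter_upwards [hm] with t ht
        rw [h t ht.2 (by simpa [Real.dist_eq] using ht.1)]
      exact (continuousWithinAt_const).congr_of_eventuallyEq this (by simp)
    have himg := hpre.image _ hcont
    have h0 : (0:ℝ) ∈ (fun x => if v (fan K a x) = v (fan K a c₀) then (0:ℝ) else 1) '' Icc c₀ c :=
      ⟨c₀, ⟨le_rfl, hc₀c⟩, by simp⟩
    have h1 : (1:ℝ) ∈ (fun x => if v (fan K a x) = v (fan K a c₀) then (0:ℝ) else 1) '' Icc c₀ c :=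
      ⟨x, hx, by simp [hxne]⟩
    have h2 := himg.ordConnected.out h0 h1 (⟨by norm_num, by norm_num⟩ : (1/2:ℝ) ∈ Icc (0:ℝ) 1)
    obtain ⟨y, _, hy⟩ := h2
    simp only at hy
    split_ifs at hy <;> norm_num at hy
  rw [hconst c ⟨hc₀c, le_rfl⟩, hstart]

end FanHyp

end Pool.Agent.H81
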