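import Pool.Agent.H81.Assembly

namespace Pool.Agent.H81

open Set

variable {v : (Circ → ℂ × ℝ) → ℝ} {p : Circ → ℂ}

lemma Idx.lt (hp : IsRegular p) (i : Idx p) : lift 0 i.1 < lift 0 (ptn p i.1) :=
  ((mem_FF hp).1 i.2).2

lemma Idx.lt1 (i : Idx p) : lift 0 (ptn p i.1) < lift 0 i.1 + 1 := by
  linarith [lift_lt 0 (ptn p i.1), le_lift 0 i.1]

lemma Idx.cr_eq (i : Idx p) :
    cr p i.1 = ((lift 0 i.1 : Circ), (lift 0 (ptn p i.1) : Circ)) := by
  unfold cr
  rw [coe_lift, coe_lift]

lemma Idx.peq (hp : IsRegular p) (i : Idx p) :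
    p (lift 0 i.1 : Circ) = p (lift 0 (ptn p i.1) : Circ) := by
  rw [coe_lift, coe_lift]; exact (i.isCr hp).2

open Classical in
lemma hypM (hv : IsInv v) (hC : Vals v) (hp : IsRegular p) : Comb.Hyp (adjM p) (etaM p) := by
  refine ⟨?_, ?_, ?_, ?_, ?_, ?_⟩
  · intro i j
    unfold adjM
    split_ifs
    · exact Or.inr rfl
    · exact Or.inl rfl
  · intro i j
    unfold adjM
    rw [Lk_comm]
  · intro i
    unfold adjM
    rw [if_neg (not_Lk_self _)]
  · intro i j
    exact sgz_or _ _
  · intro i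
    have key := pl1 hv hC hp (i.lt hp) i.lt1 (i.peq hp) 0
    rw [← i.cr_eq, ← Finset.sum_coe_sort] at key
    have : ((∑ j, adjM p i j * etaM p i j : ℤ) : ℝ) = 0 := by
      refine Eq.trans ?_ key
      push_cast
      refine Finset.sum_congr rfl fun j _ => ?_
      unfold adjM etaM
      rw [sgz_cast, Lk_comm]
      split_ifs <;> simp
    exact_mod_cast this
  · intro i j hij hA
    have hnl : ¬ Lk (cr p i.1) (cr p j.1) := by
      unfold adjM at hA
      intro h
      rw [if_pos h] at hA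
      norm_num at hA
    have hs := Idx.sep hp hij
    have key := pl2 hv hC hp (i.lt hp) i.lt1 (i.peq hp) (j.isCr hp)
      (by rw [← i.cr_eq]; exact hs) (by rw [← i.cr_eq]; exact hnl) 0
    rw [← i.cr_eq, ← Finset.sum_coe_sort] at key
    have : ((∑ k, adjM p i k * adjM p j k * etaM p i k : ℤ) : ℝ) = 0 := by
      refine Eq.trans ?_ key
      push_cast
      refine Finset.sum_congr rfl fun k _ => ?_
      unfold adjM etaM
      rw [sgz_cast, Lk_comm (cr p i.1), Lk_comm (cr p j.1)]
      by_cases h1 : Lk (cr p k.1) (cr p i.1) <;> by_cases h2 : Lk (cr p k.1) (cr p j.1) <;>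
        simp [h1, h2]
    exact_mod_cast this

/-- a descending pattern -/
lemma desc_pat (hv : IsInv v) (hp : IsRegular p) (τ : ℝ) (ε : Idx p → ℤ)
    (h : ∀ a : Idx p, (lift τ a.1 < lift τ (ptn p a.1) → 0 < pat p ε a.1) ∧
      (lift τ (ptn p a.1) < lift τ a.1 → pat p ε a.1 < 0)) : V v p (pat p ε) = 0 := by
  refine descend_zero hv hp (a := τ) fun s t hst hlt => ?_
  rcases dbl_idx hp hst with ⟨i, rfl, rfl⟩ | ⟨i, rfl, rfl⟩
  · rw [pat_ptn hp]; exact (h i).1 hlt
  · rw [pat_ptn hp]; exact (h i).2 hlt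

/-- the signs for the base `τ` -/
noncomputable def epsB (p : Circ → ℂ) (τ : ℝ) (a : Idx p) : ℤ := sgz p (cr p (ff p τ a.1))

lemma pat_epsB (hp : IsRegular p) (τ : ℝ) (ε : Idx p → ℤ) (a : Idx p)
    (h : ε a = epsB p τ a) : (lift τ a.1 < lift τ (ptn p a.1) → 0 < pat p ε a.1) ∧
      (lift τ (ptn p a.1) < lift τ a.1 → pat p ε a.1 < 0) := by
  have hsq := sgc_sq p (cr p a.1)
  constructor
  · intro hlt
    rw [pat_mem, h]
    unfold epsB
    rw [sgz_cast, ff_pos hlt, hsq]
    norm_num
  · intro hlt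
    rw [pat_mem, h]
    unfold epsB
    rw [sgz_cast, ff_neg (not_lt.2 hlt.le), cr_ptn hp (a.feet hp), sgc_swap hp (a.isCr hp)]
    linarith

open Classical in
lemma first (hv : IsInv v) (hp : IsRegular p) (i : Idx p) :
    Comb.dl (fun ε => V v p (pat p ε)) i (etaM p i) = 0 := by
  set s := lift 0 i.1 with hs
  have hci : (s : Circ) = i.1 := coe_lift 0 i.1
  have hls : lift s i.1 = s := by rw [← hci]; exact lift_coe ⟨le_rfl, by linarith⟩
  -- the two base points
  obtain ⟨δ, hδ, hgap⟩ := feet_gap hp.fin s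
  obtain ⟨η, hη0, hη1, hη2⟩ : ∃ η > 0, η < δ ∧ η < 1 :=
    ⟨min (δ/2) (1/2), lt_min (by linarith) (by norm_num),
      (min_le_left _ _).trans_lt (by linarith), (min_le_right _ _).trans_lt (by norm_num)⟩
  have hlift : ∀ θ ∈ feet p, θ ≠ i.1 → lift (s + η) θ = lift s θ := by
    intro θ hθ hne
    have h1 := le_lift s θ
    have h2 := lift_lt s θ
    have h3 : s ≠ lift s θ := fun h => hne (by rw [← coe_lift s θ, ← h, hci])
    refine lift_eq_of (coe_lift s θ) ?_ (by linarith)
    by_contra hcon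
    have h4 : 0 < lift s θ - s := by
      have := lt_of_le_of_ne h1 h3; linarith
    have := hgap (lift s θ - s) (by rw [abs_of_pos h4]; exact h4)
      (by rw [abs_of_pos h4]; linarith)
    rw [add_sub_cancel, coe_lift] at this
    exact this hθ
  have hlift' : lift (s + η) i.1 = s + 1 := by
    rw [← hci]; exact lift_eq_of (coe_add_one s) (by linarith) (by linarith)
  have hpt : lift s (ptn p i.1) < s + 1 := lift_lt _ _
  have hpt' : s < lift s (ptn p i.1) := by
    refine lt_of_le_of_ne (le_lift _ _) fun h => (i.isCr hp).1 ?_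
    show i.1 = ptn p i.1
    rw [← coe_lift s (ptn p i.1), ← h, hci]
  have zero : ∀ x : ℤ, x = 1 ∨ x = -1 →
      V v p (pat p (Function.update (etaM p i) i x)) = 0 := by
    intro x hx
    have hval : pat p (Function.update (etaM p i) i x) i.1 = sgc p (cr p i.1) * x := by
      rw [pat_mem, Function.update_self]
    have hcase : sgc p (cr p i.1) * (x:ℝ) = 1 ∨ sgc p (cr p i.1) * (x:ℝ) = -1 := by
      rcases sgc_or p (cr p i.1) with h | h <;> rcases hx with h' | h' <;> rw [h, h'] <;>
        norm_num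
    rcases hcase with hc | hc
    · -- base `s`
      refine desc_pat hv hp s _ fun a => ?_
      by_cases hai : a = i
      · subst hai
        rw [hval, hc]
        exact ⟨fun _ => by norm_num, fun h => by rw [hls] at h; linarith⟩
      · refine pat_epsB hp s _ a ?_
        rw [Function.update_of_ne hai]; rfl
    · -- base `s + η`
      refine desc_pat hv hp (s + η) _ fun a => ?_
      by_cases hai : a = i
      · subst hai
        rw [hval, hc]
        have h5 : ptn p a.1 ≠ a.1 := (a.isCr hp).1.symm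
        rw [hlift', hlift _ (ptn_mem (a.feet hp)) h5]
        exact ⟨fun h => by linarith, fun _ => by norm_num⟩
      · have h5 : a.1 ≠ i.1 := fun h => hai (Subtype.ext h)
        have h6 : ptn p a.1 ≠ i.1 := fun h => a.ptn_not hp (h ▸ i.2)
        rw [hlift _ (a.feet hp) h5, hlift _ (ptn_mem (a.feet hp)) h6]
        refine pat_epsB hp s _ a ?_
        rw [Function.update_of_ne hai]; rfl
  unfold Comb.dl
  beta_reduce
  rw [zero 1 (Or.inl rfl), zero (-1) (Or.inr rfl), sub_self]

/-- **The bound for a regular projection**. -/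
theorem V_bound (hv : IsInv v) (hC : Vals v) (hp : IsRegular p) {y : Circ → ℝ}
    (hy : Valid p y) : ∃ m : ℤ, V v p y = m ∧
      24 * |m| ≤ ((FF p 0).card : ℤ) * (((FF p 0).card : ℤ)^2 - 1) := by
  classical
  have odd : ∀ ε : Idx p → ℤ, Comb.IsS ε → V v p (pat p (-ε)) = - V v p (pat p ε) := by
    intro ε hε
    rw [pat_neg, V_neg hv hp (pat_valid hp hε)]
  have h0 : V v p (pat p (epsB p 0)) = 0 :=
    desc_pat hv hp 0 _ fun a => pat_epsB hp 0 _ a rfl
  have key := Comb.main (hypM hv hC hp) (g := fun ε => V v p (pat p ε)) odd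
    (fun i j k ε hε hij hik hjk => third hv hC hp i j k hij hik hjk hε)
    (fun i => first hv hp i) (ε₀ := epsB p 0) (fun a => sgz_or _ _) h0
  have hcard : Fintype.card (Idx p) = (FF p 0).card := Fintype.card_coe _
  rw [hcard] at key
  set ε : Idx p → ℤ := fun a => if 0 < (y a.1 - y (ptn p a.1)) then sgz p (cr p a.1) else
    - sgz p (cr p a.1) with hε
  have hS : Comb.IsS ε := by
    intro a
    simp only [hε]
    rcases sgz_or p (cr p a.1) with h | h <;> rw [h] <;> split_ifs <;> norm_num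
  obtain ⟨m, h1, h2⟩ := key ε hS
  refine ⟨m, ?_, h2⟩
  rw [← h1]
  refine V_congr hv hp ?_
  have main : ∀ a : Idx p, 0 < (y a.1 - y (ptn p a.1)) * (pat p ε a.1) := by
    intro a
    have hne : y a.1 - y (ptn p a.1) ≠ 0 := sub_ne_zero.2 (hy _ _ (a.isCr hp))
    have hsq := sgc_sq p (cr p a.1)
    rw [pat_mem]
    simp only [hε]
    rcases lt_or_gt_of_ne hne with h | h
    · rw [if_neg (not_lt.2 h.le)]
      push_cast
      rw [sgz_cast]
      nlinarith
    · rw [if_pos h, sgz_cast]
      nlinarith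
  intro s t hst
  rcases dbl_idx hp hst with ⟨i, rfl, rfl⟩ | ⟨i, rfl, rfl⟩
  · rw [pat_ptn hp]
    have := main i
    nlinarith
  · rw [pat_ptn hp]
    have := main i
    nlinarith

end Pool.Agent.H81
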