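import Pool.Agent.H81.Loop2

namespace Pool.Agent.H81

open Set

lemma pieces {f : ℝ → ℂ} (hf : IsPLR f) (b c : ℝ) :
    ∃ (L : Set (ℂ × ℂ)) (W : Set ℝ), L.Finite ∧ W.Finite ∧
      ∀ τ ∈ Icc b c, τ ∈ W ∨ ∃ l ∈ L, ∃ δ > 0, ∀ x, |x - τ| < δ → f x = l.1 + x • l.2 := by
  classical
  have h1 : ∀ x : ℝ, ∃ δ > 0, ∃ u w : ℂ, (∀ y, x ≤ y → y < x + δ → f y = (f x - x • u) + y • u) ∧
      (∀ y, y ≤ x → x - δ < y → f y = (f x - x • w) + y • w) := by
    intro x
    obtain ⟨⟨δ, hδ, u, hu⟩, ⟨δ', hδ', w, hw⟩⟩ := hf x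
    refine ⟨min δ δ', lt_min hδ hδ', u, w, fun y k1 k2 => ?_, fun y k1 k2 => ?_⟩
    · have := hu (y - x) ⟨by linarith, by linarith [min_le_left δ δ']⟩
      rw [add_sub_cancel] at this
      rw [this, sub_smul]; ring
    · have := hw (x - y) ⟨by linarith, by linarith [min_le_right δ δ']⟩
      rw [sub_sub_cancel] at this
      rw [this, sub_smul]; ring
  choose δ hδ u w hu hw using h1
  obtain ⟨t, _, ht⟩ := (isCompact_Icc (a := b) (b := c)).elim_nhds_subcover
    (fun x => Metric.ball x (δ x)) (fun x _ => Metric.ball_mem_nhds x (hδ x))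
  refine ⟨(fun x => (f x - x • u x, u x)) '' (t : Set ℝ) ∪
    (fun x => (f x - x • w x, w x)) '' (t : Set ℝ), t, ?_, t.finite_toSet, ?_⟩
  · exact (t.finite_toSet.image _).union (t.finite_toSet.image _)
  · intro τ hτ
    have := ht hτ
    simp only [mem_iUnion, Metric.mem_ball, Real.dist_eq, exists_prop] at this
    obtain ⟨x, hx, hxτ⟩ := this
    rcases lt_trichotomy τ x with h | h | h
    · right
      refine ⟨_, Or.inr ⟨x, hx, rfl⟩, min (x - τ) (τ - (x - δ x)), ?_, fun y hy => ?_⟩
      · rw [abs_of_neg (by linarith)] at hxτ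
        exact lt_min (by linarith) (by linarith)
      · have k1 := hy.trans_le (min_le_left _ _)
        have k2 := hy.trans_le (min_le_right _ _)
        rw [abs_lt] at k1 k2
        exact hw x y (by linarith) (by linarith)
    · left; rw [h]; exact hx
    · right
      refine ⟨_, Or.inl ⟨x, hx, rfl⟩, min (τ - x) (x + δ x - τ), ?_, fun y hy => ?_⟩
      · rw [abs_of_pos (by linarith)] at hxτ
        exact lt_min (by linarith) (by linarith)
      · have k1 := hy.trans_le (min_le_left _ _)
        have k2 := hy.trans_le (min_le_right _ _)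
        rw [abs_lt] at k1 k2
        exact hu x y (by linarith) (by linarith)

lemma vel_ne_zero {p : Circ → ℂ} (hp : IsRegular p) {θ : Circ} {u : ℂ} (h : Vel p θ u) :
    u ≠ 0 := by
  rintro rfl
  obtain ⟨δ, hδ, h⟩ := h
  have hm : 0 < min δ (1/2) := lt_min hδ (by norm_num)
  set a := lift 0 θ with ha
  have hinf : (Ioo (0:ℝ) (min δ (1/2))).Infinite := Ioo_infinite hm
  refine hinf (Set.Finite.of_finite_image (hp.fin.subset ?_) (f := fun x : ℝ => ((a + x : ℝ) : Circ)) ?_)
  · rintro _ ⟨x, hx, rfl⟩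
    have e : ((a + x : ℝ) : Circ) = θ + (x : Circ) := by
      rw [AddCircle.coe_add, ha, coe_lift]
    refine ⟨θ, ?_, ?_⟩
    · intro heq
      rw [← coe_lift 0 θ, ← ha] at heq
      simp only at heq
      rw [coe_eq_coe_iff (a := a) ⟨le_rfl, by linarith⟩
        ⟨by linarith [hx.1], by linarith [hx.2, min_le_right δ (1/2)]⟩] at heq
      linarith [hx.1]
    · simp only
      rw [e, h x (by rw [abs_of_pos hx.1]; exact hx.2.trans_le (min_le_left _ _)), smul_zero,
        add_zero]
  · intro x hx y hy hxy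
    simp only at hxy
    rw [coe_eq_coe_iff (a := a) ⟨by linarith [hx.1], by linarith [hx.2, min_le_right δ (1/2)]⟩
      ⟨by linarith [hy.1], by linarith [hy.2, min_le_right δ (1/2)]⟩] at hxy
    linarith

/-- points on a parabola -/
def MM (x : ℝ) : ℂ := ⟨x, x ^ 2⟩

lemma line_finite (A d : ℂ) (hd : d ≠ 0) : {x : ℝ | det (MM x - A) d = 0}.Finite := by
  let P : Polynomial ℝ := Polynomial.C (-d.re) * Polynomial.X ^ 2 + Polynomial.C d.im * Polynomial.X
    + Polynomial.C (A.im * d.re - A.re * d.im)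
  have hP : P ≠ 0 := by
    intro h0
    apply hd
    have h1 : P.coeff 2 = -d.re := by
      simp [P]
    have h2 : P.coeff 1 = d.im := by
      simp [P, Polynomial.coeff_C, Polynomial.coeff_X_pow]
    rw [h0, Polynomial.coeff_zero] at h1 h2
    apply Complex.ext
    · show d.re = 0
      linarith
    · show d.im = 0
      linarith
  refine (Polynomial.finite_setOfPred_isRoot hP).subset ?_
  intro x hx
  simp only [mem_ofPred_eq] at hx ⊢
  rw [Polynomial.IsRoot.def]
  simp only [P, Polynomial.eval_add, Polynomial.eval_mul, Polynomial.eval_C, Polynomial.eval_pow,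
    Polynomial.eval_X]
  unfold det MM at hx
  simp only [Complex.sub_re, Complex.sub_im] at hx
  linarith

/-- two-segment path -/
noncomputable def two (a b : ℝ) (P M Q : ℂ) (τ : ℝ) : ℂ :=
  if τ ≤ (a + b) / 2 then P + ((τ - a) * (2 / (b - a))) • (M - P)
  else Q + ((b - τ) * (2 / (b - a))) • (M - Q)

lemma det_self (u : ℂ) : det u u = 0 := by unfold det; ring

lemma det_smul_right (u w : ℂ) (k : ℝ) : det u (k • w) = k * det u w := by
  unfold det; simp only [Complex.smul_re, Complex.smul_im, smul_eq_mul]; ring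

lemma det_smul_left (u w : ℂ) (k : ℝ) : det (k • u) w = k * det u w := by
  unfold det; simp only [Complex.smul_re, Complex.smul_im, smul_eq_mul]; ring

lemma det_add_right (u w w' : ℂ) : det u (w + w') = det u w + det u w' := by
  unfold det; simp only [Complex.add_re, Complex.add_im]; ring

lemma det_add_left (u u' w : ℂ) : det (u + u') w = det u w + det u' w := by
  unfold det; simp only [Complex.add_re, Complex.add_im]; ring

section two
variable {a b : ℝ} {P M Q : ℂ}

lemma two1 {τ : ℝ} (h : τ ≤ (a + b) / 2) :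
    two a b P M Q τ = P + ((τ - a) * (2 / (b - a))) • (M - P) := if_pos h

lemma two2 (hab : a < b) {τ : ℝ} (h : (a + b) / 2 ≤ τ) :
    two a b P M Q τ = Q + ((b - τ) * (2 / (b - a))) • (M - Q) := by
  rcases h.eq_or_lt with rfl | h
  · rw [two1 le_rfl]
    have e1 : ((a + b) / 2 - a) * (2 / (b - a)) = 1 := by
      have : b - a ≠ 0 := by linarith
      field_simp; ring
    have e2 : (b - (a + b) / 2) * (2 / (b - a)) = 1 := by
      have : b - a ≠ 0 := by linarith
      field_simp; ring
    rw [e1, e2, one_smul, one_smul]; ring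
  · exact if_neg (not_le.2 h)

lemma two_inj (hab : a < b) (h : det (M - P) (Q - P) ≠ 0) {σ τ : ℝ} (h2 : σ < τ) :
    two a b P M Q σ ≠ two a b P M Q τ := by
  intro e
  have hk : 0 < 2 / (b - a) := by apply div_pos <;> linarith
  have hMP : M - P ≠ 0 := by
    intro h0; apply h; rw [h0]; unfold det; simp
  have hMQ : M - Q ≠ 0 := by
    intro h0; apply h
    have : M = Q := by linear_combination h0
    rw [this]; exact det_self _
  rcases le_or_gt τ ((a + b) / 2) with k | k
  · rw [two1 (by linarith), two1 k] at e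
    have e2 := add_left_cancel e
    have e3 := smul_left_injective ℝ hMP e2
    have := mul_right_cancel₀ hk.ne' e3
    linarith
  · rcases le_or_gt ((a + b) / 2) σ with k' | k'
    · rw [two2 hab k', two2 hab k.le] at e
      have e2 := add_left_cancel e
      have e3 := smul_left_injective ℝ hMQ e2
      have := mul_right_cancel₀ hk.ne' e3
      linarith
    · rw [two1 k'.le, two2 hab k.le] at e
      set l := (σ - a) * (2 / (b - a))
      set m := (b - τ) * (2 / (b - a)) with hm
      have hm1 : m < 1 := by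
        have : (b - τ) < (b - a) / 2 := by linarith
        have h3 := mul_lt_mul_of_pos_right this hk
        have h4 : (b - a) / 2 * (2 / (b - a)) = 1 := by
          have : b - a ≠ 0 := by linarith
          field_simp
        rw [h4] at h3; exact h3
      have e2 : (l - m) • (M - P) = (1 - m) • (Q - P) := by
        simp only [sub_smul, one_smul, smul_sub] at e ⊢
        linear_combination e
      have e3 : det (M - P) ((l - m) • (M - P)) = det (M - P) ((1 - m) • (Q - P)) := by rw [e2]
      rw [det_smul_right, det_smul_right, det_self, mul_zero] at e3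
      rcases mul_eq_zero.1 e3.symm with h5 | h5
      · linarith
      · exact h h5

end two

/-- **Generic replacement of an arc**. -/
theorem generic_splice {p : Circ → ℂ} (hp : IsRegular p) {a b : ℝ} (hab : a < b)
    (hb1 : b < a + 1) (a0 : (a : Circ) ∉ feet p) (b0 : (b : Circ) ∉ feet p) {Z : Set Circ}
    (hZ : Z.Finite) :
    {x : ℝ | ¬ (GoodSplice p a b (two a b (p a) (MM x) (p b)) ∧
      ∀ ζ ∈ Z, b < lift a ζ → ζ ∉ feet p →
        ζ ∉ feet (splice p a b (two a b (p a) (MM x) (p b))))}.Finite := by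
  classical
  obtain ⟨L, W, hL, hW, hLW⟩ := pieces hp.pl b (a + 1)
  set P := p (a : Circ) with hP
  set Q := p (b : Circ) with hQ
  have hcne : (a : Circ) ≠ (b : Circ) := by
    intro h
    rw [coe_eq_coe_iff (a := a) ⟨le_rfl, by linarith⟩ ⟨hab.le, hb1⟩] at h
    linarith
  have hPQ : Q ≠ P := fun h => a0 ⟨b, hcne.symm, h⟩
  -- special points
  set S : Set ℂ := insert Q ((fun τ : ℝ => p τ) '' W ∪ p '' feet p ∪ p '' Z) with hS
  have hSfin : S.Finite := (((hW.image _).union (hp.fin.image _)).union (hZ.image _)).insert _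
  -- bad set
  have hbad : (({x : ℝ | ∃ l ∈ L, l.2 ≠ 0 ∧ (det (MM x - l.1) l.2 = 0 ∨ det (MM x - P) l.2 = 0 ∨
      det (MM x - Q) l.2 = 0)}) ∪ {x : ℝ | ∃ T ∈ S, (T ≠ P ∧ det (MM x - P) (T - P) = 0) ∨
      (T ≠ Q ∧ det (MM x - Q) (T - Q) = 0)}).Finite := by
    refine Set.Finite.union ?_ ?_
    · have : {x : ℝ | ∃ l ∈ L, l.2 ≠ 0 ∧ (det (MM x - l.1) l.2 = 0 ∨ det (MM x - P) l.2 = 0 ∨
          det (MM x - Q) l.2 = 0)} ⊆ ⋃ l ∈ L, ({x : ℝ | l.2 ≠ 0 ∧ det (MM x - l.1) l.2 = 0} ∪
          ({x : ℝ | l.2 ≠ 0 ∧ det (MM x - P) l.2 = 0} ∪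
          {x : ℝ | l.2 ≠ 0 ∧ det (MM x - Q) l.2 = 0})) := by
        rintro x ⟨l, hl, h0, h | h | h⟩ <;> simp only [mem_iUnion] <;> refine ⟨l, hl, ?_⟩
        · exact Or.inl ⟨h0, h⟩
        · exact Or.inr (Or.inl ⟨h0, h⟩)
        · exact Or.inr (Or.inr ⟨h0, h⟩)
      refine (hL.biUnion fun l _ => ?_).subset this
      have aux : ∀ A : ℂ, {x : ℝ | l.2 ≠ 0 ∧ det (MM x - A) l.2 = 0}.Finite := by
        intro A
        by_cases h0 : l.2 = 0
        · convert Set.finite_empty (α := ℝ) using 1
          ext x; simp [h0]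
        · exact (line_finite A l.2 h0).subset fun x hx => hx.2
      exact (aux _).union ((aux _).union (aux _))
    · have : {x : ℝ | ∃ T ∈ S, (T ≠ P ∧ det (MM x - P) (T - P) = 0) ∨
          (T ≠ Q ∧ det (MM x - Q) (T - Q) = 0)} ⊆
          ⋃ T ∈ S, ({x : ℝ | T ≠ P ∧ det (MM x - P) (T - P) = 0} ∪
            {x : ℝ | T ≠ Q ∧ det (MM x - Q) (T - Q) = 0}) := by
        rintro x ⟨T, hT, h⟩
        simp only [mem_iUnion]
        exact ⟨T, hT, h⟩
      refine (hSfin.biUnion fun T _ => ?_).subset this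
      have aux : ∀ A : ℂ, {x : ℝ | T ≠ A ∧ det (MM x - A) (T - A) = 0}.Finite := by
        intro A
        by_cases h0 : T = A
        · convert Set.finite_empty (α := ℝ) using 1
          ext x; simp [h0]
        · exact (line_finite A (T - A) (sub_ne_zero.2 h0)).subset fun x hx => hx.2
      exact (aux _).union (aux _)
  refine hbad.subset ?_
  intro x hx
  by_contra hgood
  apply hx
  simp only [mem_union, mem_ofPred_eq, not_or] at hgood
  obtain ⟨g1, g2⟩ := hgood
  push Not at g1 g2
  set M := MM x with hM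
  have hdet : det (M - P) (Q - P) ≠ 0 := by
    have := (g2 Q (mem_insert _ _)).1 hPQ
    exact this
  have hdet' : det (M - Q) (P - Q) ≠ 0 := by
    intro h; apply hdet
    have : det (M - P) (Q - P) = - det (M - Q) (P - Q) := by
      unfold det; simp only [Complex.sub_re, Complex.sub_im]; ring
    rw [this, h, neg_zero]
  have hMP : M ≠ P := by
    intro h; apply hdet; rw [h, sub_self]; unfold det; simp
  have hMQ : M ≠ Q := by
    intro h; apply hdet'; rw [h, sub_self]; unfold det; simp
  -- points outside of the arc are different from P and Q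
  have houtP : ∀ τ : ℝ, b < τ → τ < a + 1 → p τ ≠ P := by
    intro τ h1 h2 h3
    refine a0 ⟨τ, ?_, h3⟩
    intro h
    rw [coe_eq_coe_iff (a := a) ⟨by linarith, h2⟩ ⟨le_rfl, by linarith⟩] at h
    linarith
  have houtQ : ∀ τ : ℝ, b < τ → τ < a + 1 → p τ ≠ Q := by
    intro τ h1 h2 h3
    refine b0 ⟨τ, ?_, h3⟩
    intro h
    rw [coe_eq_coe_iff (a := a) ⟨by linarith, h2⟩ ⟨hab.le, hb1⟩] at h
    linarith
  -- position of the new path
  have hpos : ∀ σ, (∃ l : ℝ, two a b P M Q σ = P + l • (M - P)) ∨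
      (∃ l : ℝ, two a b P M Q σ = Q + l • (M - Q)) := by
    intro σ
    rcases le_or_gt σ ((a + b) / 2) with k | k
    · exact Or.inl ⟨_, two1 k⟩
    · exact Or.inr ⟨_, two2 hab k.le⟩
  -- special points outside P, Q are not on the new path
  have hspec : ∀ σ, ∀ T ∈ S, T ≠ P → T ≠ Q → two a b P M Q σ ≠ T := by
    intro σ T hT hTP hTQ h
    rcases hpos σ with ⟨l, hl⟩ | ⟨l, hl⟩
    · have := (g2 T hT).1 hTP
      apply this
      rw [← h, hl, add_sub_cancel_left, det_smul_right, det_self, mul_zero]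
    · have := (g2 T hT).2 hTQ
      apply this
      rw [← h, hl, add_sub_cancel_left, det_smul_right, det_self, mul_zero]
  -- analysis of the intersections
  have hint : ∀ σ τ : ℝ, b < τ → τ < a + 1 → two a b P M Q σ = p τ →
      (τ : Circ) ∉ feet p ∧ ∃ l ∈ L, l.2 ≠ 0 ∧ p τ = l.1 + τ • l.2 ∧ Vel p (τ : Circ) l.2 := by
    intro σ τ h1 h2 h3
    have hnS : p (τ : Circ) ∉ S := fun h => hspec σ _ h (houtP τ h1 h2) (houtQ τ h1 h2) h3
    refine ⟨fun h => hnS (Or.inr (Or.inl (Or.inr ⟨_, h, rfl⟩))), ?_⟩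
    rcases hLW τ ⟨h1.le, h2.le⟩ with h | ⟨l, hl, δ, hδ, h⟩
    · exact absurd (Or.inr (Or.inl (Or.inl ⟨τ, h, rfl⟩))) hnS
    · have hvel : Vel p (τ : Circ) l.2 := by
        rw [vel_iff]
        refine ⟨δ, hδ, fun y hy => ?_⟩
        have k1 := h (τ + y) (by rw [add_sub_cancel_left]; exact hy)
        have k2 := h τ (by simpa using hδ)
        simp only at k1 k2 ⊢
        rw [k1, k2, add_smul]; ring
      exact ⟨l, hl, vel_ne_zero hp hvel, h τ (by simpa using hδ), hvel⟩
  -- M is not on the curve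
  have hMout : ∀ τ : ℝ, b < τ → τ < a + 1 → p τ ≠ M := by
    intro τ h1 h2 h3
    have hm : two a b P M Q ((a + b)/2) = M := by
      rw [two1 le_rfl]
      have e1 : ((a + b) / 2 - a) * (2 / (b - a)) = 1 := by
        have : b - a ≠ 0 := by linarith
        field_simp; ring
      rw [e1, one_smul]; ring
    obtain ⟨_, l, hl, hl0, e, _⟩ := hint ((a+b)/2) τ h1 h2 (by rw [hm, h3])
    have := (g1 l hl hl0).1
    apply this
    rw [← h3, e, add_sub_cancel_left, det_smul_left, det_self, mul_zero]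
  have hinj : ∀ σ τ, σ < τ → two a b P M Q σ ≠ two a b P M Q τ := fun σ τ h =>
    two_inj hab hdet h
  have hinjOn : Function.Injective (two a b P M Q) := by
    intro σ τ h
    rcases lt_trichotomy σ τ with k | k | k
    · exact absurd h (hinj _ _ k)
    · exact k
    · exact absurd h.symm (hinj _ _ k)
  have ha : two a b P M Q a = P := by
    rw [two1 (by linarith)]; simp
  have hb : two a b P M Q b = Q := by
    rw [two2 hab (by linarith)]; simp
  have hk : 0 < 2 / (b - a) := by apply div_pos <;> linarith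
  have H : GoodSplice p a b (two a b P M Q) := by
    refine ⟨hp, hab, hb1, a0, b0, ?_, ha, hb, ?_, ?_, ?_, ?_, ?_⟩
    · refine (PLOn.append (b := (a + b)/2) ?_ ?_)
      · refine (PLOn.affine (P - (a * (2 / (b - a))) • (M - P)) ((2 / (b - a)) • (M - P)) a
          ((a+b)/2)).congr fun y hy => ?_
        rw [two1 hy.2, sub_mul, sub_smul, smul_smul]; ring
      · refine (PLOn.affine (Q + (b * (2 / (b - a))) • (M - Q)) (-((2 / (b - a)) • (M - Q)))
          ((a+b)/2) b).congr fun y hy => ?_
        rw [two2 hab hy.1, sub_mul, sub_smul, smul_neg, smul_smul]; ring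
    · -- finiteness
      set T : Set ℝ := {τ | b < τ ∧ τ < a + 1 ∧ ∃ σ, two a b P M Q σ = p τ} with hT
      have hTfin : T.Finite := by
        have hsub : T ⊆ ⋃ l ∈ L, ({τ : ℝ | det (M - P) l.2 ≠ 0 ∧ det (M - P) (l.1 + τ • l.2 - P) = 0} ∪
            {τ : ℝ | det (M - Q) l.2 ≠ 0 ∧ det (M - Q) (l.1 + τ • l.2 - Q) = 0}) := by
          rintro τ ⟨h1, h2, σ, h3⟩
          obtain ⟨_, l, hl, hl0, e, _⟩ := hint σ τ h1 h2 h3
          simp only [mem_iUnion]
          refine ⟨l, hl, ?_⟩
          rcases hpos σ with ⟨k, hk⟩ | ⟨k, hk⟩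
          · left
            refine ⟨(g1 l hl hl0).2.1, ?_⟩
            rw [← e, ← h3, hk, add_sub_cancel_left, det_smul_right, det_self, mul_zero]
          · right
            refine ⟨(g1 l hl hl0).2.2, ?_⟩
            rw [← e, ← h3, hk, add_sub_cancel_left, det_smul_right, det_self, mul_zero]
        refine (hL.biUnion fun l _ => ?_).subset hsub
        have aux : ∀ A : ℂ, {τ : ℝ | det (M - A) l.2 ≠ 0 ∧
            det (M - A) (l.1 + τ • l.2 - A) = 0}.Finite := by
          intro A
          refine (Set.finite_singleton (-(det (M - A) (l.1 - A)) / det (M - A) l.2)).subset ?_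
          rintro τ ⟨k1, k2⟩
          rw [mem_singleton_iff, eq_div_iff k1]
          have : l.1 + τ • l.2 - A = (l.1 - A) + τ • l.2 := by ring
          rw [this, det_add_right, det_smul_right] at k2
          linarith
        exact (aux _).union (aux _)
      refine ⟨T ∪ (two a b P M Q) ⁻¹' ((fun τ : ℝ => p τ) '' T),
        hTfin.union ((hTfin.image _).preimage hinjOn.injOn), ?_, ?_⟩
      · intro σ τ _ h2 _ h4
        exact absurd h4 (hinj σ τ h2)
      · intro σ τ h1 h2 h3 h4 h5
        have hτT : τ ∈ T := ⟨h3, h4, σ, h5⟩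
        exact ⟨Or.inr ⟨τ, hτT, h5.symm⟩, Or.inl hτT⟩
    · intro σ τ _ h2 _ h4
      exact absurd h4 (hinj σ τ h2)
    · intro σ τ h1 h2 h3 h4 h5
      obtain ⟨hf, l, hl, hl0, e, hvel⟩ := hint σ τ h3 h4 h5
      have hσa : a < σ := by
        rcases h1.eq_or_lt with h | h
        · rw [← h, ha] at h5; exact absurd h5.symm (houtP τ h3 h4)
        · exact h
      have hσb : σ < b := by
        rcases h2.eq_or_lt with h | h
        · rw [h, hb] at h5; exact absurd h5.symm (houtQ τ h3 h4)
        · exact h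
      refine ⟨hσa, hσb, ?_, ?_⟩
      · intro τ' k1 k2 k3 k4
        apply hf
        refine ⟨τ', ?_, k4⟩
        intro h
        rw [coe_eq_coe_iff (a := a) ⟨by linarith, k2⟩ ⟨by linarith, h4⟩] at h
        exact k3 h
      · have hσm : σ ≠ (a + b)/2 := by
          intro h
          have hm : two a b P M Q ((a + b)/2) = M := by
            rw [two1 le_rfl]
            have e1 : ((a + b) / 2 - a) * (2 / (b - a)) = 1 := by
              have : b - a ≠ 0 := by linarith
              field_simp; ring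
            rw [e1, one_smul]; ring
          rw [h, hm] at h5
          exact hMout τ h3 h4 h5.symm
        rcases lt_or_gt_of_ne hσm with k | k
        · refine ⟨(2 / (b - a)) • (M - P), l.2, ?_, hvel, ?_⟩
          · refine StrAt.of_affine (a := a) (b := (a+b)/2)
              (c := P - (a * (2 / (b - a))) • (M - P)) hσa k fun y _ hy => ?_
            rw [two1 hy.le, sub_mul, sub_smul, smul_smul]; ring
          · rw [det_smul_left]
            exact mul_ne_zero hk.ne' (g1 l hl hl0).2.1
        · refine ⟨-((2 / (b - a)) • (M - Q)), l.2, ?_, hvel, ?_⟩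
          · refine StrAt.of_affine (a := (a+b)/2) (b := b)
              (c := Q + (b * (2 / (b - a))) • (M - Q)) k hσb fun y hy _ => ?_
            rw [two2 hab hy.le, sub_mul, sub_smul, smul_neg, smul_smul]; ring
          · rw [← neg_smul, det_smul_left]
            exact mul_ne_zero (by linarith) (g1 l hl hl0).2.2
    · intro ρ σ τ _ h2 _ _ e1 _
      exact hinj ρ σ h2 e1
    · intro ρ σ τ _ h2 _ _ _ e1 _
      exact hinj ρ σ h2 e1
  refine ⟨H, ?_⟩
  intro ζ hζ hlt hζf hcon
  obtain ⟨θ, hne, he⟩ := hcon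
  have hd : IsDbl (splice p a b (two a b P M Q)) ζ θ := ⟨hne.symm, he.symm⟩
  rcases lt_or_gt_of_ne (lift_ne (a := a) hd.1) with h | h
  · rcases H.dbl_cases hd h with ⟨k1, k2⟩ | ⟨k0, k1, k2⟩ | ⟨k1, k2⟩
    · linarith
    · linarith
    · exact hζf k2.left_mem
  · rcases H.dbl_cases hd.symm h with ⟨k1, k2⟩ | ⟨k0, k1, k2⟩ | ⟨k1, k2⟩
    · linarith
    · have e1 := houtP _ k1 (lift_lt a ζ)
      have e2 := houtQ _ k1 (lift_lt a ζ)
      rw [coe_lift] at e1 e2
      exact hspec _ (p ζ) (Or.inr (Or.inr ⟨ζ, hζ, rfl⟩)) e1 e2 k2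
    · exact hζf k2.right_mem

end Pool.Agent.H81
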