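import Pool.Agent.H81.Tent

namespace Pool.Agent.H81

open Set

/-- the hypotheses on the invariant, without normalisation -/
structure IsInv (v : (Circ → ℂ × ℝ) → ℝ) : Prop where
  isotopy : ∀ K₀ K₁, LinIsotopic K₀ K₁ → v K₀ = v K₁
  reparam : ∀ K₀ K₁, IsKnot K₀ → Reparam K₀ K₁ → v K₀ = v K₁
  degree : DegLE3 v
  mirror : ∀ K, IsKnot K → v (fun t => ((K t).1, -(K t).2)) = - v K

lemma IsV3.isInv {v : (Circ → ℂ × ℝ) → ℝ} (h : IsV3 v) : IsInv v :=
  ⟨h.isotopy, h.reparam, h.degree, h.mirror⟩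

/-- combine projection and height -/
def mk (p : Circ → ℂ) (z : Circ → ℝ) : Circ → ℂ × ℝ := fun t => (p t, z t)

/-- the pair `s, t` is a double point -/
def IsDbl (p : Circ → ℂ) (s t : Circ) : Prop := s ≠ t ∧ p s = p t

lemma IsDbl.symm {p : Circ → ℂ} {s t : Circ} (h : IsDbl p s t) : IsDbl p t s :=
  ⟨h.1.symm, h.2.symm⟩

lemma IsDbl.left_mem {p : Circ → ℂ} {s t : Circ} (h : IsDbl p s t) : s ∈ feet p :=
  ⟨t, h.1.symm, h.2.symm⟩

lemma IsDbl.right_mem {p : Circ → ℂ} {s t : Circ} (h : IsDbl p s t) : t ∈ feet p :=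
  h.symm.left_mem

lemma IsRegular.uniq {p : Circ → ℂ} (hp : IsRegular p) {s t t' : Circ} (h : IsDbl p s t)
    (h' : IsDbl p s t') : t = t' := by
  rcases hp.triple t s t' h.2.symm h'.2 with h1 | h1 | h1
  · exact absurd h1.symm h.1
  · exact absurd h1 h'.1
  · exact h1

/-- same pattern of heights at the double points -/
def SamePat (p : Circ → ℂ) (y y' : Circ → ℝ) : Prop :=
  ∀ s t, IsDbl p s t → 0 < (y s - y t) * (y' s - y' t)

/-- valid pattern of heights -/
def Valid (p : Circ → ℂ) (y : Circ → ℝ) : Prop := ∀ s t, IsDbl p s t → y s ≠ y t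

lemma Valid.samePat {p : Circ → ℂ} {y : Circ → ℝ} (h : Valid p y) : SamePat p y y :=
  fun s t hst => mul_self_pos.2 (sub_ne_zero.2 (h s t hst))

lemma SamePat.symm {p : Circ → ℂ} {y y' : Circ → ℝ} (h : SamePat p y y') : SamePat p y' y :=
  fun s t hst => by rw [mul_comm]; exact h s t hst

lemma SamePat.trans {p : Circ → ℂ} {y y' y'' : Circ → ℝ} (h : SamePat p y y')
    (h' : SamePat p y' y'') : SamePat p y y'' := by
  intro s t hst
  have h1 := h s t hst
  have h2 := h' s t hst
  have h3 : 0 < ((y s - y t) * (y'' s - y'' t)) * (y' s - y' t)^2 := by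
    calc 0 < ((y s - y t) * (y' s - y' t)) * ((y' s - y' t) * (y'' s - y'' t)) := mul_pos h1 h2
      _ = _ := by ring
  exact (pos_iff_pos_of_mul_pos h3).2 (by
    have : y' s - y' t ≠ 0 := by
      intro h0; rw [h0, mul_zero] at h1; exact lt_irrefl _ h1
    positivity)

lemma SamePat.valid_left {p : Circ → ℂ} {y y' : Circ → ℝ} (h : SamePat p y y') : Valid p y := by
  intro s t hst h0
  have := h s t hst
  rw [h0, sub_self, zero_mul] at this
  exact lt_irrefl _ this

lemma SamePat.valid_right {p : Circ → ℂ} {y y' : Circ → ℝ} (h : SamePat p y y') : Valid p y' :=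
  h.symm.valid_left

lemma Valid.isKnot {p : Circ → ℂ} {z : Circ → ℝ} (hp : IsPL p) (hz : IsPL z) (h : Valid p z) :
    IsKnot (mk p z) := by
  refine ⟨hp.prodMk hz, fun s t hst => ?_⟩
  by_contra hne
  simp only [mk, Prod.mk.injEq] at hst
  exact h s t ⟨hne, hst.1⟩ hst.2

section
variable {v : (Circ → ℂ × ℝ) → ℝ}

/-- heights with the same pattern give isotopic knots -/
lemma vertical (hv : IsInv v) {p : Circ → ℂ} {z₀ z₁ : Circ → ℝ} (hp : IsPL p) (h0 : IsPL z₀)
    (h1 : IsPL z₁) (h : SamePat p z₀ z₁) : v (mk p z₀) = v (mk p z₁) := by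
  refine hv.isotopy _ _ fun s hs => ?_
  have e : (fun t => (1 - s) • mk p z₀ t + s • mk p z₁ t) =
      mk p (fun t => (1 - s) * z₀ t + s * z₁ t) := by
    funext t
    simp only [mk, Prod.smul_mk, Prod.mk_add_mk, smul_eq_mul, Prod.mk.injEq, and_true]
    rw [← add_smul, sub_add_cancel, one_smul]
  rw [e]
  refine Valid.isKnot hp ((h0.smul (1 - s)).add (h1.smul s)) fun a b hab heq => ?_
  have h2 := h a b hab
  have h3 : (1 - s) * (z₀ a - z₀ b) + s * (z₁ a - z₁ b) = 0 := by linarith
  have hs0 := hs.1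
  have hs1 : 0 ≤ 1 - s := by linarith [hs.2]
  rcases pos_and_pos_or_neg_and_neg_of_mul_pos h2 with ⟨ha, hb⟩ | ⟨ha, hb⟩
  · rcases hs0.eq_or_lt with h4 | h4
    · rw [← h4] at h3; linarith
    · nlinarith [mul_pos h4 hb, mul_nonneg hs1 ha.le]
  · rcases hs0.eq_or_lt with h4 | h4
    · rw [← h4] at h3; linarith
    · nlinarith [mul_pos h4 (neg_pos.2 hb), mul_nonneg hs1 (neg_pos.2 ha).le]

/-- a PL height function with prescribed values at the double points -/
noncomputable def real (p : Circ → ℂ) (y : Circ → ℝ) : Circ → ℝ :=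
  open Classical in
  if h : ∃ z : Circ → ℝ, IsPL z ∧ ∀ s ∈ feet p, z s = y s then h.choose else 0

lemma real_spec {p : Circ → ℂ} (hp : IsRegular p) (y : Circ → ℝ) :
    IsPL (real p y) ∧ ∀ s ∈ feet p, real p y s = y s := by
  have h : ∃ z : Circ → ℝ, IsPL z ∧ ∀ s ∈ feet p, z s = y s := exists_interp _ hp.fin y
  unfold real
  rw [dif_pos h]
  exact h.choose_spec

/-- value of the invariant for a regular projection with a pattern of heights -/
noncomputable def V (v : (Circ → ℂ × ℝ) → ℝ) (p : Circ → ℂ) (y : Circ → ℝ) : ℝ :=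
  v (mk p (real p y))

lemma samePat_of_eq {p : Circ → ℂ} {y y' : Circ → ℝ} (hy : Valid p y)
    (h : ∀ s ∈ feet p, y' s = y s) : SamePat p y' y := by
  intro s t hst
  rw [h s hst.left_mem, h t hst.right_mem]
  exact hy.samePat s t hst

lemma V_eq (hv : IsInv v) {p : Circ → ℂ} (hp : IsRegular p) {y z : Circ → ℝ} (hz : IsPL z)
    (h : SamePat p z y) : v (mk p z) = V v p y :=
  vertical hv hp.pl hz (real_spec hp y).1
    (h.trans (samePat_of_eq h.valid_right (real_spec hp y).2).symm)

lemma V_congr (hv : IsInv v) {p : Circ → ℂ} (hp : IsRegular p) {y y' : Circ → ℝ}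
    (h : SamePat p y y') : V v p y = V v p y' :=
  V_eq hv hp (real_spec hp y).1 ((samePat_of_eq h.valid_left (real_spec hp y).2).trans h)

lemma V_neg (hv : IsInv v) {p : Circ → ℂ} (hp : IsRegular p) {y : Circ → ℝ} (hy : Valid p y) :
    V v p (fun t => - y t) = - V v p y := by
  have h1 : V v p (fun t => - y t) = v (mk p (fun t => - real p y t)) := by
    symm
    apply V_eq hv hp (real_spec hp y).1.neg
    intro s t hst
    have := samePat_of_eq hy (real_spec hp y).2 s t hst
    linarith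
  rw [h1]
  have h2 : IsKnot (mk p (real p y)) := Valid.isKnot hp.pl (real_spec hp y).1
    (samePat_of_eq hy (real_spec hp y).2).valid_left
  exact hv.mirror _ h2

/-- injective projections -/
lemma v_zero (hv : IsInv v) {p : Circ → ℂ} {z : Circ → ℝ} (hp : IsPL p) (hz : IsPL z)
    (h : Function.Injective p) : v (mk p z) = 0 := by
  have h0 : ∀ s t, ¬ IsDbl p s t := fun s t hst => hst.1 (h hst.2)
  have h1 : v (mk p (fun t => - z t)) = v (mk p z) :=
    vertical hv hp hz.neg hz fun s t hst => absurd hst (h0 s t)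
  have h2 := hv.mirror (mk p z) (Valid.isKnot hp hz fun s t hst => absurd hst (h0 s t))
  have h3 : v (mk p (fun t => - z t)) = - v (mk p z) := h2
  linarith

end

end Pool.Agent.H81
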