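import Pool.Agent.H81.Uni2

namespace Pool.Agent.H81

open Set

variable {v : (Circ → ℂ × ℝ) → ℝ}

/-- product of the four differences, for the base `a` -/
noncomputable def lkp (a : ℝ) (x y : Circ × Circ) : ℝ :=
  (lift a y.1 - lift a x.1) * (lift a y.1 - lift a x.2) *
    ((lift a y.2 - lift a x.1) * (lift a y.2 - lift a x.2))

/-- the crossings are interlaced -/
def Lk (x y : Circ × Circ) : Prop := lkp 0 x y < 0

lemma lkp_comm (a : ℝ) (x y : Circ × Circ) : lkp a x y = lkp a y x := by unfold lkp; ring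

lemma lkp_swap_left (a : ℝ) (x y : Circ × Circ) : lkp a x.swap y = lkp a x y := by
  unfold lkp; simp only [Prod.fst_swap, Prod.snd_swap]; ring

lemma lkp_swap_right (a : ℝ) (x y : Circ × Circ) : lkp a x y.swap = lkp a x y := by
  unfold lkp; simp only [Prod.fst_swap, Prod.snd_swap]; ring

lemma Lk_comm (x y : Circ × Circ) : Lk x y ↔ Lk y x := by unfold Lk; rw [lkp_comm]

lemma Lk_swap_left (x y : Circ × Circ) : Lk x.swap y ↔ Lk x y := by unfold Lk; rw [lkp_swap_left]

lemma Lk_swap_right (x y : Circ × Circ) : Lk x y.swap ↔ Lk x y := by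
  unfold Lk; rw [lkp_swap_right]

lemma not_Lk_self (x : Circ × Circ) : ¬ Lk x x := by
  unfold Lk lkp
  simp

lemma lift_sgn (a : ℝ) : ∃ σ : Circ → ℝ, (∀ θ, σ θ * σ θ = 1) ∧ ∀ θ η, θ ≠ η →
    0 < (lift a θ - lift a η) * (lift 0 θ - lift 0 η) * (σ θ * σ η) := by
  obtain ⟨k, hk⟩ : ∃ k : ℤ, k = ⌊a⌋ := ⟨_, rfl⟩
  have hk1 : (k:ℝ) ≤ a := by rw [hk]; exact Int.floor_le a
  have hk2 : a < k + 1 := by rw [hk]; exact Int.lt_floor_add_one a
  have h1 : ∀ θ : Circ, a - k ≤ lift 0 θ → lift a θ = lift 0 θ + k := by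
    intro θ h
    refine lift_eq_of (by rw [coe_add_int, coe_lift]) (by linarith) ?_
    linarith [lift_lt 0 θ]
  have h2 : ∀ θ : Circ, lift 0 θ < a - k → lift a θ = lift 0 θ + k + 1 := by
    intro θ h
    refine lift_eq_of (by rw [coe_add_one, coe_add_int, coe_lift]) ?_ (by linarith)
    linarith [le_lift 0 θ]
  refine ⟨fun θ => if lift 0 θ < a - k then -1 else 1, fun θ => ?_, fun θ η hne => ?_⟩
  · simp only; split_ifs <;> norm_num
  · have hne' : lift 0 θ - lift 0 η ≠ 0 := sub_ne_zero.2 (lift_ne hne)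
    have b1 := lift_lt 0 θ
    have b2 := lift_lt 0 η
    have b3 := le_lift 0 θ
    have b4 := le_lift 0 η
    simp only
    by_cases c1 : lift 0 θ < a - k <;> by_cases c2 : lift 0 η < a - k
    · rw [h2 θ c1, h2 η c2, if_pos c1, if_pos c2]
      have : (lift 0 θ + k + 1 - (lift 0 η + k + 1)) * (lift 0 θ - lift 0 η) * (-1 * -1) =
        (lift 0 θ - lift 0 η) * (lift 0 θ - lift 0 η) := by ring
      rw [this]; exact mul_self_pos.2 hne'
    · rw [h2 θ c1, h1 η (not_lt.1 c2), if_pos c1, if_neg c2]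
      have : (lift 0 θ + k + 1 - (lift 0 η + k)) * (lift 0 θ - lift 0 η) * (-1 * 1) =
        (lift 0 θ + 1 - lift 0 η) * (lift 0 η - lift 0 θ) := by ring
      rw [this]
      exact mul_pos (by linarith) (by linarith [not_lt.1 c2])
    · rw [h1 θ (not_lt.1 c1), h2 η c2, if_neg c1, if_pos c2]
      have : (lift 0 θ + k - (lift 0 η + k + 1)) * (lift 0 θ - lift 0 η) * (1 * -1) =
        (lift 0 η + 1 - lift 0 θ) * (lift 0 θ - lift 0 η) := by ring
      rw [this]
      exact mul_pos (by linarith) (by linarith [not_lt.1 c1])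
    · rw [h1 θ (not_lt.1 c1), h1 η (not_lt.1 c2), if_neg c1, if_neg c2]
      have : (lift 0 θ + k - (lift 0 η + k)) * (lift 0 θ - lift 0 η) * (1 * 1) =
        (lift 0 θ - lift 0 η) * (lift 0 θ - lift 0 η) := by ring
      rw [this]; exact mul_self_pos.2 hne'

lemma Lk_iff {x y : Circ × Circ} (h : Sep x y) (a : ℝ) : Lk x y ↔ lkp a x y < 0 := by
  obtain ⟨σ, hσ, hl⟩ := lift_sgn a
  have p1 := hl y.1 x.1 h.h11.symm
  have p2 := hl y.1 x.2 h.h21.symm
  have p3 := hl y.2 x.1 h.h12.symm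
  have p4 := hl y.2 x.2 h.h22.symm
  have key : 0 < lkp a x y * lkp 0 x y := by
    have := mul_pos (mul_pos p1 p2) (mul_pos p3 p4)
    have e : (lift a y.1 - lift a x.1) * (lift 0 y.1 - lift 0 x.1) * (σ y.1 * σ x.1) *
      ((lift a y.1 - lift a x.2) * (lift 0 y.1 - lift 0 x.2) * (σ y.1 * σ x.2)) *
      ((lift a y.2 - lift a x.1) * (lift 0 y.2 - lift 0 x.1) * (σ y.2 * σ x.1) *
      ((lift a y.2 - lift a x.2) * (lift 0 y.2 - lift 0 x.2) * (σ y.2 * σ x.2))) =
      lkp a x y * lkp 0 x y * ((σ y.1 * σ y.1) * (σ y.2 * σ y.2) * (σ x.1 * σ x.1) *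
        (σ x.2 * σ x.2)) := by unfold lkp; ring
    rw [e, hσ, hσ, hσ, hσ] at this
    linarith
  unfold Lk
  exact ⟨fun h0 => by
    by_contra hc
    nlinarith [mul_nonneg (not_lt.1 hc) (neg_pos.2 h0).le], fun h0 => by
    by_contra hc
    nlinarith [mul_nonneg (not_lt.1 hc) (neg_pos.2 h0).le]⟩

lemma prod_neg {x1 x2 y : ℝ} (h1 : x1 < y) (h2 : y < x2) : (y - x1) * (y - x2) < 0 :=
  mul_neg_of_pos_of_neg (by linarith) (by linarith)

lemma prod_pos_l {x1 x2 y : ℝ} (h1 : y < x1) (h2 : y < x2) : 0 < (y - x1) * (y - x2) :=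
  mul_pos_of_neg_of_neg (by linarith) (by linarith)

lemma prod_pos_r {x1 x2 y : ℝ} (h1 : x1 < y) (h2 : x2 < y) : 0 < (y - x1) * (y - x2) :=
  mul_pos (by linarith) (by linarith)

lemma not_neg_pp {a b : ℝ} (h1 : 0 < a) (h2 : 0 < b) : ¬ a * b < 0 :=
  not_lt.2 (mul_pos h1 h2).le

lemma not_neg_nn {a b : ℝ} (h1 : a < 0) (h2 : b < 0) : ¬ a * b < 0 :=
  not_lt.2 (mul_pos_of_neg_of_neg h1 h2).le

/-- first chord starts first -/
lemma Lk_sorted {x y : Circ × Circ} (h : Sep x y) {a : ℝ} (h0 : lift a x.1 < lift a y.1)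
    (hx : lift a x.1 < lift a x.2) (hy : lift a y.1 < lift a y.2) :
    Lk x y ↔ lift a y.1 < lift a x.2 ∧ lift a x.2 < lift a y.2 := by
  rw [Lk_iff h a]
  unfold lkp
  have n1 : lift a y.1 ≠ lift a x.2 := lift_ne h.h21.symm
  have n2 : lift a y.2 ≠ lift a x.2 := lift_ne h.h22.symm
  rcases lt_or_gt_of_ne n1 with k1 | k1
  · have e1 := prod_neg h0 k1
    rcases lt_or_gt_of_ne n2 with k2 | k2
    · have e2 := prod_neg (h0.trans hy) k2
      exact ⟨fun h => absurd h (not_neg_nn e1 e2), fun h => by linarith [h.2]⟩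
    · have e2 := prod_pos_r (h0.trans hy) k2
      exact ⟨fun _ => ⟨k1, k2⟩, fun _ => mul_neg_of_neg_of_pos e1 e2⟩
  · have e1 := prod_pos_r h0 k1
    have e2 := prod_pos_r (h0.trans hy) (k1.trans hy)
    exact ⟨fun h => absurd h (not_neg_pp e1 e2), fun h => by linarith [h.1]⟩

/-! ### classification -/

noncomputable def seq6 (a b c d e f : ℝ) : ℕ → ℝ := fun m =>
  if m = 0 then a else if m = 1 then b else if m = 2 then c else if m = 3 then d else
    if m = 4 then e else f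

lemma matX : Mat ![0,1,2] ![3,4,5] :=
  ⟨by decide, by decide, by decide, by decide, by decide, by decide⟩

lemma matH : Mat ![0,1,2] ![3,5,4] :=
  ⟨by decide, by decide, by decide, by decide, by decide, by decide⟩

lemma seq6_mono {a b c d e f : ℝ} (h1 : a < b) (h2 : b < c) (h3 : c < d) (h4 : d < e)
    (h5 : e < f) : ∀ m < 5, seq6 a b c d e f m < seq6 a b c d e f (m+1) := by
  intro m hm
  interval_cases m <;> simp [seq6, *]

lemma datX {p : Circ → ℂ} (hp : IsRegular p) {x y z : Circ × Circ} (h : Tri p x y z)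
    {a b c d e f : ℝ} (h1 : a < b) (h2 : b < c) (h3 : c < d) (h4 : d < e) (h5 : e < f)
    (h6 : f < a + 1) (ea : (a : Circ) = x.1) (eb : (b : Circ) = y.1) (ec : (c : Circ) = z.1)
    (ed : (d : Circ) = x.2) (ee : (e : Circ) = y.2) (ef : (f : Circ) = z.2) :
    Dat p ![0,1,2] ![3,4,5] (seq6 a b c d e f) ∧
      E3 v p ![0,1,2] ![3,4,5] (seq6 a b c d e f) = E v p x y z := by
  constructor
  · refine ⟨hp, matX, seq6_mono h1 h2 h3 h4 h5, by simpa [seq6] using h6, fun j => ?_⟩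
    fin_cases j
    · simpa [seq6, ea, ed] using h.c1.2
    · simpa [seq6, eb, ee] using h.c2.2
    · simpa [seq6, ec, ef] using h.c3.2
  · unfold E3
    have e0 : XX ![0,1,2] ![3,4,5] (seq6 a b c d e f) 0 = x := by
      unfold XX; exact Prod.ext (by simpa [seq6] using ea) (by simpa [seq6] using ed)
    have e1 : XX ![0,1,2] ![3,4,5] (seq6 a b c d e f) 1 = y := by
      unfold XX; exact Prod.ext (by simpa [seq6] using eb) (by simpa [seq6] using ee)
    have e2 : XX ![0,1,2] ![3,4,5] (seq6 a b c d e f) 2 = z := by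
      unfold XX; exact Prod.ext (by simpa [seq6] using ec) (by simpa [seq6] using ef)
    rw [e0, e1, e2]

lemma datH {p : Circ → ℂ} (hp : IsRegular p) {x y z : Circ × Circ} (h : Tri p x y z)
    {a b c d e f : ℝ} (h1 : a < b) (h2 : b < c) (h3 : c < d) (h4 : d < e) (h5 : e < f)
    (h6 : f < a + 1) (ea : (a : Circ) = x.1) (eb : (b : Circ) = y.1) (ec : (c : Circ) = z.1)
    (ed : (d : Circ) = x.2) (ee : (e : Circ) = z.2) (ef : (f : Circ) = y.2) :
    Dat p ![0,1,2] ![3,5,4] (seq6 a b c d e f) ∧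
      E3 v p ![0,1,2] ![3,5,4] (seq6 a b c d e f) = E v p x y z := by
  constructor
  · refine ⟨hp, matH, seq6_mono h1 h2 h3 h4 h5, by simpa [seq6] using h6, fun j => ?_⟩
    fin_cases j
    · simpa [seq6, ea, ed] using h.c1.2
    · simpa [seq6, eb, ef] using h.c2.2
    · simpa [seq6, ec, ee] using h.c3.2
  · unfold E3
    have e0 : XX ![0,1,2] ![3,5,4] (seq6 a b c d e f) 0 = x := by
      unfold XX; exact Prod.ext (by simpa [seq6] using ea) (by simpa [seq6] using ed)
    have e1 : XX ![0,1,2] ![3,5,4] (seq6 a b c d e f) 1 = y := by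
      unfold XX; exact Prod.ext (by simpa [seq6] using eb) (by simpa [seq6] using ef)
    have e2 : XX ![0,1,2] ![3,5,4] (seq6 a b c d e f) 2 = z := by
      unfold XX; exact Prod.ext (by simpa [seq6] using ec) (by simpa [seq6] using ee)
    rw [e0, e1, e2]

lemma exists_kappa (hv : IsInv v) (i k : Fin 3 → ℕ) :
    ∃ κ : ℝ, ∀ p t, Dat p i k t → E3 v p i k t = κ := by
  by_cases h : ∃ p t, Dat p i k t
  · obtain ⟨p, t, D⟩ := h
    exact ⟨E3 v p i k t, fun q s D' => E_univ hv D' D⟩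
  · exact ⟨0, fun q s D' => absurd ⟨q, s, D'⟩ h⟩

/-- the value of the cubic coefficient -/
noncomputable def W (κX κH : ℝ) (x y z : Circ × Circ) : ℝ :=
  open Classical in
  if Lk x y ∧ Lk x z ∧ Lk y z then κX else
    if (Lk x y ∧ Lk x z) ∨ (Lk x y ∧ Lk y z) ∨ (Lk x z ∧ Lk y z) then κH else 0

lemma W_perm12 (κX κH : ℝ) (x y z : Circ × Circ) : W κX κH x y z = W κX κH y x z := by
  unfold W
  rw [Lk_comm y x]
  congr 1
  · apply propext; tauto
  · congr 1
    apply propext; tauto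

lemma W_perm23 (κX κH : ℝ) (x y z : Circ × Circ) : W κX κH x y z = W κX κH x z y := by
  unfold W
  rw [Lk_comm z y]
  congr 1
  · apply propext; tauto
  · congr 1
    apply propext; tauto

lemma W_swap1 (κX κH : ℝ) (x y z : Circ × Circ) : W κX κH x.swap y z = W κX κH x y z := by
  unfold W; rw [Lk_swap_left, Lk_swap_left]

lemma W_swap2 (κX κH : ℝ) (x y z : Circ × Circ) : W κX κH x y.swap z = W κX κH x y z := by
  unfold W; rw [Lk_swap_left, Lk_swap_right]

lemma W_swap3 (κX κH : ℝ) (x y z : Circ × Circ) : W κX κH x y z.swap = W κX κH x y z := by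
  unfold W; rw [Lk_swap_right, Lk_swap_right]

lemma E_zero (hv : IsInv v) {p : Circ → ℂ} (hp : IsRegular p)
    {s t : ℝ} (hst : s < t) (hts : t < s + 1) {x y z : Circ × Circ}
    (h : Tri p x y z) (ez1 : (s : Circ) = z.1) (ez2 : (t : Circ) = z.2) (h1 : t < lift s x.1)
    (h2 : t < lift s x.2) (h3 : t < lift s y.1) (h4 : t < lift s y.2) : E v p x y z = 0 := by
  have ez : z = ((s : Circ), (t : Circ)) := Prod.ext ez1.symm ez2.symm
  subst ez
  unfold E
  rw [cc_zero hv hp hst hts h h1 h2 h3 h4, zero_mul]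

end Pool.Agent.H81
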