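import Pool.Agent.H81.Clean

namespace Pool.Agent.H81

open Set

noncomputable def la (x : ℝ) : ℝ :=
  min (2 + 3 * x) (max (-1/4 + (-3/2) * x) (max (-1/4) (-3/2 + (5/2) * x)))

noncomputable def lb (x : ℝ) : ℝ :=
  min (max 0 (1/2 + 1 * x)) (max (1/2 + (-2) * x) (-1 + 1 * x))

lemma la_PL : IsPLR la := by
  have h : ∀ a b : ℝ, IsPLR (fun x : ℝ => a + b * x) := fun a b =>
    (IsPLR.const a).add (IsPLR.id.mul b)
  exact (h 2 3).min ((h _ _).max ((IsPLR.const _).max (h _ _)))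

lemma lb_PL : IsPLR lb := by
  have h : ∀ a b : ℝ, IsPLR (fun x : ℝ => a + b * x) := fun a b =>
    (IsPLR.const a).add (IsPLR.id.mul b)
  exact ((IsPLR.const 0).max (h _ _)).min ((h _ _).max (h _ _))

lemma la1 {x : ℝ} (h : x ≤ -1/2) : la x = 2 + 3 * x := by
  unfold la
  rw [min_eq_left]
  exact le_max_of_le_left (by linarith)

lemma la2 {x : ℝ} (h1 : -1/2 ≤ x) (h2 : x ≤ 0) : la x = -1/4 + (-3/2) * x := by
  unfold la
  rw [max_eq_left, min_eq_right (by linarith)]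
  exact max_le (by linarith) (by linarith)

lemma la3 {x : ℝ} (h1 : 0 ≤ x) (h2 : x ≤ 1/2) : la x = -1/4 := by
  unfold la
  rw [max_eq_left (b := -3/2 + (5/2) * x) (by linarith), max_eq_right (by linarith), min_eq_right (by linarith)]

lemma la4 {x : ℝ} (h1 : 1/2 ≤ x) : la x = -3/2 + (5/2) * x := by
  unfold la
  rw [max_eq_right (b := -3/2 + (5/2) * x) (by linarith), max_eq_right (by linarith), min_eq_right (by linarith)]

lemma lb1 {x : ℝ} (h : x ≤ -1/2) : lb x = 0 := by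
  unfold lb
  rw [max_eq_left (b := 1/2 + 1 * x) (by linarith), min_eq_left]
  exact le_max_of_le_left (by linarith)

lemma lb2 {x : ℝ} (h1 : -1/2 ≤ x) (h2 : x ≤ 0) : lb x = 1/2 + 1 * x := by
  unfold lb
  rw [max_eq_right (b := 1/2 + 1 * x) (by linarith), min_eq_left]
  exact le_max_of_le_left (by linarith)

lemma lb3 {x : ℝ} (h1 : 0 ≤ x) (h2 : x ≤ 1/2) : lb x = 1/2 + (-2) * x := by
  unfold lb
  rw [max_eq_right (b := 1/2 + 1 * x) (by linarith), max_eq_left (b := -1 + 1 * x) (by linarith),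
    min_eq_right (by linarith)]

lemma lb4 {x : ℝ} (h1 : 1/2 ≤ x) : lb x = -1 + 1 * x := by
  unfold lb
  rw [max_eq_right (b := 1/2 + 1 * x) (by linarith), max_eq_right (b := -1 + 1 * x) (by linarith),
    min_eq_right (by linarith)]

lemma piece_cases (x : ℝ) : (x ≤ -1/2 ∧ la x = 2 + 3 * x ∧ lb x = 0) ∨
    (-1/2 < x ∧ x ≤ 0 ∧ la x = -1/4 + (-3/2) * x ∧ lb x = 1/2 + 1 * x) ∨
    (0 < x ∧ x ≤ 1/2 ∧ la x = -1/4 ∧ lb x = 1/2 + (-2) * x) ∨
    (1/2 < x ∧ la x = -3/2 + (5/2) * x ∧ lb x = -1 + 1 * x) := by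
  rcases le_or_gt x (-1/2) with h | h
  · exact Or.inl ⟨h, la1 h, lb1 h⟩
  · rcases le_or_gt x 0 with h2 | h2
    · exact Or.inr (Or.inl ⟨h, h2, la2 h.le h2, lb2 h.le h2⟩)
    · rcases le_or_gt x (1/2) with h3 | h3
      · exact Or.inr (Or.inr (Or.inl ⟨h2, h3, la3 h2.le h3, lb3 h2.le h3⟩))
      · exact Or.inr (Or.inr (Or.inr ⟨h3, la4 h3.le, lb4 h3.le⟩))

lemma lab_bound {x : ℝ} (h1 : -1 ≤ x) (h2 : x ≤ 1) : |la x| ≤ 1 ∧ |lb x| ≤ 1 := by
  rcases piece_cases x with ⟨k, e1, e2⟩ | ⟨k, k', e1, e2⟩ | ⟨k, k', e1, e2⟩ | ⟨k, e1, e2⟩ <;>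
  · rw [e1, e2, abs_le, abs_le]
    refine ⟨⟨?_, ?_⟩, ⟨?_, ?_⟩⟩ <;> linarith

lemma lab_inj {x y : ℝ} (h : x < y) (e1 : la x = la y) (e2 : lb x = lb y) :
    x = -3/4 ∧ y = 1/4 := by
  rcases piece_cases x with ⟨k, f1, f2⟩ | ⟨k, k', f1, f2⟩ | ⟨k, k', f1, f2⟩ | ⟨k, f1, f2⟩ <;>
  rcases piece_cases y with ⟨l, g1, g2⟩ | ⟨l, l', g1, g2⟩ | ⟨l, l', g1, g2⟩ | ⟨l, g1, g2⟩ <;>
  · rw [f1, g1] at e1
    rw [f2, g2] at e2
    constructor <;> linarith

lemma la_zero {x : ℝ} (h : la x = 0) :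
    (x = -2/3 ∧ lb x = 0) ∨ (x = -1/6 ∧ lb x = 1/3) ∨ (x = 3/5 ∧ lb x = -2/5) := by
  rcases piece_cases x with ⟨k, f1, f2⟩ | ⟨k, k', f1, f2⟩ | ⟨k, k', f1, f2⟩ | ⟨k, f1, f2⟩
  · left; rw [f1] at h; rw [f2]; constructor <;> linarith
  · right; left; rw [f1] at h
    have hx : x = -1/6 := by linarith
    exact ⟨hx, by rw [f2, hx]; norm_num⟩
  · rw [f1] at h; norm_num at h
  · right; right; rw [f1] at h
    have hx : x = 3/5 := by linarith
    exact ⟨hx, by rw [f2, hx]; norm_num⟩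

/-- the loop path -/
noncomputable def lf (s r : ℝ) (X u w : ℂ) (τ : ℝ) : ℂ :=
  X + ((r * la ((τ - s) / r)) • u + (r * lb ((τ - s) / r)) • w)

lemma PLR_comp_aff {f : ℝ → ℝ} (hf : IsPLR f) (s : ℝ) {r : ℝ} (hr : 0 < r) :
    IsPLR (fun τ => f ((τ - s) / r)) := by
  intro x
  obtain ⟨⟨δ, hδ, c, hc⟩, ⟨δ', hδ', c', hc'⟩⟩ := hf ((x - s) / r)
  refine ⟨⟨δ * r, by positivity, (1/r) * c, fun τ hτ => ?_⟩,
    ⟨δ' * r, by positivity, (1/r) * c', fun τ hτ => ?_⟩⟩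
  · have := hc (τ / r) ⟨div_nonneg hτ.1 hr.le, (div_le_iff₀ hr).2 hτ.2⟩
    simp only
    rw [show (x + τ - s) / r = (x - s) / r + τ / r by ring, this]
    simp only [smul_eq_mul]; ring
  · have := hc' (τ / r) ⟨div_nonneg hτ.1 hr.le, (div_le_iff₀ hr).2 hτ.2⟩
    simp only
    rw [show (x - τ - s) / r = (x - s) / r - τ / r by ring, this]
    simp only [smul_eq_mul]; ring

lemma lf_PL (s : ℝ) {r : ℝ} (hr : 0 < r) (X u w : ℂ) : IsPLR (lf s r X u w) :=
  (IsPLR.const X).add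
    ((((PLR_comp_aff la_PL s hr).mul r).linear ((LinearMap.id (R := ℝ) (M := ℝ)).smulRight u)).add
    (((PLR_comp_aff lb_PL s hr).mul r).linear ((LinearMap.id (R := ℝ) (M := ℝ)).smulRight w)))

section str
variable {s r : ℝ} (hr : 0 < r) (X u w : ℂ)
include hr

lemma lf_aff {a b c d : ℝ} {τ : ℝ} (h1 : la ((τ - s) / r) = a + c * ((τ - s) / r))
    (h2 : lb ((τ - s) / r) = b + d * ((τ - s) / r)) :
    lf s r X u w τ = (X + ((r * a - s * c) • u + (r * b - s * d) • w)) + τ • (c • u + d • w) := by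
  have e1 : r * (a + c * ((τ - s) / r)) = (r * a - s * c) + τ * c := by
    field_simp; ring
  have e2 : r * (b + d * ((τ - s) / r)) = (r * b - s * d) + τ * d := by
    field_simp; ring
  unfold lf
  rw [h1, h2, e1, e2, add_smul, add_smul, smul_add, smul_smul, smul_smul]
  ring

lemma lf_str1 {τ : ℝ} (h2 : τ < s - r/2) : StrAt (lf s r X u w) τ ((3:ℝ) • u + (0:ℝ) • w) := by
  refine StrAt.of_affine (a := τ - 1) (b := s - r/2)
    (c := X + ((r * 2 - s * 3) • u + (r * 0 - s * 0) • w)) (by linarith) h2 fun τ' _ k => ?_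
  have hx : (τ' - s) / r ≤ -1/2 := by rw [div_le_iff₀ hr]; linarith
  exact lf_aff hr X u w (la1 hx) (by rw [lb1 hx]; ring : _ = (0:ℝ) + 0 * _)

lemma lf_str2 {τ : ℝ} (h1 : s - r/2 < τ) (h2 : τ < s) :
    StrAt (lf s r X u w) τ ((-3/2:ℝ) • u + (1:ℝ) • w) := by
  refine StrAt.of_affine (a := s - r/2) (b := s)
    (c := X + ((r * (-1/4) - s * (-3/2)) • u + (r * (1/2) - s * 1) • w)) h1 h2 fun τ' k1 k => ?_
  have hx : (τ' - s) / r ≤ 0 := by rw [div_le_iff₀ hr]; linarith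
  have hx' : -1/2 ≤ (τ' - s) / r := by rw [le_div_iff₀ hr]; linarith
  exact lf_aff hr X u w (la2 hx' hx) (lb2 hx' hx)

lemma lf_str3 {τ : ℝ} (h1 : s < τ) (h2 : τ < s + r/2) :
    StrAt (lf s r X u w) τ ((0:ℝ) • u + (-2:ℝ) • w) := by
  refine StrAt.of_affine (a := s) (b := s + r/2)
    (c := X + ((r * (-1/4) - s * 0) • u + (r * (1/2) - s * (-2)) • w)) h1 h2 fun τ' k1 k => ?_
  have hx : (τ' - s) / r ≤ 1/2 := by rw [div_le_iff₀ hr]; linarith
  have hx' : 0 ≤ (τ' - s) / r := by rw [le_div_iff₀ hr]; linarith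
  exact lf_aff hr X u w (by rw [la3 hx' hx]; ring : _ = (-1/4:ℝ) + 0 * _) (lb3 hx' hx)

lemma lf_str4 {τ : ℝ} (h1 : s + r/2 < τ) :
    StrAt (lf s r X u w) τ ((5/2:ℝ) • u + (1:ℝ) • w) := by
  refine StrAt.of_affine (a := s + r/2) (b := τ + 1)
    (c := X + ((r * (-3/2) - s * (5/2)) • u + (r * (-1) - s * 1) • w)) h1 (by linarith)
    fun τ' k1 k => ?_
  have hx' : 1/2 ≤ (τ' - s) / r := by rw [le_div_iff₀ hr]; linarith
  exact lf_aff hr X u w (la4 hx') (lb4 hx')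

omit hr in
lemma lf_eq {τ x α β : ℝ} (hr : 0 < r) (hx : τ = s + r * x) (ha : la x = α) (hb : lb x = β) :
    lf s r X u w τ = X + ((r * α) • u + (r * β) • w) := by
  unfold lf
  have : (τ - s) / r = x := by rw [hx, add_sub_cancel_left, mul_div_cancel_left₀ _ hr.ne']
  rw [this, ha, hb]

end str

namespace Clean

variable {p : Circ → ℂ} {s t : ℝ} {u w : ℂ} {r : ℝ}

/-- the curve with the loop inserted -/
noncomputable def loop (_ : Clean p s t u w r) : Circ → ℂ :=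
  splice p (s - r) (s + r) (lf s r (p s) u w)

lemma lf_eq_lf (C : Clean p s t u w r) {σ τ : ℝ} (h : σ < τ)
    (e : lf s r (p s) u w σ = lf s r (p s) u w τ) : σ = s + r * (-3/4) ∧ τ = s + r * (1/4) := by
  have hr := C.hr
  unfold lf at e
  obtain ⟨e1, e2⟩ := coord_inj C.dt (add_left_cancel e)
  have := lab_inj (div_lt_div_of_pos_right (by linarith : σ - s < τ - s) hr)
    (mul_left_cancel₀ hr.ne' e1) (mul_left_cancel₀ hr.ne' e2)
  obtain ⟨h1, h2⟩ := this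
  rw [div_eq_iff hr.ne'] at h1 h2
  constructor <;> linarith

lemma frac_bd (C : Clean p s t u w r) {σ : ℝ} (h1 : s - r ≤ σ) (h2 : σ ≤ s + r) :
    -1 ≤ (σ - s) / r ∧ (σ - s) / r ≤ 1 := by
  have hr := C.hr
  constructor
  · rw [le_div_iff₀ hr]; linarith
  · rw [div_le_iff₀ hr]; linarith

lemma abs_mul_le (C : Clean p s t u w r) {x : ℝ} (h : |x| ≤ 1) : |r * x| ≤ r := by
  have hr := C.hr
  rw [abs_mul, abs_of_pos hr]
  nlinarith [abs_nonneg x]

lemma lf_eq_p (C : Clean p s t u w r) {σ τ : ℝ} (h1 : s - r ≤ σ) (h2 : σ ≤ s + r)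
    (h3 : s + r < τ) (h4 : τ < s - r + 1) (e : lf s r (p s) u w σ = p τ) :
    (σ = s + r * (-2/3) ∧ τ = t) ∨ (σ = s + r * (-1/6) ∧ τ = t + r * (1/3)) ∨
    (σ = s + r * (3/5) ∧ τ = t + r * (-2/5)) := by
  have hr := C.hr
  have hst := C.hst
  have hts := C.hts
  obtain ⟨b1, b2⟩ := C.frac_bd h1 h2
  obtain ⟨b3, b4⟩ := lab_bound b1 b2
  have e' : p (τ : Circ) = p s + ((r * la ((σ - s) / r)) • u + (r * lb ((σ - s) / r)) • w) := e.symm
  have a1 := C.abs_mul_le b3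
  have a2 := C.abs_mul_le b4
  rcases C.s_cases a1 a2 e' with ⟨m1, m2⟩ | ⟨m1, m2⟩
  · exfalso
    rw [abs_le] at a1
    rcases eq_or_lt_of_le a1.1 with k | k
    · have : ((s + r * la ((σ - s) / r) : ℝ) : Circ) = ((s - r + 1 : ℝ) : Circ) := by
        rw [← k, coe_add_one, sub_eq_add_neg]
      rw [this, coe_eq_coe_iff (a := s) ⟨by linarith, by linarith⟩ ⟨by linarith, by linarith⟩] at m2
      linarith
    · rw [coe_eq_coe_iff (a := s - r) ⟨by linarith, by linarith⟩ ⟨by linarith, by linarith⟩] at m2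
      linarith
  · have hla : la ((σ - s) / r) = 0 := by
      rcases mul_eq_zero.1 m1 with h | h
      · linarith
      · exact h
    rw [abs_le] at a2
    rw [coe_eq_coe_iff (a := s - r) ⟨by linarith, by linarith⟩ ⟨by linarith, by linarith⟩] at m2
    rcases la_zero hla with ⟨k1, k2⟩ | ⟨k1, k2⟩ | ⟨k1, k2⟩
    · left
      rw [div_eq_iff hr.ne'] at k1
      rw [k2] at m2
      constructor <;> linarith
    · right; left
      rw [div_eq_iff hr.ne'] at k1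
      rw [k2] at m2
      constructor <;> linarith
    · right; right
      rw [div_eq_iff hr.ne'] at k1
      rw [k2] at m2
      constructor <;> linarith

lemma vel_t (C : Clean p s t u w r) {x : ℝ} (h : |x| < 1) :
    Vel p ((t + r * x : ℝ) : Circ) w := by
  have hr := C.hr
  rw [abs_lt] at h
  rw [vel_iff]
  refine StrAt.of_affine (a := t - r) (b := t + r) (c := p s - t • w) (by nlinarith) (by nlinarith)
    fun τ h1 h2 => ?_
  have := C.pt (τ - t) (by rw [abs_le]; constructor <;> linarith)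
  rw [add_sub_cancel] at this
  simp only [this, sub_smul]
  ring

lemma vel_s (C : Clean p s t u w r) {x : ℝ} (h : |x| < 1) :
    Vel p ((s + r * x : ℝ) : Circ) u := by
  have hr := C.hr
  rw [abs_lt] at h
  rw [vel_iff]
  refine StrAt.of_affine (a := s - r) (b := s + r) (c := p s - s • u) (by nlinarith) (by nlinarith)
    fun τ h1 h2 => ?_
  have := C.ps (τ - s) (by rw [abs_le]; constructor <;> linarith)
  rw [add_sub_cancel] at this
  simp only [this, sub_smul]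
  ring

lemma det_w (u w : ℂ) (α β : ℝ) : det (α • u + β • w) w = α * det u w := by
  unfold det
  simp only [Complex.add_re, Complex.add_im, Complex.smul_re, Complex.smul_im, smul_eq_mul]
  ring

lemma det_ne (C : Clean p s t u w r) {α β : ℝ} (h : α ≠ 0) : det (α • u + β • w) w ≠ 0 := by
  rw [det_w]
  exact mul_ne_zero h C.dt

lemma loop_good (C : Clean p s t u w r) :
    GoodSplice p (s - r) (s + r) (lf s r (p s) u w) := by
  have hr := C.hr
  have hst := C.hst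
  have hts := C.hts
  have hrr : |r| ≤ r := by rw [abs_of_pos hr]
  have hrr' : |-r| ≤ r := by rw [abs_neg, abs_of_pos hr]
  have hother : ∀ τ τ' : ℝ, s + r < τ' → τ' < s - r + 1 → τ' ≠ τ → s + r < τ → τ < s - r + 1 →
      ∀ x, |x| ≤ 1 → τ = t + r * x → p τ' ≠ p τ := by
    intro τ τ' h1 h2 h3 h4 h5 x hx hτ he
    have e1 : p τ' = p s + ((0:ℝ) • u + (r * x) • w) := by
      rw [he, hτ, C.pt _ (C.abs_mul_le hx)]; simp
    rcases C.s_cases (by simpa using hr.le) (C.abs_mul_le hx) e1 with ⟨_, m⟩ | ⟨_, m⟩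
    · rw [add_zero] at m
      rw [coe_eq_coe_iff (a := s - r) ⟨by linarith, by linarith⟩ ⟨by linarith, by linarith⟩] at m
      linarith
    · rw [← hτ, coe_eq_coe_iff (a := s - r) ⟨by linarith, by linarith⟩ ⟨by linarith, by linarith⟩] at m
      exact h3 m
  refine ⟨C.reg, by linarith, by linarith, ?_, C.s_not hrr hr.ne', (lf_PL s hr _ _ _).plOn _ _,
    ?_, ?_, ?_, ?_, ?_, ?_, ?_⟩
  · have := C.s_not hrr' (by linarith)
    rwa [← sub_eq_add_neg] at this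
  · rw [lf_eq (x := -1) _ _ _ hr (by ring) (la1 (by norm_num)) (lb1 (by norm_num)),
      sub_eq_add_neg, C.ps (-r) hrr']
    norm_num
  · rw [lf_eq (x := 1) _ _ _ hr (by ring) (la4 (by norm_num)) (lb4 (by norm_num)), C.ps r hrr]
    norm_num
  · refine ⟨{s + r * (-3/4), s + r * (1/4), s + r * (-2/3), s + r * (-1/6), s + r * (3/5), t,
      t + r * (1/3), t + r * (-2/5)}, by simp, ?_, ?_⟩
    · intro σ τ h1 h2 h3 h4
      obtain ⟨k1, k2⟩ := C.lf_eq_lf h2 h4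
      rw [k1, k2]; simp
    · intro σ τ h1 h2 h3 h4 h5
      rcases C.lf_eq_p h1 h2 h3 h4 h5 with ⟨k1, k2⟩ | ⟨k1, k2⟩ | ⟨k1, k2⟩ <;>
      · rw [k1, k2]; simp
  · intro σ τ h1 h2 h3 h4
    obtain ⟨k1, k2⟩ := C.lf_eq_lf h2 h4
    refine ⟨by linarith, by linarith, _, _, lf_str1 hr _ _ _ (by linarith),
      lf_str3 hr _ _ _ (by linarith) (by linarith), ?_⟩
    rw [det_comb]
    exact mul_ne_zero (by norm_num) C.dt
  · intro σ τ h1 h2 h3 h4 h5
    rcases C.lf_eq_p h1 h2 h3 h4 h5 with ⟨k1, k2⟩ | ⟨k1, k2⟩ | ⟨k1, k2⟩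
    · refine ⟨by linarith, by linarith, ?_, _, _, lf_str1 hr _ _ _ (by linarith),
        (by rw [k2]; simpa using C.vel_t (x := 0) (by norm_num)), C.det_ne (by norm_num)⟩
      intro τ' g1 g2 g3
      exact hother τ τ' g1 g2 g3 h3 h4 0 (by norm_num) (by rw [k2]; ring)
    · refine ⟨by linarith, by linarith, ?_, _, _, lf_str2 hr _ _ _ (by linarith) (by linarith),
        (by rw [k2]; exact C.vel_t (by rw [abs_lt]; constructor <;> norm_num)),
        C.det_ne (by norm_num)⟩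
      intro τ' g1 g2 g3
      exact hother τ τ' g1 g2 g3 h3 h4 (1/3) (by rw [abs_le]; constructor <;> norm_num) k2
    · refine ⟨by linarith, by linarith, ?_, _, _, lf_str4 hr _ _ _ (by linarith),
        (by rw [k2]; exact C.vel_t (by rw [abs_lt]; constructor <;> norm_num)),
        C.det_ne (by norm_num)⟩
      intro τ' g1 g2 g3
      exact hother τ τ' g1 g2 g3 h3 h4 (-2/5) (by rw [abs_le]; constructor <;> norm_num) k2
  · intro ρ σ τ h1 h2 h3 h4 e1 e2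
    obtain ⟨k1, k2⟩ := C.lf_eq_lf h2 e1
    obtain ⟨k3, k4⟩ := C.lf_eq_lf h3 e2
    linarith
  · intro ρ σ τ h1 h2 h3 h4 h5 e1 e2
    obtain ⟨k1, k2⟩ := C.lf_eq_lf h2 e1
    rcases C.lf_eq_p (by linarith) h3 h4 h5 e2 with ⟨k3, k4⟩ | ⟨k3, k4⟩ | ⟨k3, k4⟩ <;> linarith

end Clean

end Pool.Agent.H81
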