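import Pool.Agent.H81.Sign

namespace Pool.Agent.H81

open Set

/-- the four crossings created by the loop -/
noncomputable def X1 (s t r : ℝ) : Circ × Circ := (((s + r * (-2/3) : ℝ) : Circ), (t : Circ))
noncomputable def X2 (s t r : ℝ) : Circ × Circ :=
  (((s + r * (-1/6) : ℝ) : Circ), ((t + r * (1/3) : ℝ) : Circ))
noncomputable def X3 (s t r : ℝ) : Circ × Circ :=
  (((s + r * (3/5) : ℝ) : Circ), ((t + r * (-2/5) : ℝ) : Circ))
noncomputable def Yl (s r : ℝ) : Circ × Circ :=
  (((s + r * (-3/4) : ℝ) : Circ), ((s + r * (1/4) : ℝ) : Circ))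

namespace Clean

variable {p : Circ → ℂ} {s t : ℝ} {u w : ℂ} {r : ℝ}

lemma loop_reg (C : Clean p s t u w r) : IsRegular C.loop := C.loop_good.regular

lemma loop_agree (C : Clean p s t u w r) : Agree p C.loop (s - r) (s + r) := C.loop_good.agree

lemma loop_at_s (C : Clean p s t u w r) {x α β : ℝ} (h1 : -1 ≤ x) (h2 : x ≤ 1) (ha : la x = α)
    (hb : lb x = β) : C.loop ((s + r * x : ℝ) : Circ) = p s + ((r * α) • u + (r * β) • w) := by
  have hr := C.hr
  have hst := C.hst
  have hts := C.hts
  unfold loop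
  rw [C.loop_good.coe_le (by nlinarith) (by nlinarith) (by linarith)]
  exact lf_eq _ _ _ hr rfl ha hb

lemma loop_at_t (C : Clean p s t u w r) {x : ℝ} (h1 : -1 ≤ x) (h2 : x ≤ 1) :
    C.loop ((t + r * x : ℝ) : Circ) = p s + ((0:ℝ) • u + (r * x) • w) := by
  have hr := C.hr
  have hst := C.hst
  have hts := C.hts
  unfold loop
  rw [C.loop_good.coe_ge (by nlinarith) (by nlinarith), C.pt _ (by rw [abs_le]; constructor <;> nlinarith)]
  simp

lemma coe_ne (_ : Clean p s t u w r) {σ τ : ℝ} (h1 : s - r ≤ σ) (h2 : σ < s - r + 1)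
    (h3 : s - r ≤ τ) (h4 : τ < s - r + 1) (h : σ ≠ τ) : (σ : Circ) ≠ (τ : Circ) := fun h' =>
  h ((coe_eq_coe_iff (a := s - r) ⟨h1, h2⟩ ⟨h3, h4⟩).1 h')

lemma x1_cr (C : Clean p s t u w r) : IsCr C.loop (X1 s t r) := by
  have hr := C.hr
  have hst := C.hst
  have hts := C.hts
  refine ⟨C.coe_ne (by linarith) (by linarith) (by linarith) (by linarith) (by linarith), ?_⟩
  have e1 := C.loop_at_s (x := -2/3) (by norm_num) (by norm_num) (la1 (by norm_num)) (lb1 (by norm_num))
  have e2 := C.loop_at_t (x := 0) (by norm_num) (by norm_num)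
  rw [mul_zero, add_zero] at e2
  refine e1.trans (Eq.trans ?_ e2.symm)
  norm_num

lemma x2_cr (C : Clean p s t u w r) : IsCr C.loop (X2 s t r) := by
  have hr := C.hr
  have hst := C.hst
  have hts := C.hts
  refine ⟨C.coe_ne (by linarith) (by linarith) (by linarith) (by linarith) (by linarith), ?_⟩
  have e1 := C.loop_at_s (x := -1/6) (by norm_num) (by norm_num) (la2 (by norm_num) (by norm_num))
    (lb2 (by norm_num) (by norm_num))
  have e2 := C.loop_at_t (x := 1/3) (by norm_num) (by norm_num)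
  refine e1.trans (Eq.trans ?_ e2.symm)
  norm_num

lemma x3_cr (C : Clean p s t u w r) : IsCr C.loop (X3 s t r) := by
  have hr := C.hr
  have hst := C.hst
  have hts := C.hts
  refine ⟨C.coe_ne (by linarith) (by linarith) (by linarith) (by linarith) (by linarith), ?_⟩
  have e1 := C.loop_at_s (x := 3/5) (by norm_num) (by norm_num) (la4 (by norm_num))
    (lb4 (by norm_num))
  have e2 := C.loop_at_t (x := -2/5) (by norm_num) (by norm_num)
  refine e1.trans (Eq.trans ?_ e2.symm)
  norm_num

lemma y_cr (C : Clean p s t u w r) : IsCr C.loop (Yl s r) := by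
  have hr := C.hr
  have hst := C.hst
  have hts := C.hts
  refine ⟨C.coe_ne (by linarith) (by linarith) (by linarith) (by linarith) (by linarith), ?_⟩
  have e1 := C.loop_at_s (x := -3/4) (by norm_num) (by norm_num) (la1 (by norm_num)) (lb1 (by norm_num))
  have e2 := C.loop_at_s (x := 1/4) (by norm_num) (by norm_num) (la3 (by norm_num) (by norm_num))
    (lb3 (by norm_num) (by norm_num))
  refine e1.trans (Eq.trans ?_ e2.symm)
  norm_num

/-- all the crossings of the new curve with a foot in the arc -/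
lemma loop_cases (C : Clean p s t u w r) {θ θ' : Circ} (h : IsDbl C.loop θ θ')
    (hθ : lift (s - r) θ ≤ s + r) : (θ, θ') = X1 s t r ∨ (θ, θ') = X2 s t r ∨ (θ, θ') = X3 s t r ∨
    (θ, θ') = Yl s r ∨ (θ, θ') = (Yl s r).swap := by
  have hr := C.hr
  rcases lt_or_gt_of_ne (lift_ne (a := s - r) h.1) with hlt | hlt
  · rcases C.loop_good.dbl_cases h hlt with ⟨k1, k2⟩ | ⟨k0, k1, k2⟩ | ⟨k1, k2⟩
    · obtain ⟨e1, e2⟩ := C.lf_eq_lf hlt k2
      right; right; right; left
      rw [← coe_lift (s - r) θ, ← coe_lift (s - r) θ', e1, e2]; rfl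
    · rw [← coe_lift (s - r) θ'] at k2
      rcases C.lf_eq_p (le_lift _ θ) k0 k1 (lift_lt _ θ') k2 with ⟨e1, e2⟩ | ⟨e1, e2⟩ | ⟨e1, e2⟩
      · left
        rw [← coe_lift (s - r) θ, ← coe_lift (s - r) θ', e1, e2]; rfl
      · right; left
        rw [← coe_lift (s - r) θ, ← coe_lift (s - r) θ', e1, e2]; rfl
      · right; right; left
        rw [← coe_lift (s - r) θ, ← coe_lift (s - r) θ', e1, e2]; rfl
    · linarith
  · rcases C.loop_good.dbl_cases h.symm hlt with ⟨k1, k2⟩ | ⟨k0, k1, k2⟩ | ⟨k1, k2⟩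
    · obtain ⟨e1, e2⟩ := C.lf_eq_lf hlt k2
      right; right; right; right
      rw [← coe_lift (s - r) θ, ← coe_lift (s - r) θ', e1, e2]; rfl
    · linarith
    · linarith

lemma p_cases (C : Clean p s t u w r) {θ θ' : Circ} (h : IsDbl p θ θ')
    (hθ : lift (s - r) θ ≤ s + r) : θ = (s : Circ) ∧ θ' = (t : Circ) := by
  have hr := C.hr
  have hst := C.hst
  have hts := C.hts
  have h1 := le_lift (s - r) θ
  have hs : θ = (s : Circ) := by
    by_contra hne
    have hc := coe_lift (s - r) θ
    obtain ⟨m, _⟩ := C.foot_away h.left_mem hc (fun h' => hne (by rw [← hc, h'])) (by linarith)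
    rw [lt_abs] at m
    rcases m with m | m <;> linarith
  refine ⟨hs, ?_⟩
  rw [hs] at h
  exact C.reg.uniq h C.isCr

/-- lifts of the crossing feet for base points near `s` -/
lemma lift_s (C : Clean p s t u w r) {x a : ℝ} (ha : s - r ≤ a) (ha' : a < s + r)
    (h1 : a ≤ s + r * x) (h2 : x ≤ 1) : lift a ((s + r * x : ℝ) : Circ) = s + r * x := by
  have hr := C.hr
  have hst := C.hst
  have hts := C.hts
  exact lift_coe ⟨h1, by nlinarith⟩

lemma lift_s' (C : Clean p s t u w r) {x a : ℝ} (ha : s - r ≤ a) (ha' : a < s + r)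
    (h1 : s + r * x < a) (h2 : -1 ≤ x) : lift a ((s + r * x : ℝ) : Circ) = s + r * x + 1 := by
  have hr := C.hr
  have hst := C.hst
  have hts := C.hts
  exact lift_eq_of (coe_add_one _) (by nlinarith) (by linarith)

lemma lift_t (C : Clean p s t u w r) {x a : ℝ} (ha : s - r ≤ a) (ha' : a < s + r)
    (h1 : -1 ≤ x) (h2 : x ≤ 1) : lift a ((t + r * x : ℝ) : Circ) = t + r * x := by
  have hr := C.hr
  have hst := C.hst
  have hts := C.hts
  exact lift_coe ⟨by nlinarith, by nlinarith⟩

lemma lift_t0 (C : Clean p s t u w r) {a : ℝ} (ha : s - r ≤ a) (ha' : a < s + r) :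
    lift a (t : Circ) = t := by
  have := C.lift_t (x := 0) ha ha' (by norm_num) (by norm_num)
  simpa using this

lemma AF_loop (C : Clean p s t u w r) : AF C.loop (s - r) (s + r) =
    (open Classical in {(Yl s r).1, (X1 s t r).1, (X2 s t r).1, (X3 s t r).1}) := by
  classical
  have hr := C.hr
  have hst := C.hst
  have hts := C.hts
  have l0 : s - r ≤ s - r := le_rfl
  have l1 : s - r < s + r := by linarith
  have key : ∀ x : Circ × Circ, IsCr C.loop x → lift (s - r) x.1 < s + r →
      lift (s - r) x.1 < lift (s - r) x.2 → x.1 ∈ AF C.loop (s - r) (s + r) := by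
    intro x hx h1 h2
    rw [mem_AF C.loop_reg, ptn_eq C.loop_reg hx]
    exact ⟨hx.left_mem, h1, h2⟩
  ext θ
  simp only [Finset.mem_insert, Finset.mem_singleton]
  constructor
  · intro h
    rw [mem_AF C.loop_reg] at h
    obtain ⟨h1, h2, h3⟩ := h
    rcases C.loop_cases (ptn_spec h1) h2.le with k | k | k | k | k
    · exact Or.inr (Or.inl (congrArg Prod.fst k))
    · exact Or.inr (Or.inr (Or.inl (congrArg Prod.fst k)))
    · exact Or.inr (Or.inr (Or.inr (congrArg Prod.fst k)))
    · exact Or.inl (congrArg Prod.fst k)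
    · exfalso
      have k1 : θ = (Yl s r).2 := congrArg Prod.fst k
      have k2 : ptn C.loop θ = (Yl s r).1 := congrArg Prod.snd k
      rw [k2, k1] at h3
      unfold Yl at h3
      simp only at h3
      rw [C.lift_s l0 l1 (by linarith) (by norm_num),
        C.lift_s l0 l1 (by linarith) (by norm_num)] at h3
      linarith
  · rintro (rfl | rfl | rfl | rfl)
    · refine key _ C.y_cr ?_ ?_ <;> unfold Yl <;> simp only
      · rw [C.lift_s l0 l1 (by linarith) (by norm_num)]; linarith
      · rw [C.lift_s l0 l1 (by linarith) (by norm_num), C.lift_s l0 l1 (by linarith) (by norm_num)]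
        linarith
    · refine key _ C.x1_cr ?_ ?_ <;> unfold X1 <;> simp only
      · rw [C.lift_s l0 l1 (by linarith) (by norm_num)]; linarith
      · rw [C.lift_s l0 l1 (by linarith) (by norm_num), C.lift_t0 l0 l1]
        linarith
    · refine key _ C.x2_cr ?_ ?_ <;> unfold X2 <;> simp only
      · rw [C.lift_s l0 l1 (by linarith) (by norm_num)]; linarith
      · rw [C.lift_s l0 l1 (by linarith) (by norm_num),
          C.lift_t l0 l1 (by norm_num) (by norm_num)]
        linarith
    · refine key _ C.x3_cr ?_ ?_ <;> unfold X3 <;> simp only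
      · rw [C.lift_s l0 l1 (by linarith) (by norm_num)]; linarith
      · rw [C.lift_s l0 l1 (by linarith) (by norm_num),
          C.lift_t l0 l1 (by norm_num) (by norm_num)]
        linarith

lemma AF_p (C : Clean p s t u w r) : AF p (s - r) (s + r) = {(s : Circ)} := by
  have hr := C.hr
  have hst := C.hst
  have hts := C.hts
  have l0 : s - r ≤ s - r := le_rfl
  have l1 : s - r < s + r := by linarith
  have e1 : lift (s - r) (s : Circ) = s := lift_coe ⟨by linarith, by linarith⟩
  ext θ
  rw [mem_AF C.reg, Finset.mem_singleton]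
  constructor
  · rintro ⟨h1, h2, h3⟩
    exact (C.p_cases (ptn_spec h1) h2.le).1
  · rintro rfl
    have e2 : ptn p (s : Circ) = (t : Circ) := ptn_eq C.reg C.isCr
    rw [e2, C.lift_t0 l0 l1, e1]
    exact ⟨C.isCr.left_mem, by linarith, C.hs1⟩

/-- the crossings created by the loop are pairwise different; crossings outside stay -/
lemma ne_x (C : Clean p s t u w r) : (Yl s r).1 ≠ (X1 s t r).1 ∧ (Yl s r).1 ≠ (X2 s t r).1 ∧
    (Yl s r).1 ≠ (X3 s t r).1 ∧ (X1 s t r).1 ≠ (X2 s t r).1 ∧ (X1 s t r).1 ≠ (X3 s t r).1 ∧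
    (X2 s t r).1 ≠ (X3 s t r).1 := by
  have hr := C.hr
  have hst := C.hst
  have hts := C.hts
  refine ⟨?_, ?_, ?_, ?_, ?_, ?_⟩ <;>
    exact C.coe_ne (by linarith) (by linarith) (by linarith) (by linarith) (by linarith)

lemma s_x1x2 (C : Clean p s t u w r) : Sep (X1 s t r) (X2 s t r) := by
  have hr := C.hr; have hst := C.hst; have hts := C.hts
  refine C.loop_reg.sep C.x1_cr C.x2_cr ?_ ?_ <;>
    exact C.coe_ne (by linarith) (by linarith) (by linarith) (by linarith) (by linarith)

lemma s_x1x3 (C : Clean p s t u w r) : Sep (X1 s t r) (X3 s t r) := by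
  have hr := C.hr; have hst := C.hst; have hts := C.hts
  refine C.loop_reg.sep C.x1_cr C.x3_cr ?_ ?_ <;>
    exact C.coe_ne (by linarith) (by linarith) (by linarith) (by linarith) (by linarith)

lemma s_x1y (C : Clean p s t u w r) : Sep (X1 s t r) (Yl s r) := by
  have hr := C.hr; have hst := C.hst; have hts := C.hts
  refine C.loop_reg.sep C.x1_cr C.y_cr ?_ ?_ <;>
    exact C.coe_ne (by linarith) (by linarith) (by linarith) (by linarith) (by linarith)

lemma s_out (C : Clean p s t u w r) {x y : Circ × Circ} (hx : Out p (s - r) (s + r) x)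
    (hy : IsCr C.loop y) (h1 : lift (s - r) y.1 ≤ s + r) : Sep x y := by
  have hx' := hx.tr C.loop_agree
  refine (C.loop_reg.sep hy hx'.cr ?_ ?_).symm
  · intro h; have := hx.o1; rw [← h] at this; linarith
  · intro h; have := hx.o2; rw [← h] at this; linarith

lemma lift_x1 (C : Clean p s t u w r) : lift (s - r) (X1 s t r).1 ≤ s + r := by
  have hr := C.hr
  unfold X1; simp only
  rw [C.lift_s le_rfl (by linarith) (by linarith) (by norm_num)]; linarith

lemma lift_x2 (C : Clean p s t u w r) : lift (s - r) (X2 s t r).1 ≤ s + r := by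
  have hr := C.hr
  unfold X2; simp only
  rw [C.lift_s le_rfl (by linarith) (by linarith) (by norm_num)]; linarith

lemma lift_x3 (C : Clean p s t u w r) : lift (s - r) (X3 s t r).1 ≤ s + r := by
  have hr := C.hr
  unfold X3; simp only
  rw [C.lift_s le_rfl (by linarith) (by linarith) (by norm_num)]; linarith

lemma lift_y (C : Clean p s t u w r) : lift (s - r) (Yl s r).1 ≤ s + r := by
  have hr := C.hr
  unfold Yl; simp only
  rw [C.lift_s le_rfl (by linarith) (by linarith) (by norm_num)]; linarith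

lemma cr_of {q : Circ → ℂ} (hq : IsRegular q) {x : Circ × Circ} (h : IsCr q x) : cr q x.1 = x := by
  unfold cr; rw [ptn_eq hq h]

/-- first identity for the loop -/
theorem loop_sum {v : (Circ → ℂ × ℝ) → ℝ} (hv : IsInv v) (C : Clean p s t u w r)
    {x x' : Circ × Circ} (hs : Sep x x') (h1 : Out p (s - r) (s + r) x)
    (h2 : Out p (s - r) (s + r) x') :
    cc v p x x' ((s : Circ), (t : Circ)) = cc v C.loop x x' (X1 s t r) +
      cc v C.loop x x' (X2 s t r) + cc v C.loop x x' (X3 s t r) := by
  classical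
  have hr := C.hr
  have hst := C.hst
  have hts := C.hts
  have key := arc_identity hv C.loop_agree hs h1 h2
  rw [C.AF_p, C.AF_loop, Finset.sum_singleton] at key
  obtain ⟨n1, n2, n3, n4, n5, n6⟩ := C.ne_x
  rw [Finset.sum_insert (by simp [n1, n2, n3]), Finset.sum_insert (by simp [n4, n5]),
    Finset.sum_insert (by simp [n6]), Finset.sum_singleton, cr_of C.loop_reg C.y_cr,
    cr_of C.loop_reg C.x1_cr, cr_of C.loop_reg C.x2_cr, cr_of C.loop_reg C.x3_cr] at key
  have hcrp : cr p (s : Circ) = ((s : Circ), (t : Circ)) := cr_of C.reg C.isCr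
  rw [hcrp] at key
  have g1 := h1.tr C.loop_agree
  have g2 := h2.tr C.loop_agree
  have hy : cc v C.loop x x' (Yl s r) = 0 := by
    have tri : Tri C.loop x x' (Yl s r) :=
      ⟨g1.cr, g2.cr, C.y_cr, hs, C.s_out h1 C.y_cr C.lift_y, C.s_out h2 C.y_cr C.lift_y⟩
    -- lifts of outside feet
    have hl : ∀ θ : Circ, s + r < lift (s - r) θ → s + r * (1/4) < lift (s + r * (-3/4)) θ := by
      intro θ hθ
      have := lift_lt (s - r) θ
      rw [lift_eq_of (a := s + r * (-3/4)) (coe_lift (s - r) θ) (by linarith) (by linarith)]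
      linarith
    exact cc_zero hv C.loop_reg (s := s + r * (-3/4)) (t := s + r * (1/4)) (by linarith)
      (by linarith) tri (hl _ h1.o1) (hl _ h1.o2) (hl _ h2.o1) (hl _ h2.o2)
  rw [hy] at key
  linarith

/-! ### velocities of the loop -/

lemma vel_x1 (C : Clean p s t u w r) : Vel C.loop (X1 s t r).1 ((3:ℝ) • u + (0:ℝ) • w) :=
  C.loop_good.vel_in (by linarith [C.hr]) (by linarith [C.hr])
    (lf_str1 C.hr _ _ _ (by linarith [C.hr]))

lemma vel_x2 (C : Clean p s t u w r) : Vel C.loop (X2 s t r).1 ((-3/2:ℝ) • u + (1:ℝ) • w) :=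
  C.loop_good.vel_in (by linarith [C.hr]) (by linarith [C.hr])
    (lf_str2 C.hr _ _ _ (by linarith [C.hr]) (by linarith [C.hr]))

lemma vel_x3 (C : Clean p s t u w r) : Vel C.loop (X3 s t r).1 ((5/2:ℝ) • u + (1:ℝ) • w) :=
  C.loop_good.vel_in (by linarith [C.hr]) (by linarith [C.hr])
    (lf_str4 C.hr _ _ _ (by linarith [C.hr]))

lemma vel_y1 (C : Clean p s t u w r) : Vel C.loop (Yl s r).1 ((3:ℝ) • u + (0:ℝ) • w) :=
  C.loop_good.vel_in (by linarith [C.hr]) (by linarith [C.hr])
    (lf_str1 C.hr _ _ _ (by linarith [C.hr]))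

lemma vel_y2 (C : Clean p s t u w r) : Vel C.loop (Yl s r).2 ((0:ℝ) • u + (-2:ℝ) • w) :=
  C.loop_good.vel_in (by linarith [C.hr]) (by linarith [C.hr])
    (lf_str3 C.hr _ _ _ (by linarith [C.hr]) (by linarith [C.hr]))

lemma vel_lt (C : Clean p s t u w r) {x : ℝ} (h : |x| < 1) :
    Vel C.loop ((t + r * x : ℝ) : Circ) w := by
  have hr := C.hr
  have hst := C.hst
  have hts := C.hts
  have h' := abs_lt.1 h
  exact C.loop_good.vel_out (by nlinarith) (by nlinarith) (C.vel_t h)

lemma sg_p (C : Clean p s t u w r) : sgc p ((s : Circ), (t : Circ)) = sgn (det u w) := by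
  refine sgc_eq ?_ ?_
  · have := C.vel_s (x := 0) (by norm_num); simpa using this
  · have := C.vel_t (x := 0) (by norm_num); simpa using this

lemma sg_x1 (C : Clean p s t u w r) : sgc C.loop (X1 s t r) = sgn (det u w) := by
  rw [sgc_eq C.vel_x1 (w := w) ?_, det_w, sgn_mul_pos (by norm_num)]
  show Vel C.loop (t : Circ) w
  have := C.vel_lt (x := 0) (by norm_num); simpa using this

lemma sg_x2 (C : Clean p s t u w r) : sgc C.loop (X2 s t r) = - sgn (det u w) := by
  rw [sgc_eq C.vel_x2 (C.vel_lt (x := 1/3) (by rw [abs_lt]; constructor <;> norm_num)), det_w,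
    sgn_mul_neg (by norm_num) C.dt]

lemma sg_x3 (C : Clean p s t u w r) : sgc C.loop (X3 s t r) = sgn (det u w) := by
  rw [sgc_eq C.vel_x3 (C.vel_lt (x := -2/5) (by rw [abs_lt]; constructor <;> norm_num)), det_w,
    sgn_mul_pos (by norm_num)]

lemma sg_y (C : Clean p s t u w r) : sgc C.loop (Yl s r) = - sgn (det u w) := by
  rw [sgc_eq C.vel_y1 C.vel_y2, det_comb, sgn_mul_neg (by norm_num) C.dt]

/-! ### the four term relation -/

lemma chord_good (C : Clean p s t u w r) :
    GoodSplice C.loop (s + r * (-1/2)) (s + r)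
      (seg (s + r * (-1/2)) (s + r) (p s) u w (r * (1/2)) 0 r 0) ∧
    AF (splice C.loop (s + r * (-1/2)) (s + r)
      (seg (s + r * (-1/2)) (s + r) (p s) u w (r * (1/2)) 0 r 0)) (s + r * (-1/2)) (s + r) = ∅ := by
  have hr := C.hr
  have hst := C.hst
  have hts := C.hts
  have hb : ((s + r : ℝ) : Circ) ∉ feet C.loop := C.loop_agree.b1
  have ha : ((s + r * (-1/2) : ℝ) : Circ) ∉ feet C.loop := by
    rintro ⟨θ, hne, h⟩
    have hd : IsDbl C.loop ((s + r * (-1/2) : ℝ) : Circ) θ := ⟨hne.symm, h.symm⟩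
    have hl : lift (s - r) ((s + r * (-1/2) : ℝ) : Circ) = s + r * (-1/2) :=
      C.lift_s le_rfl (by linarith) (by linarith) (by norm_num)
    have hcase : ∀ y : ℝ, -1 ≤ y → y ≤ 1 → ((s + r * (-1/2) : ℝ) : Circ) = ((s + r * y : ℝ) : Circ) →
        y = -1/2 := by
      intro y h1 h2 h3
      rw [coe_eq_coe_iff (a := s - r) ⟨by nlinarith, by nlinarith⟩ ⟨by nlinarith, by nlinarith⟩] at h3
      nlinarith
    rcases C.loop_cases hd (by rw [hl]; linarith) with k | k | k | k | k
    · have := hcase (-2/3) (by norm_num) (by norm_num) (congrArg Prod.fst k); norm_num at this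
    · have := hcase (-1/6) (by norm_num) (by norm_num) (congrArg Prod.fst k); norm_num at this
    · have := hcase (3/5) (by norm_num) (by norm_num) (congrArg Prod.fst k); norm_num at this
    · have := hcase (-3/4) (by norm_num) (by norm_num) (congrArg Prod.fst k); norm_num at this
    · have := hcase (1/4) (by norm_num) (by norm_num) (congrArg Prod.fst k); norm_num at this
  refine clean_splice C.loop_reg (by linarith) (by linarith) ha hb
    ((seg_isPLR _ _ _ _ _ _ _ _ _).plOn _ _) ?_ ?_ ?_ ?_
  · rw [seg_left, C.loop_at_s (by norm_num) (by norm_num) (la1 (by norm_num)) (lb1 (by norm_num))]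
    norm_num
  · rw [seg_right (by linarith)]
    have := C.loop_at_s (x := 1) (by norm_num) (by norm_num) (la4 (by norm_num)) (lb4 (by norm_num))
    rw [mul_one] at this
    rw [this]; norm_num
  · intro σ τ h1 h2 h3 h4
    unfold seg at h4
    have := (coord_inj C.dt (add_left_cancel h4)).1
    have h5 : (σ - (s + r * (-1/2))) / (s + r - (s + r * (-1/2))) <
        (τ - (s + r * (-1/2))) / (s + r - (s + r * (-1/2))) :=
      div_lt_div_of_pos_right (by linarith) (by linarith)
    nlinarith
  · intro σ τ h1 h2 h3 h4 h5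
    obtain ⟨g1, g2⟩ := frac_mem (by linarith : s + r * (-1/2) < s + r) h1 h2
    unfold seg at h5
    set l := (σ - (s + r * (-1/2))) / (s + r - (s + r * (-1/2))) with hl
    rw [show (0:ℝ) + l * (0 - 0) = 0 by ring] at h5
    have b1 : r * (1/2) ≤ r * (1/2) + l * (r - r * (1/2)) := by nlinarith
    have b2 : r * (1/2) + l * (r - r * (1/2)) ≤ r := by nlinarith
    rcases le_or_gt τ (s - r + 1) with h6 | h6
    · -- outside of the loop
      have e : C.loop (τ : Circ) = p τ := C.loop_good.coe_ge h3.le h6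
      rw [e] at h5
      rcases C.s_cases (by rw [abs_le]; constructor <;> linarith) (by simpa using hr.le) h5.symm with
        ⟨_, m2⟩ | ⟨m1, m2⟩
      · rcases h6.eq_or_lt with h7 | h7
        · rw [h7, coe_add_one, coe_eq_coe_iff (a := s - r) ⟨by linarith, by linarith⟩
            ⟨by linarith, by linarith⟩] at m2
          linarith
        · rw [coe_eq_coe_iff (a := s - r) ⟨by linarith, by linarith⟩
            ⟨by linarith, by linarith⟩] at m2
          linarith
      · linarith
    · -- on the first part of the loop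
      have hx : τ = (s + r * ((τ - 1 - s) / r)) + 1 := by
        rw [mul_div_cancel₀ _ hr.ne']; ring
      have x1 : -1 ≤ (τ - 1 - s) / r := by rw [le_div_iff₀ hr]; linarith
      have x2 : (τ - 1 - s) / r < -1/2 := by rw [div_lt_iff₀ hr]; linarith
      have e : C.loop (τ : Circ) = p s +
          ((r * (2 + 3 * ((τ - 1 - s) / r))) • u + (r * 0) • w) := by
        rw [hx, coe_add_one]
        have := C.loop_at_s x1 (by linarith) (la1 x2.le) (lb1 x2.le)
        rw [this]
        congr 4
        rw [mul_div_cancel₀ _ hr.ne']; ring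
      rw [e] at h5
      have := (coord_inj C.dt (add_left_cancel h5)).1
      nlinarith

lemma AF_loop' (C : Clean p s t u w r) : AF C.loop (s + r * (-1/2)) (s + r) =
    (open Classical in {(X2 s t r).1, (Yl s r).2, (X3 s t r).1}) := by
  classical
  have hr := C.hr
  have hst := C.hst
  have hts := C.hts
  have l0 : s - r ≤ s + r * (-1/2) := by linarith
  have l1 : s + r * (-1/2) < s + r := by linarith
  have key : ∀ x : Circ × Circ, IsCr C.loop x → lift (s + r * (-1/2)) x.1 < s + r →
      lift (s + r * (-1/2)) x.1 < lift (s + r * (-1/2)) x.2 → x.1 ∈ AF C.loop (s + r * (-1/2)) (s + r) := by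
    intro x hx h1 h2
    rw [mem_AF C.loop_reg, ptn_eq C.loop_reg hx]
    exact ⟨hx.left_mem, h1, h2⟩
  ext θ
  simp only [Finset.mem_insert, Finset.mem_singleton]
  constructor
  · intro h
    rw [mem_AF C.loop_reg] at h
    obtain ⟨h1, h2, h3⟩ := h
    have hl : lift (s - r) θ = lift (s + r * (-1/2)) θ :=
      lift_eq_of (coe_lift _ θ) (by linarith [le_lift (s + r * (-1/2)) θ]) (by linarith)
    have h4 := le_lift (s + r * (-1/2)) θ
    rcases C.loop_cases (ptn_spec h1) (by rw [hl]; exact h2.le) with k | k | k | k | k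
    · exfalso
      have k1 : θ = (X1 s t r).1 := congrArg Prod.fst k
      rw [← hl, k1] at h4
      unfold X1 at h4; simp only at h4
      rw [C.lift_s le_rfl (by linarith) (by linarith) (by norm_num)] at h4
      linarith
    · exact Or.inl (congrArg Prod.fst k)
    · exact Or.inr (Or.inr (congrArg Prod.fst k))
    · exfalso
      have k1 : θ = (Yl s r).1 := congrArg Prod.fst k
      rw [← hl, k1] at h4
      unfold Yl at h4; simp only at h4
      rw [C.lift_s le_rfl (by linarith) (by linarith) (by norm_num)] at h4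
      linarith
    · exact Or.inr (Or.inl (congrArg Prod.fst k))
  · rintro (rfl | rfl | rfl)
    · refine key _ C.x2_cr ?_ ?_ <;> unfold X2 <;> simp only
      · rw [C.lift_s l0 l1 (by linarith) (by norm_num)]; linarith
      · rw [C.lift_s l0 l1 (by linarith) (by norm_num),
          C.lift_t l0 l1 (by norm_num) (by norm_num)]
        linarith
    · refine key (Yl s r).swap C.y_cr.swap ?_ ?_ <;> unfold Yl <;> simp only [Prod.swap]
      · rw [C.lift_s l0 l1 (by linarith) (by norm_num)]; linarith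
      · rw [C.lift_s l0 l1 (by linarith) (by norm_num), C.lift_s' l0 l1 (by linarith) (by norm_num)]
        linarith
    · refine key _ C.x3_cr ?_ ?_ <;> unfold X3 <;> simp only
      · rw [C.lift_s l0 l1 (by linarith) (by norm_num)]; linarith
      · rw [C.lift_s l0 l1 (by linarith) (by norm_num),
          C.lift_t l0 l1 (by norm_num) (by norm_num)]
        linarith

/-- **four term relation** at a clean crossing -/
theorem four_term {v : (Circ → ℂ × ℝ) → ℝ} (hv : IsInv v) (C : Clean p s t u w r)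
    {x : Circ × Circ} (h1 : Out p (s - r) (s + r) x) :
    E v C.loop (X1 s t r) x (X2 s t r) = E v C.loop (X1 s t r) x (Yl s r) +
      E v C.loop (X1 s t r) x (X3 s t r) := by
  classical
  have hr := C.hr
  have hst := C.hst
  have hts := C.hts
  obtain ⟨H, hAF⟩ := C.chord_good
  have l0 : s - r ≤ s + r * (-1/2) := by linarith
  have l1 : s + r * (-1/2) < s + r := by linarith
  have g1 := h1.tr C.loop_agree
  have hl : ∀ θ : Circ, s + r < lift (s - r) θ → s + r < lift (s + r * (-1/2)) θ := by
    intro θ hθ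
    have := lift_lt (s - r) θ
    rw [lift_eq_of (a := s + r * (-1/2)) (coe_lift (s - r) θ) (by linarith) (by linarith)]
    linarith
  have o1 : Out C.loop (s + r * (-1/2)) (s + r) (X1 s t r) := by
    refine ⟨C.x1_cr, ?_, ?_⟩ <;> unfold X1 <;> simp only
    · rw [C.lift_s' l0 l1 (by linarith) (by norm_num)]; linarith
    · rw [C.lift_t0 l0 l1]; linarith
  have o2 : Out C.loop (s + r * (-1/2)) (s + r) x := ⟨g1.cr, hl _ h1.o1, hl _ h1.o2⟩
  have sx1 : Sep x (X1 s t r) := C.s_out h1 C.x1_cr C.lift_x1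
  have sx2 : Sep x (X2 s t r) := C.s_out h1 C.x2_cr C.lift_x2
  have sx3 : Sep x (X3 s t r) := C.s_out h1 C.x3_cr C.lift_x3
  have sy : Sep x (Yl s r) := C.s_out h1 C.y_cr C.lift_y
  have key := arc_identity hv H.agree sx1.symm o1 o2
  rw [hAF, C.AF_loop', Finset.sum_empty] at key
  have n1 : (X2 s t r).1 ≠ (Yl s r).2 :=
    C.coe_ne (by linarith) (by linarith) (by linarith) (by linarith) (by linarith)
  have n2 : (X2 s t r).1 ≠ (X3 s t r).1 := C.ne_x.2.2.2.2.2
  have n3 : (Yl s r).2 ≠ (X3 s t r).1 :=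
    C.coe_ne (by linarith) (by linarith) (by linarith) (by linarith) (by linarith)
  have ey : cr C.loop (Yl s r).2 = (Yl s r).swap := cr_of C.loop_reg C.y_cr.swap
  rw [Finset.sum_insert (by simp [n1, n2]), Finset.sum_insert (by simp [n3]),
    Finset.sum_singleton, ey, cr_of C.loop_reg C.x2_cr, cr_of C.loop_reg C.x3_cr] at key
  have ty : Tri C.loop (X1 s t r) x (Yl s r) := ⟨C.x1_cr, g1.cr, C.y_cr, sx1.symm, C.s_x1y, sy⟩
  rw [cc_swap3 hv C.loop_reg ty] at key
  unfold E
  rw [C.sg_x1, C.sg_x2, C.sg_x3, C.sg_y]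
  have hsq := sgn_sq (det u w)
  set σ := sgn (det u w)
  linear_combination (-σ * σ * sgc C.loop x) * key

end Clean

end Pool.Agent.H81
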