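import Pool.Agent.H81.Fan

namespace Pool.Agent.H81

open Set

/-- height profile: `1 → 0` on `[a,b]`, `0 → -1` on `[b,b+δ]`, `-1` up to `a+1-δ`,
then `-1 → 1`. -/
noncomputable def prof (a b δ τ : ℝ) : ℝ :=
  max (max (-1) (min (1 - (1 / (b - a)) * (τ - a)) (-((1/δ) * (τ - b)))))
    (-1 + (2/δ) * (τ - (a + 1 - δ)))

section prof
variable {a b δ : ℝ}

lemma prof_isPLR (a b δ : ℝ) : IsPLR (prof a b δ) := by
  unfold prof
  have h : ∀ c : ℝ, IsPLR (fun τ : ℝ => τ - c) := fun c => IsPLR.id.sub (IsPLR.const c)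
  exact (((IsPLR.const (-1:ℝ)).max (((IsPLR.const (1:ℝ)).sub ((h a).mul _)).min ((h b).mul _).neg))).max
    ((IsPLR.const (-1:ℝ)).add ((h _).mul _))

lemma prof1 (hab : a < b) (hδ : 0 < δ) (hδb : δ ≤ b - a) (hb : b + δ ≤ a + 1 - δ) {τ : ℝ}
    (h2 : τ ≤ b) :
    prof a b δ τ = 1 - (1 / (b - a)) * (τ - a) := by
  unfold prof
  have hba : 0 < b - a := by linarith
  have k1 : (1 / (b - a)) * (τ - a) ≤ 1 := by
    rw [one_div, inv_mul_le_iff₀ hba]; linarith
  have k2 : 1 - (1 / (b - a)) * (τ - a) = (1/(b-a)) * (b - τ) := by field_simp; ring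
  have k3 : (1/(b-a)) * (b - τ) ≤ (1/δ) * (b - τ) :=
    mul_le_mul_of_nonneg_right (one_div_le_one_div_of_le hδ hδb) (by linarith)
  rw [min_eq_left (by rw [k2]; linarith), max_eq_right (a := (-1:ℝ)) (by linarith), max_eq_left]
  have : (2/δ) * (τ - (a + 1 - δ)) ≤ 0 :=
    mul_nonpos_of_nonneg_of_nonpos (by positivity) (by linarith)
  linarith

lemma prof2 (hab : a < b) (hδ : 0 < δ) (hδb : δ ≤ b - a) (hb : b + δ ≤ a + 1 - δ) {τ : ℝ} (h1 : b ≤ τ) (h2 : τ ≤ b + δ) :
    prof a b δ τ = -((1/δ) * (τ - b)) := by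
  unfold prof
  have hba : 0 < b - a := by linarith
  have k2 : 1 - (1 / (b - a)) * (τ - a) = -((1/(b-a)) * (τ - b)) := by field_simp; ring
  have k3 : (1/(b-a)) * (τ - b) ≤ (1/δ) * (τ - b) :=
    mul_le_mul_of_nonneg_right (one_div_le_one_div_of_le hδ hδb) (by linarith)
  have k1 : (1 / δ) * (τ - b) ≤ 1 := by
    rw [one_div, inv_mul_le_iff₀ hδ]; linarith
  rw [min_eq_right (by rw [k2]; linarith), max_eq_right (a := (-1:ℝ)) (by linarith), max_eq_left]
  have : (2/δ) * (τ - (a + 1 - δ)) ≤ 0 :=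
    mul_nonpos_of_nonneg_of_nonpos (by positivity) (by linarith)
  linarith

lemma prof3 (hδ : 0 < δ) {τ : ℝ} (h1 : b + δ ≤ τ)
    (h2 : τ ≤ a + 1 - δ) : prof a b δ τ = -1 := by
  unfold prof
  have k1 : 1 ≤ (1 / δ) * (τ - b) := by
    rw [one_div, le_inv_mul_iff₀ hδ]; linarith
  rw [max_eq_left (a := (-1:ℝ)) ((min_le_right _ _).trans (by linarith)), max_eq_left]
  have : (2/δ) * (τ - (a + 1 - δ)) ≤ 0 :=
    mul_nonpos_of_nonneg_of_nonpos (by positivity) (by linarith)
  linarith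

lemma prof4 (hδ : 0 < δ) (hb : b + δ ≤ a + 1 - δ) {τ : ℝ}
    (h1 : a + 1 - δ ≤ τ) : prof a b δ τ = -1 + (2/δ) * (τ - (a + 1 - δ)) := by
  unfold prof
  have k1 : 1 ≤ (1 / δ) * (τ - b) := by
    rw [one_div, le_inv_mul_iff₀ hδ]; linarith
  rw [max_eq_left (a := (-1:ℝ)) ((min_le_right _ _).trans (by linarith)), max_eq_right]
  have : 0 ≤ (2/δ) * (τ - (a + 1 - δ)) :=
    mul_nonneg (by positivity) (by linarith)
  linarith

end prof

/-- two regular curves which agree outside the arc `(a,b)` -/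
structure Agree (p₀ p₁ : Circ → ℂ) (a b : ℝ) : Prop where
  r0 : IsRegular p₀
  r1 : IsRegular p₁
  hab : a < b
  hb1 : b < a + 1
  agree : ∀ τ : ℝ, b ≤ τ → τ ≤ a + 1 → p₀ τ = p₁ τ
  a0 : (a : Circ) ∉ feet p₀
  a1 : (a : Circ) ∉ feet p₁
  b0 : (b : Circ) ∉ feet p₀
  b1 : (b : Circ) ∉ feet p₁

lemma Agree.symm {p₀ p₁ : Circ → ℂ} {a b : ℝ} (A : Agree p₀ p₁ a b) : Agree p₁ p₀ a b :=
  ⟨A.r1, A.r0, A.hab, A.hb1, fun τ h1 h2 => (A.agree τ h1 h2).symm, A.a1, A.a0, A.b1, A.b0⟩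

lemma exists_gap (F : Set ℝ) (hF : F.Finite) (x : ℝ) (hx : x ∉ F) :
    ∃ δ > 0, ∀ σ ∈ F, δ < |σ - x| := by
  have h : IsOpen (Fᶜ) := hF.isClosed.isOpen_compl
  obtain ⟨δ, hδ, hb⟩ := Metric.isOpen_iff.1 h x hx
  refine ⟨δ/2, by linarith, fun σ hσ => ?_⟩
  by_contra hcon
  have : σ ∈ Metric.ball x δ := by
    rw [Metric.mem_ball, Real.dist_eq]; linarith
  exact hb this hσ

lemma lift_ne_of_not_feet {p : Circ → ℂ} {a x : ℝ} (h : (x : Circ) ∉ feet p)
    {s : Circ} (hs : s ∈ feet p) : lift a s ≠ x := by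
  intro heq
  apply h
  rw [← heq, coe_lift]; exact hs

lemma lt_lift_of_not_feet {p : Circ → ℂ} {a : ℝ} (h : (a : Circ) ∉ feet p)
    {s : Circ} (hs : s ∈ feet p) : a < lift a s :=
  lt_of_le_of_ne (le_lift a s) (lift_ne_of_not_feet h hs).symm

lemma lift_inj {a : ℝ} {s t : Circ} (h : lift a s = lift a t) : s = t := by
  rw [← coe_lift a s, ← coe_lift a t, h]

lemma lift_ne {a : ℝ} {s t : Circ} (h : s ≠ t) : lift a s ≠ lift a t := fun h' => h (lift_inj h')

/-- **Overpass lemma**. -/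
theorem overpass {v : (Circ → ℂ × ℝ) → ℝ} (hv : IsInv v) {p₀ p₁ : Circ → ℂ} {a b : ℝ}
    (A : Agree p₀ p₁ a b) {y₀ y₁ : Circ → ℝ}
    (h0 : ∀ s t, IsDbl p₀ s t → lift a s < b → lift a s < lift a t → y₀ t < y₀ s)
    (h1 : ∀ s t, IsDbl p₁ s t → lift a s < b → lift a s < lift a t → y₁ t < y₁ s)
    (hout : ∀ s t, IsDbl p₀ s t → b < lift a s → b < lift a t →
      0 < (y₀ s - y₀ t) * (y₁ s - y₁ t)) :
    V v p₀ y₀ = V v p₁ y₁ := by
  classical
  have hab := A.hab
  have hb1 := A.hb1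
  -- the finite set of feet
  have hF : (lift a '' (feet p₀ ∪ feet p₁)).Finite := (A.r0.fin.union A.r1.fin).image _
  set F := lift a '' (feet p₀ ∪ feet p₁) with hFdef
  have hbF : b ∉ F := by
    rintro ⟨s, hs | hs, h⟩
    · exact lift_ne_of_not_feet A.b0 hs h
    · exact lift_ne_of_not_feet A.b1 hs h
  have haF : a + 1 ∉ F := by
    rintro ⟨s, hs, h⟩
    have := lift_lt a s
    linarith
  obtain ⟨δ₁, hδ₁, g1⟩ := exists_gap F hF b hbF
  obtain ⟨δ₂, hδ₂, g2⟩ := exists_gap F hF (a+1) haF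
  obtain ⟨δ₃, hδ₃, u, hu⟩ := (A.r0.pl (a + 1)).2
  -- choose δ
  obtain ⟨δ, hδ, d1, d2, d3, d4, d5⟩ : ∃ δ > 0, δ ≤ δ₁ ∧ δ ≤ δ₂ ∧ δ ≤ δ₃ ∧ δ ≤ b - a ∧
      3 * δ ≤ a + 1 - b := by
    refine ⟨min (min δ₁ δ₂) (min δ₃ (min (b - a) ((a + 1 - b)/3))), ?_, ?_, ?_, ?_, ?_, ?_⟩
    · refine lt_min (lt_min hδ₁ hδ₂) (lt_min hδ₃ (lt_min (by linarith) (by linarith)))
    · exact (min_le_left _ _).trans (min_le_left _ _)
    · exact (min_le_left _ _).trans (min_le_right _ _)
    · exact (min_le_right _ _).trans (min_le_left _ _)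
    · exact (min_le_right _ _).trans ((min_le_right _ _).trans (min_le_left _ _))
    · have : min (min δ₁ δ₂) (min δ₃ (min (b - a) ((a + 1 - b)/3))) ≤ (a + 1 - b)/3 :=
        (min_le_right _ _).trans ((min_le_right _ _).trans (min_le_right _ _))
      linarith
  have hbe : b + δ ≤ a + 1 - δ := by linarith
  have hbF2 : ∀ σ ∈ F, b < σ → b + δ < σ ∧ σ < a + 1 - δ := by
    intro σ hσ hbσ
    have k1 := g1 σ hσ
    have k2 := g2 σ hσ
    rw [abs_of_pos (by linarith)] at k1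
    obtain ⟨s, hs, rfl⟩ := hσ
    have := lift_lt a s
    rw [abs_of_neg (by linarith)] at k2
    constructor <;> linarith
  -- the perturbation
  let S : Finset ℝ := hF.toFinset.filter (fun σ => b < σ)
  have hS : ∀ σ ∈ S, b + δ < σ ∧ σ < a + 1 - δ := by
    intro σ hσ
    simp only [S, Finset.mem_filter, Set.Finite.mem_toFinset] at hσ
    exact hbF2 σ hσ.1 hσ.2
  set M := ∑ σ ∈ S, |y₁ σ| with hM
  have hM0 : 0 ≤ M := Finset.sum_nonneg fun _ _ => abs_nonneg _
  set η := 1 / (2 * (1 + M)) with hη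
  have hη0 : 0 < η := by positivity
  have hηy : ∀ σ ∈ S, |η * y₁ σ| ≤ 1/2 := by
    intro σ hσ
    rw [abs_mul, abs_of_pos hη0]
    have k := Finset.single_le_sum (f := fun σ : ℝ => |y₁ σ|) (fun _ _ => abs_nonneg _) hσ
    have k2 : η * |y₁ σ| ≤ η * (1 + M) := mul_le_mul_of_nonneg_left (by linarith) hη0.le
    have k3 : η * (1 + M) = 1/2 := by rw [hη]; field_simp
    linarith
  obtain ⟨R, R1, R2, R3, R4⟩ := exists_tent_bdd S (b + δ) (a + 1 - δ) hS (fun σ => η * y₁ σ)
    (B := 1/2) (by norm_num) hηy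
  -- the height
  set G : ℝ → ℝ := fun τ => prof a b δ τ + R τ with hG
  have G1 : ∀ τ, a ≤ τ → τ ≤ b → G τ = 1 - (1 / (b - a)) * (τ - a) := by
    intro τ k1 k2
    simp only [hG]
    rw [prof1 hab hδ d4 hbe k2, R3 τ (Or.inl (by linarith)), add_zero]
  have G2 : ∀ τ, b ≤ τ → τ ≤ b + δ → G τ = -((1/δ) * (τ - b)) := by
    intro τ k1 k2
    simp only [hG]
    rw [prof2 hab hδ d4 hbe k1 k2, R3 τ (Or.inl (by linarith)), add_zero]
  have G3 : ∀ τ, b + δ ≤ τ → τ ≤ a + 1 - δ → G τ = -1 + R τ := by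
    intro τ k1 k2
    simp only [hG]
    rw [prof3 hδ k1 k2]
  have G4 : ∀ τ, a + 1 - δ ≤ τ → G τ = -1 + (2/δ) * (τ - (a + 1 - δ)) := by
    intro τ k1
    simp only [hG]
    rw [prof4 hδ hbe k1, R3 τ (Or.inr (by linarith)), add_zero]
  have hGends : G a = G (a + 1) := by
    rw [G1 a le_rfl hab.le, G4 (a+1) (by linarith)]
    field_simp; ring
  set z : Circ → ℝ := lp a G with hz
  have zPL : IsPL z := lp_isPL (((prof_isPLR a b δ).add R1).plOn _ _) hGends
  have z_coe : ∀ τ, a ≤ τ → τ ≤ a + 1 → z (τ : Circ) = G τ := fun τ k1 k2 =>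
    lp_coe' hGends ⟨k1, k2⟩
  have z_lift : ∀ s, z s = G (lift a s) := fun s => rfl
  have hGpos : ∀ τ, a ≤ τ → τ < b → 0 < G τ := by
    intro τ k1 k2
    rw [G1 τ k1 k2.le]
    have : (1 / (b - a)) * (τ - a) < 1 := by
      rw [one_div, inv_mul_lt_iff₀ (by linarith)]; linarith
    linarith
  have hGneg : ∀ τ ∈ F, b < τ → G τ < 0 ∧ G τ = -1 + R τ := by
    intro τ k1 k2
    obtain ⟨k3, k4⟩ := hbF2 τ k1 k2
    rw [G3 τ k3.le k4.le]
    have := (abs_le.1 (R4 τ)).2
    exact ⟨by linarith, rfl⟩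
  have hGanti : ∀ τ τ', a ≤ τ → τ < τ' → τ' ≤ b → G τ' < G τ := by
    intro τ τ' k1 k2 k3
    rw [G1 τ k1 (by linarith), G1 τ' (by linarith) k3]
    have : (1 / (b - a)) * (τ - a) < (1 / (b - a)) * (τ' - a) :=
      mul_lt_mul_of_pos_left (by linarith) (by rw [one_div]; exact inv_pos.2 (by linarith))
    linarith
  -- general statement for both curves
  have main : ∀ (p : Circ → ℂ) (y : Circ → ℝ), IsRegular p → (∀ s ∈ feet p, lift a s ∈ F) →
      (a : Circ) ∉ feet p → (b : Circ) ∉ feet p →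
      (∀ τ : ℝ, b ≤ τ → τ ≤ a + 1 → p₀ τ = p τ) →
      (∀ s t, IsDbl p s t → lift a s < b → lift a s < lift a t → y t < y s) →
      (∀ s t, IsDbl p s t → b < lift a s → b < lift a t → 0 < (y₁ s - y₁ t) * (y s - y t)) →
      V v p y = v (FanHyp.fan (mk p z) a b) := by
    intro p y hp hpF hpa hpb hagree hy hyout
    have hsame : SamePat p z y := by
      intro s t hst
      -- wlog on order
      wlog hlt : lift a s < lift a t generalizing s t
      · have h3 := this t s hst.symm (lt_of_le_of_ne (not_lt.1 hlt) (lift_ne hst.1.symm))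
        linarith
      have hsF := hpF s hst.left_mem
      have htF := hpF t hst.right_mem
      rcases lt_trichotomy (lift a s) b with hs | hs | hs
      · have hyst := hy s t hst hs hlt
        have hzst : z t < z s := by
          rw [z_lift, z_lift]
          rcases le_or_gt (lift a t) b with ht | ht
          · exact hGanti _ _ (le_lift a s) hlt ht
          · exact (hGneg _ htF ht).1.trans (hGpos _ (le_lift a s) hs)
        nlinarith
      · exact absurd hs (lift_ne_of_not_feet hpb hst.left_mem)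
      · have ht : b < lift a t := hs.trans hlt
        have k1 := (hGneg _ hsF hs).2
        have k2 := (hGneg _ htF ht).2
        rw [z_lift, z_lift, k1, k2, R2 _ (by simp only [S, Finset.mem_filter, Set.Finite.mem_toFinset]; exact ⟨hsF, hs⟩),
          R2 _ (by simp only [S, Finset.mem_filter, Set.Finite.mem_toFinset]; exact ⟨htF, ht⟩),
          coe_lift, coe_lift]
        have k3 := hyout s t hst hs ht
        have : (-1 + η * y₁ s - (-1 + η * y₁ t)) * (y s - y t) =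
          η * ((y₁ s - y₁ t) * (y s - y t)) := by ring
        rw [this]
        exact mul_pos hη0 k3
    have hknot : IsKnot (mk p z) := Valid.isKnot hp.pl zPL hsame.valid_left
    rw [← V_eq hv hp zPL hsame]
    refine FanHyp.fan_eq (e := a + 1 - δ) ⟨hknot, hab, by linarith, by linarith, ?_, ?_, ?_⟩ hv
    · intro τ τ' k1 k2 k3
      simp only [mk]
      rw [z_coe τ k1 (by linarith), z_coe τ' (by linarith) (by linarith)]
      exact hGanti τ τ' k1 k2 k3
    · intro τ k1 k2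
      simp only [mk]
      rw [z_coe τ (by linarith) (by linarith), z_coe b hab.le hb1.le, G1 b hab.le le_rfl]
      have hb0 : 1 - (1 / (b - a)) * (b - a) = 0 := by
        rw [one_div, inv_mul_cancel₀ (by linarith)]; ring
      rw [hb0]
      rcases le_or_gt τ (b + δ) with k3 | k3
      · rw [G2 τ k1.le k3]
        have : 0 < (1/δ) * (τ - b) := mul_pos (by positivity) (by linarith)
        linarith
      · rw [G3 τ k3.le k2]
        have := (abs_le.1 (R4 τ)).2
        linarith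
    · intro τ k1 k2
      simp only [mk]
      have e0 : (((a : ℝ)) : Circ) = ((a + 1 : ℝ) : Circ) := (coe_add_one a).symm
      rw [e0]
      apply Prod.ext
      · simp only [Prod.fst_add, Prod.smul_fst, Prod.fst_sub]
        rw [← hagree τ (by linarith) k2, ← hagree (a + 1 - δ) (by linarith) (by linarith),
          ← hagree (a + 1) (by linarith) le_rfl]
        have f1 := hu (a + 1 - τ) ⟨by linarith, by linarith⟩
        have f2 := hu δ ⟨by linarith, by linarith⟩
        simp only [sub_sub_cancel] at f1 f2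
        rw [f1, f2, sub_sub_cancel, sub_sub_cancel, smul_smul, div_mul_cancel₀ _ hδ.ne',
          sub_add, ← sub_smul]
        congr 2
        ring
      · simp only [Prod.snd_add, Prod.smul_snd, Prod.snd_sub, smul_eq_mul]
        rw [z_coe τ (by linarith) k2, z_coe (a + 1 - δ) (by linarith) (by linarith),
          z_coe (a + 1) (by linarith) le_rfl, G4 τ k1, G4 _ le_rfl, G4 (a+1) (by linarith)]
        rw [show a + 1 - (a + 1 - δ) = δ by ring]
        field_simp
        ring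
  have m0 := main p₀ y₀ A.r0 (fun s hs => ⟨s, Or.inl hs, rfl⟩) A.a0 A.b0 (fun _ _ _ => rfl) h0
    (fun s t hst k1 k2 => by rw [mul_comm]; exact hout s t hst k1 k2)
  have hcoe : ∀ s : Circ, b < lift a s → p₀ s = p₁ s := by
    intro s hs
    have := A.agree (lift a s) hs.le (lift_lt a s).le
    rwa [coe_lift] at this
  have m1 := main p₁ y₁ A.r1 (fun s hs => ⟨s, Or.inr hs, rfl⟩) A.a1 A.b1 A.agree h1
    (fun s t hst k1 k2 => by
      have hst0 : IsDbl p₀ s t := ⟨hst.1, by rw [hcoe s k1, hcoe t k2]; exact hst.2⟩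
      have := hout s t hst0 k1 k2
      refine mul_self_pos.2 ?_
      intro h
      rw [h, mul_zero] at this
      exact lt_irrefl _ this)
  rw [m0, m1]
  congr 1
  unfold FanHyp.fan
  funext t
  simp only [lp, FanHyp.fanMap, mk]
  have ea : p₀ (a : Circ) = p₁ (a : Circ) := by
    have := A.agree (a + 1) (by linarith) le_rfl
    rwa [coe_add_one] at this
  have eb : p₀ (b : Circ) = p₁ (b : Circ) := A.agree b le_rfl hb1.le
  split_ifs with h
  · rw [ea, eb]
  · rw [A.agree (lift a t) (by linarith) (lift_lt a t).le]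

end Pool.Agent.H81
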