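import Pool.Agent.H81.Const

namespace Pool.Agent.H81

open Set

variable {v : (Circ → ℂ × ℝ) → ℝ}

namespace Clean

variable {p : Circ → ℂ} {s t : ℝ} {u w : ℂ} {r : ℝ}

lemma mono (C : Clean p s t u w r) {r' : ℝ} (h0 : 0 < r') (h : r' ≤ r) : Clean p s t u w r' := by
  have hst := C.hst
  have hts := C.hts
  refine ⟨C.reg, h0, by linarith, by linarith, C.dt, fun x hx => C.ps x (hx.trans h),
    fun x hx => C.pt x (hx.trans h), fun θ α β h1 h2 h3 => ?_⟩
  rcases C.s_cases (h1.trans h) (h2.trans h) h3 with ⟨_, k⟩ | ⟨_, k⟩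
  · exact ⟨s + α, k.symm, Or.inl (by rw [add_sub_cancel_left]; exact h1)⟩
  · exact ⟨t + β, k.symm, Or.inr (by rw [add_sub_cancel_left]; exact h2)⟩

lemma splice' (C : Clean p s t u w r) {a b : ℝ} {f : ℝ → ℂ} (H : GoodSplice p a b f) {r' : ℝ}
    (h0 : 0 < r') (h : r' ≤ r) (ha : s + r ≤ a) (hb : b ≤ t - r)
    (hf : ∀ τ, a ≤ τ → τ ≤ b → ∀ α β : ℝ, |α| ≤ r' → |β| ≤ r' → f τ ≠ p s + (α • u + β • w)) :
    Clean (splice p a b f) s t u w r' := by
  have hr := C.hr
  have hst := C.hst
  have hts := C.hts
  have hab := H.hab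
  have qs : ∀ x : ℝ, |x| ≤ r → splice p a b f ((s + x : ℝ) : Circ) = p ((s + x : ℝ) : Circ) := by
    intro x hx
    rw [abs_le] at hx
    rw [← coe_add_one (s + x)]
    exact H.coe_ge (by linarith) (by linarith)
  have qt : ∀ x : ℝ, |x| ≤ r → splice p a b f ((t + x : ℝ) : Circ) = p ((t + x : ℝ) : Circ) := by
    intro x hx
    rw [abs_le] at hx
    exact H.coe_ge (by linarith) (by linarith)
  have q0 : splice p a b f (s : Circ) = p s := by
    have := qs 0 (by simpa using hr.le)
    simpa using this
  refine ⟨H.regular, h0, by linarith, by linarith, C.dt, fun x hx => ?_, fun x hx => ?_,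
    fun θ α β h1 h2 h3 => ?_⟩
  · rw [qs x (hx.trans h), q0]; exact C.ps x (hx.trans h)
  · rw [qt x (hx.trans h), q0]; exact C.pt x (hx.trans h)
  · rw [q0] at h3
    have h4 := le_lift a θ
    have h5 := lift_lt a θ
    rw [← coe_lift a θ] at h3
    rcases le_or_gt (lift a θ) b with h6 | h6
    · rw [H.coe_le h4 h6 H.hb1] at h3
      exact absurd h3 (hf _ h4 h6 α β h1 h2)
    · rw [H.coe_ge h6.le h5.le, coe_lift] at h3
      rcases C.s_cases (h1.trans h) (h2.trans h) h3 with ⟨_, k⟩ | ⟨_, k⟩
      · exact ⟨s + α, k.symm, Or.inl (by rw [add_sub_cancel_left]; exact h1)⟩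
      · exact ⟨t + β, k.symm, Or.inr (by rw [add_sub_cancel_left]; exact h2)⟩

/-- in the middle of the lobe the loop changes nothing -/
lemma loop_mid (C : Clean p s t u w r) {τ : ℝ} (h1 : s + r < τ) (h2 : τ < t - r) (θ : Circ) :
    IsDbl C.loop (τ : Circ) θ ↔ IsDbl p (τ : Circ) θ := by
  have hr := C.hr
  have hst := C.hst
  have hts := C.hts
  have hl : lift (s - r) (τ : Circ) = τ := lift_coe ⟨by linarith, by linarith⟩
  have e1 : C.loop (τ : Circ) = p τ := (C.loop_agree.eq_of_lt (by rw [hl]; exact h1)).symm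
  constructor
  · intro h
    rcases le_or_gt (lift (s - r) θ) (s + r) with h3 | h3
    · exfalso
      rcases C.loop_cases h.symm h3 with k | k | k | k | k
      · have k1 : (τ : Circ) = (X1 s t r).2 := congrArg Prod.snd k
        have := C.l_x12; rw [← k1, hl] at this; linarith
      · have k1 : (τ : Circ) = (X2 s t r).2 := congrArg Prod.snd k
        have := C.l_x22; rw [← k1, hl] at this; linarith
      · have k1 : (τ : Circ) = (X3 s t r).2 := congrArg Prod.snd k
        have := C.l_x32; rw [← k1, hl] at this; linarith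
      · have k1 : (τ : Circ) = (Yl s r).2 := congrArg Prod.snd k
        have := C.l_y2; rw [← k1, hl] at this; linarith
      · have k1 : (τ : Circ) = (Yl s r).1 := congrArg Prod.snd k
        have := C.l_y1; rw [← k1, hl] at this; linarith
    · refine ⟨h.1, ?_⟩
      rw [C.loop_agree.eq_of_lt h3, ← e1]; exact h.2
  · intro h
    rcases le_or_gt (lift (s - r) θ) (s + r) with h3 | h3
    · exfalso
      have k1 := (C.p_cases h.symm h3).2
      have := C.lift_t0 (a := s - r) le_rfl (by linarith)
      rw [← k1, hl] at this; linarith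
    · refine ⟨h.1, ?_⟩
      rw [← C.loop_agree.eq_of_lt h3, e1]; exact h.2

lemma loop_mid_feet (C : Clean p s t u w r) {τ : ℝ} (h1 : s + r < τ) (h2 : τ < t - r) :
    (τ : Circ) ∈ feet C.loop ↔ (τ : Circ) ∈ feet p := by
  constructor
  · rintro ⟨θ, hne, h⟩
    exact ((C.loop_mid h1 h2 θ).1 ⟨hne.symm, h.symm⟩).left_mem
  · rintro ⟨θ, hne, h⟩
    exact ((C.loop_mid h1 h2 θ).2 ⟨hne.symm, h.symm⟩).left_mem

lemma loop_mid_ptn (C : Clean p s t u w r) {τ : ℝ} (h1 : s + r < τ) (h2 : τ < t - r)
    (h : (τ : Circ) ∈ feet p) : ptn C.loop (τ : Circ) = ptn p (τ : Circ) :=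
  ptn_eq C.loop_reg ((C.loop_mid h1 h2 _).2 (ptn_spec h))

lemma AF_mid (C : Clean p s t u w r) {a b : ℝ} (ha : s + r < a) (hb : b < t - r) :
    AF C.loop a b = AF p a b := by
  ext d
  rw [mem_AF C.loop_reg, mem_AF C.reg]
  have key : lift a d < b → (d ∈ feet C.loop ↔ d ∈ feet p) ∧
      (d ∈ feet p → ptn C.loop d = ptn p d) := by
    intro h
    have h1 := le_lift a d
    have h2 := C.loop_mid_feet (τ := lift a d) (by linarith) (by linarith)
    have h3 := C.loop_mid_ptn (τ := lift a d) (by linarith) (by linarith)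
    rw [coe_lift] at h2 h3
    exact ⟨h2, h3⟩
  constructor
  · rintro ⟨h1, h2, h3⟩
    have h4 := (key h2).1.1 h1
    rw [(key h2).2 h4] at h3
    exact ⟨h4, h2, h3⟩
  · rintro ⟨h1, h2, h3⟩
    have h4 := (key h2).2 h1
    rw [← h4] at h3
    exact ⟨(key h2).1.2 h1, h2, h3⟩

end Clean

/-- the loops added to two curves agreeing outside of an arc agree outside of this arc -/
lemma loops_agree {p p' : Circ → ℂ} {s t : ℝ} {u w : ℂ} {r : ℝ} (C : Clean p s t u w r)
    (C' : Clean p' s t u w r) {a b : ℝ} (A : Agree p p' a b) (ha : s + r < a) (hb : b < t - r) :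
    Agree C.loop C'.loop a b := by
  have hr := C.hr
  have hst := C.hst
  have hts := C.hts
  have hab := A.hab
  have es : p (s : Circ) = p' (s : Circ) := by
    have := A.agree (s + 1) (by linarith) (by linarith)
    rwa [coe_add_one] at this
  refine ⟨C.loop_reg, C'.loop_reg, hab, A.hb1, ?_, ?_, ?_, ?_, ?_⟩
  · intro τ h1 h2
    rcases le_or_gt τ (s - r + 1) with h3 | h3
    · rw [← C.loop_agree.agree τ (by linarith) h3, ← C'.loop_agree.agree τ (by linarith) h3]
      exact A.agree τ h1 h2
    · have e : (τ : Circ) = ((τ - 1 : ℝ) : Circ) := by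
        rw [← coe_add_one (τ - 1), sub_add_cancel]
      rcases le_or_gt τ (s + r + 1) with h4 | h4
      · rw [e]
        unfold Clean.loop
        rw [C.loop_good.coe_le (by linarith) (by linarith) (by linarith),
          C'.loop_good.coe_le (by linarith) (by linarith) (by linarith), es]
      · have k1 := C.loop_agree.agree (τ - 1) (by linarith) (by linarith)
        have k2 := C'.loop_agree.agree (τ - 1) (by linarith) (by linarith)
        rw [← e] at k1 k2
        rw [← k1, ← k2]
        exact A.agree τ h1 h2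
  · rw [C.loop_mid_feet ha (by linarith)]; exact A.a0
  · rw [C'.loop_mid_feet ha (by linarith)]; exact A.a1
  · rw [C.loop_mid_feet (by linarith) hb]; exact A.b0
  · rw [C'.loop_mid_feet (by linarith) hb]; exact A.b1

/-- the universal values of the cubic coefficients -/
def Vals (v : (Circ → ℂ × ℝ) → ℝ) : Prop :=
  ∀ p x y z, IsRegular p → Tri p x y z → E v p x y z = W (1/4) (1/8) x y z

theorem arc_zero (hv : IsInv v) (hC : Vals v) {p p' : Circ → ℂ} {s t : ℝ} {u w : ℂ} {r : ℝ}
    (C : Clean p s t u w r) (C' : Clean p' s t u w r) {a b : ℝ} (A : Agree p p' a b)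
    (ha : s + r < a) (hb : b < t - r) (hAF : AF p' a b = ∅) :
    ∑ d ∈ (open Classical in (AF p a b).filter (fun d => t < lift s (ptn p d))),
      sgc p (cr p d) = 0 := by
  classical
  have hr := C.hr
  have hst := C.hst
  have hts := C.hts
  have hab := A.hab
  have L := loops_agree C C' A ha hb
  have lt' : ∀ (σ : ℝ), s - r ≤ σ → σ < a → lift a (σ : Circ) = σ + 1 := by
    intro σ h1 h2
    exact lift_eq_of (coe_add_one σ) (by linarith) (by linarith)
  have lt'' : ∀ (σ : ℝ), a ≤ σ → σ < a + 1 → lift a (σ : Circ) = σ := by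
    intro σ h1 h2
    exact lift_coe ⟨h1, h2⟩
  have o1 : Out C.loop a b (X1 s t r) := by
    refine ⟨C.x1_cr, ?_, ?_⟩
    · show b < lift a ((s + r * (-2/3) : ℝ) : Circ)
      rw [lt' _ (by linarith) (by linarith)]; linarith
    · show b < lift a (t : Circ)
      rw [lt'' _ (by linarith) (by linarith)]; linarith
  have o3 : Out C.loop a b (X3 s t r) := by
    refine ⟨C.x3_cr, ?_, ?_⟩
    · show b < lift a ((s + r * (3/5) : ℝ) : Circ)
      rw [lt' _ (by linarith) (by linarith)]; linarith
    · show b < lift a ((t + r * (-2/5) : ℝ) : Circ)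
      rw [lt'' _ (by linarith) (by linarith)]; linarith
  have key := arc_identity hv L C.s_x1x3 o1 o3
  rw [C'.AF_mid ha hb, hAF, Finset.sum_empty, C.AF_mid ha hb] at key
  have term : ∀ d ∈ AF p a b, cc v C.loop (X1 s t r) (X3 s t r) (cr C.loop d) =
      if t < lift s (ptn p d) then (1/8) * sgc p (cr p d) else 0 := by
    intro d hd
    rw [mem_AF C.reg] at hd
    obtain ⟨hf, h1, h2⟩ := hd
    have h3 := le_lift a d
    set τ := lift a d with hτ
    have hcτ : (τ : Circ) = d := coe_lift a d
    have hptn : ptn C.loop d = ptn p d := by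
      have := C.loop_mid_ptn (τ := τ) (by linarith) (by linarith)
      rw [hcτ] at this; exact this hf
    have hcr : cr C.loop d = cr p d := by unfold cr; rw [hptn]
    rw [hcr]
    have icr : IsCr p (cr p d) := cr_isCr hf
    -- positions
    have ld : lift (s - r) d = τ := lift_eq_of hcτ (by linarith) (by linarith)
    have lpn := le_lift (s - r) (ptn p d)
    have lpn' := lift_lt (s - r) (ptn p d)
    set ρ := lift (s - r) (ptn p d) with hρ
    have hcρ : (ρ : Circ) = ptn p d := coe_lift _ _
    have hρs : s + r < ρ := by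
      by_contra hcon
      have := (C.p_cases (IsDbl.symm icr) (not_lt.1 hcon)).2
      have e2 : (cr p d).1 = d := rfl
      rw [e2] at this
      rw [this, C.lift_t0 le_rfl (by linarith)] at ld
      linarith
    have hpf : ptn p d ∈ feet p := IsDbl.right_mem icr
    have hρt : ρ ≠ t := by
      intro h
      have e2 : ptn p d = (t : Circ) := by rw [← hcρ, h]
      have e3 : IsDbl p (t : Circ) d := by rw [← e2]; exact IsDbl.symm icr
      have e4 : (s : Circ) = d := C.reg.uniq (IsDbl.symm C.isCr) e3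
      have e5 : lift (s - r) (s : Circ) = s := lift_coe ⟨by linarith, by linarith⟩
      rw [e4, ld] at e5
      linarith
    obtain ⟨_, m2⟩ := C.foot_away hpf hcρ (by linarith) hρt
    rw [lt_abs] at m2
    have lsρ : lift s (ptn p d) = ρ := lift_eq_of hcρ (by linarith) (by linarith)
    have out : Out p (s - r) (s + r) (cr p d) :=
      ⟨icr, by show s + r < lift (s - r) d; rw [ld]; linarith, hρs⟩
    have sx1 : Sep (cr p d) (X1 s t r) := C.s_out out C.x1_cr C.lift_x1
    have sx3 : Sep (cr p d) (X3 s t r) := C.s_out out C.x3_cr C.lift_x3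
    have tri : Tri C.loop (X1 s t r) (X3 s t r) (cr p d) :=
      ⟨C.x1_cr, C.x3_cr, (out.tr C.loop_agree).cr, C.s_x1x3, sx1.symm, sx3.symm⟩
    have hE := hC _ _ _ _ C.loop_reg tri
    have k13 : ¬ Lk (X1 s t r) (X3 s t r) := by
      rw [Lk_val C.s_x1x3 C.l_x11 C.l_x12 C.l_x31 C.l_x32 (by linarith) (by linarith)
        (by linarith)]
      rintro ⟨_, h⟩; linarith
    have hsgn : sgc C.loop (cr p d) = sgc p (cr p d) := C.loop_agree.sgc out
    have hcc : cc v C.loop (X1 s t r) (X3 s t r) (cr p d) =
        E v C.loop (X1 s t r) (X3 s t r) (cr p d) * sgc p (cr p d) := by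
      unfold E
      rw [hsgn, C.sg_x1, C.sg_x3]
      have q1 := sgn_sq (det u w)
      have q2 := sgc_sq p (cr p d)
      set σ := sgn (det u w)
      set ς := sgc p (cr p d)
      linear_combination (-(cc v C.loop (X1 s t r) (X3 s t r) (cr p d)) * ς * ς) * q1 -
        (cc v C.loop (X1 s t r) (X3 s t r) (cr p d)) * q2
    have e1 : (cr p d).1 = d := rfl
    have e2 : (cr p d).2 = ptn p d := rfl
    rw [hcc, hE, lsρ]
    by_cases hlt : t < ρ
    · rw [if_pos hlt]
      have k1 : Lk (X1 s t r) (cr p d) := by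
        rw [Lk_iff sx1.symm (s - r)]
        unfold lkp
        rw [C.l_x11, C.l_x12, e1, e2, ld, ← hρ]
        exact mul_neg_of_neg_of_pos (prod_neg (by linarith) (by linarith))
          (prod_pos_r (by linarith) (by linarith))
      have k3 : Lk (X3 s t r) (cr p d) := by
        rw [Lk_iff sx3.symm (s - r)]
        unfold lkp
        rw [C.l_x31, C.l_x32, e1, e2, ld, ← hρ]
        exact mul_neg_of_neg_of_pos (prod_neg (by linarith) (by linarith))
          (prod_pos_r (by linarith) (by linarith))
      rw [W_H (fun h => k13 h.1) (Or.inr (Or.inr ⟨k1, k3⟩))]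
    · rw [if_neg hlt]
      have hρ' : ρ < t - r := by
        rcases m2 with m | m <;> linarith
      have k1 : ¬ Lk (X1 s t r) (cr p d) := by
        rw [Lk_iff sx1.symm (s - r)]
        unfold lkp
        rw [C.l_x11, C.l_x12, e1, e2, ld, ← hρ]
        exact not_neg_nn (prod_neg (by linarith) (by linarith))
          (prod_neg (by linarith) (by linarith))
      rw [W_zero, zero_mul]
      rintro (h | h | h)
      · exact k13 h.1
      · exact k13 h.1
      · exact k1 h.1
  rw [Finset.sum_congr rfl term, ← Finset.sum_filter, ← Finset.mul_sum] at key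
  rcases mul_eq_zero.1 key with h | h
  · norm_num at h
  · exact h

end Pool.Agent.H81
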