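import Pool.Agent.H81.Planar

namespace Pool.Agent.H81

open Set

variable {v : (Circ → ℂ × ℝ) → ℝ}

lemma Lk_cr {p : Circ → ℂ} (hp : IsRegular p) {s t : ℝ} (h1 : s < t) (h2 : t < s + 1)
    (e : p s = p t) {d : Circ} (hd : d ∈ FF p s) :
    Lk (cr p d) ((s : Circ), (t : Circ)) ↔ lift s d < t ∧ t < lift s (ptn p d) := by
  have ls : lift s (s : Circ) = s := lift_coe ⟨le_rfl, by linarith⟩
  have lt : lift s (t : Circ) = t := lift_coe ⟨h1.le, h2⟩
  have hne : (s : Circ) ≠ (t : Circ) := fun h => by rw [h] at ls; linarith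
  have hc : IsCr p ((s : Circ), (t : Circ)) := ⟨hne, e⟩
  rw [mem_FF hp] at hd
  have hd1 := hd.1
  have hd2 := hd.2
  by_cases k : d = (s : Circ)
  · subst k
    have : ptn p (s : Circ) = (t : Circ) := ptn_eq hp hc
    unfold cr
    rw [this, lt]
    exact ⟨fun h => absurd h (not_Lk_self _), fun h => absurd h.2 (lt_irrefl _)⟩
  · have k2 : d ≠ (t : Circ) := by
      rintro rfl
      have : ptn p (t : Circ) = (s : Circ) := ptn_eq hp (IsDbl.symm hc)
      rw [this, ls, lt] at hd2
      linarith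
    have sp : Sep (cr p d) ((s : Circ), (t : Circ)) := hp.sep (cr_isCr hd1) hc k k2
    rw [Lk_comm]
    refine Lk_val (y1 := lift s d) (y2 := lift s (ptn p d)) sp.symm ls lt rfl rfl ?_ h1 hd2
    refine lt_of_le_of_ne (le_lift s d) fun h => k ?_
    rw [← coe_lift s d, ← h]

lemma Lk_b {p : Circ → ℂ} (hp : IsRegular p) {s t sb tb : ℝ} (h1 : s < sb) (h2 : sb < tb)
    (h3 : tb < t) (h4 : t < s + 1) (e : p sb = p tb) {d : Circ} (hd : d ∈ feet p)
    (hdt : t < lift s (ptn p d)) :
    Lk (cr p d) ((sb : Circ), (tb : Circ)) ↔ sb < lift s d ∧ lift s d < tb := by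
  have ls : lift s (sb : Circ) = sb := lift_coe ⟨h1.le, by linarith⟩
  have lt : lift s (tb : Circ) = tb := lift_coe ⟨by linarith, by linarith⟩
  have hne : (sb : Circ) ≠ (tb : Circ) := fun h => by rw [h] at ls; linarith
  have hc : IsCr p ((sb : Circ), (tb : Circ)) := ⟨hne, e⟩
  have k1 : d ≠ (sb : Circ) := by
    rintro rfl
    have : ptn p (sb : Circ) = (tb : Circ) := ptn_eq hp hc
    rw [this, lt] at hdt
    linarith
  have k2 : d ≠ (tb : Circ) := by
    rintro rfl
    have : ptn p (tb : Circ) = (sb : Circ) := ptn_eq hp (IsDbl.symm hc)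
    rw [this, ls] at hdt
    linarith
  have sp : Sep (cr p d) ((sb : Circ), (tb : Circ)) := hp.sep (cr_isCr hd) hc k1 k2
  rw [Lk_comm, Lk_iff sp.symm s]
  unfold lkp cr
  simp only
  rw [ls, lt]
  have hB : 0 < (lift s (ptn p d) - sb) * (lift s (ptn p d) - tb) :=
    prod_pos_r (by linarith) (by linarith)
  have n1 : lift s d ≠ sb := fun h => k1 (by rw [← coe_lift s d, h])
  have n2 : lift s d ≠ tb := fun h => k2 (by rw [← coe_lift s d, h])
  constructor
  · intro h
    by_contra hcon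
    rcases lt_or_gt_of_ne n1 with m | m
    · exact not_neg_pp (prod_pos_l m (by linarith)) hB h
    · rcases lt_or_gt_of_ne n2 with m' | m'
      · exact hcon ⟨m, m'⟩
      · exact not_neg_pp (prod_pos_r m m') hB h
  · rintro ⟨m1, m2⟩
    exact mul_neg_of_neg_of_pos (prod_neg m1 m2) hB

/-- positions of the feet relative to a clean crossing -/
lemma Clean.foot_pos {p : Circ → ℂ} {s t : ℝ} {u w : ℂ} {r : ℝ} (C : Clean p s t u w r) {τ : ℝ}
    (h1 : s < τ) (h2 : τ < s + 1) (h3 : τ ≠ t) (hf : (τ : Circ) ∈ feet p) :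
    (s + r < τ ∧ τ < t - r) ∨ (t + r < τ ∧ τ < s + 1 - r) := by
  obtain ⟨m1, m2⟩ := C.foot_away hf rfl h1.ne' h3
  have e : ((τ - 1 : ℝ) : Circ) = (τ : Circ) := by rw [← coe_add_one (τ - 1), sub_add_cancel]
  have hst := C.hst
  have hts := C.hts
  have hr := C.hr
  obtain ⟨m3, m4⟩ := C.foot_away hf e (by linarith) (by linarith)
  rw [lt_abs] at m1 m2 m3
  rcases m2 with m2 | m2
  · right
    constructor
    · linarith
    · rcases m3 with m3 | m3 <;> linarith
  · left
    constructor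
    · rcases m1 with m1 | m1 <;> linarith
    · linarith

theorem pl1_base (hv : IsInv v) (hC : Vals v) {p : Circ → ℂ} (hp : IsRegular p) {s t : ℝ}
    (h1 : s < t) (h2 : t < s + 1) (e : p s = p t) :
    ∑ d ∈ (open Classical in (FF p s).filter (fun d => Lk (cr p d) ((s : Circ), (t : Circ)))),
      sgc p (cr p d) = 0 := by
  classical
  obtain ⟨u, w, r, hr, hC0⟩ := exists_clean hp h1 h2 e
  have C := hC0 r hr le_rfl
  have hst := C.hst
  have hts := C.hts
  obtain ⟨H, hAF⟩ := C.corner1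
  have C0 := C.mono (r' := r/3) (by linarith) (by linarith)
  have C1 := C.splice' H (r' := r/3) (by linarith) (by linarith) le_rfl le_rfl (by
    intro τ k1 k2 α β k3 k4 k5
    unfold seg at k5
    obtain ⟨k6, k7⟩ := coord_inj C.dt (add_left_cancel k5)
    rw [abs_le] at k3 k4
    nlinarith)
  have key := arc_zero hv hC C0 C1 H.agree (by linarith) (by linarith) hAF
  rw [← key]
  apply Finset.sum_congr _ fun _ _ => rfl
  ext d
  rw [Finset.mem_filter, Finset.mem_filter, mem_AF hp]
  constructor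
  · rintro ⟨hd, hl⟩
    rw [Lk_cr hp h1 h2 e hd] at hl
    rw [mem_FF hp] at hd
    have k1 := le_lift s d
    have k2 := lift_lt s (ptn p d)
    have hpf : ptn p d ∈ feet p := (IsDbl.right_mem (ptn_spec hd.1))
    have hne : s ≠ lift s d := by
      intro h
      have e1 : d = (s : Circ) := by rw [← coe_lift s d, ← h]
      have hc : IsDbl p (s : Circ) (t : Circ) := C.isCr
      have : ptn p d = (t : Circ) := by rw [e1]; exact ptn_eq hp hc
      rw [this, lift_coe ⟨h1.le, h2⟩] at hl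
      exact lt_irrefl _ hl.2
    have k3 := lt_of_le_of_ne k1 hne
    have m1 := C.foot_pos (τ := lift s d) k3 (by linarith [lift_lt s d]) hl.1.ne
      (by rw [coe_lift]; exact hd.1)
    have m2 := C.foot_pos (τ := lift s (ptn p d)) (by linarith) (by linarith) hl.2.ne'
      (by rw [coe_lift]; exact hpf)
    have n1 : s + r < lift s d ∧ lift s d < t - r := by
      rcases m1 with m | m
      · exact m
      · linarith [m.1, hl.1]
    have n2 : t + r < lift s (ptn p d) ∧ lift s (ptn p d) < s + 1 - r := by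
      rcases m2 with m | m
      · linarith [m.2, hl.2]
      · exact m
    have q1 : lift (s + r) d = lift s d := lift_eq_of (coe_lift s d) n1.1.le (by linarith)
    have q2 : lift (s + r) (ptn p d) = lift s (ptn p d) :=
      lift_eq_of (coe_lift s _) (by linarith) (by linarith)
    rw [q1, q2]
    exact ⟨⟨hd.1, n1.2, by linarith⟩, hl.2⟩
  · rintro ⟨⟨k1, k2, k3⟩, k4⟩
    have k5 := le_lift (s + r) d
    have q1 : lift s d = lift (s + r) d := lift_eq_of (coe_lift _ d) (by linarith) (by linarith)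
    have hd : d ∈ FF p s := by
      rw [mem_FF hp, q1]
      exact ⟨k1, by linarith⟩
    refine ⟨hd, ?_⟩
    rw [Lk_cr hp h1 h2 e hd, q1]
    exact ⟨by linarith, k4⟩

/-- the corner cut at a crossing -/
lemma Clean.cut {p : Circ → ℂ} {s t : ℝ} {u w : ℂ} {r : ℝ} (C : Clean p s t u w r) :
    GoodSplice p (s - r) (t + r) (seg (s - r) (t + r) (p s) u w (-r) 0 0 r) ∧
    AF (splice p (s - r) (t + r) (seg (s - r) (t + r) (p s) u w (-r) 0 0 r)) (s - r) (t + r) =
      ∅ := by
  have hr := C.hr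
  have hst := C.hst
  have hts := C.hts
  have hrr : |r| ≤ r := by rw [abs_of_pos hr]
  have hrr' : |-r| ≤ r := by rw [abs_neg, abs_of_pos hr]
  refine clean_splice C.reg (by linarith) (by linarith) ?_ (C.t_not hrr hr.ne')
      ((seg_isPLR _ _ _ _ _ _ _ _ _).plOn _ _) ?_ ?_ ?_ ?_
  · have := C.s_not hrr' (by linarith)
    rwa [← sub_eq_add_neg] at this
  · rw [seg_left, sub_eq_add_neg s r, C.ps (-r) hrr', zero_smul, add_zero]
  · rw [seg_right (by linarith), C.pt r hrr, zero_smul, zero_add]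
  · intro σ τ h1 h2 h3 h4
    unfold seg at h4
    have := (coord_inj C.dt (add_left_cancel h4)).2
    have h5 : (σ - (s - r)) / (t + r - (s - r)) < (τ - (s - r)) / (t + r - (s - r)) :=
      div_lt_div_of_pos_right (by linarith) (by linarith)
    nlinarith
  · intro σ τ h1 h2 h3 h4 h5
    obtain ⟨g1, g2⟩ := frac_mem (by linarith : s - r < t + r) h1 h2
    unfold seg at h5
    set l := (σ - (s - r)) / (t + r - (s - r)) with hl
    have a1 : |-r + l * (0 - -r)| ≤ r := by
      rw [abs_le]; constructor <;> nlinarith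
    have a2 : |0 + l * (r - 0)| ≤ r := by
      rw [abs_le]; constructor <;> nlinarith
    rcases C.s_cases a1 a2 h5.symm with ⟨m1, m2⟩ | ⟨m1, m2⟩
    · have hl0 : l = 0 := by
        have : l * r = 0 := by linarith
        rcases mul_eq_zero.1 this with h | h
        · exact h
        · linarith
      rw [hl0, zero_mul, add_zero] at m2
      rw [coe_eq_coe_iff (a := s - r) ⟨by linarith, h4⟩ ⟨by linarith, by linarith⟩] at m2
      linarith
    · have hl1 : l = 1 := by
        have : (1 - l) * r = 0 := by linarith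
        rcases mul_eq_zero.1 this with h | h
        · linarith
        · linarith
      rw [hl1] at m2
      rw [coe_eq_coe_iff (a := s - r) ⟨by linarith, h4⟩ ⟨by linarith, by linarith⟩] at m2
      linarith

lemma far_apart {A B : ℂ} (h : A ≠ B) (u w u' w' : ℂ) : ∃ r₀ > 0, ∀ r ≤ r₀, ∀ α β α' β' : ℝ,
    |α| ≤ r → |β| ≤ r → |α'| ≤ r → |β'| ≤ r → B + (α' • u' + β' • w') ≠ A + (α • u + β • w) := by
  have hd : 0 < ‖A - B‖ := norm_pos_iff.2 (sub_ne_zero.2 h)
  have hM : 0 < ‖u‖ + ‖w‖ + ‖u'‖ + ‖w'‖ + 1 := by positivity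
  refine ⟨‖A - B‖ / 2 / (‖u‖ + ‖w‖ + ‖u'‖ + ‖w'‖ + 1), by positivity, ?_⟩
  intro r hr α β α' β' h1 h2 h3 h4 he
  rw [le_div_iff₀ hM] at hr
  have hr0 : 0 ≤ r := (abs_nonneg α).trans h1
  have e : A - B = (α' • u' + β' • w') - (α • u + β • w) := by
    linear_combination -he
  have n1 : ‖α • u‖ ≤ r * ‖u‖ := by
    rw [norm_smul, Real.norm_eq_abs]; exact mul_le_mul_of_nonneg_right h1 (norm_nonneg _)
  have n2 : ‖β • w‖ ≤ r * ‖w‖ := by
    rw [norm_smul, Real.norm_eq_abs]; exact mul_le_mul_of_nonneg_right h2 (norm_nonneg _)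
  have n3 : ‖α' • u'‖ ≤ r * ‖u'‖ := by
    rw [norm_smul, Real.norm_eq_abs]; exact mul_le_mul_of_nonneg_right h3 (norm_nonneg _)
  have n4 : ‖β' • w'‖ ≤ r * ‖w'‖ := by
    rw [norm_smul, Real.norm_eq_abs]; exact mul_le_mul_of_nonneg_right h4 (norm_nonneg _)
  have n5 : ‖A - B‖ ≤ (r * ‖u'‖ + r * ‖w'‖) + (r * ‖u‖ + r * ‖w‖) := by
    rw [e]
    refine (norm_sub_le _ _).trans (add_le_add ?_ ?_)
    · exact (norm_add_le _ _).trans (add_le_add n3 n4)
    · exact (norm_add_le _ _).trans (add_le_add n1 n2)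
  nlinarith

theorem pl2_base (hv : IsInv v) (hC : Vals v) {p : Circ → ℂ} (hp : IsRegular p)
    {s t sb tb : ℝ} (h1 : s < sb) (h2 : sb < tb) (h3 : tb < t) (h4 : t < s + 1) (e : p s = p t)
    (eb : p sb = p tb) :
    ∑ d ∈ (open Classical in (FF p s).filter (fun d => Lk (cr p d) ((s : Circ), (t : Circ)) ∧
      Lk (cr p d) ((sb : Circ), (tb : Circ)))), sgc p (cr p d) = 0 := by
  classical
  have hst' : s < t := by linarith
  obtain ⟨u, w, r₁, hr₁, hC0⟩ := exists_clean hp hst' h4 e
  obtain ⟨u', w', r₂, hr₂, hB0⟩ := exists_clean hp h2 (by linarith) eb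
  have ls : lift s (s : Circ) = s := lift_coe ⟨le_rfl, by linarith⟩
  have lt : lift s (t : Circ) = t := lift_coe ⟨by linarith, h4⟩
  have lsb : lift s (sb : Circ) = sb := lift_coe ⟨h1.le, by linarith⟩
  have ltb : lift s (tb : Circ) = tb := lift_coe ⟨by linarith, by linarith⟩
  have hAB : p (s : Circ) ≠ p (sb : Circ) := by
    intro h
    rcases hp.triple s sb tb h eb with k | k | k
    · rw [k, lsb] at ls; linarith
    · rw [k, ltb] at lsb; linarith
    · rw [k, ltb] at ls; linarith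
  obtain ⟨r₃, hr₃, hfar⟩ := far_apart hAB u w u' w'
  obtain ⟨r, hr0, q1, q2, q3, q4, q5⟩ : ∃ r > 0, r ≤ r₁ ∧ r ≤ r₂ ∧ r ≤ r₃ ∧ r ≤ (sb - s)/3 ∧
      r ≤ (t - tb)/3 := by
    refine ⟨min (min r₁ r₂) (min r₃ (min ((sb - s)/3) ((t - tb)/3))), ?_, ?_, ?_, ?_, ?_, ?_⟩
    · refine lt_min (lt_min hr₁ hr₂) (lt_min hr₃ (lt_min ?_ ?_)) <;> linarith
    · exact (min_le_left _ _).trans (min_le_left _ _)
    · exact (min_le_left _ _).trans (min_le_right _ _)
    · exact (min_le_right _ _).trans (min_le_left _ _)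
    · exact (min_le_right _ _).trans ((min_le_right _ _).trans (min_le_left _ _))
    · exact (min_le_right _ _).trans ((min_le_right _ _).trans (min_le_right _ _))
  have C := hC0 r hr0 q1
  have B := hB0 r hr0 q2
  have hst := C.hst
  have hts := C.hts
  have bst := B.hst
  have bts := B.hts
  obtain ⟨H, hAF⟩ := B.cut
  have C1 := C.splice' H (r' := r) hr0 le_rfl (by linarith) (by linarith) (by
    intro τ k1 k2 α β k3 k4 k5
    obtain ⟨g1, g2⟩ := Clean.frac_mem (by linarith : sb - r < tb + r) k1 k2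
    unfold seg at k5
    set l := (τ - (sb - r)) / (tb + r - (sb - r)) with hl
    refine hfar r q3 α β _ _ k3 k4 ?_ ?_ k5
    · rw [abs_le]; constructor <;> nlinarith
    · rw [abs_le]; constructor <;> nlinarith)
  have key := arc_zero hv hC C C1 H.agree (by linarith) (by linarith) hAF
  rw [← key]
  apply Finset.sum_congr _ fun _ _ => rfl
  ext d
  rw [Finset.mem_filter, Finset.mem_filter, mem_AF hp]
  constructor
  · rintro ⟨hd, hl, hl2⟩
    rw [Lk_cr hp hst' h4 e hd] at hl
    rw [mem_FF hp] at hd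
    rw [Lk_b hp h1 h2 h3 h4 eb hd.1 hl.2] at hl2
    have k2 := lift_lt s (ptn p d)
    have q1 : lift (sb - r) d = lift s d := lift_eq_of (coe_lift s d) (by linarith) (by linarith)
    have q2 : lift (sb - r) (ptn p d) = lift s (ptn p d) :=
      lift_eq_of (coe_lift s _) (by linarith) (by linarith)
    rw [q1, q2]
    exact ⟨⟨hd.1, by linarith, by linarith⟩, hl.2⟩
  · rintro ⟨⟨k1, k2, k3⟩, k4⟩
    have k5 := le_lift (sb - r) d
    have q1 : lift s d = lift (sb - r) d := lift_eq_of (coe_lift _ d) (by linarith) (by linarith)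
    have hd : d ∈ FF p s := by
      rw [mem_FF hp, q1]
      exact ⟨k1, by linarith⟩
    refine ⟨hd, ?_, ?_⟩
    · rw [Lk_cr hp hst' h4 e hd, q1]
      exact ⟨by linarith, k4⟩
    · rw [Lk_b hp h1 h2 h3 h4 eb k1 k4, q1]
      have hcb : IsDbl p (sb : Circ) (tb : Circ) := B.isCr
      have n1 : d ≠ (sb : Circ) := by
        rintro rfl
        rw [ptn_eq hp hcb, ltb] at k4; linarith
      have n2 : d ≠ (tb : Circ) := by
        rintro rfl
        rw [ptn_eq hp hcb.symm, lsb] at k4; linarith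
      have n1' : lift (sb - r) d ≠ sb := fun h => n1 (by rw [← coe_lift (sb - r) d, h])
      have n2' : lift (sb - r) d ≠ tb := fun h => n2 (by rw [← coe_lift (sb - r) d, h])
      obtain ⟨m1, m2⟩ := B.foot_away k1 (coe_lift (sb - r) d) n1' n2'
      rw [lt_abs] at m1 m2
      constructor
      · rcases m1 with m | m <;> linarith
      · rcases m2 with m | m <;> linarith

end Pool.Agent.H81
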