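import Pool.Agent.H81.Planar2

namespace Pool.Agent.H81

open Set

variable {v : (Circ → ℂ × ℝ) → ℝ}

/-- the foot of the crossing at `d` which comes first for the base `b` -/
noncomputable def ff (p : Circ → ℂ) (b : ℝ) (d : Circ) : Circ :=
  open Classical in if lift b d < lift b (ptn p d) then d else ptn p d

lemma ptn_ptn {p : Circ → ℂ} (hp : IsRegular p) {d : Circ} (h : d ∈ feet p) :
    ptn p (ptn p d) = d := ptn_eq hp (ptn_spec h).symm

lemma ptn_mem {p : Circ → ℂ} {d : Circ} (h : d ∈ feet p) : ptn p d ∈ feet p :=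
  (ptn_spec h).right_mem

lemma ff_pos {p : Circ → ℂ} {b : ℝ} {d : Circ} (h : lift b d < lift b (ptn p d)) :
    ff p b d = d := if_pos h

lemma ff_neg {p : Circ → ℂ} {b : ℝ} {d : Circ} (h : ¬ lift b d < lift b (ptn p d)) :
    ff p b d = ptn p d := if_neg h

lemma ff_or (p : Circ → ℂ) (b : ℝ) (d : Circ) : ff p b d = d ∨ ff p b d = ptn p d := by
  by_cases h : lift b d < lift b (ptn p d)
  · exact Or.inl (ff_pos h)
  · exact Or.inr (ff_neg h)

lemma ff_ptn {p : Circ → ℂ} (hp : IsRegular p) {d : Circ} (h : d ∈ feet p) (b : ℝ) :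
    ff p b (ptn p d) = ff p b d := by
  rcases lt_or_gt_of_ne (lift_ne (a := b) (ptn_spec h).1) with k | k
  · rw [ff_pos k, ff_neg (by rw [ptn_ptn hp h]; exact not_lt.2 k.le), ptn_ptn hp h]
  · rw [ff_neg (not_lt.2 k.le), ff_pos (by rw [ptn_ptn hp h]; exact k)]

lemma ff_mem {p : Circ → ℂ} (hp : IsRegular p) {d : Circ} (h : d ∈ feet p) (b : ℝ) :
    ff p b d ∈ FF p b := by
  rcases lt_or_gt_of_ne (lift_ne (a := b) (ptn_spec h).1) with k | k
  · rw [ff_pos k, mem_FF hp]; exact ⟨h, k⟩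
  · rw [ff_neg (not_lt.2 k.le), mem_FF hp, ptn_ptn hp h]; exact ⟨ptn_mem h, k⟩

lemma ff_of_FF {p : Circ → ℂ} (hp : IsRegular p) {d : Circ} {b : ℝ} (h : d ∈ FF p b) :
    ff p b d = d := ff_pos ((mem_FF hp).1 h).2

lemma ff_ff {p : Circ → ℂ} (hp : IsRegular p) {d : Circ} (h : d ∈ feet p) (a b : ℝ) :
    ff p a (ff p b d) = ff p a d := by
  rcases ff_or p b d with k | k <;> rw [k]
  exact ff_ptn hp h a

lemma cr_ptn {p : Circ → ℂ} (hp : IsRegular p) {d : Circ} (h : d ∈ feet p) :
    cr p (ptn p d) = (cr p d).swap := by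
  unfold cr
  rw [ptn_ptn hp h]; rfl

/-- sums over the crossings do not depend on the base -/
lemma sum_FF {p : Circ → ℂ} (hp : IsRegular p) (G : Circ → ℝ)
    (hG : ∀ d ∈ feet p, G (ptn p d) = G d) (a b : ℝ) :
    ∑ d ∈ FF p a, G d = ∑ d ∈ FF p b, G d := by
  refine Finset.sum_nbij' (ff p b) (ff p a) ?_ ?_ ?_ ?_ ?_
  · intro d hd; exact ff_mem hp ((mem_FF hp).1 hd).1 b
  · intro d hd; exact ff_mem hp ((mem_FF hp).1 hd).1 a
  · intro d hd; rw [ff_ff hp ((mem_FF hp).1 hd).1, ff_of_FF hp hd]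
  · intro d hd; rw [ff_ff hp ((mem_FF hp).1 hd).1, ff_of_FF hp hd]
  · intro d hd
    rcases ff_or p b d with k | k <;> rw [k]
    exact (hG d ((mem_FF hp).1 hd).1).symm

lemma Lk_cr_ptn {p : Circ → ℂ} (hp : IsRegular p) {d : Circ} (h : d ∈ feet p)
    (x : Circ × Circ) : Lk (cr p (ptn p d)) x ↔ Lk (cr p d) x := by
  rw [cr_ptn hp h, Lk_swap_left]

theorem pl1 (hv : IsInv v) (hC : Vals v) {p : Circ → ℂ} (hp : IsRegular p) {s t : ℝ}
    (h1 : s < t) (h2 : t < s + 1) (e : p s = p t) (b₀ : ℝ) :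
    ∑ a ∈ FF p b₀, (open Classical in if Lk (cr p a) ((s : Circ), (t : Circ)) then
      sgc p (cr p (ff p s a)) else 0) = 0 := by
  classical
  rw [sum_FF hp (fun a => if Lk (cr p a) ((s : Circ), (t : Circ)) then
    sgc p (cr p (ff p s a)) else 0) ?_ b₀ s]
  · have key := pl1_base hv hC hp h1 h2 e
    rw [Finset.sum_filter] at key
    refine (Finset.sum_congr rfl fun d hd => ?_).trans key
    rw [ff_of_FF hp hd]
  · intro d hd
    simp only [Lk_cr_ptn hp hd, ff_ptn hp hd]

lemma sgc_ff {p : Circ → ℂ} (hp : IsRegular p) {s t : ℝ} (h1 : s < t) (h2 : t < s + 1)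
    (e : p s = p t) {a : Circ} (ha : a ∈ feet p) (hl : Lk (cr p a) ((s : Circ), (t : Circ))) :
    sgc p (cr p (ff p t a)) = - sgc p (cr p (ff p s a)) := by
  set d := ff p s a with hd
  have hdF : d ∈ FF p s := ff_mem hp ha s
  have hdf : d ∈ feet p := ((mem_FF hp).1 hdF).1
  have hl' : Lk (cr p d) ((s : Circ), (t : Circ)) := by
    rcases ff_or p s a with k | k
    · rw [hd, k]; exact hl
    · rw [hd, k, Lk_cr_ptn hp ha]; exact hl
  rw [Lk_cr hp h1 h2 e hdF] at hl'
  have k1 := le_lift s d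
  have k2 := lift_lt s (ptn p d)
  have q1 : lift t d = lift s d + 1 :=
    lift_eq_of (by rw [coe_add_one, coe_lift]) (by linarith) (by linarith)
  have q2 : lift t (ptn p d) = lift s (ptn p d) :=
    lift_eq_of (coe_lift s _) hl'.2.le (by linarith)
  have e1 : ff p t a = ptn p d := by
    rw [← ff_ff hp ha t s, ← hd]
    exact ff_neg (by rw [q1, q2]; linarith)
  rw [e1, cr_ptn hp hdf, sgc_swap hp (cr_isCr hdf)]

theorem pl2 (hv : IsInv v) (hC : Vals v) {p : Circ → ℂ} (hp : IsRegular p) {s t : ℝ}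
    (h1 : s < t) (h2 : t < s + 1) (e : p s = p t) {x : Circ × Circ} (hx : IsCr p x)
    (hsep : Sep ((s : Circ), (t : Circ)) x) (hnl : ¬ Lk ((s : Circ), (t : Circ)) x) (b₀ : ℝ) :
    ∑ a ∈ FF p b₀, (open Classical in if Lk (cr p a) ((s : Circ), (t : Circ)) ∧ Lk (cr p a) x then
      sgc p (cr p (ff p s a)) else 0) = 0 := by
  classical
  have ls : lift s (s : Circ) = s := lift_coe ⟨le_rfl, by linarith⟩
  have lt : lift s (t : Circ) = t := lift_coe ⟨h1.le, h2⟩
  have main : ∀ x : Circ × Circ, IsCr p x → Sep ((s : Circ), (t : Circ)) x →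
      ¬ Lk ((s : Circ), (t : Circ)) x → lift s x.1 < lift s x.2 →
      ∑ a ∈ FF p b₀, (if Lk (cr p a) ((s : Circ), (t : Circ)) ∧ Lk (cr p a) x then
        sgc p (cr p (ff p s a)) else 0) = 0 := by
    intro x hx hsep hnl hlt
    have n1 : s ≠ lift s x.1 := fun h => hsep.h11 (by
      show (s : Circ) = x.1
      rw [← coe_lift s x.1, ← h])
    have hs1 := lt_of_le_of_ne (le_lift s x.1) n1
    rw [Lk_val hsep ls lt rfl rfl hs1 h1 hlt] at hnl
    have ex : x = ((lift s x.1 : Circ), (lift s x.2 : Circ)) :=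
      Prod.ext (coe_lift s x.1).symm (coe_lift s x.2).symm
    have eb : p (lift s x.1) = p (lift s x.2) := by
      rw [coe_lift, coe_lift]; exact hx.2
    have n2 : lift s x.2 ≠ t := fun h => hsep.h22 (by
      show (t : Circ) = x.2
      rw [← coe_lift s x.2, h])
    have n3 : lift s x.1 ≠ t := fun h => hsep.h21 (by
      show (t : Circ) = x.1
      rw [← coe_lift s x.1, h])
    have b2 := lift_lt s x.2
    rcases lt_or_gt_of_ne n2 with k | k
    · -- inside the first lobe
      rw [sum_FF hp (fun a => if Lk (cr p a) ((s : Circ), (t : Circ)) ∧ Lk (cr p a) x then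
        sgc p (cr p (ff p s a)) else 0) ?_ b₀ s]
      · have key := pl2_base hv hC hp hs1 hlt k h2 e eb
        rw [← ex, Finset.sum_filter] at key
        refine (Finset.sum_congr rfl fun d hd => ?_).trans key
        rw [ff_of_FF hp hd]
      · intro d hd
        simp only [Lk_cr_ptn hp hd, ff_ptn hp hd]
    · -- inside the second lobe
      have k' : t < lift s x.1 := by
        rcases lt_or_gt_of_ne n3 with m | m
        · exact absurd ⟨m, k⟩ hnl
        · exact m
      have key := pl2_base hv hC hp (s := t) (t := s + 1) k' hlt b2 (by linarith)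
        (by rw [coe_add_one]; exact e.symm) eb
      rw [← ex, Finset.sum_filter, coe_add_one] at key
      have e1 : ∀ d ∈ feet p, (if Lk (cr p d) ((s : Circ), (t : Circ)) ∧ Lk (cr p d) x then
          sgc p (cr p (ff p s d)) else 0) =
          - (if Lk (cr p d) ((t : Circ), (s : Circ)) ∧ Lk (cr p d) x then
          sgc p (cr p (ff p t d)) else 0) := by
        intro d hd
        have e2 : Lk (cr p d) ((t : Circ), (s : Circ)) ↔ Lk (cr p d) ((s : Circ), (t : Circ)) :=
          Lk_swap_right (cr p d) ((s : Circ), (t : Circ))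
        rw [e2]
        by_cases hc : Lk (cr p d) ((s : Circ), (t : Circ)) ∧ Lk (cr p d) x
        · rw [if_pos hc, if_pos hc, sgc_ff hp h1 h2 e hd hc.1, neg_neg]
        · rw [if_neg hc, if_neg hc, neg_zero]
      rw [Finset.sum_congr rfl fun d hd => e1 d ((mem_FF hp).1 hd).1, Finset.sum_neg_distrib,
        sum_FF hp (fun a => if Lk (cr p a) ((t : Circ), (s : Circ)) ∧ Lk (cr p a) x then
        sgc p (cr p (ff p t a)) else 0) ?_ b₀ t, neg_eq_zero]
      · refine (Finset.sum_congr rfl fun d hd => ?_).trans key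
        rw [ff_of_FF hp hd]
      · intro d hd
        simp only [Lk_cr_ptn hp hd, ff_ptn hp hd]
  rcases lt_or_gt_of_ne (lift_ne (a := s) hx.1) with k | k
  · exact main x hx hsep hnl k
  · have := main x.swap hx.swap hsep.swap_right (by rw [Lk_swap_right]; exact hnl) k
    simp only [Lk_swap_right] at this
    exact this

end Pool.Agent.H81
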