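import Pool.Agent.H81.Generic

namespace Pool.Agent.H81

open Set

/-- hypotheses for the replacement lemma -/
structure RRH {ι : Type} (J : Finset ι) (α β : ι → ℝ) (p₀ p₁ : Circ → ℂ)
    (x₁ x₂ x₃ : Circ × Circ) : Prop where
  r0 : IsRegular p₀
  r1 : IsRegular p₁
  lt : ∀ k ∈ J, α k < β k
  lt1 : ∀ k ∈ J, β k < α k + 1
  na0 : ∀ k ∈ J, (α k : Circ) ∉ feet p₀
  nb0 : ∀ k ∈ J, (β k : Circ) ∉ feet p₀
  na1 : ∀ k ∈ J, (α k : Circ) ∉ feet p₁
  nb1 : ∀ k ∈ J, (β k : Circ) ∉ feet p₁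
  ea : ∀ k ∈ J, p₀ (α k) = p₁ (α k)
  eb : ∀ k ∈ J, p₀ (β k) = p₁ (β k)
  sepa : ∀ k ∈ J, ∀ l ∈ J, k ≠ l → β k < lift (α k) (α l)
  sepb : ∀ k ∈ J, ∀ l ∈ J, k ≠ l → β k < lift (α k) (β l)
  tri : Tri p₀ x₁ x₂ x₃
  o1 : ∀ k ∈ J, Out p₀ (α k) (β k) x₁
  o2 : ∀ k ∈ J, Out p₀ (α k) (β k) x₂
  o3 : ∀ k ∈ J, Out p₀ (α k) (β k) x₃
  dis : ∀ θ : Circ, p₀ θ ≠ p₁ θ → ∃ k ∈ J, lift (α k) θ ≤ β k

lemma GoodSplice.val (p : Circ → ℂ) (a b : ℝ) (f : ℝ → ℂ) (θ : Circ) :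
    splice p a b f θ = if lift a θ ≤ b then f (lift a θ) else p θ := by
  unfold splice lp
  simp only [coe_lift]

/-- **Replacement lemma**: the cubic coefficient only depends on the curve near the six feet. -/
theorem replace_arcs {v : (Circ → ℂ × ℝ) → ℝ} (hv : IsInv v) {ι : Type} (α β : ι → ℝ)
    (x₁ x₂ x₃ : Circ × Circ) (J : Finset ι) : ∀ p₀ p₁ : Circ → ℂ, RRH J α β p₀ p₁ x₁ x₂ x₃ →
    cc v p₀ x₁ x₂ x₃ = cc v p₁ x₁ x₂ x₃ := by
  classical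
  induction J using Finset.induction_on with
  | empty =>
    intro p₀ p₁ H
    have : p₀ = p₁ := by
      funext θ
      by_contra h
      obtain ⟨k, hk, _⟩ := H.dis θ h
      simp at hk
    rw [this]
  | insert k J hk ih =>
    intro p₀ p₁ H
    have hkm : k ∈ insert k J := Finset.mem_insert_self _ _
    have hsub : ∀ l ∈ J, l ∈ insert k J := fun l hl => Finset.mem_insert_of_mem hl
    have hne : ∀ l ∈ J, k ≠ l := fun l hl h => hk (h ▸ hl)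
    set Z : Set Circ := (fun l => (α l : Circ)) '' (J : Set ι) ∪ (fun l => (β l : Circ)) '' (J : Set ι)
      with hZ
    have hZf : Z.Finite := (J.finite_toSet.image _).union (J.finite_toSet.image _)
    have g0 := generic_splice H.r0 (H.lt k hkm) (H.lt1 k hkm) (H.na0 k hkm) (H.nb0 k hkm) hZf
    have g1 := generic_splice H.r1 (H.lt k hkm) (H.lt1 k hkm) (H.na1 k hkm) (H.nb1 k hkm) hZf
    obtain ⟨x, hx⟩ := (g0.union g1).infinite_compl.nonempty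
    simp only [mem_compl_iff, mem_union, mem_ofPred_eq, not_or, not_not] at hx
    obtain ⟨⟨H0, z0⟩, H1, z1⟩ := hx
    rw [← H.ea k hkm, ← H.eb k hkm] at H1 z1
    set f := two (α k) (β k) (p₀ (α k)) (MM x) (p₀ (β k)) with hf
    -- outside feet agree
    have hout : ∀ θ : Circ, (∀ l ∈ insert k J, β l < lift (α l) θ) → p₀ θ = p₁ θ := by
      intro θ h
      by_contra hne'
      obtain ⟨l, hl, h'⟩ := H.dis θ hne'
      exact absurd (h l hl) (not_lt.2 h')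
    have tr1 : ∀ x, (∀ l ∈ insert k J, Out p₀ (α l) (β l) x) → IsCr p₁ x := by
      intro x hx
      have e1 := hout x.1 fun l hl => (hx l hl).o1
      have e2 := hout x.2 fun l hl => (hx l hl).o2
      exact ⟨(hx k hkm).cr.1, by rw [← e1, ← e2]; exact (hx k hkm).cr.2⟩
    have trO : ∀ x, (∀ l ∈ insert k J, Out p₀ (α l) (β l) x) →
        ∀ l ∈ insert k J, Out p₁ (α l) (β l) x := fun x hx l hl =>
      ⟨tr1 x hx, (hx l hl).o1, (hx l hl).o2⟩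
    have tri1 : Tri p₁ x₁ x₂ x₃ := ⟨tr1 _ H.o1, tr1 _ H.o2, tr1 _ H.o3, H.tri.s12, H.tri.s13, H.tri.s23⟩
    obtain ⟨e0, t0⟩ := cc_agree hv H0.agree H.tri (H.o1 k hkm) (H.o2 k hkm) (H.o3 k hkm)
    obtain ⟨e1, t1⟩ := cc_agree hv H1.agree tri1 (trO _ H.o1 k hkm) (trO _ H.o2 k hkm)
      (trO _ H.o3 k hkm)
    rw [e0, e1]
    apply ih
    have hval : ∀ θ : Circ, p₀ θ = p₁ θ → splice p₀ (α k) (β k) f θ = splice p₁ (α k) (β k) f θ := by
      intro θ h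
      rw [GoodSplice.val, GoodSplice.val, h]
    refine ⟨H0.regular, H1.regular, fun l hl => H.lt l (hsub l hl), fun l hl => H.lt1 l (hsub l hl),
      ?_, ?_, ?_, ?_, fun l hl => hval _ (H.ea l (hsub l hl)), fun l hl => hval _ (H.eb l (hsub l hl)),
      fun l hl m hm h => H.sepa l (hsub l hl) m (hsub m hm) h,
      fun l hl m hm h => H.sepb l (hsub l hl) m (hsub m hm) h, t0, ?_, ?_, ?_, ?_⟩
    · intro l hl
      exact z0 _ (Or.inl ⟨l, hl, rfl⟩) (H.sepa k hkm l (hsub l hl) (hne l hl)) (H.na0 l (hsub l hl))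
    · intro l hl
      exact z0 _ (Or.inr ⟨l, hl, rfl⟩) (H.sepb k hkm l (hsub l hl) (hne l hl)) (H.nb0 l (hsub l hl))
    · intro l hl
      exact z1 _ (Or.inl ⟨l, hl, rfl⟩) (H.sepa k hkm l (hsub l hl) (hne l hl)) (H.na1 l (hsub l hl))
    · intro l hl
      exact z1 _ (Or.inr ⟨l, hl, rfl⟩) (H.sepb k hkm l (hsub l hl) (hne l hl)) (H.nb1 l (hsub l hl))
    · intro l hl
      exact ⟨t0.c1, (H.o1 l (hsub l hl)).o1, (H.o1 l (hsub l hl)).o2⟩
    · intro l hl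
      exact ⟨t0.c2, (H.o2 l (hsub l hl)).o1, (H.o2 l (hsub l hl)).o2⟩
    · intro l hl
      exact ⟨t0.c3, (H.o3 l (hsub l hl)).o1, (H.o3 l (hsub l hl)).o2⟩
    · intro θ hθ
      have h1 : p₀ θ ≠ p₁ θ := fun h => hθ (hval θ h)
      obtain ⟨l, hl, h2⟩ := H.dis θ h1
      rcases Finset.mem_insert.1 hl with rfl | hl
      · exfalso
        apply hθ
        rw [GoodSplice.val, GoodSplice.val, if_pos h2, if_pos h2]
      · exact ⟨l, hl, h2⟩

end Pool.Agent.H81
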