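import Pool.Agent.H81.Shear

namespace Pool.Agent.H81

open Set

lemma exists_nodes (n : ℕ) (x y : ℕ → ℝ) (hx : ∀ j < n, x j < x (j+1)) (hy : ∀ j < n, y j < y (j+1)) :
    ∃ φ : ℝ → ℝ, IsPLR φ ∧ (∀ τ, x n ≤ τ → φ τ = y n) ∧
      (∀ j < n, ∀ τ, x j ≤ τ → τ ≤ x (j+1) →
        φ τ = y j + (y (j+1) - y j) / (x (j+1) - x j) * (τ - x j)) ∧
      StrictMonoOn φ (Icc (x 0) (x n)) := by
  induction n with
  | zero =>
    refine ⟨fun _ => y 0, IsPLR.const _, fun _ _ => rfl, fun j hj => absurd hj (Nat.not_lt_zero _), ?_⟩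
    intro a ha b hb hab
    exfalso
    linarith [ha.1, ha.2, hb.1, hb.2]
  | succ n ih =>
    obtain ⟨φ, h1, h2, h3, h4⟩ := ih (fun j hj => hx j (by omega)) (fun j hj => hy j (by omega))
    have hxn := hx n (by omega)
    have hyn := hy n (by omega)
    have hmono : ∀ i j, i ≤ j → j ≤ n → x i ≤ x j := by
      intro i j hij
      induction hij with
      | refl => intro _; exact le_rfl
      | step hk ih2 => intro h; exact (ih2 (by omega)).trans (hx _ (by omega)).le
    have hs : 0 < (y (n+1) - y n) / (x (n+1) - x n) := div_pos (by linarith) (by linarith)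
    set s := (y (n+1) - y n) / (x (n+1) - x n) with hsd
    have hval1 : ∀ τ, τ ≤ x n → φ τ + s * max 0 (min (τ - x n) (x (n+1) - x n)) = φ τ := by
      intro τ hτ
      rw [max_eq_left ((min_le_left _ _).trans (by linarith)), mul_zero, add_zero]
    have hval2 : ∀ τ, x n ≤ τ → τ ≤ x (n+1) →
        φ τ + s * max 0 (min (τ - x n) (x (n+1) - x n)) = y n + s * (τ - x n) := by
      intro τ hτ hτ'
      rw [h2 τ hτ, min_eq_left (by linarith), max_eq_right (by linarith)]
    refine ⟨fun τ => φ τ + s * max 0 (min (τ - x n) (x (n+1) - x n)), ?_, ?_, ?_, ?_⟩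
    · exact h1.add (((IsPLR.const (0:ℝ)).max ((IsPLR.id.sub (IsPLR.const (x n))).min
        (IsPLR.const (x (n+1) - x n)))).mul s)
    · intro τ hτ
      simp only
      rw [h2 τ (by linarith), min_eq_right (by linarith), max_eq_right (by linarith), hsd,
        div_mul_cancel₀ _ (by linarith : x (n+1) - x n ≠ 0)]
      ring
    · intro j hj τ hτ hτ'
      simp only
      rcases Nat.lt_or_ge j n with hjn | hjn
      · rw [hval1 τ (hτ'.trans (hmono _ _ (by omega) le_rfl)), h3 j hjn τ hτ hτ']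
      · have : j = n := by omega
        subst this
        exact hval2 τ hτ hτ'
    · have e1 : Icc (x 0) (x (n+1)) = Icc (x 0) (x n) ∪ Icc (x n) (x (n+1)) :=
        (Icc_union_Icc_eq_Icc (hmono 0 n (by omega) le_rfl) hxn.le).symm
      rw [e1]
      refine StrictMonoOn.union (c := x n) ?_ ?_ (isGreatest_Icc (hmono 0 n (by omega) le_rfl))
        (isLeast_Icc hxn.le)
      · intro a ha b hb hab
        simp only
        rw [hval1 a ha.2, hval1 b hb.2]
        exact h4 ha hb hab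
      · intro a ha b hb hab
        simp only
        rw [hval2 a ha.1 ha.2, hval2 b hb.1 hb.2]
        nlinarith

lemma strictMono_of_period {φ : ℝ → ℝ} {c : ℝ} (hper : ∀ x, φ (x + 1) = φ x + 1)
    (h : StrictMonoOn φ (Icc c (c + 1))) : StrictMono φ := by
  have hnat : ∀ (n : ℕ) x, φ (x + n) = φ x + n := by
    intro n
    induction n with
    | zero => intro x; simp
    | succ n ih =>
      intro x
      push_cast
      rw [← add_assoc, hper, ih]; ring
  have hint : ∀ (n : ℤ) x, φ (x + n) = φ x + n := by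
    intro n x
    rcases Int.eq_nat_or_neg n with ⟨m, rfl | rfl⟩
    · exact_mod_cast hnat m x
    · have := hnat m (x + ((-(m:ℤ) : ℤ) : ℝ))
      push_cast at this ⊢
      rw [add_assoc, neg_add_cancel, add_zero] at this
      linarith
  intro x y hxy
  obtain ⟨k, hk⟩ := exists_int_shift c x
  obtain ⟨l, hl⟩ := exists_int_shift c y
  have e1 := hint k x
  have e2 := hint l y
  have hkl : l ≤ k := by
    by_contra hcon
    have : (k:ℝ) + 1 ≤ l := by exact_mod_cast not_le.1 hcon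
    linarith [hk.1, hk.2, hl.1, hl.2]
  rcases hkl.eq_or_lt with h1 | h1
  · subst h1
    have := h ⟨hk.1, hk.2.le⟩ ⟨hl.1, hl.2.le⟩ (by linarith : x + l < y + l)
    linarith
  · have h2 : (l:ℝ) + 1 ≤ k := by exact_mod_cast h1
    have h3 : φ (x + k) < φ (c + 1) := h ⟨hk.1, hk.2.le⟩ ⟨by linarith, le_rfl⟩ hk.2
    have h4 : φ c ≤ φ (y + l) := by
      rcases hl.1.eq_or_lt with h5 | h5
      · rw [← h5]
      · exact (h ⟨le_rfl, by linarith⟩ ⟨hl.1, hl.2.le⟩ h5).le
    rw [hper] at h3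
    linarith

/-- affine near a point -/
def AffAt (φ : ℝ → ℝ) (x c : ℝ) : Prop := ∃ δ > 0, ∀ y, |y| < δ → φ (x + y) = φ x + y * c

/-- change of parameter with prescribed jets -/
theorem exists_reparam (t ρ : ℕ → ℝ) (ht6 : t 6 = t 0 + 1)
    (hρ : ∀ k, 0 < ρ k) (hρ6 : ρ 6 = ρ 0) (η : ℝ) (hη : 0 < η) (hη1 : η < 1/12)
    (hη2 : ∀ k < 6, t k + ρ k * η < t (k+1) - ρ (k+1) * η) :
    ∃ φ : ℝ → ℝ, IsPLR φ ∧ StrictMono φ ∧ (∀ x, φ (x + 1) = φ x + 1) ∧
      (∀ k : ℕ, k < 6 → ∀ x : ℝ, |x - k/6| ≤ η → φ x = t k + ρ k * (x - k/6)) ∧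
      (∀ x, (∃ c > 0, AffAt φ x c) ∨ ∃ k : ℕ, k < 6 ∧
        ((φ x : Circ) = ((t k - ρ k * η : ℝ) : Circ) ∨ (φ x : Circ) = ((t k + ρ k * η : ℝ) : Circ))) := by
  set X : ℕ → ℝ := fun j => ((j / 2 : ℕ) : ℝ) / 6 + (if j % 2 = 0 then -η else η) with hX
  set Y : ℕ → ℝ := fun j => t (j / 2) + (if j % 2 = 0 then -(ρ (j/2) * η) else ρ (j/2) * η) with hY
  have X0 : ∀ k : ℕ, X (2 * k) = (k:ℝ) / 6 - η := by
    intro k; simp only [hX]
    rw [if_pos (by omega), show 2 * k / 2 = k by omega]; ring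
  have X1 : ∀ k : ℕ, X (2 * k + 1) = (k:ℝ) / 6 + η := by
    intro k; simp only [hX]
    rw [if_neg (by omega), show (2 * k + 1) / 2 = k by omega]
  have Y0 : ∀ k : ℕ, Y (2 * k) = t k - ρ k * η := by
    intro k; simp only [hY]
    rw [if_pos (by omega), show 2 * k / 2 = k by omega]; ring
  have Y1 : ∀ k : ℕ, Y (2 * k + 1) = t k + ρ k * η := by
    intro k; simp only [hY]
    rw [if_neg (by omega), show (2 * k + 1) / 2 = k by omega]
  have hpar : ∀ j : ℕ, ∃ k, j = 2 * k ∨ j = 2 * k + 1 := fun j => ⟨j / 2, by omega⟩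
  have hXm : ∀ j < 12, X j < X (j+1) := by
    intro j hj
    obtain ⟨k, rfl | rfl⟩ := hpar j
    · rw [X0, X1]; linarith
    · rw [X1, show 2 * k + 1 + 1 = 2 * (k + 1) by ring, X0]
      push_cast; linarith
  have hYm : ∀ j < 12, Y j < Y (j+1) := by
    intro j hj
    obtain ⟨k, rfl | rfl⟩ := hpar j
    · rw [Y0, Y1]; nlinarith [hρ k, mul_pos (hρ k) hη]
    · rw [Y1, show 2 * k + 1 + 1 = 2 * (k + 1) by ring, Y0]
      exact hη2 k (by omega)
  obtain ⟨φ₀, h1, h2, h3, h4⟩ := exists_nodes 12 X Y hXm hYm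
  have eX0 : X 0 = -η := by have := X0 0; simpa using this
  have eX12 : X 12 = -η + 1 := by
    have := X0 6
    norm_num at this
    rw [this]; ring
  have eY0 : Y 0 = t 0 - ρ 0 * η := by have := Y0 0; simpa using this
  have eY12 : Y 12 = t 0 + 1 - ρ 0 * η := by
    have := Y0 6
    rw [ht6, hρ6] at this
    exact this
  have hφ0 : φ₀ (-η) = Y 0 := by
    have := h3 0 (by norm_num) (X 0) le_rfl (hXm 0 (by norm_num)).le
    rw [sub_self, mul_zero, add_zero, eX0] at this
    exact this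
  have hφ1 : φ₀ (-η + 1) = Y 0 + 1 := by
    have := h2 (X 12) le_rfl
    rw [eX12] at this
    rw [this, eY12, eY0]; ring
  -- periodic extension
  set ψ : ℝ → ℝ := fun x => φ₀ x - x with hψ
  have hψend : ψ (-η) = ψ (-η + 1) := by
    simp only [hψ]; rw [hφ0, hφ1]; ring
  have hψPL : IsPL (lp (-η) ψ) := lp_isPL ((h1.sub IsPLR.id).plOn _ _) hψend
  set φ : ℝ → ℝ := fun x => x + lp (-η) ψ (x : Circ) with hφ
  have hφPL : IsPLR φ := IsPLR.id.add hψPL
  have hper : ∀ x, φ (x + 1) = φ x + 1 := by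
    intro x; simp only [hφ]; rw [coe_add_one]; ring
  have hφeq : ∀ x, -η ≤ x → x ≤ -η + 1 → φ x = φ₀ x := by
    intro x k1 k2
    simp only [hφ]
    rw [lp_coe' hψend ⟨k1, k2⟩]
    simp only [hψ]; ring
  have hmono : StrictMono φ := by
    apply strictMono_of_period (c := -η) hper
    intro a ha b hb hab
    rw [hφeq a ha.1 ha.2, hφeq b hb.1 hb.2]
    rw [eX0, eX12] at h4
    exact h4 ha hb hab
  have hperi : ∀ (n : ℤ) x, φ (x + n) = φ x + n := by
    intro n x
    simp only [hφ]; rw [coe_add_int]; ring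
  have hXmono : ∀ i j, i ≤ j → j ≤ 12 → X i ≤ X j := by
    intro i j hij
    induction hij with
    | refl => intro _; exact le_rfl
    | step hk ih2 => intro h; exact (ih2 (by omega)).trans (hXm _ (by omega)).le
  refine ⟨φ, hφPL, hmono, hper, ?_, ?_⟩
  · intro k hk x hx
    rw [abs_le] at hx
    have e1 : X (2 * k) ≤ x := by rw [X0]; linarith
    have e2 : x ≤ X (2 * k + 1) := by rw [X1]; linarith
    have g1 := hXmono 0 (2*k) (by omega) (by omega)
    have g2 := hXmono (2*k+1) 12 (by omega) le_rfl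
    rw [eX0] at g1
    rw [eX12] at g2
    rw [hφeq x (by linarith) (by linarith), h3 (2 * k) (by omega) x e1 e2, X0, X1, Y0, Y1]
    have : (k:ℝ)/6 + η - ((k:ℝ)/6 - η) = 2 * η := by ring
    rw [this]
    field_simp
    ring
  · intro x
    obtain ⟨n, hn⟩ := exists_int_shift (-η) x
    -- find the node interval
    have hfind : ∀ m : ℕ, m ≤ 12 → x + n < X m → ∃ j < m, X j ≤ x + n ∧ x + n < X (j+1) := by
      intro m
      induction m with
      | zero => intro _ h; rw [eX0] at h; linarith [hn.1]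
      | succ m ih =>
        intro hm h
        rcases lt_or_ge (x + n) (X m) with h' | h'
        · obtain ⟨j, hj, h5⟩ := ih (by omega) h'
          exact ⟨j, by omega, h5⟩
        · exact ⟨m, by omega, h', h⟩
    obtain ⟨j, hj, k1, k2⟩ := hfind 12 le_rfl (by rw [eX12]; exact hn.2)
    rcases k1.eq_or_lt with k3 | k3
    · right
      have hval : φ (x + n) = Y j := by
        rw [hφeq _ hn.1 hn.2.le, ← k3, h3 j hj (X j) le_rfl (hXm j hj).le]; ring
      have hc : (φ x : Circ) = (Y j : Circ) := by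
        rw [← hval, hperi, coe_add_int]
      obtain ⟨k, rfl | rfl⟩ := hpar j
      · exact ⟨k, by omega, Or.inl (by rw [hc, Y0])⟩
      · exact ⟨k, by omega, Or.inr (by rw [hc, Y1])⟩
    · left
      have hs : 0 < (Y (j+1) - Y j) / (X (j+1) - X j) :=
        div_pos (by linarith [hYm j hj]) (by linarith [hXm j hj])
      refine ⟨_, hs, min (x + n - X j) (X (j+1) - (x + n)), lt_min (by linarith) (by linarith),
        fun y hy => ?_⟩
      have y1 := hy.trans_le (min_le_left _ _)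
      have y2 := hy.trans_le (min_le_right _ _)
      rw [abs_lt] at y1 y2
      have g1 := hXmono 0 j (by omega) (by omega)
      have g2 := hXmono (j+1) 12 (by omega) le_rfl
      rw [eX0] at g1
      rw [eX12] at g2
      have e1 : φ (x + y) = φ (x + n + y) - n := by
        rw [show x + n + y = (x + y) + n by ring, hperi]; ring
      have e2 : φ x = φ (x + n) - n := by rw [hperi]; ring
      rw [e1, e2, hφeq (x + n + y) (by linarith) (by linarith), hφeq (x + n) hn.1 hn.2.le,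
        h3 j hj (x + n + y) (by linarith) (by linarith), h3 j hj (x + n) (by linarith) (by linarith)]
      ring

section reparam

variable {φ : ℝ → ℝ}

/-- the induced map of the circle -/
noncomputable def cmap (φ : ℝ → ℝ) (θ : Circ) : Circ := ((φ (lift 0 θ) : ℝ) : Circ)

lemma period_int (hper : ∀ x, φ (x + 1) = φ x + 1) (n : ℤ) (x : ℝ) : φ (x + n) = φ x + n := by
  have hnat : ∀ (n : ℕ) x, φ (x + n) = φ x + n := by
    intro n
    induction n with
    | zero => intro x; simp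
    | succ n ih =>
      intro x
      push_cast
      rw [← add_assoc, hper, ih]; ring
  rcases Int.eq_nat_or_neg n with ⟨m, rfl | rfl⟩
  · exact_mod_cast hnat m x
  · have := hnat m (x + ((-(m:ℤ) : ℤ) : ℝ))
    push_cast at this ⊢
    rw [add_assoc, neg_add_cancel, add_zero] at this
    linarith

lemma coe_eq_iff_int {x y : ℝ} : (x : Circ) = (y : Circ) ↔ ∃ n : ℤ, y = x + n := by
  constructor
  · intro h
    obtain ⟨k, hk⟩ := exists_int_shift x y
    have h1 : ((y + k : ℝ) : Circ) = (x : Circ) := by rw [coe_add_int, h]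
    rw [coe_eq_coe_iff (a := x) hk ⟨le_rfl, by linarith⟩] at h1
    exact ⟨-k, by push_cast; linarith⟩
  · rintro ⟨n, rfl⟩
    exact (coe_add_int x n).symm

lemma cmap_coe (hper : ∀ x, φ (x + 1) = φ x + 1) (x : ℝ) : cmap φ (x : Circ) = (φ x : Circ) := by
  unfold cmap
  have h : ((lift 0 (x : Circ) : ℝ) : Circ) = (x : Circ) := coe_lift 0 _
  obtain ⟨n, hn⟩ := coe_eq_iff_int.1 h
  have h2 : φ x = φ (lift 0 (x : Circ)) + n := by
    conv_lhs => rw [hn]
    rw [period_int hper]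
  rw [h2, coe_add_int]

lemma cmap_inj (hper : ∀ x, φ (x + 1) = φ x + 1) (hm : StrictMono φ) :
    Function.Injective (cmap φ) := by
  intro θ θ' h
  rw [← coe_lift 0 θ, ← coe_lift 0 θ', cmap_coe hper, cmap_coe hper] at h
  obtain ⟨n, hn⟩ := coe_eq_iff_int.1 h
  rw [← period_int hper] at hn
  have := hm.injective hn
  rw [← coe_lift 0 θ, ← coe_lift 0 θ', this, coe_add_int]

/-- the image of a crossing -/
noncomputable def cmap2 (φ : ℝ → ℝ) (x : Circ × Circ) : Circ × Circ := (cmap φ x.1, cmap φ x.2)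

variable {v : (Circ → ℂ × ℝ) → ℝ}

/-- reparametrised curve -/
noncomputable def rep (p : Circ → ℂ) (φ : ℝ → ℝ) : Circ → ℂ := fun θ => p (cmap φ θ)

lemma rep_vel {p : Circ → ℂ} (hper : ∀ x, φ (x + 1) = φ x + 1) {x c : ℝ} {u : ℂ}
    (hφ : AffAt φ x c) (h : Vel p (φ x : Circ) u) : Vel (rep p φ) (x : Circ) (c • u) := by
  rw [vel_iff] at h ⊢
  obtain ⟨δ, hδ, h1⟩ := hφ
  obtain ⟨ε, hε, h2⟩ := h
  refine ⟨min δ (ε / (|c| + 1)), lt_min hδ (by positivity), fun y hy => ?_⟩
  have k1 := hy.trans_le (min_le_left _ _)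
  have k2 := hy.trans_le (min_le_right _ _)
  rw [lt_div_iff₀ (by positivity)] at k2
  simp only [rep, cmap_coe hper] at h2 ⊢
  rw [h1 y k1, h2 (y * c) (by rw [abs_mul]; nlinarith [abs_nonneg y, abs_nonneg c]), smul_smul]

/-- the reparametrised curve is regular -/
lemma rep_reg {p : Circ → ℂ} (hp : IsRegular p) (hPL : IsPLR φ) (hm : StrictMono φ)
    (hper : ∀ x, φ (x + 1) = φ x + 1)
    (haff : ∀ x, (φ x : Circ) ∈ feet p → ∃ c > 0, AffAt φ x c) : IsRegular (rep p φ) := by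
  have hinj := cmap_inj hper hm
  refine ⟨?_, ?_, ?_, ?_⟩
  · have h1 : IsPLR (fun x : ℝ => p (φ x : Circ)) := IsPLR.comp (f := fun τ : ℝ => p τ) hp.pl hPL
    have h2 : (fun τ : ℝ => rep p φ τ) = fun x : ℝ => p (φ x : Circ) := by
      funext x
      simp only [rep, cmap_coe hper]
    unfold IsPL
    rw [h2]
    exact h1
  · refine (hp.fin.preimage hinj.injOn).subset ?_
    rintro s ⟨t, h1, h2⟩
    exact ⟨cmap φ t, fun h => h1 (hinj h), h2⟩
  · intro r s t h1 h2
    rcases hp.triple _ _ _ h1 h2 with h | h | h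
    · exact Or.inl (hinj h)
    · exact Or.inr (Or.inl (hinj h))
    · exact Or.inr (Or.inr (hinj h))
  · intro s t hst h
    have hst' : cmap φ s ≠ cmap φ t := fun h' => hst (hinj h')
    obtain ⟨u, w, h1, h2, h3⟩ := hp.trans _ _ hst' h
    have es : (φ (lift 0 s) : Circ) = cmap φ s := rfl
    have et : (φ (lift 0 t) : Circ) = cmap φ t := rfl
    obtain ⟨c, hc, hc'⟩ := haff (lift 0 s) (by rw [es]; exact ⟨_, hst'.symm, h.symm⟩)
    obtain ⟨d, hd, hd'⟩ := haff (lift 0 t) (by rw [et]; exact ⟨_, hst', h⟩)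
    refine ⟨c • u, d • w, ?_, ?_, ?_⟩
    · have := rep_vel hper hc' (by rw [es]; exact h1)
      rwa [coe_lift] at this
    · have := rep_vel hper hd' (by rw [et]; exact h2)
      rwa [coe_lift] at this
    · rw [det_smul_left, det_smul_right]
      exact mul_ne_zero hc.ne' (mul_ne_zero hd.ne' h3)

lemma rep_V (hv : IsInv v) {p : Circ → ℂ} (hp : IsRegular p) (hPL : IsPLR φ) (hm : StrictMono φ)
    (hper : ∀ x, φ (x + 1) = φ x + 1) (hq : IsRegular (rep p φ)) {y : Circ → ℝ}
    (hy : Valid p y) : V v (rep p φ) (fun θ => y (cmap φ θ)) = V v p y := by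
  have hinj := cmap_inj hper hm
  have hz := real_spec hp y
  have hsame := samePat_of_eq hy hz.2
  have e1 : V v (rep p φ) (fun θ => y (cmap φ θ)) =
      v (mk (rep p φ) (fun θ => real p y (cmap φ θ))) := by
    symm
    refine V_eq hv hq ?_ ?_
    · have h1 : IsPLR (fun x : ℝ => real p y (φ x : Circ)) :=
        IsPLR.comp (f := fun τ : ℝ => real p y τ) hz.1 hPL
      have h2 : (fun τ : ℝ => real p y (cmap φ τ)) = fun x : ℝ => real p y (φ x : Circ) := by
        funext x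
        rw [cmap_coe hper]
      unfold IsPL
      rw [h2]
      exact h1
    · intro s t hst
      exact hsame _ _ ⟨fun h => hst.1 (hinj h), hst.2⟩
  rw [e1]
  symm
  apply hv.reparam
  · exact Valid.isKnot hp.pl hz.1 hsame.valid_left
  · refine ⟨φ, hPL, hm, hper, fun x => ?_⟩
    simp only [mk, rep, cmap_coe hper]

lemma up_cmap (hinj : Function.Injective (cmap φ)) (y : Circ → ℝ) (x : Circ × Circ) (e : ℝ) :
    up (fun θ => y (cmap φ θ)) x e = fun θ => up y (cmap2 φ x) e (cmap φ θ) := by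
  funext r
  by_cases h : r = x.1
  · subst h
    rw [up_fst]
    exact (up_fst y (cmap2 φ x) e).symm
  · rw [up_ne _ _ _ h]
    exact (up_ne y (cmap2 φ x) e (fun h' => h (hinj h'))).symm

lemma rep_cc (hv : IsInv v) {p : Circ → ℂ} (hp : IsRegular p) (hPL : IsPLR φ) (hm : StrictMono φ)
    (hper : ∀ x, φ (x + 1) = φ x + 1) (hq : IsRegular (rep p φ)) {x₁ x₂ x₃ : Circ × Circ}
    (h : Tri p (cmap2 φ x₁) (cmap2 φ x₂) (cmap2 φ x₃)) :
    Tri (rep p φ) x₁ x₂ x₃ ∧
    cc v (rep p φ) x₁ x₂ x₃ = cc v p (cmap2 φ x₁) (cmap2 φ x₂) (cmap2 φ x₃) := by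
  have hinj := cmap_inj hper hm
  have hcr : ∀ x, IsCr p (cmap2 φ x) → IsCr (rep p φ) x := fun x hx =>
    ⟨fun h => hx.1 (congrArg (cmap φ) h), hx.2⟩
  have hsep : ∀ x x', Sep (cmap2 φ x) (cmap2 φ x') → Sep x x' := fun x x' hx =>
    ⟨fun h => hx.h11 (congrArg (cmap φ) h), fun h => hx.h12 (congrArg (cmap φ) h),
      fun h => hx.h21 (congrArg (cmap φ) h), fun h => hx.h22 (congrArg (cmap φ) h)⟩
  have ht : Tri (rep p φ) x₁ x₂ x₃ := ⟨hcr _ h.c1, hcr _ h.c2, hcr _ h.c3, hsep _ _ h.s12,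
    hsep _ _ h.s13, hsep _ _ h.s23⟩
  refine ⟨ht, ?_⟩
  have hval : Valid (rep p φ) (fun θ => lift 0 (cmap φ θ)) := fun s t hst =>
    lift_ne fun h' => hst.1 (hinj h')
  have e1 := D3_eq hv hq ht hval
  have e2 := D3_eq hv hp h (valid_lift p 0)
  have key : D3 v (rep p φ) x₁ x₂ x₃ (fun θ => lift 0 (cmap φ θ)) =
      D3 v p (cmap2 φ x₁) (cmap2 φ x₂) (cmap2 φ x₃) (lift 0) := by
    have hV : ∀ e₁ e₂ e₃ : ℝ, e₁ ≠ 0 → e₂ ≠ 0 → e₃ ≠ 0 →
        V v (rep p φ) (up (up (up (fun θ => lift 0 (cmap φ θ)) x₃ e₃) x₂ e₂) x₁ e₁) =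
        V v p (up (up (up (lift 0) (cmap2 φ x₃) e₃) (cmap2 φ x₂) e₂) (cmap2 φ x₁) e₁) := by
      intro e₁ e₂ e₃ k1 k2 k3
      rw [up_cmap hinj, up_cmap hinj, up_cmap hinj]
      exact rep_V hv hp hPL hm hper hq
        ((((valid_lift p 0).up hp h.c3 k3).up hp h.c2 k2).up hp h.c1 k1)
    simp only [D3, D]
    rw [hV _ _ _ (by norm_num) (by norm_num) (by norm_num),
      hV _ _ _ (by norm_num) (by norm_num) (by norm_num),
      hV _ _ _ (by norm_num) (by norm_num) (by norm_num),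
      hV _ _ _ (by norm_num) (by norm_num) (by norm_num),
      hV _ _ _ (by norm_num) (by norm_num) (by norm_num),
      hV _ _ _ (by norm_num) (by norm_num) (by norm_num),
      hV _ _ _ (by norm_num) (by norm_num) (by norm_num),
      hV _ _ _ (by norm_num) (by norm_num) (by norm_num)]
  linarith

end reparam

end Pool.Agent.H81
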