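import Pool.Agent.H81.RR

namespace Pool.Agent.H81

open Set

section comp
variable {E : Type*} [AddCommGroup E] [Module ℝ E]

lemma RAff_comp {f : ℝ → E} (hf : IsPLR f) {g : ℝ → ℝ} {x : ℝ} (hg : RAff g x) :
    RAff (fun τ => f (g τ)) x := by
  obtain ⟨δ, hδ, c, hc⟩ := hg
  obtain ⟨⟨ε, hε, u, hu⟩, ⟨ε', hε', w, hw⟩⟩ := hf (g x)
  rcases lt_trichotomy c 0 with h | h | h
  · refine ⟨min δ (ε' / (-c)), lt_min hδ (div_pos hε' (by linarith)), c • w, fun τ hτ => ?_⟩
    simp only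
    rw [hc τ ⟨hτ.1, hτ.2.trans (min_le_left _ _)⟩]
    have h2 := hτ.2.trans (min_le_right _ _)
    rw [le_div_iff₀ (by linarith)] at h2
    have := hw (τ * (-c)) ⟨mul_nonneg hτ.1 (by linarith), h2⟩
    rw [smul_eq_mul, show g x + τ * c = g x - τ * (-c) by ring, this, smul_smul]
    rw [show τ * -c = -(τ * c) by ring, neg_smul, sub_neg_eq_add]
  · refine ⟨δ, hδ, 0, fun τ hτ => ?_⟩
    simp only
    rw [hc τ hτ, h]; simp
  · refine ⟨min δ (ε / c), lt_min hδ (div_pos hε h), c • u, fun τ hτ => ?_⟩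
    simp only
    rw [hc τ ⟨hτ.1, hτ.2.trans (min_le_left _ _)⟩]
    have h2 := hτ.2.trans (min_le_right _ _)
    rw [le_div_iff₀ h] at h2
    have := hu (τ * c) ⟨mul_nonneg hτ.1 h.le, h2⟩
    rw [smul_eq_mul, this, smul_smul]

lemma LAff_comp {f : ℝ → E} (hf : IsPLR f) {g : ℝ → ℝ} {x : ℝ} (hg : LAff g x) :
    LAff (fun τ => f (g τ)) x := by
  rw [LAff_iff] at *
  exact RAff_comp hf hg

lemma IsPLR.comp {f : ℝ → E} (hf : IsPLR f) {g : ℝ → ℝ} (hg : IsPLR g) :
    IsPLR (fun τ => f (g τ)) := fun x => ⟨RAff_comp hf (hg x).1, LAff_comp hf (hg x).2⟩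

end comp

/-- interpolation of jets -/
lemma exists_jets (S : Finset ℝ) (c m : ℝ → ℝ) : ∃ f : ℝ → ℝ, IsPLR f ∧
    ∀ σ ∈ S, ∃ δ > 0, ∀ x, |x - σ| < δ → f x = c σ + m σ * (x - σ) := by
  classical
  -- distances
  set F : Set ℝ := (fun q : ℝ × ℝ => |q.1 - q.2|) '' {q | q.1 ∈ S ∧ q.2 ∈ S ∧ q.1 ≠ q.2} with hF
  have hFfin : F.Finite := by
    refine Set.Finite.image _ ((S ×ˢ S).finite_toSet.subset ?_)
    rintro q ⟨h1, h2, _⟩
    simp [h1, h2]
  have h0 : (0:ℝ) ∉ F := by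
    rintro ⟨q, ⟨_, _, h3⟩, h4⟩
    simp only at h4
    exact h3 (by linarith [abs_eq_zero.1 h4])
  obtain ⟨η, hη, hgap⟩ := exists_gap F hFfin 0 h0
  have hd : ∀ σ ∈ S, ∀ σ' ∈ S, σ ≠ σ' → η < |σ - σ'| := by
    intro σ hσ σ' hσ' hne
    have := hgap _ ⟨(σ, σ'), ⟨hσ, hσ', hne⟩, rfl⟩
    simpa using this
  set ρ := η / 2 with hρ
  have hρ0 : 0 < ρ := by positivity
  set K : ℝ → ℝ := fun σ => 2 * (|c σ| + |m σ| * ρ + 1) with hK
  have hK0 : ∀ σ, 0 < K σ := fun σ => by simp only [hK]; positivity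
  set χ : ℝ → ℝ → ℝ := fun σ x => K σ * max 0 (1 - (1/ρ) * |x - σ|) with hχ
  set g : ℝ → ℝ → ℝ := fun σ x => max (-(χ σ x)) (min (χ σ x) (c σ + m σ * (x - σ))) with hg
  have hgPL : ∀ σ, IsPLR (g σ) := by
    intro σ
    have e1 : IsPLR (χ σ) := ((IsPLR.const (0:ℝ)).max ((IsPLR.const 1).sub
      ((IsPLR.id.sub (IsPLR.const σ)).abs.mul (1/ρ)))).mul (K σ)
    exact e1.neg.max (e1.min ((IsPLR.const (c σ)).add ((IsPLR.id.sub (IsPLR.const σ)).mul (m σ))))
  have hg1 : ∀ σ x, |x - σ| < ρ / 2 → g σ x = c σ + m σ * (x - σ) := by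
    intro σ x hx
    have e1 : (1/ρ) * |x - σ| ≤ 1/2 := by
      rw [one_div, inv_mul_le_iff₀ hρ0]; linarith
    have e2 : K σ / 2 ≤ χ σ x := by
      simp only [hχ]
      rw [max_eq_right (by linarith)]
      nlinarith [hK0 σ]
    have e3 : |c σ + m σ * (x - σ)| ≤ K σ / 2 := by
      refine (abs_add_le _ _).trans ?_
      rw [abs_mul]
      have : |m σ| * |x - σ| ≤ |m σ| * ρ := mul_le_mul_of_nonneg_left (by linarith) (abs_nonneg _)
      simp only [hK]
      linarith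
    have e4 := abs_le.1 (e3.trans e2)
    simp only [hg]
    rw [min_eq_right e4.2, max_eq_right e4.1]
  have hg0 : ∀ σ x, ρ ≤ |x - σ| → g σ x = 0 := by
    intro σ x hx
    have e1 : 1 ≤ (1/ρ) * |x - σ| := by
      rw [one_div, le_inv_mul_iff₀ hρ0]; linarith
    have e2 : χ σ x = 0 := by
      simp only [hχ]
      rw [max_eq_left (by linarith), mul_zero]
    simp only [hg]
    rw [e2, neg_zero, max_eq_left (min_le_left _ _)]
  refine ⟨fun x => ∑ σ ∈ S, g σ x, IsPLR.finsum S _ fun i _ => hgPL i, ?_⟩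
  intro σ hσ
  refine ⟨ρ/2, by positivity, fun x hx => ?_⟩
  simp only
  rw [Finset.sum_eq_single σ, hg1 σ x hx]
  · intro σ' hσ' hne
    apply hg0
    have h1 := hd σ hσ σ' hσ' hne.symm
    have h2 : |σ - σ'| ≤ |x - σ| + |x - σ'| := by
      have : σ - σ' = -(x - σ) + (x - σ') := by ring
      rw [this]
      refine (abs_add_le _ _).trans ?_
      rw [abs_neg]
    linarith
  · intro h; exact absurd hσ h

/-- shear in direction `e` -/
noncomputable def shear (e : ℂ) (f : ℝ → ℝ) (z : ℂ) : ℂ := z + f (det e z) • e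

lemma det_sub_right (u w w' : ℂ) : det u (w - w') = det u w - det u w' := by
  unfold det; simp only [Complex.sub_re, Complex.sub_im]; ring

lemma det_shear (e : ℂ) (f : ℝ → ℝ) (z : ℂ) : det e (shear e f z) = det e z := by
  unfold shear
  rw [det_add_right, det_smul_right, det_self, mul_zero, add_zero]

lemma shear_inj (e : ℂ) (f : ℝ → ℝ) : Function.Injective (shear e f) := by
  intro z z' h
  have h1 : det e z = det e z' := by rw [← det_shear e f z, h, det_shear]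
  unfold shear at h
  rw [h1] at h
  exact add_right_cancel h

/-- `det e` as a linear map -/
noncomputable def detL (e : ℂ) : ℂ →ₗ[ℝ] ℝ := e.re • Complex.imLm - e.im • Complex.reLm

lemma detL_apply (e z : ℂ) : detL e z = det e z := by
  unfold detL det; simp

lemma shear_PL {p : Circ → ℂ} (hp : IsPL p) (e : ℂ) {f : ℝ → ℝ} (hf : IsPLR f) :
    IsPL (fun θ => shear e f (p θ)) := by
  have h1 : IsPLR (fun τ : ℝ => det e (p τ)) := by
    have := hp.linear (detL e)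
    simpa only [IsPL, detL_apply] using this
  have h2 : IsPLR (fun τ : ℝ => f (det e (p τ))) := hf.comp h1
  exact IsPLR.add (f := fun τ : ℝ => p τ) hp
    (h2.linear ((LinearMap.id (R := ℝ) (M := ℝ)).smulRight e))

/-- the curves `p` and `q` are equivalent by plane transformations -/
structure Sh (v : (Circ → ℂ × ℝ) → ℝ) (p q : Circ → ℂ) : Prop where
  reg : IsRegular p
  reg' : IsRegular q
  iff : ∀ θ θ', q θ = q θ' ↔ p θ = p θ'
  val : ∀ y, Valid p y → V v q y = V v p y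

lemma Sh.refl {v : (Circ → ℂ × ℝ) → ℝ} {p : Circ → ℂ} (hp : IsRegular p) : Sh v p p :=
  ⟨hp, hp, fun _ _ => Iff.rfl, fun _ _ => rfl⟩

lemma Sh.dbl {v : (Circ → ℂ × ℝ) → ℝ} {p q : Circ → ℂ} (h : Sh v p q) {θ θ' : Circ} :
    IsDbl q θ θ' ↔ IsDbl p θ θ' := by unfold IsDbl; rw [h.iff]

lemma Sh.valid {v : (Circ → ℂ × ℝ) → ℝ} {p q : Circ → ℂ} (h : Sh v p q) {y : Circ → ℝ} :
    Valid q y ↔ Valid p y := by unfold Valid; simp only [h.dbl]

lemma Sh.trans {v : (Circ → ℂ × ℝ) → ℝ} {p q q' : Circ → ℂ} (h : Sh v p q) (h' : Sh v q q') :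
    Sh v p q' :=
  ⟨h.reg, h'.reg', fun θ θ' => (h'.iff θ θ').trans (h.iff θ θ'), fun y hy => by
    rw [h'.val y (h.valid.2 hy), h.val y hy]⟩

lemma Sh.isCr {v : (Circ → ℂ × ℝ) → ℝ} {p q : Circ → ℂ} (h : Sh v p q) {x : Circ × Circ} :
    IsCr q x ↔ IsCr p x := h.dbl

lemma Sh.tri {v : (Circ → ℂ × ℝ) → ℝ} {p q : Circ → ℂ} (h : Sh v p q) {x₁ x₂ x₃ : Circ × Circ}
    (ht : Tri p x₁ x₂ x₃) : Tri q x₁ x₂ x₃ :=
  ⟨h.isCr.2 ht.c1, h.isCr.2 ht.c2, h.isCr.2 ht.c3, ht.s12, ht.s13, ht.s23⟩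

lemma Sh.cc {v : (Circ → ℂ × ℝ) → ℝ} {p q : Circ → ℂ} (h : Sh v p q) {x₁ x₂ x₃ : Circ × Circ}
    (ht : Tri p x₁ x₂ x₃) : cc v q x₁ x₂ x₃ = cc v p x₁ x₂ x₃ := by
  have hV : ∀ e₁ e₂ e₃ : ℝ, e₁ ≠ 0 → e₂ ≠ 0 → e₃ ≠ 0 →
      V v q (up (up (up (lift 0) x₃ e₃) x₂ e₂) x₁ e₁) =
      V v p (up (up (up (lift 0) x₃ e₃) x₂ e₂) x₁ e₁) := fun e₁ e₂ e₃ k1 k2 k3 =>
    h.val _ ((((valid_lift p 0).up h.reg ht.c3 k3).up h.reg ht.c2 k2).up h.reg ht.c1 k1)
  unfold H81.cc D3
  simp only [D]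
  rw [hV _ _ _ (by norm_num) (by norm_num) (by norm_num),
    hV _ _ _ (by norm_num) (by norm_num) (by norm_num),
    hV _ _ _ (by norm_num) (by norm_num) (by norm_num),
    hV _ _ _ (by norm_num) (by norm_num) (by norm_num),
    hV _ _ _ (by norm_num) (by norm_num) (by norm_num),
    hV _ _ _ (by norm_num) (by norm_num) (by norm_num),
    hV _ _ _ (by norm_num) (by norm_num) (by norm_num),
    hV _ _ _ (by norm_num) (by norm_num) (by norm_num)]

lemma shear_vel {p : Circ → ℂ} {e : ℂ} {f : ℝ → ℝ} {θ : Circ} {u : ℂ} (hu : Vel p θ u)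
    {m δ : ℝ} (hδ : 0 < δ) (hf : ∀ x, |x - det e (p θ)| < δ →
      f x = f (det e (p θ)) + m * (x - det e (p θ))) :
    Vel (fun θ => shear e f (p θ)) θ (u + (m * det e u) • e) := by
  obtain ⟨δ', hδ', h⟩ := hu
  refine ⟨min δ' (δ / (|det e u| + 1)), lt_min hδ' (by positivity), fun τ hτ => ?_⟩
  have h1 := h τ (hτ.trans_le (min_le_left _ _))
  have h2 := hτ.trans_le (min_le_right _ _)
  rw [lt_div_iff₀ (by positivity)] at h2
  simp only [shear]
  rw [h1]
  have h3 : det e (p θ + τ • u) = det e (p θ) + τ * det e u := by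
    rw [det_add_right, det_smul_right]
  have h4 : |det e (p θ) + τ * det e u - det e (p θ)| < δ := by
    rw [add_sub_cancel_left, abs_mul]
    nlinarith [abs_nonneg τ, abs_nonneg (det e u)]
  rw [h3, hf _ h4, add_sub_cancel_left, add_smul, smul_add, smul_smul]
  rw [show m * (τ * det e u) = τ * (m * det e u) by ring]
  ring

lemma det_transvect (e u w : ℂ) (m : ℝ) :
    det (u + (m * det e u) • e) (w + (m * det e w) • e) = det u w := by
  rw [det_add_right, det_add_left, det_add_left, det_smul_right, det_smul_right, det_smul_left,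
    det_smul_left, det_self, det_swap e u]
  ring

theorem shear_Sh {v : (Circ → ℂ × ℝ) → ℝ} (hv : IsInv v) {p : Circ → ℂ} (hp : IsRegular p)
    (e : ℂ) {f : ℝ → ℝ} (hf : IsPLR f)
    (hj : ∀ θ ∈ feet p, ∃ m δ : ℝ, 0 < δ ∧ ∀ x, |x - det e (p θ)| < δ →
      f x = f (det e (p θ)) + m * (x - det e (p θ))) :
    Sh v p (fun θ => shear e f (p θ)) := by
  have hiff : ∀ θ θ', shear e f (p θ) = shear e f (p θ') ↔ p θ = p θ' := fun θ θ' =>
    ⟨fun h => shear_inj e f h, fun h => by rw [h]⟩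
  have hreg : IsRegular (fun θ => shear e f (p θ)) := by
    refine ⟨shear_PL hp.pl e hf, ?_, ?_, ?_⟩
    · refine hp.fin.subset ?_
      rintro s ⟨t, h1, h2⟩
      exact ⟨t, h1, (hiff _ _).1 h2⟩
    · intro r s t h1 h2
      exact hp.triple r s t ((hiff _ _).1 h1) ((hiff _ _).1 h2)
    · intro s t hst h
      have h' := (hiff _ _).1 h
      obtain ⟨u, w, h1, h2, h3⟩ := hp.trans s t hst h'
      obtain ⟨m, δ, hδ, hm⟩ := hj s ⟨t, hst.symm, h'.symm⟩
      refine ⟨_, _, shear_vel h1 hδ hm, shear_vel h2 hδ (m := m) ?_, ?_⟩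
      · rw [← h']; exact hm
      · rw [det_transvect]; exact h3
  refine ⟨hp, hreg, hiff, ?_⟩
  intro y hy
  have hz := real_spec hp y
  have hvz : Valid p (real p y) := (samePat_of_eq hy hz.2).valid_left
  have hfeet : ∀ θ θ', IsDbl (fun θ => shear e f (p θ)) θ θ' → IsDbl p θ θ' := fun θ θ' h =>
    ⟨h.1, (hiff _ _).1 h.2⟩
  have e1 : V v (fun θ => shear e f (p θ)) y = v (mk (fun θ => shear e f (p θ)) (real p y)) := by
    symm
    refine V_eq hv hreg hz.1 ?_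
    intro s t hst
    exact samePat_of_eq hy hz.2 s t (hfeet s t hst)
  rw [e1]
  symm
  show v (mk p (real p y)) = _
  apply hv.isotopy
  intro s _
  have e2 : (fun t => (1 - s) • mk p (real p y) t + s • mk (fun θ => shear e f (p θ)) (real p y) t) =
      mk (fun θ => shear e (fun x => s * f x) (p θ)) (real p y) := by
    funext t
    simp only [mk, shear, Prod.smul_mk, Prod.mk_add_mk, Prod.mk.injEq]
    constructor
    · rw [smul_add, smul_smul, ← add_assoc, ← add_smul, sub_add_cancel, one_smul]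
    · rw [← add_smul, sub_add_cancel, one_smul]
  rw [e2]
  refine Valid.isKnot (shear_PL hp.pl e (hf.mul s)) hz.1 ?_
  intro a b hab
  exact hvz a b ⟨hab.1, shear_inj _ _ hab.2⟩

/-- one shear with prescribed jets at three crossings -/
theorem shear_step {v : (Circ → ℂ × ℝ) → ℝ} (hv : IsInv v) {p : Circ → ℂ} (hp : IsRegular p)
    (e : ℂ) (x : Fin 3 → Circ × Circ) (hx : ∀ j, IsCr p (x j))
    (hdist : ∀ j k, j ≠ k → det e (p (x j).1) ≠ det e (p (x k).1)) (c m : Fin 3 → ℝ)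
    (u w : Fin 3 → ℂ) (hu : ∀ j, Vel p (x j).1 (u j)) (hw : ∀ j, Vel p (x j).2 (w j)) :
    ∃ q, Sh v p q ∧ (∀ j, q (x j).1 = p (x j).1 + c j • e) ∧
      (∀ j, Vel q (x j).1 (u j + (m j * det e (u j)) • e)) ∧
      (∀ j, Vel q (x j).2 (w j + (m j * det e (w j)) • e)) := by
  classical
  set S : Finset ℝ := hp.fin.toFinset.image (fun θ => det e (p θ)) with hS
  have hSmem : ∀ θ ∈ feet p, det e (p θ) ∈ S := fun θ hθ =>
    Finset.mem_image_of_mem _ (hp.fin.mem_toFinset.2 hθ)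
  set c' : ℝ → ℝ := fun y => ∑ j, if y = det e (p (x j).1) then c j else 0 with hc'
  set m' : ℝ → ℝ := fun y => ∑ j, if y = det e (p (x j).1) then m j else 0 with hm'
  have hcj : ∀ j, c' (det e (p (x j).1)) = c j := by
    intro j
    simp only [hc']
    rw [Finset.sum_eq_single j]
    · simp
    · intro k _ hk
      rw [if_neg (hdist j k hk.symm)]
    · simp
  have hmj : ∀ j, m' (det e (p (x j).1)) = m j := by
    intro j
    simp only [hm']
    rw [Finset.sum_eq_single j]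
    · simp
    · intro k _ hk
      rw [if_neg (hdist j k hk.symm)]
    · simp
  obtain ⟨f, hf, hjet⟩ := exists_jets S c' m'
  have hf0 : ∀ σ ∈ S, f σ = c' σ := by
    intro σ hσ
    obtain ⟨δ, hδ, h⟩ := hjet σ hσ
    have := h σ (by simpa using hδ)
    simpa using this
  have hjet' : ∀ θ ∈ feet p, ∃ δ > 0, ∀ y, |y - det e (p θ)| < δ →
      f y = f (det e (p θ)) + m' (det e (p θ)) * (y - det e (p θ)) := by
    intro θ hθ
    obtain ⟨δ, hδ, h⟩ := hjet _ (hSmem θ hθ)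
    exact ⟨δ, hδ, fun y hy => by rw [h y hy, hf0 _ (hSmem θ hθ)]⟩
  refine ⟨fun θ => shear e f (p θ), shear_Sh hv hp e hf ?_, ?_, ?_, ?_⟩
  · intro θ hθ
    obtain ⟨δ, hδ, h⟩ := hjet' θ hθ
    exact ⟨_, δ, hδ, h⟩
  · intro j
    simp only [shear]
    rw [hf0 _ (hSmem _ (hx j).left_mem), hcj]
  · intro j
    obtain ⟨δ, hδ, h⟩ := hjet' _ (hx j).left_mem
    rw [hmj] at h
    exact shear_vel (hu j) hδ h
  · intro j
    obtain ⟨δ, hδ, h⟩ := hjet' _ (hx j).left_mem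
    rw [hmj] at h
    have h' : p (x j).1 = p (x j).2 := (hx j).2
    rw [h'] at h
    exact shear_vel (hw j) hδ h

/-- standard positions -/
noncomputable def pos (j : Fin 3) : ℂ := ⟨(j : ℕ), (j : ℕ)⟩

/-- normal form by shears -/
theorem shear_normal {v : (Circ → ℂ × ℝ) → ℝ} (hv : IsInv v) {p : Circ → ℂ} (hp : IsRegular p)
    (x : Fin 3 → Circ × Circ) (hx : ∀ j, IsCr p (x j)) (hsep : ∀ j k, j ≠ k → Sep (x j) (x k))
    (u w : Fin 3 → ℂ) (hu : ∀ j, Vel p (x j).1 (u j)) (hw : ∀ j, Vel p (x j).2 (w j))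
    (hd : ∀ j, det (u j) (w j) ≠ 0) :
    ∃ q, Sh v p q ∧ (∀ j, q (x j).1 = pos j) ∧ (∀ j, Vel q (x j).1 1) ∧
      (∀ j, Vel q (x j).2 (det (u j) (w j) • Complex.I)) := by
  have hne : ∀ j k, j ≠ k → p (x j).1 - p (x k).1 ≠ 0 := by
    intro j k hjk h
    have h' : p (x j).1 = p (x k).1 := sub_eq_zero.1 h
    have := hsep j k hjk
    rcases hp.triple (x k).1 (x j).1 (x j).2 h'.symm (hx j).2 with h1 | h1 | h1
    · exact this.h11 h1.symm
    · exact (hx j).1 h1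
    · exact this.h21 h1.symm
  have hu0 : ∀ j, u j ≠ 0 := fun j => vel_ne_zero hp (hu j)
  -- choose the generic direction
  have hfin : ({x' : ℝ | ∃ j k, j ≠ k ∧ det (MM x' - 0) (p (x j).1 - p (x k).1) = 0} ∪
      ({x' : ℝ | ∃ j, det (MM x' - 0) (u j) = 0} ∪ {0})).Finite := by
    refine Set.Finite.union ?_ (Set.Finite.union ?_ (Set.finite_singleton 0))
    · have : {x' : ℝ | ∃ j k, j ≠ k ∧ det (MM x' - 0) (p (x j).1 - p (x k).1) = 0} ⊆
          ⋃ j, ⋃ k, {x' : ℝ | j ≠ k ∧ det (MM x' - 0) (p (x j).1 - p (x k).1) = 0} := by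
        rintro x' ⟨j, k, h⟩
        simp only [mem_iUnion]
        exact ⟨j, k, h⟩
      refine (Set.finite_iUnion fun j => Set.finite_iUnion fun k => ?_).subset this
      by_cases hjk : j = k
      · convert Set.finite_empty (α := ℝ) using 1
        ext x'; simp [hjk]
      · exact (line_finite 0 _ (hne j k hjk)).subset fun x' h => h.2
    · have : {x' : ℝ | ∃ j, det (MM x' - 0) (u j) = 0} ⊆ ⋃ j, {x' : ℝ | det (MM x' - 0) (u j) = 0} := by
        rintro x' ⟨j, h⟩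
        simp only [mem_iUnion]
        exact ⟨j, h⟩
      exact (Set.finite_iUnion fun j => line_finite 0 _ (hu0 j)).subset this
  obtain ⟨x₀, hx₀⟩ := hfin.infinite_compl.nonempty
  simp only [mem_compl_iff, mem_union, mem_ofPred_eq, mem_singleton_iff, not_or, sub_zero] at hx₀
  obtain ⟨g1, g2, g3⟩ := hx₀
  push Not at g1 g2
  set e := MM x₀ with he
  have hre : e.re = x₀ := rfl
  -- step 1
  obtain ⟨q₁, S₁, a1, b1, c1⟩ := shear_step hv hp e x hx (fun j k hjk h => g1 j k hjk (by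
      rw [det_sub_right, h, sub_self])) (fun j => (((j : ℕ) : ℝ) - (p (x j).1).re) / x₀)
    (fun j => (1 - (u j).re) / (det e (u j) * x₀)) u w hu hw
  set u₁ : Fin 3 → ℂ := fun j => u j + ((1 - (u j).re) / (det e (u j) * x₀) * det e (u j)) • e
    with hu₁
  set w₁ : Fin 3 → ℂ := fun j => w j + ((1 - (u j).re) / (det e (u j) * x₀) * det e (w j)) • e
    with hw₁
  have hu1re : ∀ j, (u₁ j).re = 1 := by
    intro j
    simp only [hu₁, Complex.add_re, Complex.smul_re, smul_eq_mul, hre]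
    have := g2 j
    field_simp
    ring
  have hd1 : ∀ j, det (u₁ j) (w₁ j) = det (u j) (w j) := fun j => det_transvect _ _ _ _
  have hp1re : ∀ j, (q₁ (x j).1).re = ((j : ℕ) : ℝ) := by
    intro j
    rw [a1 j]
    simp only [Complex.add_re, Complex.smul_re, smul_eq_mul, hre]
    field_simp
    ring
  have hx1 : ∀ j, IsCr q₁ (x j) := fun j => S₁.isCr.2 (hx j)
  have hinj : ∀ j k : Fin 3, j ≠ k → ((j : ℕ) : ℝ) ≠ ((k : ℕ) : ℝ) := by
    intro j k hjk h
    exact hjk (Fin.ext (Nat.cast_injective h))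
  have hdetI : ∀ z : ℂ, det Complex.I z = - z.re := by
    intro z; unfold det; simp
  -- step 2
  obtain ⟨q₂, S₂, a2, b2, c2⟩ := shear_step hv S₁.reg' Complex.I x hx1 (fun j k hjk h => by
      rw [hdetI, hdetI, hp1re, hp1re] at h
      exact hinj j k hjk (neg_injective h)) (fun j => ((j : ℕ) : ℝ) - (q₁ (x j).1).im)
    (fun j => (u₁ j).im) u₁ w₁ b1 c1
  have hu2 : ∀ j, u₁ j + ((u₁ j).im * det Complex.I (u₁ j)) • Complex.I = 1 := by
    intro j
    rw [hdetI, hu1re]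
    apply Complex.ext
    · simp [hu1re]
    · simp
  set w₂ : Fin 3 → ℂ := fun j => w₁ j + ((u₁ j).im * det Complex.I (w₁ j)) • Complex.I with hw₂
  have hw2im : ∀ j, (w₂ j).im = det (u j) (w j) := by
    intro j
    have h1 : det (u₁ j + ((u₁ j).im * det Complex.I (u₁ j)) • Complex.I) (w₂ j) =
      det (u₁ j) (w₁ j) := det_transvect _ _ _ _
    rw [hu2, hd1] at h1
    rw [← h1]; unfold det; simp
  have hp2 : ∀ j, (q₂ (x j).1).re = ((j : ℕ) : ℝ) ∧ (q₂ (x j).1).im = ((j : ℕ) : ℝ) := by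
    intro j
    rw [a2 j]
    constructor
    · simp [hp1re]
    · simp
  have hx2 : ∀ j, IsCr q₂ (x j) := fun j => S₂.isCr.2 (hx1 j)
  have hdet1 : ∀ z : ℂ, det 1 z = z.im := by
    intro z; unfold det; simp
  have hb2 : ∀ j, Vel q₂ (x j).1 1 := fun j => by have := b2 j; rwa [hu2] at this
  -- step 3
  obtain ⟨q₃, S₃, a3, b3, c3⟩ := shear_step hv S₂.reg' 1 x hx2 (fun j k hjk h => by
      rw [hdet1, hdet1, (hp2 j).2, (hp2 k).2] at h
      exact hinj j k hjk h) (fun _ => 0) (fun j => -(w₂ j).re / det (u j) (w j)) (fun _ => 1) w₂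
      hb2 c2
  refine ⟨q₃, (S₁.trans S₂).trans S₃, ?_, ?_, ?_⟩
  · intro j
    rw [a3 j, zero_smul, add_zero]
    exact Complex.ext (hp2 j).1 (hp2 j).2
  · intro j
    have := b3 j
    rw [hdet1] at this
    simpa using this
  · intro j
    have := c3 j
    rw [hdet1, hw2im] at this
    have e1 : w₂ j + (-(w₂ j).re / det (u j) (w j) * det (u j) (w j)) • (1:ℂ) =
        det (u j) (w j) • Complex.I := by
      rw [div_mul_cancel₀ _ (hd j)]
      apply Complex.ext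
      · simp
      · simp [hw2im]
    rwa [e1] at this

end Pool.Agent.H81
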