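import Pool.Agent.H81.Loop

namespace Pool.Agent.H81

open Set

/-- sign of a nonzero real number -/
noncomputable def sgn (x : ℝ) : ℝ := if 0 < x then 1 else -1

lemma sgn_sq (x : ℝ) : sgn x * sgn x = 1 := by unfold sgn; split_ifs <;> norm_num

lemma sgn_pos {x : ℝ} (h : 0 < x) : sgn x = 1 := if_pos h

lemma sgn_neg' {x : ℝ} (h : x < 0) : sgn x = -1 := if_neg (not_lt.2 h.le)

lemma sgn_neg {x : ℝ} (h : x ≠ 0) : sgn (-x) = - sgn x := by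
  rcases lt_or_gt_of_ne h with h | h
  · rw [sgn_neg' h, sgn_pos (by linarith)]; ring
  · rw [sgn_pos h, sgn_neg' (by linarith)]

lemma sgn_mul_pos {k x : ℝ} (hk : 0 < k) : sgn (k * x) = sgn x := by
  unfold sgn
  simp only [mul_pos_iff_of_pos_left hk]

lemma sgn_mul_neg {k x : ℝ} (hk : k < 0) (hx : x ≠ 0) : sgn (k * x) = - sgn x := by
  rw [← sgn_neg hx, ← sgn_mul_pos (x := -x) (neg_pos.2 hk)]
  congr 1; ring

/-- the sign of the frame at the crossing -/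
noncomputable def sgc (p : Circ → ℂ) (x : Circ × Circ) : ℝ :=
  open Classical in
  if ∃ u w, Vel p x.1 u ∧ Vel p x.2 w ∧ 0 < det u w then 1 else -1

lemma sgc_eq {p : Circ → ℂ} {x : Circ × Circ} {u w : ℂ} (h1 : Vel p x.1 u) (h2 : Vel p x.2 w) :
    sgc p x = sgn (det u w) := by
  unfold sgc sgn
  congr 1
  apply propext
  constructor
  · rintro ⟨u', w', k1, k2, k3⟩
    rw [h1.unique k1, h2.unique k2]; exact k3
  · intro h
    exact ⟨u, w, h1, h2, h⟩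

lemma sgc_sq (p : Circ → ℂ) (x : Circ × Circ) : sgc p x * sgc p x = 1 := by
  unfold sgc; split_ifs <;> norm_num

lemma sgc_or (p : Circ → ℂ) (x : Circ × Circ) : sgc p x = 1 ∨ sgc p x = -1 := by
  unfold sgc; split_ifs
  · exact Or.inl rfl
  · exact Or.inr rfl

lemma IsCr.vels {p : Circ → ℂ} (hp : IsRegular p) {x : Circ × Circ} (h : IsCr p x) :
    ∃ u w, Vel p x.1 u ∧ Vel p x.2 w ∧ det u w ≠ 0 := hp.trans _ _ h.1 h.2

lemma sgc_swap {p : Circ → ℂ} (hp : IsRegular p) {x : Circ × Circ} (h : IsCr p x) :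
    sgc p x.swap = - sgc p x := by
  obtain ⟨u, w, h1, h2, h3⟩ := h.vels hp
  rw [sgc_eq h1 h2, sgc_eq (x := x.swap) h2 h1, det_swap, sgn_neg h3]

variable {v : (Circ → ℂ × ℝ) → ℝ}

/-- cubic coefficient with respect to the signs of the crossings -/
noncomputable def E (v : (Circ → ℂ × ℝ) → ℝ) (p : Circ → ℂ) (x₁ x₂ x₃ : Circ × Circ) : ℝ :=
  cc v p x₁ x₂ x₃ * (sgc p x₁ * sgc p x₂ * sgc p x₃)

lemma E_perm12 {p : Circ → ℂ} {x₁ x₂ x₃ : Circ × Circ} (h : Sep x₁ x₂) :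
    E v p x₁ x₂ x₃ = E v p x₂ x₁ x₃ := by unfold E; rw [cc_perm12 h]; ring

lemma E_perm23 {p : Circ → ℂ} {x₁ x₂ x₃ : Circ × Circ} (h : Sep x₂ x₃) :
    E v p x₁ x₂ x₃ = E v p x₁ x₃ x₂ := by unfold E; rw [cc_perm23 h]; ring

lemma E_swap1 (hv : IsInv v) {p : Circ → ℂ} (hp : IsRegular p) {x₁ x₂ x₃ : Circ × Circ}
    (h : Tri p x₁ x₂ x₃) : E v p x₁.swap x₂ x₃ = E v p x₁ x₂ x₃ := by
  unfold E; rw [cc_swap1 hv hp h, sgc_swap hp h.c1]; ring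

lemma E_swap2 (hv : IsInv v) {p : Circ → ℂ} (hp : IsRegular p) {x₁ x₂ x₃ : Circ × Circ}
    (h : Tri p x₁ x₂ x₃) : E v p x₁ x₂.swap x₃ = E v p x₁ x₂ x₃ := by
  unfold E; rw [cc_swap2 hv hp h, sgc_swap hp h.c2]; ring

lemma E_swap3 (hv : IsInv v) {p : Circ → ℂ} (hp : IsRegular p) {x₁ x₂ x₃ : Circ × Circ}
    (h : Tri p x₁ x₂ x₃) : E v p x₁ x₂ x₃.swap = E v p x₁ x₂ x₃ := by
  unfold E; rw [cc_swap3 hv hp h, sgc_swap hp h.c3]; ring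

namespace GoodSplice

variable {p : Circ → ℂ} {a b : ℝ} {f : ℝ → ℂ}

lemma vel_in (H : GoodSplice p a b f) {σ : ℝ} {u : ℂ} (h1 : a < σ) (h2 : σ < b)
    (h : StrAt f σ u) : Vel (splice p a b f) (σ : Circ) u := by
  have hb1 := H.hb1
  rw [vel_iff]
  exact h.congr_Ioo h1 h2 fun τ k1 k2 => H.coe_le k1.le k2.le hb1

lemma vel_out (H : GoodSplice p a b f) {σ : ℝ} {u : ℂ} (h1 : b < σ) (h2 : σ < a + 1)
    (h : Vel p (σ : Circ) u) : Vel (splice p a b f) (σ : Circ) u := by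
  rw [vel_iff] at h ⊢
  exact h.congr_Ioo h1 h2 fun τ k1 k2 => H.coe_ge k1.le k2.le

end GoodSplice

/-- velocities agree outside of the arc -/
lemma Agree.vel {p₀ p₁ : Circ → ℂ} {a b : ℝ} (A : Agree p₀ p₁ a b) {θ : Circ} {u : ℂ}
    (h1 : b < lift a θ) (h : Vel p₀ θ u) : Vel p₁ θ u := by
  rw [← coe_lift a θ, vel_iff] at h ⊢
  exact h.congr_Ioo h1 (lift_lt a θ) fun τ k1 k2 => (A.agree τ k1.le k2.le).symm

lemma Agree.sgc {p₀ p₁ : Circ → ℂ} {a b : ℝ} (A : Agree p₀ p₁ a b) {x : Circ × Circ}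
    (h : Out p₀ a b x) : sgc p₁ x = sgc p₀ x := by
  obtain ⟨u, w, h1, h2, _⟩ := h.cr.vels A.r0
  rw [sgc_eq h1 h2, sgc_eq (A.vel h.o1 h1) (A.vel h.o2 h2)]

lemma E_agree (hv : IsInv v) {p₀ p₁ : Circ → ℂ} {a b : ℝ} (A : Agree p₀ p₁ a b)
    {x₁ x₂ x₃ : Circ × Circ} (h : Tri p₀ x₁ x₂ x₃) (h1 : Out p₀ a b x₁) (h2 : Out p₀ a b x₂)
    (h3 : Out p₀ a b x₃) : E v p₀ x₁ x₂ x₃ = E v p₁ x₁ x₂ x₃ := by
  unfold E
  rw [(cc_agree hv A h h1 h2 h3).1, A.sgc h1, A.sgc h2, A.sgc h3]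

end Pool.Agent.H81
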