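import Pool.Agent.H81.Arc

namespace Pool.Agent.H81

open Set

/-- `g` is straight near `σ` with velocity `u` -/
def StrAt (g : ℝ → ℂ) (σ : ℝ) (u : ℂ) : Prop := ∃ δ > 0, ∀ x : ℝ, |x| < δ → g (σ + x) = g σ + x • u

lemma vel_iff {p : Circ → ℂ} {σ : ℝ} {u : ℂ} :
    Vel p (σ : Circ) u ↔ StrAt (fun τ : ℝ => p τ) σ u := by
  unfold Vel StrAt
  simp only [AddCircle.coe_add]

lemma StrAt.congr {f g : ℝ → ℂ} {σ : ℝ} {u : ℂ} (h : StrAt f σ u) {ε : ℝ} (hε : 0 < ε)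
    (he : ∀ τ, |τ - σ| < ε → g τ = f τ) : StrAt g σ u := by
  obtain ⟨δ, hδ, h⟩ := h
  refine ⟨min δ ε, lt_min hδ hε, fun x hx => ?_⟩
  rw [he (σ + x) (by rw [add_sub_cancel_left]; exact hx.trans_le (min_le_right _ _)),
    he σ (by simpa using hε), h x (hx.trans_le (min_le_left _ _))]

lemma StrAt.congr_Ioo {f g : ℝ → ℂ} {σ a b : ℝ} {u : ℂ} (h : StrAt f σ u) (ha : a < σ) (hb : σ < b)
    (he : ∀ τ, a < τ → τ < b → g τ = f τ) : StrAt g σ u := by
  refine h.congr (ε := min (σ - a) (b - σ)) (lt_min (by linarith) (by linarith)) fun τ hτ => ?_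
  have h1 := hτ.trans_le (min_le_left _ _)
  have h2 := hτ.trans_le (min_le_right _ _)
  rw [abs_lt] at h1 h2
  exact he τ (by linarith) (by linarith)

lemma StrAt.of_affine {g : ℝ → ℂ} {σ a b : ℝ} {c u : ℂ} (ha : a < σ) (hb : σ < b)
    (h : ∀ τ, a < τ → τ < b → g τ = c + τ • u) : StrAt g σ u := by
  have h0 : StrAt (fun τ : ℝ => c + τ • u) σ u := by
    refine ⟨1, one_pos, fun x _ => ?_⟩
    simp only [add_smul]; ring
  exact h0.congr_Ioo ha hb h

lemma StrAt.unique {g : ℝ → ℂ} {σ : ℝ} {u w : ℂ} (h : StrAt g σ u) (h' : StrAt g σ w) : u = w := by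
  obtain ⟨δ, hδ, h⟩ := h
  obtain ⟨ε, hε, h'⟩ := h'
  have hm : 0 < min δ ε := lt_min hδ hε
  have h1 := h (min δ ε / 2) (by rw [abs_of_pos (by linarith)]; linarith [min_le_left δ ε])
  have h2 := h' (min δ ε / 2) (by rw [abs_of_pos (by linarith)]; linarith [min_le_right δ ε])
  rw [h1] at h2
  have h3 := add_left_cancel h2
  exact smul_right_injective ℂ (by linarith : min δ ε / 2 ≠ 0) h3

lemma Vel.unique {p : Circ → ℂ} {s : Circ} {u w : ℂ} (h : Vel p s u) (h' : Vel p s w) : u = w := by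
  rw [← coe_lift 0 s] at h h'
  exact (vel_iff.1 h).unique (vel_iff.1 h')

lemma lp_strAt {a : ℝ} {g : ℝ → ℂ} {σ : ℝ} {u : ℂ} (h1 : a < σ) (h2 : σ < a + 1)
    (h : StrAt g σ u) : Vel (lp a g) (σ : Circ) u := by
  rw [vel_iff]
  exact h.congr_Ioo h1 h2 fun τ k1 k2 => lp_coe g ⟨k1.le, k2⟩

lemma det_swap (u w : ℂ) : det w u = - det u w := by unfold det; ring

/-- regularity from real-variable data -/
lemma regular_lp {a : ℝ} {g : ℝ → ℂ} (hPL : PLOn g a (a + 1)) (hg : g a = g (a + 1))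
    (F : Set ℝ) (hFin : F.Finite)
    (hF : ∀ σ τ, a ≤ σ → σ < τ → τ < a + 1 → g σ = g τ → σ ∈ F ∧ τ ∈ F)
    (htriple : ∀ ρ σ τ, a ≤ ρ → ρ < σ → σ < τ → τ < a + 1 → g ρ = g σ → g σ = g τ → False)
    (htrans : ∀ σ τ, a ≤ σ → σ < τ → τ < a + 1 → g σ = g τ →
      a < σ ∧ ∃ u w, StrAt g σ u ∧ StrAt g τ w ∧ det u w ≠ 0) : IsRegular (lp a g) := by
  refine ⟨lp_isPL hPL hg, ?_, ?_, ?_⟩
  · refine (hFin.image (fun τ : ℝ => (τ : Circ))).subset ?_
    rintro s ⟨t, hts, h⟩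
    unfold lp at h
    have hne := lift_ne (a := a) hts
    refine ⟨lift a s, ?_, coe_lift a s⟩
    rcases lt_or_gt_of_ne hne with h1 | h1
    · exact (hF _ _ (le_lift a t) h1 (lift_lt a s) h).2
    · exact (hF _ _ (le_lift a s) h1 (lift_lt a t) h.symm).1
  · intro r s t hrs hst
    by_contra hcon
    push Not at hcon
    obtain ⟨n1, n2, n3⟩ := hcon
    unfold lp at hrs hst
    have m1 := lift_ne (a := a) n1
    have m2 := lift_ne (a := a) n2
    have m3 := lift_ne (a := a) n3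
    have r1 := le_lift a r
    have s1 := le_lift a s
    have t1 := le_lift a t
    have r2 := lift_lt a r
    have s2 := lift_lt a s
    have t2 := lift_lt a t
    rcases lt_or_gt_of_ne m1 with h1 | h1
    · rcases lt_or_gt_of_ne m2 with h2 | h2
      · exact htriple _ _ _ r1 h1 h2 t2 hrs hst
      · rcases lt_or_gt_of_ne m3 with h3 | h3
        · exact htriple _ _ _ r1 h3 h2 s2 (hrs.trans hst) hst.symm
        · exact htriple _ _ _ t1 h3 h1 s2 (hrs.trans hst).symm hrs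
    · rcases lt_or_gt_of_ne m2 with h2 | h2
      · rcases lt_or_gt_of_ne m3 with h3 | h3
        · exact htriple _ _ _ s1 h1 h3 t2 hrs.symm (hrs.trans hst)
        · exact htriple _ _ _ s1 h2 h3 r2 hst (hrs.trans hst).symm
      · exact htriple _ _ _ t1 h2 h1 r2 hst.symm hrs.symm
  · intro s t hst h
    unfold lp at h
    rcases lt_or_gt_of_ne (lift_ne (a := a) hst) with h1 | h1
    · obtain ⟨k, u, w, k1, k2, k3⟩ := htrans _ _ (le_lift a s) h1 (lift_lt a t) h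
      refine ⟨u, w, ?_, ?_, k3⟩
      · have := lp_strAt k (lift_lt a s) k1
        rwa [coe_lift] at this
      · have := lp_strAt (k.trans h1) (lift_lt a t) k2
        rwa [coe_lift] at this
    · obtain ⟨k, u, w, k1, k2, k3⟩ := htrans _ _ (le_lift a t) h1 (lift_lt a s) h.symm
      refine ⟨w, u, ?_, ?_, by rw [det_swap]; exact neg_ne_zero.2 k3⟩
      · have := lp_strAt (k.trans h1) (lift_lt a s) k2
        rwa [coe_lift] at this
      · have := lp_strAt k (lift_lt a t) k1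
        rwa [coe_lift] at this

/-- replace `p` by `f` on `[a,b]` -/
noncomputable def splice (p : Circ → ℂ) (a b : ℝ) (f : ℝ → ℂ) : Circ → ℂ :=
  lp a (fun τ => if τ ≤ b then f τ else p τ)

/-- hypotheses for a good splice -/
structure GoodSplice (p : Circ → ℂ) (a b : ℝ) (f : ℝ → ℂ) : Prop where
  reg : IsRegular p
  hab : a < b
  hb1 : b < a + 1
  a0 : (a : Circ) ∉ feet p
  b0 : (b : Circ) ∉ feet p
  pl : PLOn f a b
  fa : f a = p a
  fb : f b = p b
  fin : ∃ F : Set ℝ, F.Finite ∧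
    (∀ σ τ, a ≤ σ → σ < τ → τ ≤ b → f σ = f τ → σ ∈ F ∧ τ ∈ F) ∧
    (∀ σ τ : ℝ, a ≤ σ → σ ≤ b → b < τ → τ < a + 1 → f σ = p τ → σ ∈ F ∧ τ ∈ F)
  self : ∀ σ τ, a ≤ σ → σ < τ → τ ≤ b → f σ = f τ →
    a < σ ∧ τ < b ∧ ∃ u w, StrAt f σ u ∧ StrAt f τ w ∧ det u w ≠ 0
  out : ∀ σ τ : ℝ, a ≤ σ → σ ≤ b → b < τ → τ < a + 1 → f σ = p τ →
    a < σ ∧ σ < b ∧ (∀ τ' : ℝ, b < τ' → τ' < a + 1 → τ' ≠ τ → p τ' ≠ p τ) ∧
      ∃ u w, StrAt f σ u ∧ Vel p τ w ∧ det u w ≠ 0
  tri : ∀ ρ σ τ, a ≤ ρ → ρ < σ → σ < τ → τ ≤ b → f ρ = f σ → f σ = f τ → False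
  tri' : ∀ ρ σ τ : ℝ, a ≤ ρ → ρ < σ → σ ≤ b → b < τ → τ < a + 1 → f ρ = f σ → f σ = p τ → False

namespace GoodSplice

variable {p : Circ → ℂ} {a b : ℝ} {f : ℝ → ℂ}

lemma coe_le (_ : GoodSplice p a b f) {τ : ℝ} (h1 : a ≤ τ) (h2 : τ ≤ b) (hb1 : b < a + 1) :
    splice p a b f (τ : Circ) = f τ := by
  unfold splice
  rw [lp_coe _ ⟨h1, by linarith⟩, if_pos h2]

lemma coe_ge (H : GoodSplice p a b f) {τ : ℝ} (h1 : b ≤ τ) (h2 : τ ≤ a + 1) :
    splice p a b f (τ : Circ) = p τ := by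
  have hab := H.hab
  have hb1 := H.hb1
  rcases h2.eq_or_lt with rfl | h2
  · rw [coe_add_one, H.coe_le le_rfl hab.le hb1, H.fa]
  · unfold splice
    rw [lp_coe _ ⟨by linarith, h2⟩]
    rcases h1.eq_or_lt with rfl | h1
    · rw [if_pos le_rfl, H.fb]
    · rw [if_neg (not_le.2 h1)]

lemma regular (H : GoodSplice p a b f) : IsRegular (splice p a b f) := by
  have hab := H.hab
  have hb1 := H.hb1
  obtain ⟨F, hF, hF1, hF2⟩ := H.fin
  have hfeet : (lift a '' feet p).Finite := H.reg.fin.image _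
  have hcoe : ∀ σ τ : ℝ, a ≤ σ → σ < τ → τ < a + 1 → (σ : Circ) ≠ (τ : Circ) := by
    intro σ τ h1 h2 h3 h4
    rw [coe_eq_coe_iff (a := a) ⟨h1, by linarith⟩ ⟨by linarith, h3⟩] at h4
    linarith
  refine regular_lp ?_ ?_ (F ∪ lift a '' feet p) (hF.union hfeet) ?_ ?_ ?_
  · exact PLOn.ite H.pl (H.reg.pl.plOn _ _) H.fb
  · rw [if_pos hab.le, if_neg (by linarith), coe_add_one, H.fa]
  · intro σ τ h1 h2 h3 h4
    rcases le_or_gt τ b with k1 | k1
    · rw [if_pos (by linarith), if_pos k1] at h4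
      have := hF1 σ τ h1 h2 k1 h4
      exact ⟨Or.inl this.1, Or.inl this.2⟩
    · rw [if_neg (not_le.2 k1)] at h4
      rcases le_or_gt σ b with k2 | k2
      · rw [if_pos k2] at h4
        have := hF2 σ τ h1 k2 k1 h3 h4
        exact ⟨Or.inl this.1, Or.inl this.2⟩
      · rw [if_neg (not_le.2 k2)] at h4
        have hd : IsDbl p (σ : Circ) (τ : Circ) := ⟨hcoe σ τ h1 h2 h3, h4⟩
        exact ⟨Or.inr ⟨σ, hd.left_mem, lift_coe ⟨h1, by linarith⟩⟩,
          Or.inr ⟨τ, hd.right_mem, lift_coe ⟨by linarith, h3⟩⟩⟩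
  · intro ρ σ τ h1 h2 h3 h4 e1 e2
    rcases le_or_gt τ b with k1 | k1
    · rw [if_pos (by linarith), if_pos (by linarith)] at e1
      rw [if_pos (by linarith), if_pos k1] at e2
      exact H.tri ρ σ τ h1 h2 h3 k1 e1 e2
    · rcases le_or_gt σ b with k2 | k2
      · rw [if_pos (by linarith), if_pos k2] at e1
        rw [if_pos k2, if_neg (not_le.2 k1)] at e2
        exact H.tri' ρ σ τ h1 h2 k2 k1 h4 e1 e2
      · rw [if_neg (not_le.2 k2), if_neg (not_le.2 k1)] at e2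
        have hd : IsDbl p (σ : Circ) (τ : Circ) := ⟨hcoe σ τ (by linarith) h3 h4, e2⟩
        rcases le_or_gt ρ b with k3 | k3
        · rw [if_pos k3, if_neg (not_le.2 k2)] at e1
          exact (H.out ρ σ h1 k3 k2 (by linarith) e1).2.2.1 τ k1 h4 (by linarith) e2.symm
        · rw [if_neg (not_le.2 k3), if_neg (not_le.2 k2)] at e1
          rcases H.reg.triple ρ σ τ e1 e2 with h | h | h
          · exact hcoe ρ σ h1 h2 (by linarith) h
          · exact hcoe σ τ (by linarith) h3 h4 h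
          · exact hcoe ρ τ h1 (by linarith) h4 h
  · intro σ τ h1 h2 h3 h4
    rcases le_or_gt τ b with k1 | k1
    · rw [if_pos (by linarith), if_pos k1] at h4
      obtain ⟨m1, m2, u, w, m3, m4, m5⟩ := H.self σ τ h1 h2 k1 h4
      refine ⟨m1, u, w, ?_, ?_, m5⟩
      · exact m3.congr_Ioo m1 (by linarith : σ < b) fun τ' _ k => if_pos k.le
      · exact m4.congr_Ioo (m1.trans h2) m2 fun τ' _ k => if_pos k.le
    · rw [if_neg (not_le.2 k1)] at h4
      rcases le_or_gt σ b with k2 | k2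
      · rw [if_pos k2] at h4
        obtain ⟨m1, m2, _, u, w, m3, m4, m5⟩ := H.out σ τ h1 k2 k1 h3 h4
        refine ⟨m1, u, w, ?_, ?_, m5⟩
        · exact m3.congr_Ioo m1 m2 fun τ' _ k => if_pos k.le
        · exact (vel_iff.1 m4).congr_Ioo k1 h3 fun τ' k _ => if_neg (not_le.2 k)
      · rw [if_neg (not_le.2 k2)] at h4
        obtain ⟨u, w, m3, m4, m5⟩ := H.reg.trans σ τ (hcoe σ τ h1 h2 h3) h4
        refine ⟨by linarith, u, w, ?_, ?_, m5⟩
        · exact (vel_iff.1 m3).congr_Ioo k2 (by linarith : σ < a + 1) fun τ' k _ => if_neg (not_le.2 k)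
        · exact (vel_iff.1 m4).congr_Ioo k1 h3 fun τ' k _ => if_neg (not_le.2 k)

/-- double points of the splice -/
lemma dbl_cases (H : GoodSplice p a b f) {s t : Circ} (h : IsDbl (splice p a b f) s t)
    (hlt : lift a s < lift a t) :
    (lift a t ≤ b ∧ f (lift a s) = f (lift a t)) ∨
    (lift a s ≤ b ∧ b < lift a t ∧ f (lift a s) = p t) ∨
    (b < lift a s ∧ IsDbl p s t) := by
  have hb1 := H.hb1
  have h2 := h.2
  have s1 := le_lift a s
  have s2 := lift_lt a s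
  have t1 := le_lift a t
  have t2 := lift_lt a t
  rw [← coe_lift a s, ← coe_lift a t] at h2
  rcases le_or_gt (lift a t) b with k1 | k1
  · left
    rw [H.coe_le s1 (by linarith) hb1, H.coe_le t1 k1 hb1] at h2
    exact ⟨k1, h2⟩
  · right
    rw [H.coe_ge k1.le t2.le] at h2
    rcases le_or_gt (lift a s) b with k2 | k2
    · left
      rw [H.coe_le s1 k2 hb1, coe_lift] at h2
      exact ⟨k2, k1, h2⟩
    · right
      rw [H.coe_ge k2.le s2.le, coe_lift, coe_lift] at h2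
      exact ⟨k2, h.1, h2⟩

lemma agree (H : GoodSplice p a b f) : Agree p (splice p a b f) a b := by
  have hab := H.hab
  have hb1 := H.hb1
  have ha : lift a (a : Circ) = a := lift_coe ⟨le_rfl, by linarith⟩
  have hb : lift a (b : Circ) = b := lift_coe ⟨hab.le, hb1⟩
  refine ⟨H.reg, H.regular, hab, hb1, fun τ h1 h2 => (H.coe_ge h1 h2).symm, H.a0, ?_, H.b0, ?_⟩
  · rintro ⟨t, hta, h⟩
    have hd : IsDbl (splice p a b f) (a : Circ) t := ⟨hta.symm, h.symm⟩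
    have hlt : lift a (a : Circ) < lift a t := by
      rw [ha]
      refine lt_of_le_of_ne (le_lift a t) fun h' => hta ?_
      rw [← coe_lift a t, ← h']
    rcases H.dbl_cases hd hlt with ⟨k1, k2⟩ | ⟨_, k1, k2⟩ | ⟨k1, _⟩
    · have := (H.self _ _ (by rw [ha]) hlt k1 k2).1
      rw [ha] at this; exact lt_irrefl _ this
    · rw [← coe_lift a t] at k2
      have := (H.out _ _ (by rw [ha]) (by rw [ha]; exact hab.le) k1 (lift_lt a t) k2).1
      rw [ha] at this; exact lt_irrefl _ this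
    · rw [ha] at k1; linarith
  · rintro ⟨t, htb, h⟩
    have hd : IsDbl (splice p a b f) (b : Circ) t := ⟨htb.symm, h.symm⟩
    rcases lt_or_gt_of_ne (lift_ne (a := a) hd.1) with hlt | hlt
    · rcases H.dbl_cases hd hlt with ⟨k1, k2⟩ | ⟨_, k1, k2⟩ | ⟨k1, _⟩
      · rw [hb] at hlt; linarith
      · rw [← coe_lift a t] at k2
        have := (H.out _ _ (by rw [hb]; exact hab.le) (by rw [hb]) k1 (lift_lt a t) k2).2.1
        rw [hb] at this; exact lt_irrefl _ this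
      · rw [hb] at k1; linarith
    · rcases H.dbl_cases hd.symm hlt with ⟨k1, k2⟩ | ⟨_, k1, k2⟩ | ⟨k1, _⟩
      · have := (H.self _ _ (le_lift a t) hlt k1 k2).2.1
        rw [hb] at this; exact lt_irrefl _ this
      · rw [hb] at k1; linarith
      · rw [hb] at hlt; linarith

end GoodSplice

/-- splice without new crossings -/
lemma clean_splice {p : Circ → ℂ} {a b : ℝ} {f : ℝ → ℂ} (reg : IsRegular p) (hab : a < b)
    (hb1 : b < a + 1) (a0 : (a : Circ) ∉ feet p) (b0 : (b : Circ) ∉ feet p) (pl : PLOn f a b)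
    (fa : f a = p a) (fb : f b = p b) (inj : ∀ σ τ, a ≤ σ → σ < τ → τ ≤ b → f σ ≠ f τ)
    (out : ∀ σ τ : ℝ, a ≤ σ → σ ≤ b → b < τ → τ < a + 1 → f σ ≠ p τ) :
    GoodSplice p a b f ∧ AF (splice p a b f) a b = ∅ := by
  have H : GoodSplice p a b f :=
    ⟨reg, hab, hb1, a0, b0, pl, fa, fb, ⟨∅, finite_empty,
      fun σ τ h1 h2 h3 h4 => absurd h4 (inj σ τ h1 h2 h3),
      fun σ τ h1 h2 h3 h4 h5 => absurd h5 (out σ τ h1 h2 h3 h4)⟩,
      fun σ τ h1 h2 h3 h4 => absurd h4 (inj σ τ h1 h2 h3),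
      fun σ τ h1 h2 h3 h4 h5 => absurd h5 (out σ τ h1 h2 h3 h4),
      fun ρ σ τ h1 h2 h3 h4 e1 _ => inj ρ σ h1 h2 (by linarith) e1,
      fun ρ σ τ h1 h2 h3 h4 _ e1 _ => inj ρ σ h1 h2 h3 e1⟩
  refine ⟨H, ?_⟩
  rw [Finset.eq_empty_iff_forall_notMem]
  intro s hs
  rw [mem_AF H.regular] at hs
  obtain ⟨h1, h2, h3⟩ := hs
  rcases H.dbl_cases (ptn_spec h1) h3 with ⟨k1, k2⟩ | ⟨_, k1, k2⟩ | ⟨k1, _⟩
  · exact inj _ _ (le_lift a s) h3 k1 k2
  · rw [← coe_lift a (ptn _ s)] at k2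
    exact out _ _ (le_lift a s) h2.le k1 (lift_lt a _) k2
  · linarith

end Pool.Agent.H81
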