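import Pool.Agent.H81.Basic

namespace Pool.Agent.H81

open Set

/-- the tent function of width `1/N` at `σ` -/
noncomputable def tent (N σ : ℝ) (τ : ℝ) : ℝ := max 0 (1 - N * |τ - σ|)

lemma tent_isPLR (N σ : ℝ) : IsPLR (tent N σ) := by
  unfold tent
  exact (IsPLR.const (0:ℝ)).max ((IsPLR.const (1:ℝ)).sub (((IsPLR.id).sub (IsPLR.const σ)).abs.mul N))

lemma tent_self (N σ : ℝ) : tent N σ σ = 1 := by simp [tent]

lemma tent_zero {N σ τ : ℝ} (h : 1 ≤ N * |τ - σ|) : tent N σ τ = 0 := by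
  unfold tent; rw [max_eq_left]; linarith

/-- PL interpolation on the line with support in `(b, e)`, given in advance finitely many points -/
lemma exists_tent (S : Finset ℝ) (b e : ℝ) (hS : ∀ σ ∈ S, b < σ ∧ σ < e) (y : ℝ → ℝ) :
    ∃ f : ℝ → ℝ, IsPLR f ∧ (∀ σ ∈ S, f σ = y σ) ∧ ∀ τ, τ ≤ b ∨ e ≤ τ → f τ = 0 := by
  classical
  -- choose N
  have hN : ∃ N : ℝ, 0 < N ∧ (∀ σ ∈ S, ∀ σ' ∈ S, σ ≠ σ' → 1 ≤ N * |σ - σ'|) ∧
      (∀ σ ∈ S, 1 ≤ N * (σ - b) ∧ 1 ≤ N * (e - σ)) := by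
    -- finite set of positive numbers
    let T : Finset ℝ := ((S ×ˢ S).filter (fun q => q.1 ≠ q.2)).image (fun q => |q.1 - q.2|) ∪
      S.image (fun σ => σ - b) ∪ S.image (fun σ => e - σ)
    have hT : ∀ x ∈ T, 0 < x := by
      intro x hx
      simp only [T, Finset.mem_union, Finset.mem_image, Finset.mem_filter, Finset.mem_product] at hx
      rcases hx with (⟨q, ⟨_, hq⟩, rfl⟩ | ⟨σ, hσ, rfl⟩) | ⟨σ, hσ, rfl⟩
      · exact abs_pos.2 (sub_ne_zero.2 hq)
      · linarith [(hS σ hσ).1]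
      · linarith [(hS σ hσ).2]
    have : ∃ N : ℝ, 0 < N ∧ ∀ x ∈ T, 1 ≤ N * x := by
      clear_value T
      clear hS
      induction T using Finset.induction_on with
      | empty => exact ⟨1, one_pos, by simp⟩
      | insert a T ha ih =>
        obtain ⟨N, hN, h⟩ := ih (fun x hx => hT x (Finset.mem_insert_of_mem hx))
        have ha0 : 0 < a := hT a (Finset.mem_insert_self _ _)
        refine ⟨N + 1 / a, by positivity, ?_⟩
        intro x hx
        rcases Finset.mem_insert.1 hx with rfl | hx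
        · rw [add_mul, one_div, inv_mul_cancel₀ ha0.ne']
          have : 0 < N * x := by positivity
          linarith
        · have h1 := h x hx
          have hx0 := hT x (Finset.mem_insert_of_mem hx)
          have : 0 < 1 / a * x := by positivity
          linarith [add_mul N (1/a) x]
    obtain ⟨N, hN, h⟩ := this
    refine ⟨N, hN, fun σ hσ σ' hσ' hne => h _ ?_, fun σ hσ => ⟨h _ ?_, h _ ?_⟩⟩
    · simp only [T, Finset.mem_union, Finset.mem_image, Finset.mem_filter, Finset.mem_product]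
      exact Or.inl (Or.inl ⟨(σ, σ'), ⟨⟨hσ, hσ'⟩, hne⟩, rfl⟩)
    · simp only [T, Finset.mem_union, Finset.mem_image, Finset.mem_filter, Finset.mem_product]
      exact Or.inl (Or.inr ⟨σ, hσ, rfl⟩)
    · simp only [T, Finset.mem_union, Finset.mem_image, Finset.mem_filter, Finset.mem_product]
      exact Or.inr ⟨σ, hσ, rfl⟩
  obtain ⟨N, hN, h1, h2⟩ := hN
  refine ⟨fun τ => ∑ σ ∈ S, y σ * tent N σ τ, ?_, ?_, ?_⟩
  · exact IsPLR.finsum S _ fun i _ => (tent_isPLR N i).mul _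
  · intro σ hσ
    simp only
    rw [Finset.sum_eq_single σ]
    · rw [tent_self, mul_one]
    · intro σ' hσ' hne
      rw [tent_zero (h1 σ hσ σ' hσ' hne.symm), mul_zero]
    · intro h; exact absurd hσ h
  · intro τ hτ
    simp only
    refine Finset.sum_eq_zero fun σ hσ => ?_
    rw [tent_zero, mul_zero]
    have h3 := h2 σ hσ
    have h4 := hS σ hσ
    rcases hτ with hτ | hτ
    · rw [abs_of_neg (by linarith)]
      have : N * (σ - b) ≤ N * -(τ - σ) := mul_le_mul_of_nonneg_left (by linarith) hN.le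
      linarith
    · rw [abs_of_pos (by linarith)]
      have : N * (e - σ) ≤ N * (τ - σ) := mul_le_mul_of_nonneg_left (by linarith) hN.le
      linarith

/-- bounded version -/
lemma exists_tent_bdd (S : Finset ℝ) (b e : ℝ) (hS : ∀ σ ∈ S, b < σ ∧ σ < e) (y : ℝ → ℝ)
    {B : ℝ} (hB : 0 ≤ B) (hy : ∀ σ ∈ S, |y σ| ≤ B) :
    ∃ f : ℝ → ℝ, IsPLR f ∧ (∀ σ ∈ S, f σ = y σ) ∧ (∀ τ, τ ≤ b ∨ e ≤ τ → f τ = 0) ∧
      ∀ τ, |f τ| ≤ B := by
  obtain ⟨f, h1, h2, h3⟩ := exists_tent S b e hS y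
  refine ⟨fun τ => max (-B) (min B (f τ)), (IsPLR.const _).max ((IsPLR.const _).min h1), ?_, ?_, ?_⟩
  · intro σ hσ
    have := abs_le.1 (hy σ hσ)
    simp only
    rw [h2 σ hσ, min_eq_right this.2, max_eq_right this.1]
  · intro τ hτ
    simp only
    rw [h3 τ hτ, min_eq_right hB, max_eq_right (by linarith)]
  · intro τ
    rw [abs_le]
    exact ⟨le_max_left _ _, max_le (by linarith) (min_le_left _ _)⟩

/-- PL interpolation on the circle -/
lemma exists_interp (S : Set Circ) (hS : S.Finite) (y : Circ → ℝ) :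
    ∃ z : Circ → ℝ, IsPL z ∧ ∀ s ∈ S, z s = y s := by
  classical
  -- a base point not in S
  have hinf : (Ico (0:ℝ) 1).Infinite := Ico_infinite one_pos
  have : ∃ a ∈ Ico (0:ℝ) 1, (a : Circ) ∉ S := by
    by_contra hcon
    push Not at hcon
    refine hinf (Set.Finite.of_finite_image (hS.subset ?_)
      (f := fun x : ℝ => (x : Circ)) ?_)
    · rintro _ ⟨x, hx, rfl⟩; exact hcon x hx
    · have := coe_injOn 0
      rw [zero_add] at this
      exact this
  obtain ⟨a, -, ha⟩ := this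
  have hfin : (lift a '' S).Finite := hS.image _
  have hmem : ∀ σ ∈ hfin.toFinset, a < σ ∧ σ < a + 1 := by
    intro σ hσ
    rw [Set.Finite.mem_toFinset] at hσ
    obtain ⟨s, hs, rfl⟩ := hσ
    refine ⟨lt_of_le_of_ne (le_lift a s) ?_, lift_lt a s⟩
    intro h
    apply ha
    rw [h, coe_lift]; exact hs
  obtain ⟨f, h1, h2, h3⟩ := exists_tent hfin.toFinset a (a+1) hmem (fun τ => y τ)
  have hends : f a = f (a + 1) := by rw [h3 a (Or.inl le_rfl), h3 (a+1) (Or.inr le_rfl)]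
  refine ⟨lp a f, lp_isPL (h1.plOn _ _) hends, ?_⟩
  intro s hs
  unfold lp
  rw [h2 (lift a s) (by rw [Set.Finite.mem_toFinset]; exact ⟨s, hs, rfl⟩), coe_lift]

end Pool.Agent.H81
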