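import Pool.Agent.H81.Classify

namespace Pool.Agent.H81

open Set

variable {v : (Circ → ℂ × ℝ) → ℝ}

/-- the three crossings of a trefoil curve -/
structure Tref (p : Circ → ℂ) (a b c d e f : ℝ) : Prop where
  reg : IsRegular p
  ab : a < b
  bc : b < c
  cd : c < d
  de : d < e
  ef : e < f
  fa : f < a + 1
  feet : ∀ θ ∈ feet p, θ = (a : Circ) ∨ θ = (b : Circ) ∨ θ = (c : Circ) ∨ θ = (d : Circ) ∨
    θ = (e : Circ) ∨ θ = (f : Circ)
  h0 : p a = p d
  h1 : p b = p e
  h2 : p c = p f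

namespace Tref

variable {p : Circ → ℂ} {a b c d e f : ℝ}

lemma ne (T : Tref p a b c d e f) {x y : ℝ} (h1 : a ≤ x) (h2 : x ≤ f) (h3 : a ≤ y) (h4 : y ≤ f)
    (h : x ≠ y) : (x : Circ) ≠ (y : Circ) := fun h' =>
  h ((coe_eq_coe_iff (a := a) ⟨h1, by linarith [T.fa]⟩ ⟨h3, by linarith [T.fa]⟩).1 h')

lemma tri (T : Tref p a b c d e f) : Tri p ((a : Circ), (d : Circ)) ((b : Circ), (e : Circ))
    ((c : Circ), (f : Circ)) := by
  have h1 := T.ab; have h2 := T.bc; have h3 := T.cd; have h4 := T.de; have h5 := T.ef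
  refine ⟨⟨?_, T.h0⟩, ⟨?_, T.h1⟩, ⟨?_, T.h2⟩, ⟨?_, ?_, ?_, ?_⟩, ⟨?_, ?_, ?_, ?_⟩, ⟨?_, ?_, ?_, ?_⟩⟩ <;>
    exact T.ne (by linarith) (by linarith) (by linarith) (by linarith) (by linarith)

lemma pairs (T : Tref p a b c d e f) (P : Circ → Circ → Prop) (p1 : P a d) (p2 : P d a)
    (p3 : P b e) (p4 : P e b) (p5 : P c f) (p6 : P f c) : ∀ s t, IsDbl p s t → P s t := by
  intro s t h
  have X0 : IsDbl p a d := T.tri.c1
  have X1 : IsDbl p b e := T.tri.c2
  have X2 : IsDbl p c f := T.tri.c3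
  rcases T.feet s h.left_mem with k | k | k | k | k | k <;> subst k
  · have := T.reg.uniq X0 h; subst this; exact p1
  · have := T.reg.uniq X1 h; subst this; exact p3
  · have := T.reg.uniq X2 h; subst this; exact p5
  · have := T.reg.uniq X0.symm h; subst this; exact p2
  · have := T.reg.uniq X1.symm h; subst this; exact p4
  · have := T.reg.uniq X2.symm h; subst this; exact p6

lemma V6 (hv : IsInv v) (T : Tref p a b c d e f) {τ : ℝ} {y : Circ → ℝ} {la lb lc ld le lf : ℝ}
    (ha : lift τ (a : Circ) = la) (hb : lift τ (b : Circ) = lb) (hc : lift τ (c : Circ) = lc)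
    (hd : lift τ (d : Circ) = ld) (he : lift τ (e : Circ) = le) (hf : lift τ (f : Circ) = lf)
    (H0 : (la < ld ∧ y d < y a) ∨ (ld < la ∧ y a < y d))
    (H1 : (lb < le ∧ y e < y b) ∨ (le < lb ∧ y b < y e))
    (H2 : (lc < lf ∧ y f < y c) ∨ (lf < lc ∧ y c < y f)) : V v p y = 0 := by
  refine descend_zero hv T.reg (a := τ) (T.pairs (fun s t => lift τ s < lift τ t → y t < y s)
    ?_ ?_ ?_ ?_ ?_ ?_)
  · rw [ha, hd]; intro h; rcases H0 with k | k
    · exact k.2
    · linarith [k.1]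
  · rw [ha, hd]; intro h; rcases H0 with k | k
    · linarith [k.1]
    · exact k.2
  · rw [hb, he]; intro h; rcases H1 with k | k
    · exact k.2
    · linarith [k.1]
  · rw [hb, he]; intro h; rcases H1 with k | k
    · linarith [k.1]
    · exact k.2
  · rw [hc, hf]; intro h; rcases H2 with k | k
    · exact k.2
    · linarith [k.1]
  · rw [hc, hf]; intro h; rcases H2 with k | k
    · linarith [k.1]
    · exact k.2

theorem cc_val (hv : IsInv v) (T : Tref p a b c d e f) {z : Circ → ℝ} (hz : IsPL z)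
    (z0 : z d < z a) (z1 : z b < z e) (z2 : z f < z c) (h : v (H81.mk p z) = 1) :
    cc v p ((a : Circ), (d : Circ)) ((b : Circ), (e : Circ)) ((c : Circ), (f : Circ)) = -1/4 := by
  have ab := T.ab; have bc := T.bc; have cd := T.cd; have de := T.de; have ef := T.ef
  have fa := T.fa
  have tri := T.tri
  have hval : Valid p z := T.pairs (fun s t => z s ≠ z t) z0.ne' z0.ne z1.ne z1.ne' z2.ne' z2.ne
  have hVz : V v p z = 1 := by rw [← V_eq hv T.reg hz hval.samePat]; exact h
  have hVz' : V v p (fun t => - z t) = -1 := by rw [V_neg hv T.reg hval, hVz]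
  have lu : ∀ {τ x : ℝ}, τ ≤ x → x < τ + 1 → lift τ (x : Circ) = x := fun h1 h2 =>
    lift_coe ⟨h1, h2⟩
  have ld : ∀ {τ x : ℝ}, x < τ → τ ≤ x + 1 → lift τ (x : Circ) = x + 1 := fun h1 h2 =>
    lift_eq_of (coe_add_one _) h2 (by linarith)
  set x0 : Circ × Circ := ((a : Circ), (d : Circ)) with hx0
  set x1 : Circ × Circ := ((b : Circ), (e : Circ)) with hx1
  set x2 : Circ × Circ := ((c : Circ), (f : Circ)) with hx2
  have hY : ∀ (e0 e1 e2 : ℝ), ∃ Y : Circ → ℝ, Y = up (up (up (lift 0) x2 e2) x1 e1) x0 e0 ∧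
      Y a = Y d + e0 ∧ Y b = Y e + e1 ∧ Y c = Y f + e2 := by
    intro e0 e1 e2
    refine ⟨_, rfl, ?_, ?_, ?_⟩
    · have k1 := up_fst (up (up (lift 0) x2 e2) x1 e1) x0 e0
      have k2 := up_ne (up (up (lift 0) x2 e2) x1 e1) x0 e0 (r := (d : Circ)) tri.c1.1.symm
      rw [k2]; exact k1
    · have k1 := up_fst (up (lift 0) x2 e2) x1 e1
      have k2 := up_ne (up (lift 0) x2 e2) x1 e1 (r := (e : Circ)) tri.c2.1.symm
      have k3 := up_ne (up (up (lift 0) x2 e2) x1 e1) x0 e0 (r := (b : Circ)) tri.s12.h11.symm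
      have k4 := up_ne (up (up (lift 0) x2 e2) x1 e1) x0 e0 (r := (e : Circ)) tri.s12.h12.symm
      rw [k3, k4, k2]; exact k1
    · have k1 := up_fst (lift 0) x2 e2
      have k2 := up_ne (lift 0) x2 e2 (r := (f : Circ)) tri.c3.1.symm
      have k3 := up_ne (up (lift 0) x2 e2) x1 e1 (r := (c : Circ)) tri.s23.h11.symm
      have k4 := up_ne (up (lift 0) x2 e2) x1 e1 (r := (f : Circ)) tri.s23.h12.symm
      have k5 := up_ne (up (up (lift 0) x2 e2) x1 e1) x0 e0 (r := (c : Circ)) tri.s13.h11.symm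
      have k6 := up_ne (up (up (lift 0) x2 e2) x1 e1) x0 e0 (r := (f : Circ)) tri.s13.h12.symm
      rw [k5, k6, k3, k4, k2]; exact k1
  have key := D3_eq hv T.reg tri (valid_lift p 0)
  have v1 : V v p (up (up (up (lift 0) x2 1) x1 1) x0 1) = 0 := by
    obtain ⟨Y, e, k0, k1, k2⟩ := hY 1 1 1
    rw [← e]
    exact T.V6 hv (τ := a) (lu le_rfl (by linarith)) (lu (by linarith) (by linarith))
      (lu (by linarith) (by linarith)) (lu (by linarith) (by linarith))
      (lu (by linarith) (by linarith)) (lu (by linarith) (by linarith))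
      (Or.inl ⟨by linarith, by linarith⟩) (Or.inl ⟨by linarith, by linarith⟩)
      (Or.inl ⟨by linarith, by linarith⟩)
  have v2 : V v p (up (up (up (lift 0) x2 1) x1 1) x0 (-1)) = 0 := by
    obtain ⟨Y, e, k0, k1, k2⟩ := hY (-1) 1 1
    rw [← e]
    exact T.V6 hv (τ := b) (ld (by linarith) (by linarith)) (lu le_rfl (by linarith))
      (lu (by linarith) (by linarith)) (lu (by linarith) (by linarith))
      (lu (by linarith) (by linarith)) (lu (by linarith) (by linarith))
      (Or.inr ⟨by linarith, by linarith⟩) (Or.inl ⟨by linarith, by linarith⟩)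
      (Or.inl ⟨by linarith, by linarith⟩)
  have v3 : V v p (up (up (up (lift 0) x2 1) x1 (-1)) x0 (-1)) = 0 := by
    obtain ⟨Y, e, k0, k1, k2⟩ := hY (-1) (-1) 1
    rw [← e]
    exact T.V6 hv (τ := c) (ld (by linarith) (by linarith)) (ld (by linarith) (by linarith))
      (lu le_rfl (by linarith)) (lu (by linarith) (by linarith))
      (lu (by linarith) (by linarith)) (lu (by linarith) (by linarith))
      (Or.inr ⟨by linarith, by linarith⟩) (Or.inr ⟨by linarith, by linarith⟩)
      (Or.inl ⟨by linarith, by linarith⟩)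
  have v4 : V v p (up (up (up (lift 0) x2 (-1)) x1 (-1)) x0 (-1)) = 0 := by
    obtain ⟨Y, e, k0, k1, k2⟩ := hY (-1) (-1) (-1)
    rw [← e]
    exact T.V6 hv (τ := d) (ld (by linarith) (by linarith)) (ld (by linarith) (by linarith))
      (ld (by linarith) (by linarith)) (lu le_rfl (by linarith))
      (lu (by linarith) (by linarith)) (lu (by linarith) (by linarith))
      (Or.inr ⟨by linarith, by linarith⟩) (Or.inr ⟨by linarith, by linarith⟩)
      (Or.inr ⟨by linarith, by linarith⟩)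
  have v5 : V v p (up (up (up (lift 0) x2 (-1)) x1 (-1)) x0 1) = 0 := by
    obtain ⟨Y, e', k0, k1, k2⟩ := hY 1 (-1) (-1)
    rw [← e']
    exact T.V6 hv (τ := e) (ld (by linarith) (by linarith)) (ld (by linarith) (by linarith))
      (ld (by linarith) (by linarith)) (ld (by linarith) (by linarith))
      (lu le_rfl (by linarith)) (lu (by linarith) (by linarith))
      (Or.inl ⟨by linarith, by linarith⟩) (Or.inr ⟨by linarith, by linarith⟩)
      (Or.inr ⟨by linarith, by linarith⟩)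
  have v6 : V v p (up (up (up (lift 0) x2 (-1)) x1 1) x0 1) = 0 := by
    obtain ⟨Y, e', k0, k1, k2⟩ := hY 1 1 (-1)
    rw [← e']
    exact T.V6 hv (τ := f) (ld (by linarith) (by linarith)) (ld (by linarith) (by linarith))
      (ld (by linarith) (by linarith)) (ld (by linarith) (by linarith))
      (ld (by linarith) (by linarith)) (lu le_rfl (by linarith))
      (Or.inl ⟨by linarith, by linarith⟩) (Or.inl ⟨by linarith, by linarith⟩)
      (Or.inr ⟨by linarith, by linarith⟩)
  have v7 : V v p (up (up (up (lift 0) x2 1) x1 (-1)) x0 1) = 1 := by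
    obtain ⟨Y, e', k0, k1, k2⟩ := hY 1 (-1) 1
    rw [← e', ← hVz]
    refine V_congr hv T.reg (T.pairs (fun s t => 0 < (Y s - Y t) * (z s - z t)) ?_ ?_ ?_ ?_ ?_ ?_)
    · exact mul_pos (by linarith) (by linarith)
    · exact mul_pos_of_neg_of_neg (by linarith) (by linarith)
    · exact mul_pos_of_neg_of_neg (by linarith) (by linarith)
    · exact mul_pos (by linarith) (by linarith)
    · exact mul_pos (by linarith) (by linarith)
    · exact mul_pos_of_neg_of_neg (by linarith) (by linarith)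
  have v8 : V v p (up (up (up (lift 0) x2 (-1)) x1 1) x0 (-1)) = -1 := by
    obtain ⟨Y, e', k0, k1, k2⟩ := hY (-1) 1 (-1)
    rw [← e', ← hVz']
    refine V_congr hv T.reg (T.pairs (fun s t => 0 < (Y s - Y t) * (- z s - - z t))
      ?_ ?_ ?_ ?_ ?_ ?_)
    · exact mul_pos_of_neg_of_neg (by linarith) (by linarith)
    · exact mul_pos (by linarith) (by linarith)
    · exact mul_pos (by linarith) (by linarith)
    · exact mul_pos_of_neg_of_neg (by linarith) (by linarith)
    · exact mul_pos_of_neg_of_neg (by linarith) (by linarith)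
    · exact mul_pos (by linarith) (by linarith)
  simp only [D3, D] at key
  rw [v1, v2, v3, v4, v5, v6, v7, v8] at key
  linarith

end Tref

theorem trefoil_E (hv : IsInv v) {K : Circ → ℂ × ℝ} (hK : IsRightTrefoil K) (h1 : v K = 1) :
    ∃ p t, Dat p ![0,1,2] ![3,4,5] t ∧ E3 v p ![0,1,2] ![3,4,5] t = 1/4 := by
  obtain ⟨t, hmono, hlast, hfeet, h03, h14, h25, z03, z14, z25⟩ := hK.diag
  set p : Circ → ℂ := fun t => (K t).1 with hp
  set z : Circ → ℝ := fun t => (K t).2 with hz
  have hzPL : IsPL z := hK.knot.1.snd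
  have T : Tref p (t 0) (t 1) (t 2) (t 3) (t 4) (t 5) := by
    refine ⟨hK.reg, hmono (by decide), hmono (by decide), hmono (by decide), hmono (by decide),
      hmono (by decide), hlast, ?_, h03, h14, h25⟩
    intro θ hθ
    rw [hfeet] at hθ
    obtain ⟨i, rfl⟩ := hθ
    fin_cases i <;> simp
  have hcc := T.cc_val hv hzPL z03 z14 z25 h1
  obtain ⟨D, e⟩ := datX (v := v) T.reg T.tri T.ab T.bc T.cd T.de T.ef T.fa rfl rfl rfl rfl rfl rfl
  refine ⟨p, _, D, ?_⟩
  rw [e]
  unfold E
  rw [hcc]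
  have hs : ∀ s s' : Circ, IsDbl p s s' → z s' < z s → sgc p (s, s') = 1 := by
    intro s s' hd hlt
    obtain ⟨u, w, hu, hw, _⟩ := IsCr.vels T.reg (x := (s, s')) hd
    rw [sgc_eq hu hw, sgn_pos (hK.pos s s' u w hd.1 hd.2 hlt hu hw)]
  have e0 := hs _ _ T.tri.c1 z03
  have e1 := hs _ _ T.tri.c2.swap z14
  have e2 := hs _ _ T.tri.c3 z25
  have e1' : sgc p ((t 1 : Circ), (t 4 : Circ)) = -1 := by
    have := sgc_swap T.reg (x := ((t 1 : Circ), (t 4 : Circ))) T.tri.c2
    have h2 : (((t 1 : ℝ) : Circ), ((t 4 : ℝ) : Circ)).swap = ((t 4 : Circ), (t 1 : Circ)) := rfl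
    rw [h2] at this
    have e1'' : sgc p ((t 4 : Circ), (t 1 : Circ)) = 1 := e1
    linarith
  rw [e0, e1', e2]
  norm_num

end Pool.Agent.H81
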