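import Pool.Agent.H81.Universal

namespace Pool.Agent.H81

open Set

variable {v : (Circ → ℂ × ℝ) → ℝ}

/-- extension of the parameters to index `6` -/
noncomputable def ext (t : ℕ → ℝ) (m : ℕ) : ℝ := if m < 6 then t m else t 0 + 1

lemma ext_lt {t : ℕ → ℝ} {m : ℕ} (h : m < 6) : ext t m = t m := if_pos h

lemma ext_six (t : ℕ → ℝ) : ext t 6 = t 0 + 1 := if_neg (by norm_num)

lemma Dat.ext_mono {p : Circ → ℂ} {i k : Fin 3 → ℕ} {t : ℕ → ℝ} (D : Dat p i k t) {m : ℕ}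
    (hm : m < 6) : ext t m < ext t (m+1) := by
  rw [ext_lt hm]
  rcases Nat.lt_or_ge m 5 with h | h
  · rw [ext_lt (by omega)]; exact D.mono m h
  · have : m = 5 := by omega
    subst this
    rw [ext_six]; exact D.last

/-- a radius smaller than half of all gaps -/
lemma Dat.small {p : Circ → ℂ} {i k : Fin 3 → ℕ} {t : ℕ → ℝ} (D : Dat p i k t) :
    ∃ r₀ > 0, ∀ r, 0 < r → r ≤ r₀ → ∀ m < 6, ext t m + 2 * r < ext t (m+1) := by
  obtain ⟨r₀, h0, h1⟩ := exists_small 6 (fun m r => ext t m + 2 * r < ext t (m+1))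
    (fun m η η' _ h h' => by linarith)
    (fun m hm => ⟨(ext t (m+1) - ext t m)/4, by linarith [D.ext_mono hm], by
      have := D.ext_mono hm
      linarith⟩)
  exact ⟨r₀, h0, fun r hr hr' m hm => by have := h1 m hm; linarith⟩

lemma gaps {t : ℕ → ℝ} {r : ℝ} (h : ∀ m < 6, ext t m + 2 * r < ext t (m+1)) (hr : 0 < r) {m n : ℕ}
    (hmn : m < n) (hn : n ≤ 6) : ext t m + 2 * r < ext t n := by
  induction n with
  | zero => omega
  | succ n ih =>
    rcases Nat.lt_or_ge m n with h1 | h1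
    · have h2 := ih h1 (by omega)
      have h3 := h n (by omega)
      linarith
    · have : m = n := by omega
      subst this
      exact h m (by omega)

/-- the other feet are far away from `s = t a` -/
lemma out_lift {t : ℕ → ℝ} {r : ℝ} (h : ∀ m < 6, ext t m + 2 * r < ext t (m+1)) (hr : 0 < r)
    {a m : ℕ} (ha : a < 6) (hm : m < 6) (hne : m ≠ a) :
    t a + r < lift (t a - r) (t m : Circ) ∧ lift (t a - r) (t m : Circ) < t a - r + 1 := by
  have e6 := ext_six t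
  have ea := ext_lt (t := t) ha
  have em := ext_lt (t := t) hm
  have e0 := ext_lt (t := t) (m := 0) (by norm_num)
  have hma := fun (x y : ℕ) (hxy : x < y) (hy : y ≤ 6) => gaps h hr hxy hy
  have ga6 := hma a 6 (by omega) le_rfl
  have gm6 := hma m 6 (by omega) le_rfl
  rw [ea, e6] at ga6
  rw [em, e6] at gm6
  have g0a : t 0 ≤ t a := by
    rcases Nat.eq_zero_or_pos a with h1 | h1
    · rw [h1]
    · have := hma 0 a h1 (by omega); rw [e0, ea] at this; linarith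
  have g0m : t 0 ≤ t m := by
    rcases Nat.eq_zero_or_pos m with h1 | h1
    · rw [h1]
    · have := hma 0 m h1 (by omega); rw [e0, em] at this; linarith
  rcases lt_or_gt_of_ne hne with h1 | h1
  · have g := hma m a h1 (by omega)
    rw [em, ea] at g
    rw [lift_eq_of (τ := t m + 1) (coe_add_one _) (by linarith) (by linarith)]
    constructor <;> linarith
  · have g := hma a m h1 (by omega)
    rw [em, ea] at g
    rw [lift_coe ⟨by linarith, by linarith⟩]
    constructor <;> linarith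

lemma perturb {t : ℕ → ℝ} {r : ℝ} (h : ∀ m < 6, ext t m + 2 * r < ext t (m+1))
    {t' : ℕ → ℝ} (ht' : ∀ m, |t' m - t m| ≤ r) :
    (∀ m < 5, t' m < t' (m+1)) ∧ t' 5 < t' 0 + 1 := by
  constructor
  · intro m hm
    have := h m (by omega)
    rw [ext_lt (by omega), ext_lt (by omega)] at this
    have h1 := abs_le.1 (ht' m)
    have h2 := abs_le.1 (ht' (m+1))
    linarith
  · have := h 5 (by norm_num)
    rw [ext_lt (by norm_num), show 5 + 1 = 6 by norm_num, ext_six] at this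
    have h1 := abs_le.1 (ht' 5)
    have h2 := abs_le.1 (ht' 0)
    linarith

theorem flip2 (hv : IsInv v) {p : Circ → ℂ} {i k : Fin 3 → ℕ} {t : ℕ → ℝ} (D : Dat p i k t) :
    ∃ q t', Dat q i k t' ∧ sgc q (XX i k t' 0) = sgc p (XX i k t 0) ∧
      sgc q (XX i k t' 1) = sgc p (XX i k t 1) ∧ sgc q (XX i k t' 2) = - sgc p (XX i k t 2) ∧
      cc v q (XX i k t' 0) (XX i k t' 1) (XX i k t' 2) =
        - cc v p (XX i k t 0) (XX i k t 1) (XX i k t 2) := by
  have M := D.mat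
  obtain ⟨T, hsT, hTs, hT⟩ : ∃ T : ℝ, t (i 2) < T ∧ T < t (i 2) + 1 ∧
      ∀ x : ℝ, ((T + x : ℝ) : Circ) = ((t (k 2) + x : ℝ) : Circ) := by
    have b1 := D.bd (M.i6 2)
    have b2 := D.bd (M.k6 2)
    rcases lt_or_gt_of_ne (M.ne 2 2) with h | h
    · exact ⟨t (k 2), D.lt h (M.k6 2), by linarith [b1.1, b2.2], fun x => rfl⟩
    · refine ⟨t (k 2) + 1, by linarith [b1.2, b2.1], by linarith [D.lt h (M.i6 2)], fun x => ?_⟩
      rw [← coe_add_one (t (k 2) + x)]
      congr 1; ring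
  have hT0 : (T : Circ) = (t (k 2) : Circ) := by have := hT 0; simpa using this
  obtain ⟨u, w, r₁, hr₁, hC⟩ := exists_clean D.reg hsT hTs (by rw [hT0]; exact D.eq 2)
  obtain ⟨r₂, hr₂, hgap⟩ := D.small
  set r := min r₁ r₂ with hr
  have hr0 : 0 < r := lt_min hr₁ hr₂
  have C := hC r hr0 (min_le_left _ _)
  have hg := hgap r hr0 (min_le_right _ _)
  -- crossings 0 and 1 are outside
  have hout : ∀ j, j ≠ 2 → Out p (t (i 2) - r) (t (i 2) + r) (XX i k t j) := fun j hj =>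
    ⟨D.cr j, (out_lift hg hr0 (M.i6 2) (M.i6 j) fun h => hj (M.ii h)).1,
      (out_lift hg hr0 (M.i6 2) (M.k6 j) (M.ne 2 j).symm).1⟩
  -- the perturbed data
  have build : ∀ a b : ℝ, |a| ≤ 1 → |b| ≤ 1 →
      C.loop ((t (i 2) + r * a : ℝ) : Circ) = C.loop ((T + r * b : ℝ) : Circ) →
      ∃ t' : ℕ → ℝ, Dat C.loop i k t' ∧ (∀ j, j ≠ 2 → XX i k t' j = XX i k t j) ∧
        XX i k t' 2 = (((t (i 2) + r * a : ℝ) : Circ), ((T + r * b : ℝ) : Circ)) := by
    intro a b ha hb heq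
    set t' : ℕ → ℝ := fun m => if m = i 2 then t m + r * a else if m = k 2 then t m + r * b else t m
      with ht'
    have e1 : t' (i 2) = t (i 2) + r * a := by simp only [ht', if_true]
    have e2 : t' (k 2) = t (k 2) + r * b := by
      simp only [ht', if_neg (M.ne 2 2).symm, if_true]
    have e3 : ∀ m, m ≠ i 2 → m ≠ k 2 → t' m = t m := by
      intro m h1 h2; simp only [ht', if_neg h1, if_neg h2]
    have habs : ∀ x : ℝ, |x| ≤ 1 → |r * x| ≤ r := by
      intro x hx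
      rw [abs_mul, abs_of_pos hr0]; nlinarith [abs_nonneg x]
    obtain ⟨m1, m2⟩ := perturb hg (t' := t') (fun m => by
      by_cases h1 : m = i 2
      · rw [h1, e1, add_sub_cancel_left]; exact habs a ha
      · by_cases h2 : m = k 2
        · rw [h2, e2, add_sub_cancel_left]; exact habs b hb
        · rw [e3 m h1 h2, sub_self, abs_zero]; exact hr0.le)
    have hj : ∀ j, j ≠ 2 → t' (i j) = t (i j) ∧ t' (k j) = t (k j) := fun j hj =>
      ⟨e3 _ (fun h => hj (M.ii h)) (M.ne j 2), e3 _ (M.ne 2 j).symm (fun h => hj (M.kk h))⟩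
    refine ⟨t', ⟨C.loop_reg, M, m1, m2, ?_⟩, ?_, ?_⟩
    · intro j
      by_cases h : j = 2
      · subst h
        rw [e1, e2, ← hT]; exact heq
      · rw [(hj j h).1, (hj j h).2]
        exact ((hout j h).tr C.loop_agree).cr.2
    · intro j h
      unfold XX
      rw [(hj j h).1, (hj j h).2]
    · unfold XX
      rw [e1, e2, ← hT]
  have hcr : XX i k t 2 = ((t (i 2) : Circ), (T : Circ)) := by unfold XX; rw [hT0]
  obtain ⟨t1, D1, a1, b1⟩ := build (-2/3) 0 (by rw [abs_le]; constructor <;> norm_num) (by norm_num) (by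
    have := C.x1_cr.2
    unfold X1 at this
    simpa using this)
  obtain ⟨t2, D2, a2, b2⟩ := build (-1/6) (1/3) (by rw [abs_le]; constructor <;> norm_num)
    (by rw [abs_le]; constructor <;> norm_num) C.x2_cr.2
  obtain ⟨t3, D3', a3, b3⟩ := build (3/5) (-2/5) (by rw [abs_le]; constructor <;> norm_num)
    (by rw [abs_le]; constructor <;> norm_num) C.x3_cr.2
  have b1' : XX i k t1 2 = X1 (t (i 2)) T r := by rw [b1]; unfold X1; simp
  have b2' : XX i k t2 2 = X2 (t (i 2)) T r := b2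
  have b3' : XX i k t3 2 = X3 (t (i 2)) T r := b3
  have hsg : ∀ j, j ≠ 2 → sgc C.loop (XX i k t j) = sgc p (XX i k t j) := fun j hj =>
    C.loop_agree.sgc (hout j hj)
  have s1 := same_sign hv D D1 (fun j => by
    by_cases h : j = 2
    · subst h; rw [b1', hcr, C.sg_p, C.sg_x1]
    · rw [a1 j h, hsg j h])
  have s3 := same_sign hv D D3' (fun j => by
    by_cases h : j = 2
    · subst h; rw [b3', hcr, C.sg_p, C.sg_x3]
    · rw [a3 j h, hsg j h])
  rw [a1 0 (by decide), a1 1 (by decide), b1'] at s1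
  rw [a3 0 (by decide), a3 1 (by decide), b3'] at s3
  have hsum := Clean.loop_sum hv C (D.sep 0 1 (by decide)) (hout 0 (by decide)) (hout 1 (by decide))
  refine ⟨C.loop, t2, D2, ?_, ?_, ?_, ?_⟩
  · rw [a2 0 (by decide), hsg 0 (by decide)]
  · rw [a2 1 (by decide), hsg 1 (by decide)]
  · rw [b2', C.sg_x2, hcr, C.sg_p]
  · rw [a2 0 (by decide), a2 1 (by decide), b2']
    rw [hcr] at s1 s3 ⊢
    linarith

/-- the signed coefficient of a configuration -/
noncomputable def E3 (v : (Circ → ℂ × ℝ) → ℝ) (p : Circ → ℂ) (i k : Fin 3 → ℕ) (t : ℕ → ℝ) : ℝ :=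
  E v p (XX i k t 0) (XX i k t 1) (XX i k t 2)

lemma Mat.perm {i k : Fin 3 → ℕ} (M : Mat i k) (π : Equiv.Perm (Fin 3)) : Mat (i ∘ π) (k ∘ π) :=
  ⟨fun j => M.i6 _, fun j => M.k6 _, fun j j' => M.ne _ _, M.ii.comp π.injective,
    M.kk.comp π.injective, fun m hm => by
      obtain ⟨j, h⟩ := M.surj m hm
      exact ⟨π.symm j, by simpa using h⟩⟩

lemma Dat.perm {p : Circ → ℂ} {i k : Fin 3 → ℕ} {t : ℕ → ℝ} (D : Dat p i k t)
    (π : Equiv.Perm (Fin 3)) : Dat p (i ∘ π) (k ∘ π) t :=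
  ⟨D.reg, D.mat.perm π, D.mono, D.last, fun j => D.eq (π j)⟩

lemma E_perm_all {p : Circ → ℂ} {X : Fin 3 → Circ × Circ} (h : ∀ i j, i ≠ j → Sep (X i) (X j))
    (a b c : Fin 3) (hab : a ≠ b) (hac : a ≠ c) (hbc : b ≠ c) :
    E v p (X a) (X b) (X c) = E v p (X 0) (X 1) (X 2) := by
  have h01 := E_perm12 (v := v) (p := p) (x₃ := X 2) (h 1 0 (by decide))
  have h12 := E_perm23 (v := v) (p := p) (x₁ := X 0) (h 2 1 (by decide))
  have h201 := E_perm12 (v := v) (p := p) (x₃ := X 1) (h 2 0 (by decide))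
  have h120 := E_perm23 (v := v) (p := p) (x₁ := X 1) (h 2 0 (by decide))
  have h210 := E_perm23 (v := v) (p := p) (x₁ := X 2) (h 1 0 (by decide))
  have e : (a = 0 ∧ b = 1 ∧ c = 2) ∨ (a = 0 ∧ b = 2 ∧ c = 1) ∨ (a = 1 ∧ b = 0 ∧ c = 2) ∨
      (a = 1 ∧ b = 2 ∧ c = 0) ∨ (a = 2 ∧ b = 0 ∧ c = 1) ∨ (a = 2 ∧ b = 1 ∧ c = 0) := by
    revert a b c; decide
  rcases e with ⟨rfl, rfl, rfl⟩ | ⟨rfl, rfl, rfl⟩ | ⟨rfl, rfl, rfl⟩ | ⟨rfl, rfl, rfl⟩ |
    ⟨rfl, rfl, rfl⟩ | ⟨rfl, rfl, rfl⟩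
  · rfl
  · exact h12
  · exact h01
  · exact h120.trans h01
  · exact h201.trans h12
  · exact (h210.trans h201).trans h12

lemma E3_perm {p : Circ → ℂ} {i k : Fin 3 → ℕ} {t : ℕ → ℝ} (D : Dat p i k t)
    (π : Equiv.Perm (Fin 3)) : E3 v p (i ∘ π) (k ∘ π) t = E3 v p i k t :=
  E_perm_all (X := fun j => XX i k t j) (fun j j' h => D.sep j j' h) _ _ _
    (fun h => absurd (π.injective h) (by decide))
    (fun h => absurd (π.injective h) (by decide)) (fun h => absurd (π.injective h) (by decide))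

theorem flipj (hv : IsInv v) {p : Circ → ℂ} {i k : Fin 3 → ℕ} {t : ℕ → ℝ} (D : Dat p i k t)
    (j₀ : Fin 3) : ∃ q t', Dat q i k t' ∧
      (∀ j, j ≠ j₀ → sgc q (XX i k t' j) = sgc p (XX i k t j)) ∧
      sgc q (XX i k t' j₀) = - sgc p (XX i k t j₀) ∧ E3 v q i k t' = E3 v p i k t := by
  set π : Equiv.Perm (Fin 3) := Equiv.swap j₀ 2 with hπ
  have hπ2 : π 2 = j₀ := Equiv.swap_apply_right _ _
  obtain ⟨q, t', D', s0, s1, s2, hcc⟩ := flip2 hv (D.perm π)
  have D'' : Dat q i k t' := ⟨D'.reg, D.mat, D'.mono, D'.last, fun j => by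
    have := D'.eq (π.symm j)
    simpa using this⟩
  have hX : ∀ j, XX (i ∘ π) (k ∘ π) t' j = XX i k t' (π j) := fun j => rfl
  have hX' : ∀ j, XX (i ∘ π) (k ∘ π) t j = XX i k t (π j) := fun j => rfl
  refine ⟨q, t', D'', ?_, ?_, ?_⟩
  · intro j hj
    obtain ⟨l, rfl⟩ := π.surjective j
    have hl : l ≠ 2 := fun h => hj (by rw [h, hπ2])
    fin_cases l
    · exact s0
    · exact s1
    · exact absurd rfl hl
  · rw [← hπ2]; exact s2
  · rw [← E3_perm D'' π, ← E3_perm D π]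
    unfold E3 E
    rw [hcc, s0, s1, s2]
    ring

/-- **Universality** of the signed cubic coefficient. -/
theorem E_univ (hv : IsInv v) {p p' : Circ → ℂ} {i k : Fin 3 → ℕ} {t t' : ℕ → ℝ}
    (D : Dat p i k t) (D' : Dat p' i k t') : E3 v p i k t = E3 v p' i k t' := by
  have step : ∀ (j₀ : Fin 3) (q : Circ → ℂ) (s : ℕ → ℝ), Dat q i k s →
      ∃ q' s', Dat q' i k s' ∧ (∀ j, j ≠ j₀ → sgc q' (XX i k s' j) = sgc q (XX i k s j)) ∧
        sgc q' (XX i k s' j₀) = sgc p' (XX i k t' j₀) ∧ E3 v q' i k s' = E3 v q i k s := by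
    intro j₀ q s Dq
    by_cases h : sgc q (XX i k s j₀) = sgc p' (XX i k t' j₀)
    · exact ⟨q, s, Dq, fun _ _ => rfl, h, rfl⟩
    · obtain ⟨q', s', D1, h1, h2, h3⟩ := flipj hv Dq j₀
      refine ⟨q', s', D1, h1, ?_, h3⟩
      rw [h2]
      rcases sgc_or q (XX i k s j₀) with e1 | e1 <;> rcases sgc_or p' (XX i k t' j₀) with e2 | e2
      · exact absurd (e1.trans e2.symm) h
      · rw [e1, e2]
      · rw [e1, e2]; norm_num
      · exact absurd (e1.trans e2.symm) h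
  obtain ⟨q₀, s₀, D₀, a₀, b₀, c₀⟩ := step 0 p t D
  obtain ⟨q₁, s₁, D₁, a₁, b₁, c₁⟩ := step 1 q₀ s₀ D₀
  obtain ⟨q₂, s₂, D₂, a₂, b₂, c₂⟩ := step 2 q₁ s₁ D₁
  have h0 : sgc q₂ (XX i k s₂ 0) = sgc p' (XX i k t' 0) := by
    rw [a₂ 0 (by decide), a₁ 0 (by decide), b₀]
  have h1 : sgc q₂ (XX i k s₂ 1) = sgc p' (XX i k t' 1) := by
    rw [a₂ 1 (by decide), b₁]
  have hs := same_sign hv D₂ D' (fun j => by
    fin_cases j
    · exact h0
    · exact h1
    · exact b₂)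
  rw [← c₀, ← c₁, ← c₂]
  unfold E3 E
  rw [hs, h0, h1, b₂]

end Pool.Agent.H81
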