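import Pool.Agent.H81.Reparam

namespace Pool.Agent.H81

open Set

lemma feet_gap {F : Set Circ} (hF : F.Finite) (c : ℝ) :
    ∃ δ > 0, ∀ x : ℝ, 0 < |x| → |x| < δ → ((c + x : ℝ) : Circ) ∉ F := by
  have h1 : (lift (c - 1/2) '' F \ {c}).Finite := (hF.image _).subset sdiff_subset
  obtain ⟨δ, hδ, h2⟩ := exists_gap _ h1 c (by simp)
  refine ⟨min δ (1/2), lt_min hδ (by norm_num), fun x hx hx' hmem => ?_⟩
  have k1 := hx'.trans_le (min_le_left _ _)
  have k2 := hx'.trans_le (min_le_right _ _)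
  have k3 := abs_lt.1 k2
  have hl : lift (c - 1/2) ((c + x : ℝ) : Circ) = c + x := lift_coe ⟨by linarith, by linarith⟩
  have := h2 (c + x) ⟨⟨_, hmem, hl⟩, by
    simp only [mem_singleton_iff]
    intro h
    have : x = 0 := by linarith
    rw [this] at hx; simp at hx⟩
  rw [add_sub_cancel_left] at this
  linarith

lemma exists_small (n : ℕ) (P : ℕ → ℝ → Prop) (hm : ∀ m η η', 0 < η' → η' ≤ η → P m η → P m η')
    (h : ∀ m < n, ∃ η > 0, P m η) : ∃ η > 0, ∀ m < n, P m η := by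
  induction n with
  | zero => exact ⟨1, one_pos, fun m hm => absurd hm (Nat.not_lt_zero _)⟩
  | succ n ih =>
    obtain ⟨η, hη, h1⟩ := ih fun m hm => h m (by omega)
    obtain ⟨η', hη', h2⟩ := h n (by omega)
    refine ⟨min η η', lt_min hη hη', fun m hm' => ?_⟩
    rcases Nat.lt_or_ge m n with h3 | h3
    · exact hm m η _ (lt_min hη hη') (min_le_left _ _) (h1 m h3)
    · have : m = n := by omega
      subst this
      exact hm m η' _ (lt_min hη hη') (min_le_right _ _) h2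

/-- a matching of six points into three pairs -/
structure Mat (i k : Fin 3 → ℕ) : Prop where
  i6 : ∀ j, i j < 6
  k6 : ∀ j, k j < 6
  ne : ∀ j j', i j ≠ k j'
  ii : Function.Injective i
  kk : Function.Injective k
  surj : ∀ m < 6, ∃ j, m = i j ∨ m = k j

/-- standard parameters -/
noncomputable def cpt (m : ℕ) : Circ := (((m:ℝ)/6 : ℝ) : Circ)

lemma cpt_ne {m n : ℕ} (hm : m < 6) (hn : n < 6) (h : m ≠ n) : cpt m ≠ cpt n := by
  intro h'
  unfold cpt at h'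
  have h1 : (m:ℝ) < 6 := by exact_mod_cast hm
  have h2 : (n:ℝ) < 6 := by exact_mod_cast hn
  have h3 : (0:ℝ) ≤ m := Nat.cast_nonneg _
  have h4 : (0:ℝ) ≤ n := Nat.cast_nonneg _
  rw [coe_eq_coe_iff (a := 0) ⟨by linarith, by linarith⟩ ⟨by linarith, by linarith⟩] at h'
  apply h
  have : (m:ℝ) = n := by linarith
  exact_mod_cast this

/-- standard crossings -/
noncomputable def xs (i k : Fin 3 → ℕ) (j : Fin 3) : Circ × Circ := (cpt (i j), cpt (k j))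

structure Std (q : Circ → ℂ) (i k : Fin 3 → ℕ) (σ : Fin 3 → ℝ) : Prop where
  reg : IsRegular q
  p1 : ∀ j, q (cpt (i j)) = pos j
  p2 : ∀ j, q (cpt (k j)) = pos j
  v1 : ∀ j, Vel q (cpt (i j)) 1
  v2 : ∀ j, Vel q (cpt (k j)) (σ j • Complex.I)

lemma Std.tri {q : Circ → ℂ} {i k : Fin 3 → ℕ} {σ : Fin 3 → ℝ} (M : Mat i k)
    (h : Std q i k σ) : Tri q (xs i k 0) (xs i k 1) (xs i k 2) := by
  have hcr : ∀ j, IsCr q (xs i k j) := fun j =>
    ⟨cpt_ne (M.i6 j) (M.k6 j) (M.ne j j), (h.p1 j).trans (h.p2 j).symm⟩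
  have hs : ∀ j j', j ≠ j' → Sep (xs i k j) (xs i k j') := fun j j' hj =>
    ⟨cpt_ne (M.i6 j) (M.i6 j') fun h => hj (M.ii h), cpt_ne (M.i6 j) (M.k6 j') (M.ne j j'),
      cpt_ne (M.k6 j) (M.i6 j') (M.ne j' j).symm, cpt_ne (M.k6 j) (M.k6 j') fun h => hj (M.kk h)⟩
  exact ⟨hcr 0, hcr 1, hcr 2, hs 0 1 (by decide), hs 0 2 (by decide), hs 1 2 (by decide)⟩

theorem std_unique {v : (Circ → ℂ × ℝ) → ℝ} (hv : IsInv v) {q₀ q₁ : Circ → ℂ}
    {i k : Fin 3 → ℕ} {σ : Fin 3 → ℝ} (M : Mat i k) (h0 : Std q₀ i k σ) (h1 : Std q₁ i k σ) :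
    cc v q₀ (xs i k 0) (xs i k 1) (xs i k 2) = cc v q₁ (xs i k 0) (xs i k 1) (xs i k 2) := by
  classical
  -- common neighbourhoods
  have hloc : ∀ m : ℕ, m < 6 → ∃ η > 0, (∀ x : ℝ, |x| ≤ η →
      q₀ (((m:ℝ)/6 + x : ℝ) : Circ) = q₁ (((m:ℝ)/6 + x : ℝ) : Circ)) ∧
      (∀ x : ℝ, 0 < |x| → |x| ≤ η → (((m:ℝ)/6 + x : ℝ) : Circ) ∉ feet q₀ ∧
        (((m:ℝ)/6 + x : ℝ) : Circ) ∉ feet q₁) := by
    intro m hm
    obtain ⟨δ₀, hδ₀, f0⟩ := feet_gap h0.reg.fin ((m:ℝ)/6)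
    obtain ⟨δ₁, hδ₁, f1⟩ := feet_gap h1.reg.fin ((m:ℝ)/6)
    have hstr : ∃ δ > 0, ∀ x : ℝ, |x| < δ →
        q₀ (((m:ℝ)/6 + x : ℝ) : Circ) = q₁ (((m:ℝ)/6 + x : ℝ) : Circ) := by
      have key : ∀ (u : ℂ), Vel q₀ (cpt m) u → Vel q₁ (cpt m) u → q₀ (cpt m) = q₁ (cpt m) →
          ∃ δ > 0, ∀ x : ℝ, |x| < δ →
            q₀ (((m:ℝ)/6 + x : ℝ) : Circ) = q₁ (((m:ℝ)/6 + x : ℝ) : Circ) := by
        intro u k0 k1 k2
        unfold cpt at k0 k1 k2
        rw [vel_iff] at k0 k1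
        obtain ⟨a, ha, k0⟩ := k0
        obtain ⟨b, hb, k1⟩ := k1
        refine ⟨min a b, lt_min ha hb, fun x hx => ?_⟩
        have e0 := k0 x (hx.trans_le (min_le_left _ _))
        have e1 := k1 x (hx.trans_le (min_le_right _ _))
        simp only at e0 e1
        rw [e0, e1, k2]
      obtain ⟨j, rfl | rfl⟩ := M.surj m hm
      · exact key _ (h0.v1 j) (h1.v1 j) ((h0.p1 j).trans (h1.p1 j).symm)
      · exact key _ (h0.v2 j) (h1.v2 j) ((h0.p2 j).trans (h1.p2 j).symm)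
    obtain ⟨δ, hδ, hs⟩ := hstr
    refine ⟨min δ (min δ₀ δ₁) / 2, by positivity, fun x hx => hs x ?_, fun x hx0 hx => ?_⟩
    · have := min_le_left δ (min δ₀ δ₁)
      linarith
    · have e1 := min_le_right δ (min δ₀ δ₁)
      have e2 := min_le_left δ₀ δ₁
      have e3 := min_le_right δ₀ δ₁
      exact ⟨f0 x hx0 (by linarith), f1 x hx0 (by linarith)⟩
  obtain ⟨η₀, hη₀, hall⟩ := exists_small 6 (fun m η => (∀ x : ℝ, |x| ≤ η →
      q₀ (((m:ℝ)/6 + x : ℝ) : Circ) = q₁ (((m:ℝ)/6 + x : ℝ) : Circ)) ∧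
      (∀ x : ℝ, 0 < |x| → |x| ≤ η → (((m:ℝ)/6 + x : ℝ) : Circ) ∉ feet q₀ ∧
        (((m:ℝ)/6 + x : ℝ) : Circ) ∉ feet q₁))
    (fun m η η' _ h => fun ⟨a, b⟩ => ⟨fun x hx => a x (hx.trans h),
      fun x hx0 hx => b x hx0 (hx.trans h)⟩) hloc
  set η := min η₀ (1/24) with hηdef
  have hη : 0 < η := lt_min hη₀ (by norm_num)
  have hη1 : η ≤ η₀ := min_le_left _ _
  have hη2 : η ≤ 1/24 := min_le_right _ _
  have hwin : ∀ m : ℕ, m < 6 → ∀ x : ℝ, |x| ≤ η →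
      q₀ (((m:ℝ)/6 + x : ℝ) : Circ) = q₁ (((m:ℝ)/6 + x : ℝ) : Circ) :=
    fun m hm x hx => (hall m hm).1 x (hx.trans hη1)
  have hnf : ∀ m : ℕ, m < 6 → ∀ x : ℝ, 0 < |x| → |x| ≤ η →
      (((m:ℝ)/6 + x : ℝ) : Circ) ∉ feet q₀ ∧ (((m:ℝ)/6 + x : ℝ) : Circ) ∉ feet q₁ :=
    fun m hm x hx0 hx => (hall m hm).2 x hx0 (hx.trans hη1)
  -- the next point
  have hnext : ∀ m : ℕ, m < 6 → ∃ m' : ℕ, m' < 6 ∧ ∀ x : ℝ,
      ((((m:ℝ)+1)/6 + x : ℝ) : Circ) = (((m':ℝ)/6 + x : ℝ) : Circ) := by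
    intro m hm
    rcases Nat.lt_or_ge m 5 with h | h
    · exact ⟨m + 1, by omega, fun x => by push_cast; rfl⟩
    · have : m = 5 := by omega
      subst this
      refine ⟨0, by norm_num, fun x => ?_⟩
      rw [← coe_add_one (((0:ℕ):ℝ)/6 + x)]
      congr 1
      push_cast; ring
  have habs : |η| = η := abs_of_pos hη
  have habs' : |-η| = η := by rw [abs_neg, habs]
  refine replace_arcs hv (ι := ℕ) (fun m => (m:ℝ)/6 + η) (fun m => ((m:ℝ)+1)/6 - η) _ _ _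
    (Finset.range 6) q₀ q₁ ?_
  have tri := h0.tri M
  have hout : ∀ m ∈ Finset.range 6, ∀ n : ℕ, n < 6 →
      ((m:ℝ)+1)/6 - η < lift ((m:ℝ)/6 + η) (cpt n) := by
    intro m hm n hn
    have hm6 : (m:ℝ) + 1 ≤ 6 := by exact_mod_cast Finset.mem_range.1 hm
    have hn6 : (n:ℝ) + 1 ≤ 6 := by exact_mod_cast hn
    have hn0 : (0:ℝ) ≤ n := Nat.cast_nonneg _
    have hm0 : (0:ℝ) ≤ m := Nat.cast_nonneg _
    unfold cpt
    rcases Nat.lt_or_ge m n with h | h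
    · have h' : (m:ℝ) + 1 ≤ n := by exact_mod_cast h
      rw [lift_coe ⟨by linarith, by linarith⟩]
      linarith
    · have h' : (n:ℝ) ≤ m := by exact_mod_cast h
      rw [lift_eq_of (τ := (n:ℝ)/6 + 1) (coe_add_one _) (by linarith) (by linarith)]
      linarith
  refine ⟨h0.reg, h1.reg, ?_, ?_, ?_, ?_, ?_, ?_, ?_, ?_, ?_, ?_, tri, ?_, ?_, ?_, ?_⟩
  · intro m _; show (m:ℝ)/6 + η < ((m:ℝ)+1)/6 - η; linarith
  · intro m _; show ((m:ℝ)+1)/6 - η < (m:ℝ)/6 + η + 1; linarith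
  · intro m hm
    exact (hnf m (Finset.mem_range.1 hm) η (by rw [habs]; exact hη) (by rw [habs])).1
  · intro m hm
    obtain ⟨m', hm', e⟩ := hnext m (Finset.mem_range.1 hm)
    show ((((m:ℝ)+1)/6 - η : ℝ) : Circ) ∉ feet q₀
    rw [sub_eq_add_neg, e]
    exact (hnf m' hm' (-η) (by rw [habs']; exact hη) (by rw [habs'])).1
  · intro m hm
    exact (hnf m (Finset.mem_range.1 hm) η (by rw [habs]; exact hη) (by rw [habs])).2
  · intro m hm
    obtain ⟨m', hm', e⟩ := hnext m (Finset.mem_range.1 hm)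
    show ((((m:ℝ)+1)/6 - η : ℝ) : Circ) ∉ feet q₁
    rw [sub_eq_add_neg, e]
    exact (hnf m' hm' (-η) (by rw [habs']; exact hη) (by rw [habs'])).2
  · intro m hm
    exact hwin m (Finset.mem_range.1 hm) η (by rw [habs])
  · intro m hm
    obtain ⟨m', hm', e⟩ := hnext m (Finset.mem_range.1 hm)
    show q₀ ((((m:ℝ)+1)/6 - η : ℝ) : Circ) = q₁ ((((m:ℝ)+1)/6 - η : ℝ) : Circ)
    rw [sub_eq_add_neg, e]
    exact hwin m' hm' (-η) (by rw [habs'])
  · intro m hm l hl hml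
    have hm6 : (m:ℝ) + 1 ≤ 6 := by exact_mod_cast Finset.mem_range.1 hm
    have hn6 : (l:ℝ) + 1 ≤ 6 := by exact_mod_cast Finset.mem_range.1 hl
    have hn0 : (0:ℝ) ≤ l := Nat.cast_nonneg _
    have hm0 : (0:ℝ) ≤ m := Nat.cast_nonneg _
    show ((m:ℝ)+1)/6 - η < lift ((m:ℝ)/6 + η) (((l:ℝ)/6 + η : ℝ) : Circ)
    rcases Nat.lt_or_ge m l with h | h
    · have h' : (m:ℝ) + 1 ≤ l := by exact_mod_cast h
      rw [lift_coe ⟨by linarith, by linarith⟩]
      linarith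
    · have h' : (l:ℝ) + 1 ≤ m := by
        have : l + 1 ≤ m := by omega
        exact_mod_cast this
      rw [lift_eq_of (τ := (l:ℝ)/6 + η + 1) (coe_add_one _) (by linarith) (by linarith)]
      linarith
  · intro m hm l hl hml
    have hm6 : (m:ℝ) + 1 ≤ 6 := by exact_mod_cast Finset.mem_range.1 hm
    have hn6 : (l:ℝ) + 1 ≤ 6 := by exact_mod_cast Finset.mem_range.1 hl
    have hn0 : (0:ℝ) ≤ l := Nat.cast_nonneg _
    have hm0 : (0:ℝ) ≤ m := Nat.cast_nonneg _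
    show ((m:ℝ)+1)/6 - η < lift ((m:ℝ)/6 + η) ((((l:ℝ)+1)/6 - η : ℝ) : Circ)
    rcases Nat.lt_or_ge m l with h | h
    · have h' : (m:ℝ) + 1 ≤ l := by exact_mod_cast h
      rw [lift_coe ⟨by linarith, by linarith⟩]
      linarith
    · have h' : (l:ℝ) + 1 ≤ m := by
        have : l + 1 ≤ m := by omega
        exact_mod_cast this
      rw [lift_eq_of (τ := ((l:ℝ)+1)/6 - η + 1) (coe_add_one _) (by linarith) (by linarith)]
      linarith
  · intro m hm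
    exact ⟨tri.c1, hout m hm _ (M.i6 0), hout m hm _ (M.k6 0)⟩
  · intro m hm
    exact ⟨tri.c2, hout m hm _ (M.i6 1), hout m hm _ (M.k6 1)⟩
  · intro m hm
    exact ⟨tri.c3, hout m hm _ (M.i6 2), hout m hm _ (M.k6 2)⟩
  · intro θ hθ
    set τ := lift (-η) θ with hτ
    have t1 : -η ≤ τ := le_lift _ _
    have t2 : τ < -η + 1 := lift_lt _ _
    have hc : (τ : Circ) = θ := coe_lift _ _
    set m := ⌊6 * (τ + η)⌋₊ with hm
    have f1 : (m:ℝ) ≤ 6 * (τ + η) := Nat.floor_le (by linarith)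
    have f2 : 6 * (τ + η) < (m:ℝ) + 1 := Nat.lt_floor_add_one _
    have hm6 : m < 6 := by
      have : (m:ℝ) < 6 := by linarith
      exact_mod_cast this
    refine ⟨m, Finset.mem_range.2 hm6, ?_⟩
    have f3 : (m:ℝ)/6 + η < τ := by
      by_contra hcon
      apply hθ
      have := hwin m hm6 (τ - (m:ℝ)/6) (by rw [abs_le]; constructor <;> linarith)
      rw [add_sub_cancel, hc] at this
      exact this
    show lift ((m:ℝ)/6 + η) θ ≤ ((m:ℝ)+1)/6 - η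
    rw [lift_eq_of hc f3.le (by linarith)]
    linarith

/-- crossings with given real parameters -/
noncomputable def XX (i k : Fin 3 → ℕ) (t : ℕ → ℝ) (j : Fin 3) : Circ × Circ :=
  ((t (i j) : Circ), (t (k j) : Circ))

structure Dat (p : Circ → ℂ) (i k : Fin 3 → ℕ) (t : ℕ → ℝ) : Prop where
  reg : IsRegular p
  mat : Mat i k
  mono : ∀ m < 5, t m < t (m+1)
  last : t 5 < t 0 + 1
  eq : ∀ j, p (t (i j)) = p (t (k j))

lemma Dat.lt {p : Circ → ℂ} {i k : Fin 3 → ℕ} {t : ℕ → ℝ} (D : Dat p i k t) {m n : ℕ}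
    (h : m < n) (hn : n < 6) : t m < t n := by
  induction n with
  | zero => omega
  | succ n ih =>
    rcases Nat.lt_or_ge m n with h1 | h1
    · exact (ih h1 (by omega)).trans (D.mono n (by omega))
    · have : m = n := by omega
      subst this
      exact D.mono m (by omega)

lemma Dat.bd {p : Circ → ℂ} {i k : Fin 3 → ℕ} {t : ℕ → ℝ} (D : Dat p i k t) {m : ℕ}
    (hm : m < 6) : t m ∈ Ico (t 0) (t 0 + 1) := by
  constructor
  · rcases Nat.eq_zero_or_pos m with h | h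
    · rw [h]
    · exact (D.lt h hm).le
  · rcases Nat.lt_or_ge m 5 with h | h
    · exact (D.lt h (by norm_num)).trans D.last
    · have : m = 5 := by omega
      rw [this]; exact D.last

lemma Dat.ne {p : Circ → ℂ} {i k : Fin 3 → ℕ} {t : ℕ → ℝ} (D : Dat p i k t) {m n : ℕ}
    (hm : m < 6) (hn : n < 6) (h : m ≠ n) : (t m : Circ) ≠ (t n : Circ) := by
  intro h'
  rw [coe_eq_coe_iff (D.bd hm) (D.bd hn)] at h'
  rcases lt_or_gt_of_ne h with h1 | h1
  · linarith [D.lt h1 hn]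
  · linarith [D.lt h1 hm]

lemma Dat.cr {p : Circ → ℂ} {i k : Fin 3 → ℕ} {t : ℕ → ℝ} (D : Dat p i k t) (j : Fin 3) :
    IsCr p (XX i k t j) := ⟨D.ne (D.mat.i6 j) (D.mat.k6 j) (D.mat.ne j j), D.eq j⟩

lemma Dat.sep {p : Circ → ℂ} {i k : Fin 3 → ℕ} {t : ℕ → ℝ} (D : Dat p i k t) (j j' : Fin 3)
    (h : j ≠ j') : Sep (XX i k t j) (XX i k t j') :=
  ⟨D.ne (D.mat.i6 j) (D.mat.i6 j') fun h' => h (D.mat.ii h'),
    D.ne (D.mat.i6 j) (D.mat.k6 j') (D.mat.ne j j'),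
    D.ne (D.mat.k6 j) (D.mat.i6 j') (D.mat.ne j' j).symm,
    D.ne (D.mat.k6 j) (D.mat.k6 j') fun h' => h (D.mat.kk h')⟩

lemma Dat.tri {p : Circ → ℂ} {i k : Fin 3 → ℕ} {t : ℕ → ℝ} (D : Dat p i k t) :
    Tri p (XX i k t 0) (XX i k t 1) (XX i k t 2) :=
  ⟨D.cr 0, D.cr 1, D.cr 2, D.sep 0 1 (by decide), D.sep 0 2 (by decide), D.sep 1 2 (by decide)⟩

theorem to_std {v : (Circ → ℂ × ℝ) → ℝ} (hv : IsInv v) {p : Circ → ℂ} {i k : Fin 3 → ℕ}
    {t : ℕ → ℝ} (D : Dat p i k t) :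
    ∃ q, Std q i k (fun j => sgc p (XX i k t j)) ∧
      cc v q (xs i k 0) (xs i k 1) (xs i k 2) =
        cc v p (XX i k t 0) (XX i k t 1) (XX i k t 2) := by
  classical
  have M := D.mat
  have hvel := fun j => (D.cr j).vels D.reg
  choose u w hu hw hd using hvel
  obtain ⟨q₁, S, hpos, hv1, hv2⟩ := shear_normal hv D.reg (XX i k t) D.cr D.sep u w hu hw hd
  -- slopes
  set ρ : ℕ → ℝ := fun m => if h : ∃ j, m % 6 = k j then 1 / |det (u h.choose) (w h.choose)| else 1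
    with hρdef
  have hρ : ∀ m, 0 < ρ m := by
    intro m
    simp only [hρdef]
    split_ifs with h
    · exact div_pos one_pos (abs_pos.2 (hd _))
    · exact one_pos
  have hρk : ∀ j, ρ (k j) = 1 / |det (u j) (w j)| := by
    intro j
    have h : ∃ j', k j % 6 = k j' := ⟨j, Nat.mod_eq_of_lt (M.k6 j)⟩
    simp only [hρdef]
    rw [dif_pos h]
    have h2 : h.choose = j := by
      have := h.choose_spec
      exact M.kk (this.symm.trans (Nat.mod_eq_of_lt (M.k6 j)))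
    rw [h2]
  have hρi : ∀ j, ρ (i j) = 1 := by
    intro j
    simp only [hρdef]
    rw [dif_neg]
    rintro ⟨j', h⟩
    rw [Nat.mod_eq_of_lt (M.i6 j)] at h
    exact M.ne j j' h
  have hρ6 : ρ 6 = ρ 0 := by simp only [hρdef, Nat.mod_self, Nat.zero_mod]
  set T : ℕ → ℝ := fun m => if m < 6 then t m else t 0 + 1 with hT
  have hTt : ∀ m < 6, T m = t m := fun m hm => if_pos hm
  have hT6 : T 6 = T 0 + 1 := by
    rw [hTt 0 (by norm_num)]; simp only [hT]; norm_num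
  have hTmono : ∀ m < 6, T m < T (m+1) := by
    intro m hm
    rw [hTt m hm]
    rcases Nat.lt_or_ge m 5 with h | h
    · rw [hTt (m+1) (by omega)]; exact D.mono m h
    · have : m = 5 := by omega
      subst this
      rw [hT6, hTt 0 (by norm_num)]; exact D.last
  have hloc : ∀ m < 6, ∃ η > 0, T m + ρ m * η < T (m+1) - ρ (m+1) * η ∧
      ∀ x, 0 < x → x ≤ η → ((T m - ρ m * x : ℝ) : Circ) ∉ feet q₁ ∧
        ((T m + ρ m * x : ℝ) : Circ) ∉ feet q₁ := by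
    intro m hm
    obtain ⟨δ, hδ, hf⟩ := feet_gap S.reg'.fin (T m)
    have hpos' : 0 < ρ m + ρ (m+1) := add_pos (hρ _) (hρ _)
    have h1 := hTmono m hm
    set η := min ((T (m+1) - T m) / (2 * (ρ m + ρ (m+1)))) (δ / (2 * ρ m)) with hη
    have e1 : η ≤ (T (m+1) - T m) / (2 * (ρ m + ρ (m+1))) := min_le_left _ _
    have e2 : η ≤ δ / (2 * ρ m) := min_le_right _ _
    have hη0 : 0 < η := lt_min (div_pos (by linarith) (by positivity))
      (div_pos hδ (by have := hρ m; positivity))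
    rw [le_div_iff₀ (by positivity)] at e1
    rw [le_div_iff₀ (by have := hρ m; positivity)] at e2
    refine ⟨η, hη0, by nlinarith, fun x hx0 hx => ?_⟩
    have hx1 : 0 < ρ m * x := mul_pos (hρ m) hx0
    have hx2 : ρ m * x < δ := by nlinarith [hρ m, mul_le_mul_of_nonneg_left hx (hρ m).le]
    constructor
    · rw [sub_eq_add_neg]
      refine hf _ ?_ ?_
      · rw [abs_neg, abs_of_pos hx1]; exact hx1
      · rw [abs_neg, abs_of_pos hx1]; exact hx2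
    · refine hf _ ?_ ?_
      · rw [abs_of_pos hx1]; exact hx1
      · rw [abs_of_pos hx1]; exact hx2
  obtain ⟨η₀, hη₀, hall⟩ := exists_small 6 (fun m η => T m + ρ m * η < T (m+1) - ρ (m+1) * η ∧
      ∀ x, 0 < x → x ≤ η → ((T m - ρ m * x : ℝ) : Circ) ∉ feet q₁ ∧
        ((T m + ρ m * x : ℝ) : Circ) ∉ feet q₁)
    (fun m η η' h0 h ⟨a, b⟩ => ⟨by nlinarith [hρ m, hρ (m+1)], fun x hx0 hx => b x hx0 (hx.trans h)⟩)
    hloc
  set η := min η₀ (1/24) with hηdef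
  have hη : 0 < η := lt_min hη₀ (by norm_num)
  have hη1 : η ≤ η₀ := min_le_left _ _
  have hη2 : η ≤ 1/24 := min_le_right _ _
  obtain ⟨φ, f1, f2, f3, f4, f5⟩ := exists_reparam T ρ hT6 hρ hρ6 η hη (by linarith)
    (fun m hm => by nlinarith [(hall m hm).1, hρ m, hρ (m+1)])
  have hqreg : IsRegular (rep q₁ φ) := by
    refine rep_reg S.reg' f1 f2 f3 ?_
    intro x hx
    rcases f5 x with h | ⟨m, hm, h | h⟩
    · exact h
    · rw [h] at hx; exact absurd hx ((hall m hm).2 η hη hη1).1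
    · rw [h] at hx; exact absurd hx ((hall m hm).2 η hη hη1).2
  have hφm : ∀ m : ℕ, m < 6 → φ ((m:ℝ)/6) = t m := by
    intro m hm
    rw [f4 m hm _ (by rw [sub_self, abs_zero]; exact hη.le), sub_self, mul_zero, add_zero,
      hTt m hm]
  have hcm : ∀ m : ℕ, m < 6 → cmap φ (cpt m) = (t m : Circ) := by
    intro m hm
    unfold cpt
    rw [cmap_coe f3, hφm m hm]
  have haff : ∀ m : ℕ, m < 6 → AffAt φ ((m:ℝ)/6) (ρ m) := by
    intro m hm
    refine ⟨η, hη, fun y hy => ?_⟩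
    rw [f4 m hm _ (by rw [add_sub_cancel_left]; exact hy.le), hφm m hm, hTt m hm]
    ring
  have hcm2 : ∀ j, cmap2 φ (xs i k j) = XX i k t j := by
    intro j
    unfold cmap2 xs XX
    simp only
    rw [hcm _ (M.i6 j), hcm _ (M.k6 j)]
  have tri := S.tri D.tri
  refine ⟨rep q₁ φ, ⟨hqreg, ?_, ?_, ?_, ?_⟩, ?_⟩
  · intro j
    show q₁ (cmap φ (cpt (i j))) = pos j
    rw [hcm _ (M.i6 j)]
    exact hpos j
  · intro j
    show q₁ (cmap φ (cpt (k j))) = pos j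
    rw [hcm _ (M.k6 j)]
    have : q₁ (XX i k t j).1 = q₁ (XX i k t j).2 := (S.isCr.2 (D.cr j)).2
    exact this.symm.trans (hpos j)
  · intro j
    have := rep_vel (p := q₁) f3 (haff (i j) (M.i6 j)) (u := 1)
      (by rw [hφm _ (M.i6 j)]; exact hv1 j)
    rw [hρi, one_smul] at this
    exact this
  · intro j
    have := rep_vel (p := q₁) f3 (haff (k j) (M.k6 j)) (u := det (u j) (w j) • Complex.I)
      (by rw [hφm _ (M.k6 j)]; exact hv2 j)
    rw [hρk, smul_smul] at this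
    have e : 1 / |det (u j) (w j)| * det (u j) (w j) = sgc p (XX i k t j) := by
      rw [sgc_eq (hu j) (hw j)]
      rcases lt_or_gt_of_ne (hd j) with h | h
      · rw [abs_of_neg h, sgn_neg' h, one_div_mul_eq_div, div_neg, div_self (hd j)]
      · rw [abs_of_pos h, sgn_pos h, one_div_mul_eq_div, div_self (hd j)]
    rw [e] at this
    exact this
  · have h := rep_cc hv S.reg' f1 f2 f3 hqreg (x₁ := xs i k 0) (x₂ := xs i k 1) (x₃ := xs i k 2)
      (by rw [hcm2, hcm2, hcm2]; exact tri)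
    rw [h.2, hcm2, hcm2, hcm2, S.cc D.tri]

/-- same matching, same signs -/
theorem same_sign {v : (Circ → ℂ × ℝ) → ℝ} (hv : IsInv v) {p p' : Circ → ℂ} {i k : Fin 3 → ℕ}
    {t t' : ℕ → ℝ} (D : Dat p i k t) (D' : Dat p' i k t')
    (hs : ∀ j, sgc p (XX i k t j) = sgc p' (XX i k t' j)) :
    cc v p (XX i k t 0) (XX i k t 1) (XX i k t 2) =
      cc v p' (XX i k t' 0) (XX i k t' 1) (XX i k t' 2) := by
  obtain ⟨q, h1, h2⟩ := to_std hv D
  obtain ⟨q', h1', h2'⟩ := to_std hv D'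
  have : (fun j => sgc p (XX i k t j)) = fun j => sgc p' (XX i k t' j) := funext hs
  rw [this] at h1
  rw [← h2, ← h2', std_unique hv D.mat h1 h1']

end Pool.Agent.H81
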