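import Pool.Agent.H81.Final

namespace Pool.Agent.H81

open Set

variable {v : (Circ → ℂ × ℝ) → ℝ}

lemma IsV3.same (hv : IsV3 v) {K K' : Circ → ℂ × ℝ} (h : SameKnot K K') : v K = v K' := by
  unfold SameKnot at h
  induction h with
  | rel x y h =>
    rcases h with h | ⟨h1, h2⟩
    · exact hv.isotopy _ _ h
    · exact hv.reparam _ _ h1 h2
  | refl x => rfl
  | symm x y _ ih => exact ih.symm
  | trans x y z _ _ ih1 ih2 => exact ih1.trans ih2

lemma card_FF {p : Circ → ℂ} (hp : IsRegular p) : (dblPts p).ncard = (FF p 0).card := by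
  have e : dblPts p = p '' (FF p 0 : Set Circ) := by
    ext x
    constructor
    · rintro ⟨s, t, hne, h1, h2⟩
      have hd : IsDbl p s t := ⟨hne, h1.trans h2.symm⟩
      rcases dbl_idx hp hd with ⟨i, rfl, _⟩ | ⟨i, rfl, _⟩
      · exact ⟨i.1, i.2, h1⟩
      · exact ⟨i.1, i.2, h2⟩
    · rintro ⟨d, hd, rfl⟩
      have hd' : d ∈ FF p 0 := hd
      have hc := cr_isCr ((mem_FF hp).1 hd').1
      exact ⟨d, ptn p d, hc.1, rfl, hc.2.symm⟩
  rw [e, Set.InjOn.ncard_image, Set.ncard_coe_finset]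
  intro d hd d' hd' h
  have hd1 : d ∈ FF p 0 := hd
  have hd2 : d' ∈ FF p 0 := hd'
  have hc : IsDbl p d (ptn p d) := cr_isCr ((mem_FF hp).1 hd1).1
  by_contra hne
  have h2 : IsDbl p d d' := ⟨hne, h⟩
  exact not_FF_ptn hp h2 hd1 hd2

/-- **Willerton's bound.** -/
theorem willerton (hv : IsV3 v) {K : Circ → ℂ × ℝ} {n : ℕ} (h : HasDiagram K n) :
    |v K| ≤ (⌊(n * ((n:ℝ)^2 - 1)) / 24⌋ : ℝ) := by
  obtain ⟨K', hs, hK, hreg, hn⟩ := h
  rw [hv.same hs]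
  obtain ⟨K₀, hK₀, hv1⟩ := hv.trefoil
  have hC : Vals v := constants hv.isInv hK₀ hv1
  set p : Circ → ℂ := fun t => (K' t).1 with hp
  set z : Circ → ℝ := fun t => (K' t).2 with hz
  have hzPL : IsPL z := hK.1.snd
  have hval : Valid p z := by
    intro s t hst heq
    exact hst.1 (hK.2 (Prod.ext hst.2 heq))
  have e : v K' = V v p z := V_eq hv.isInv hreg hzPL hval.samePat
  obtain ⟨m, h1, h2⟩ := V_bound hv.isInv hC hreg hval
  rw [← card_FF hreg, hn] at h2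
  rw [e, h1]
  have h3 : |m| ≤ ⌊(n * ((n:ℝ)^2 - 1)) / 24⌋ := by
    rw [Int.le_floor]
    have h4 : ((24 * |m| : ℤ) : ℝ) ≤ (((n:ℤ) * ((n:ℤ)^2 - 1) : ℤ) : ℝ) := by exact_mod_cast h2
    push_cast at h4 ⊢
    linarith
  have h5 : ((|m| : ℤ) : ℝ) ≤ (⌊(n * ((n:ℝ)^2 - 1)) / 24⌋ : ℝ) := by exact_mod_cast h3
  rwa [Int.cast_abs] at h5

end Pool.Agent.H81
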